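import Pool.Agent.W_b4801b_h57.QuadA57

/-! The imaginary quadratic field of a balanced set of three eigenvalues. -/

set_option autoImplicit false

noncomputable section

open Finset Polynomial

namespace Pool.Agent.Quad57

/-- `∏ (r - a) - ∏ (r - c / a)`. -/
def SS {F : Type*} [Field F] (c r : F) (R : Finset F) : F :=
  ∏ a ∈ R, (r - a) - ∏ a ∈ R, (r - c / a)

theorem SS_dual {F : Type*} [Field F] [DecidableEq F] (c r : F) (hc : c ≠ 0) (R : Finset F) :
    SS c r (R.image (fun a => c / a)) = -SS c r R := by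
  have hinj : ∀ a b : F, c / a = c / b → a = b := by
    intro a b hab
    have := congrArg (fun t => c / t) hab
    simpa [div_div_cancel₀ hc] using this
  rw [SS, SS, Finset.prod_image (fun a _ b _ hab => hinj a b hab),
    Finset.prod_image (fun a _ b _ hab => hinj a b hab)]
  simp only [div_div_cancel₀ hc]
  ring

theorem SS_map {F F' : Type*} [Field F] [Field F'] [DecidableEq F'] (φ : F →+* F') (c r : F)
    (R : Finset F) : SS (φ c) (φ r) (R.image φ) = φ (SS c r R) := by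
  rw [SS, SS, Finset.prod_image (fun a _ b _ hab => φ.injective hab),
    Finset.prod_image (fun a _ b _ hab => φ.injective hab), map_sub, map_prod, map_prod]
  simp only [map_sub, map_div₀]

theorem Gd_image {F F' : Type*} [Field F] [Field F'] [DecidableEq F'] (φ : F →+* F')
    (A : Finset F) (A' : Finset F') (hA : ∀ a ∈ A, φ a ∈ A') (c : F) (R : Finset F)
    (h : Gd A c R) : Gd A' (φ c) (R.image φ) := by
  obtain ⟨h1, h2, h3, h4, N, hN, h5⟩ := h
  refine ⟨?_, ?_, ?_, ?_, N, hN, ?_⟩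
  · intro a ha
    obtain ⟨b, hb, rfl⟩ := Finset.mem_image.1 ha
    exact hA _ (h1 hb)
  · intro a ha
    obtain ⟨b, hb, rfl⟩ := Finset.mem_image.1 ha
    rw [← map_div₀]
    exact hA _ (h2 b hb)
  · rw [Finset.card_image_of_injective _ φ.injective, h3]
  · intro a ha ha'
    obtain ⟨b, hb, rfl⟩ := Finset.mem_image.1 ha
    rw [← map_div₀] at ha'
    obtain ⟨b', hb', he⟩ := Finset.mem_image.1 ha'
    exact h4 b hb (φ.injective he ▸ hb')
  · rw [Finset.prod_image (fun a _ b _ hab => φ.injective hab), ← map_prod, ← map_pow, h5, map_pow]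

theorem exists_r {F : Type*} [Field F] [CharZero F] (A : Finset F) (c : F) (R : Finset F)
    (h : Gd A c R) : ∃ r : ℚ, r ≠ 0 ∧ SS c (r : F) R ≠ 0 := by
  by_contra hn
  push Not at hn
  have hne : (∏ a ∈ R, (X - C a) : F[X]) = ∏ a ∈ R, (X - C (c / a)) := by
    apply Polynomial.eq_of_infinite_eval_eq
    have hinf : Set.Infinite ((fun r : ℚ => (r : F)) '' {r : ℚ | r ≠ 0}) := by
      apply Set.Infinite.image ((Rat.cast_injective).injOn)
      exact Set.Finite.infinite_compl (Set.finite_singleton (0 : ℚ))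
    refine hinf.mono ?_
    rintro _ ⟨r, hr, rfl⟩
    have h1 := hn r hr
    rw [SS, sub_eq_zero] at h1
    show Polynomial.eval _ _ = Polynomial.eval _ _
    rw [Polynomial.eval_prod, Polynomial.eval_prod]
    simpa using h1
  have hR : R.Nonempty := by
    rw [← Finset.card_pos, h.2.2.1]
    norm_num
  obtain ⟨a, ha⟩ := hR
  have h1 := congrArg (Polynomial.eval a) hne
  rw [Polynomial.eval_prod, Polynomial.eval_prod, Finset.prod_eq_zero ha (by simp)] at h1
  obtain ⟨b, hb, hb'⟩ := Finset.prod_eq_zero_iff.1 h1.symm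
  have h2 : a = c / b := by simpa [sub_eq_zero] using hb'
  exact h.2.2.2.1 b hb (h2 ▸ ha)

theorem quad_aux (L : Type) [Field L] [CharZero L] [Algebra ℚ L] (P : ℚ[X])
    [IsSplittingField ℚ L P] (hP : P ≠ 0) (c : ℚ) (hc : 0 < c)
    (hcard : (P.rootSet ℂ).ncard ≤ 7)
    (hneat : ∀ a b : ℂ, aeval a P = 0 → aeval b P = 0 → a ≠ b → ∀ m : ℕ, 0 < m → a ^ m ≠ b ^ m)
    (hpure : ∀ a : ℂ, aeval a P = 0 → a * (starRingEnd ℂ) a = (c : ℂ)) :
    ∃ d : ℚ, 0 < d ∧ ∀ (K Ω : Type) [Field K] [Field Ω] [Algebra K Ω] [IsAlgClosed Ω]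
      [Algebra ℚ K] [Algebra ℚ Ω] [IsScalarTower ℚ K Ω] (R : Finset Ω),
      (∀ a ∈ R, aeval a P = 0) → (∀ a ∈ R, aeval (algebraMap ℚ Ω c / a) P = 0) → R.card = 3 →
      (∀ a ∈ R, algebraMap ℚ Ω c / a ∉ R) →
      (∃ N : ℕ, 0 < N ∧ (∏ a ∈ R, a) ^ (2 * N) = (algebraMap ℚ Ω c) ^ (3 * N)) →
      (∀ t : K, ∃ y : K, algebraMap K Ω y = ∏ a ∈ R, (algebraMap K Ω t - a)) →
      IsSquare (algebraMap ℚ K (-d)) := by
  classical
  have hnor : Normal ℚ L := Normal.of_isSplittingField P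
  have hfd : FiniteDimensional ℚ L := IsSplittingField.finiteDimensional L P
  have hgal : IsGalois ℚ L := ⟨⟩
  have hc0 : c ≠ 0 := hc.ne'
  let A : Finset L := (P.aroots L).toFinset
  have hA : ∀ a : L, a ∈ A ↔ aeval a P = 0 := by
    intro a
    rw [Multiset.mem_toFinset, mem_aroots]
    exact ⟨fun h => h.2, fun h => ⟨hP, h⟩⟩
  let j : L →ₐ[ℚ] ℂ := IsSplittingField.lift L P (IsAlgClosed.splits _)
  have hji : Function.Injective j := j.toRingHom.injective
  have hj : ∀ a : L, aeval a P = 0 → aeval (j a) P = 0 := by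
    intro a ha
    rw [aeval_algHom_apply, ha, map_zero]
  set cL : L := algebraMap ℚ L c with hcL
  have hcL0 : cL ≠ 0 := by
    rw [hcL, Ne, map_eq_zero]
    exact hc0
  have hjc : j cL = (c : ℂ) := by
    rw [hcL, AlgHom.commutes]
    simp
  have hA0 : ∀ a ∈ A, a ≠ 0 := by
    intro a ha h0
    have h1 := hpure (j a) (hj a ((hA a).1 ha))
    rw [h0, map_zero, zero_mul] at h1
    exact hc0 (by exact_mod_cast h1.symm)
  have hA7 : A.card ≤ 7 := by
    refine le_trans ?_ hcard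
    have h1 : ((A.image j : Finset ℂ) : Set ℂ) ⊆ P.rootSet ℂ := by
      intro a ha
      obtain ⟨b, hb, rfl⟩ := Finset.mem_image.1 (Finset.mem_coe.1 ha)
      rw [mem_rootSet]
      exact ⟨hP, hj b ((hA b).1 hb)⟩
    have h2 := Set.ncard_le_ncard h1 (Polynomial.rootSet_finite P ℂ)
    rwa [Set.ncard_coe_finset, Finset.card_image_of_injective _ hji] at h2
  have hAneat : ∀ a ∈ A, ∀ b ∈ A, a ≠ b → ∀ m : ℕ, 0 < m → a ^ m ≠ b ^ m := by
    intro a ha b hb hab m hm he
    refine hneat (j a) (j b) (hj a ((hA a).1 ha)) (hj b ((hA b).1 hb))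
      (fun h => hab (j.toRingHom.injective h)) m hm ?_
    rw [← map_pow, ← map_pow, he]
  -- transport of a set from `Ω`
  have hback : ∀ (Ω : Type) [Field Ω] [IsAlgClosed Ω] [Algebra ℚ Ω] (i : L →ₐ[ℚ] Ω) (R : Finset Ω),
      (∀ a ∈ R, aeval a P = 0) → (∀ a ∈ R, aeval (algebraMap ℚ Ω c / a) P = 0) → R.card = 3 →
      (∀ a ∈ R, algebraMap ℚ Ω c / a ∉ R) →
      (∃ N : ℕ, 0 < N ∧ (∏ a ∈ R, a) ^ (2 * N) = (algebraMap ℚ Ω c) ^ (3 * N)) →
      ∃ RL : Finset L, Gd A cL RL ∧ RL.image i = R := by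
    intro Ω _ _ _ i R h1 h2 h3 h4 h5
    have hsp : (P.map (algebraMap ℚ L)).Splits := IsSplittingField.splits L P
    have hii : Function.Injective i := i.toRingHom.injective
    have hic : i cL = algebraMap ℚ Ω c := by rw [hcL, AlgHom.commutes]
    have hpre : ∀ a : Ω, aeval a P = 0 → ∃ a' : L, i a' = a ∧ a' ∈ A := by
      intro a ha
      have h1 : a ∈ P.rootSet Ω := by
        rw [mem_rootSet]
        exact ⟨hP, ha⟩
      rw [← hsp.image_rootSet i] at h1
      obtain ⟨a', ha', rfl⟩ := h1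
      rw [mem_rootSet] at ha'
      exact ⟨a', rfl, (hA a').2 ha'.2⟩
    have him : (A.filter (fun a => i a ∈ R)).image i = R := by
      ext a
      constructor
      · intro ha
        obtain ⟨b, hb, rfl⟩ := Finset.mem_image.1 ha
        exact (Finset.mem_filter.1 hb).2
      · intro ha
        obtain ⟨a', ha', hA'⟩ := hpre a (h1 a ha)
        exact Finset.mem_image.2 ⟨a', Finset.mem_filter.2 ⟨hA', ha' ▸ ha⟩, ha'⟩
    refine ⟨A.filter (fun a => i a ∈ R), ⟨Finset.filter_subset _ _, ?_, ?_, ?_, ?_⟩, him⟩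
    · intro a ha
      have h6 := h2 (i a) (Finset.mem_filter.1 ha).2
      rw [← hic, ← map_div₀, aeval_algHom_apply] at h6
      exact (hA _).2 ((map_eq_zero _).1 h6)
    · rw [← Finset.card_image_of_injective _ hii]
      exact (congrArg Finset.card him).trans h3
    · intro a ha ha'
      refine h4 (i a) (Finset.mem_filter.1 ha).2 ?_
      rw [← hic, ← map_div₀]
      exact (Finset.mem_filter.1 ha').2
    · obtain ⟨N, hN, h5⟩ := h5
      refine ⟨N, hN, i.toRingHom.injective ?_⟩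
      show i _ = i _
      rw [map_pow, map_pow, map_prod, hic, ← h5]
      congr 1
      rw [← Finset.prod_image (g := fun a => i a) (f := fun a => a)
        (fun a _ b _ hab => i.toRingHom.injective hab)]
      rw [him]
  by_cases hex : ∃ R₀ : Finset L, Gd A cL R₀
  swap
  · refine ⟨1, one_pos, ?_⟩
    intro K Ω _ _ _ _ _ _ _ R h1 h2 h3 h4 h5 _
    obtain ⟨RL, hRL, -⟩ := hback Ω (IsSplittingField.lift L P (IsAlgClosed.splits _)) R h1 h2 h3 h4 h5
    exact absurd ⟨RL, hRL⟩ hex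
  obtain ⟨R₀, hR₀⟩ := hex
  obtain ⟨r, hr0, hrs⟩ := exists_r A cL R₀ hR₀
  set s : L := SS cL (r : L) R₀ with hs
  have huniq : ∀ R : Finset L, Gd A cL R → SS cL (r : L) R = s ∨ SS cL (r : L) R = -s := by
    intro R hR
    rcases uniq A cL hcL0 hA0 hA7 hAneat R₀ R hR₀ hR with h | h
    · left
      rw [h]
    · right
      rw [h, SS_dual cL _ hcL0]
  have hfix : ∀ σ : L ≃ₐ[ℚ] L, σ (s ^ 2) = s ^ 2 := by
    intro σ
    have h1 : Gd A cL (R₀.image (σ : L →+* L)) := by
      have h2 := Gd_image (σ : L →+* L) A A (fun a ha => by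
        rw [hA] at ha ⊢
        show aeval (σ a) P = 0
        rw [aeval_algHom_apply, ha, map_zero]) cL R₀ hR₀
      have h3 : (σ : L →+* L) cL = cL := by
        show σ cL = cL
        rw [hcL]
        exact σ.commutes c
      rwa [h3] at h2
    have h4 := SS_map (σ : L →+* L) cL (r : L) R₀
    have h3 : (σ : L →+* L) cL = cL := by
      show σ cL = cL
      rw [hcL]
      exact σ.commutes c
    rw [h3, map_ratCast] at h4
    have h5 : σ s = s ∨ σ s = -s := by
      have h6 := huniq _ h1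
      rw [h4] at h6
      exact h6
    rw [map_pow]
    rcases h5 with h5 | h5
    · rw [h5]
    · rw [h5, neg_sq]
  obtain ⟨q, hq⟩ : ∃ q : ℚ, algebraMap ℚ L q = s ^ 2 := by
    have h1 : s ^ 2 ∈ (⊥ : IntermediateField ℚ L) :=
      (IsGalois.mem_bot_iff_fixed (s ^ 2)).2 hfix
    exact IntermediateField.mem_bot.1 h1
  have hconj : (starRingEnd ℂ) (j s) = -(j s) := by
    have h1 := SS_map (j : L →+* ℂ) cL (r : L) R₀
    have hjc' : (j : L →+* ℂ) cL = (c : ℂ) := hjc
    rw [hjc', map_ratCast] at h1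
    have h2 := SS_map (starRingEnd ℂ) (c : ℂ) (r : ℂ) (R₀.image (j : L →+* ℂ))
    rw [map_ratCast, map_ratCast, h1] at h2
    have h3 : (R₀.image (j : L →+* ℂ)).image (starRingEnd ℂ) =
        (R₀.image (j : L →+* ℂ)).image (fun a => (c : ℂ) / a) := by
      apply Finset.image_congr
      intro a ha
      obtain ⟨b, hb, rfl⟩ := Finset.mem_image.1 (Finset.mem_coe.1 ha)
      have h4 := hpure (j b) (hj b ((hA b).1 (hR₀.1 hb)))
      have h5 : j b ≠ 0 := fun h => hA0 b (hR₀.1 hb) (j.toRingHom.injective (by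
        show j b = j 0
        rw [h, map_zero]))
      show (starRingEnd ℂ) (j b) = (c : ℂ) / (j b)
      rw [eq_div_iff h5, mul_comm]
      exact h4
    rw [h3, SS_dual _ _ (by exact_mod_cast hc0), h1] at h2
    exact h2.symm
  have hjs : j s ≠ 0 := fun h => hrs (j.toRingHom.injective (by
    show j s = j 0
    rw [h, map_zero]))
  have hqneg : q < 0 := by
    have h1 : (j s) ^ 2 = (q : ℂ) := by
      rw [← map_pow, ← hq, AlgHom.commutes]
      simp
    have h2 : (j s) * (starRingEnd ℂ) (j s) = -(q : ℂ) := by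
      rw [hconj, ← h1]
      ring
    rw [Complex.mul_conj] at h2
    have h3 : 0 < Complex.normSq (j s) := Complex.normSq_pos.2 hjs
    have h4 : (Complex.normSq (j s) : ℝ) = -(q : ℝ) := by
      have h5 : ((Complex.normSq (j s) : ℝ) : ℂ) = ((-(q : ℝ) : ℝ) : ℂ) := by
        rw [h2]
        push_cast
        rfl
      exact_mod_cast h5
    have h6 : (q : ℝ) < 0 := by linarith
    exact_mod_cast h6
  refine ⟨-q, by linarith, ?_⟩
  intro K Ω _ _ _ _ _ _ _ R h1 h2 h3 h4 h5 h6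
  let i : L →ₐ[ℚ] Ω := IsSplittingField.lift L P (IsAlgClosed.splits _)
  obtain ⟨RL, hRL, him⟩ := hback Ω i R h1 h2 h3 h4 h5
  have hic : (i : L →+* Ω) cL = algebraMap ℚ Ω c := by
    show i cL = _
    rw [hcL, AlgHom.commutes]
  have him' : RL.image (i : L →+* Ω) = R := him
  have hir : (i : L →+* Ω) (r : L) = algebraMap ℚ Ω r := by
    show i (r : L) = _
    have : (r : L) = algebraMap ℚ L r := by simp
    rw [this, AlgHom.commutes]
  have h7 := SS_map (i : L →+* Ω) cL (r : L) RL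
  rw [hic, hir, him'] at h7
  have h8 : (SS (algebraMap ℚ Ω c) (algebraMap ℚ Ω r) R) ^ 2 = algebraMap ℚ Ω q := by
    rw [h7]
    have h9 : (SS cL (r : L) RL) ^ 2 = s ^ 2 := by
      rcases huniq RL hRL with h | h
      · rw [h]
      · rw [h, neg_sq]
    show (i (SS cL (r : L) RL)) ^ 2 = _
    rw [← map_pow, h9, ← hq, AlgHom.commutes]
  have hR0 : ∀ a ∈ R, a ≠ 0 := by
    intro a ha h0
    rw [← him'] at ha
    obtain ⟨b, hb, hb'⟩ := Finset.mem_image.1 ha
    refine hA0 b (hRL.1 hb) ((i : L →+* Ω).injective ?_)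
    rw [hb', h0, map_zero]
  obtain ⟨y₁, hy₁⟩ := h6 (algebraMap ℚ K r)
  obtain ⟨y₂, hy₂⟩ := h6 (algebraMap ℚ K (c / r))
  obtain ⟨y₃, hy₃⟩ := h6 0
  have hrΩ : algebraMap ℚ Ω r ≠ 0 := by
    rw [Ne, map_eq_zero]
    exact hr0
  have h9 : SS (algebraMap ℚ Ω c) (algebraMap ℚ Ω r) R =
      algebraMap K Ω (y₁ - y₂ * (algebraMap ℚ K r) ^ 3 / y₃) := by
    rw [SS, map_sub, hy₁, ← IsScalarTower.algebraMap_apply, map_div₀, map_mul, hy₂, hy₃, map_pow,
      ← IsScalarTower.algebraMap_apply, ← IsScalarTower.algebraMap_apply, map_zero]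
    congr 1
    have h10 : (algebraMap ℚ Ω r) ^ 3 = ∏ _a ∈ R, algebraMap ℚ Ω r := by
      rw [Finset.prod_const, h3]
    rw [h10, ← Finset.prod_mul_distrib, ← Finset.prod_div_distrib]
    apply Finset.prod_congr rfl
    intro a ha
    have ha0 := hR0 a ha
    rw [map_div₀]
    field_simp
    ring
  refine ⟨y₁ - y₂ * (algebraMap ℚ K r) ^ 3 / y₃, ?_⟩
  apply (algebraMap K Ω).injective
  rw [map_mul, ← h9, ← pow_two, h8, neg_neg, ← IsScalarTower.algebraMap_apply]

theorem quad_main (P : ℚ[X]) (hP : P ≠ 0) (c : ℚ) (hc : 0 < c)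
    (hcard : (P.rootSet ℂ).ncard ≤ 7)
    (hneat : ∀ a b : ℂ, aeval a P = 0 → aeval b P = 0 → a ≠ b → ∀ m : ℕ, 0 < m → a ^ m ≠ b ^ m)
    (hpure : ∀ a : ℂ, aeval a P = 0 → a * (starRingEnd ℂ) a = (c : ℂ)) :
    ∃ d : ℚ, 0 < d ∧ ∀ (K Ω : Type) [Field K] [Field Ω] [Algebra K Ω] [IsAlgClosed Ω]
      [Algebra ℚ K] [Algebra ℚ Ω] [IsScalarTower ℚ K Ω] (R : Finset Ω),
      (∀ a ∈ R, aeval a P = 0) → (∀ a ∈ R, aeval (algebraMap ℚ Ω c / a) P = 0) → R.card = 3 →
      (∀ a ∈ R, algebraMap ℚ Ω c / a ∉ R) →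
      (∃ N : ℕ, 0 < N ∧ (∏ a ∈ R, a) ^ (2 * N) = (algebraMap ℚ Ω c) ^ (3 * N)) →
      (∀ t : K, ∃ y : K, algebraMap K Ω y = ∏ a ∈ R, (algebraMap K Ω t - a)) →
      IsSquare (algebraMap ℚ K (-d)) :=
  haveI : IsSplittingField ℚ ↥(IntermediateField.adjoin ℚ (P.rootSet ℂ)) P :=
    IntermediateField.adjoin_rootSet_isSplittingField (IsAlgClosed.splits _)
  quad_aux ↥(IntermediateField.adjoin ℚ (P.rootSet ℂ)) P hP c hc hcard hneat hpure

end Pool.Agent.Quad57
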