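import Pool.Agent.W_b4801b_t10.Small
import Pool.Agent.W_b4801b_h57.QuadB57

/-!
# Semisimplicity in dimension at most seven, up to an imaginary quadratic field
-/

set_option autoImplicit false

noncomputable section

open Polynomial Module

universe u v

namespace Pool.Agent.B4801b

/-- The eigenvalues of a similitude `A` of ratio `c` on an isotropic stable subspace `W`. -/
theorem relation57 {K : Type*} [Field K] {V : Type*} [AddCommGroup V] [Module K V]
    (L : Type*) [Field L] [IsAlgClosed L] [Algebra K L] [Infinite K]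
    [FiniteDimensional K V]
    (ψ : LinearMap.BilinForm K V) (hψ : Nondeg ψ) (A : Module.End K V) (c : K) (hc : c ≠ 0)
    (hA : ∀ x y, ψ (A x) (A y) = c * ψ x y) (W : Submodule K V) (hW : ∀ x ∈ W, A x ∈ W)
    (hI : ∀ x ∈ W, ∀ y ∈ W, ψ x y = 0) :
    (A.restrict hW).charpoly.aroots L +
      ((A.restrict hW).charpoly.aroots L).map (fun a => algebraMap K L c / a) ≤
        A.charpoly.aroots L := by
  obtain ⟨B, hB, h3⟩ := charpoly_isotropic ψ hψ A c hc hA W hW hI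
  have h4 := Polynomial.map_dvd (algebraMap K L) h3
  rw [Polynomial.map_mul, charpoly_dual_map L B c, hB, charpoly_map_eq_prod L (A.restrict hW),
    ← Multiset.prod_add] at h4
  have h5 := Polynomial.roots.le_of_dvd ((LinearMap.charpoly_monic A).map (algebraMap K L)).ne_zero h4
  refine le_trans (le_of_eq ?_) h5
  have h6 : ((A.restrict hW).charpoly.aroots L).map (fun a => X - C (algebraMap K L c / a)) =
      (((A.restrict hW).charpoly.aroots L).map (fun a => algebraMap K L c / a)).map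
        (fun a => X - C a) := by
    rw [Multiset.map_map]
    rfl
  rw [h6, ← Multiset.map_add, Polynomial.roots_multiset_prod_X_sub_C]

end Pool.Agent.B4801b

namespace Pool.Agent.T10

open Pool.Agent.B4801b

variable {k : Type u} [Field k] {w : ℕ}

/-- In dimension at most seven there is, for each neat place `x`, a rational number `d > 0` such that `V_ℓ`
is semisimple for all primes `ℓ ≠ p_x` with balanced determinants for which `-d` is not a square in `ℚ_ℓ`. -/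
theorem semisimple_of_quad_at (S : CompSys.{u, v} k w) (D : ℕ) (x : Place k) (hxn : Neat S D x)
    (h7 : D ≤ 7) :
    ∃ d : ℚ, 0 < d ∧ ∀ (ℓ : ℕ) [Fact ℓ.Prime], ℓ ≠ x.p →
      Module.finrank ℚ_[ℓ] (S.rep ℓ).V = D → Balanced (S.rep ℓ) →
      ¬ IsSquare (algebraMap ℚ ℚ_[ℓ] (-d)) → (S.rep ℓ).Semisimple := by
  have hxP : x ∈ S.Pl := hxn.1
  have hq0 : x.q ≠ 0 := by
    intro h0
    obtain ⟨ℓ, hℓ, hgt⟩ := Nat.exists_infinite_primes (x.p + 1)
    have hF : Fact ℓ.Prime := ⟨hgt⟩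
    have := x.cyc_frob ℓ (by omega)
    rw [h0, Nat.cast_zero, mul_zero] at this
    exact zero_ne_one this
  have hc0 : (0 : ℚ) < (x.q : ℚ) ^ w := pow_pos (Nat.cast_pos.2 (Nat.pos_of_ne_zero hq0)) _
  obtain ⟨d, hd, hmain⟩ := Quad57.quad_main (S.P x) hxn.2.1 ((x.q : ℚ) ^ w) hc0
    (by rw [hxn.2.2.1]; exact h7) hxn.2.2.2 (by
      intro a ha
      have h1 := S.pure x hxP a ha
      rw [Complex.mul_conj, Complex.normSq_eq_norm_sq, h1]
      push_cast
      rfl)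
  refine ⟨d, hd, ?_⟩
  intro ℓ _ hℓ hdim hb hsq
  obtain ⟨N, hN, hbal⟩ := hb
  intro W hW
  have hqc : ((x.q : ℚ_[ℓ]) ^ w) ≠ 0 := pow_ne_zero _ (Nat.cast_ne_zero.mpr hq0)
  have hφc : ∀ a b, (S.rep ℓ).ψ ((S.rep ℓ).ρ x.frob a) ((S.rep ℓ).ρ x.frob b) =
      (x.q : ℚ_[ℓ]) ^ w * (S.rep ℓ).ψ a b := by
    intro a b
    rw [← (S.rep ℓ).equivariant x.frob a b, ← mul_assoc, ← mul_pow, mul_comm (x.q : ℚ_[ℓ]),
      x.cyc_frob ℓ hℓ, one_pow, one_mul]
  have hperp : ∀ σ, ∀ y ∈ perp (S.rep ℓ).ψ W, (S.rep ℓ).ρ σ y ∈ perp (S.rep ℓ).ψ W := by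
    intro σ y hy z hz
    have h1 : (S.rep ℓ).ρ σ ((S.rep ℓ).ρ σ⁻¹ z) = z := by
      rw [← Module.End.mul_apply, ← map_mul, mul_inv_cancel, map_one, Module.End.one_apply]
    have h2 : (S.rep ℓ).ψ ((S.rep ℓ).ρ σ⁻¹ z) y = 0 := hy _ (hW _ _ hz)
    have h3 := (S.rep ℓ).equivariant σ ((S.rep ℓ).ρ σ⁻¹ z) y
    rw [h1, h2] at h3
    rcases mul_eq_zero.mp h3 with h | h
    · have : ∀ a b, (S.rep ℓ).ψ a b = 0 := fun a b => by
        rw [← (S.rep ℓ).equivariant σ a b, h, zero_mul]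
      exact this _ _
    · exact h
  refine ⟨perp (S.rep ℓ).ψ W, hperp, isCompl_perp _ _ ?_⟩
  have hI : ∀ σ, ∀ y ∈ W ⊓ perp (S.rep ℓ).ψ W, (S.rep ℓ).ρ σ y ∈ W ⊓ perp (S.rep ℓ).ψ W :=
    fun σ y hy => ⟨hW σ y hy.1, hperp σ y hy.2⟩
  have hiso : ∀ a ∈ W ⊓ perp (S.rep ℓ).ψ W, ∀ b ∈ W ⊓ perp (S.rep ℓ).ψ W, (S.rep ℓ).ψ a b = 0 :=
    fun a ha b hb => hb.2 a ha.1
  have hdet := hbal (W ⊓ perp (S.rep ℓ).ψ W) hI hiso x.frob
  have hbot : W ⊓ perp (S.rep ℓ).ψ W = ⊥ := by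
    set f := ((S.rep ℓ).ρ x.frob).restrict (hI x.frob) with hf
    have hT3 := relation57 (AlgebraicClosure ℚ_[ℓ]) (S.rep ℓ).ψ
      (S.rep ℓ).nondeg ((S.rep ℓ).ρ x.frob) _ hqc hφc (W ⊓ perp (S.rep ℓ).ψ W) (hI x.frob) hiso
    have hT1 := card_aroots (AlgebraicClosure ℚ_[ℓ]) f
    have hT2 := prod_aroots (AlgebraicClosure ℚ_[ℓ]) f
    have hT4 := charpoly_map_eq_prod (AlgebraicClosure ℚ_[ℓ]) f
    rw [← hf] at hT3
    set T := f.charpoly.aroots (AlgebraicClosure ℚ_[ℓ]) with hT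
    obtain ⟨hge, hneat⟩ := neatAt_of_neat S D x hxn ℓ hℓ
    have hcard : Multiset.card ((((S.rep ℓ).ρ x.frob).charpoly).aroots (AlgebraicClosure ℚ_[ℓ])) = D := by
      rw [card_aroots, hdim]
    have hmem : ∀ a, a ∈ (((S.rep ℓ).ρ x.frob).charpoly).aroots (AlgebraicClosure ℚ_[ℓ]) →
        aeval a ((S.rep ℓ).ρ x.frob).charpoly = 0 := by
      intro a ha
      exact (Polynomial.mem_aroots.1 ha).2
    have hnd : ((((S.rep ℓ).ρ x.frob).charpoly).aroots (AlgebraicClosure ℚ_[ℓ])).Nodup := by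
      classical
      rw [← Multiset.toFinset_card_eq_card_iff_nodup]
      refine le_antisymm (Multiset.toFinset_card_le _) ?_
      rw [hcard]
      refine hge.trans (le_of_eq ?_)
      rw [Polynomial.rootSet, Set.ncard_coe_finset]
    have hcardT : 2 * Multiset.card T ≤ D := by
      have h1 := Multiset.card_le_card hT3
      rw [Multiset.card_add, Multiset.card_map, hcard] at h1
      omega
    have hrel : T.prod ^ (2 * N) =
        (algebraMap ℚ_[ℓ] (AlgebraicClosure ℚ_[ℓ]) ((x.q : ℚ_[ℓ]) ^ w)) ^ (Multiset.card T * N) := by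
      rw [hT2, hT1, ← map_pow]
      rw [← map_pow (algebraMap ℚ_[ℓ] (AlgebraicClosure ℚ_[ℓ])) ((x.q : ℚ_[ℓ]) ^ w)]
      congr 1
      have hc : cyc k ℓ x.frob * (x.q : ℚ_[ℓ]) = 1 := x.cyc_frob ℓ hℓ
      have h6 : (cyc k ℓ x.frob) ^ (w * Module.finrank ℚ_[ℓ] ↥(W ⊓ perp (S.rep ℓ).ψ W)) *
            ((x.q : ℚ_[ℓ]) ^ w) ^ (Module.finrank ℚ_[ℓ] ↥(W ⊓ perp (S.rep ℓ).ψ W)) = 1 := by
        rw [← pow_mul, ← mul_pow, hc, one_pow]
      rw [mul_pow] at hdet
      calc LinearMap.det (((S.rep ℓ).ρ x.frob).restrict (hI x.frob)) ^ (2 * N)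
            = (LinearMap.det (((S.rep ℓ).ρ x.frob).restrict (hI x.frob)) ^ 2) ^ N *
              ((cyc k ℓ x.frob) ^ (w * Module.finrank ℚ_[ℓ] ↥(W ⊓ perp (S.rep ℓ).ψ W)) *
              ((x.q : ℚ_[ℓ]) ^ w) ^ (Module.finrank ℚ_[ℓ] ↥(W ⊓ perp (S.rep ℓ).ψ W))) ^ N := by
              rw [h6, one_pow, mul_one, pow_mul]
          _ = ((x.q : ℚ_[ℓ]) ^ w) ^ (Module.finrank ℚ_[ℓ] ↥(W ⊓ perp (S.rep ℓ).ψ W) * N) := by
              rw [mul_pow, ← mul_assoc, hdet, one_mul, ← pow_mul]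
    have hne0 : ∀ a ∈ (((S.rep ℓ).ρ x.frob).charpoly).aroots (AlgebraicClosure ℚ_[ℓ]), a ≠ 0 := by
      intro a ha h0
      have h1 := hmem a ha
      rw [h0] at h1
      have h2 : ((S.rep ℓ).ρ x.frob).charpoly.eval 0 = 0 := by
          have h3 := h1
          rw [Polynomial.aeval_def, Polynomial.eval₂_at_zero] at h3
          rw [← Polynomial.coeff_zero_eq_eval_zero]
          exact (map_eq_zero_iff _ (algebraMap ℚ_[ℓ] (AlgebraicClosure ℚ_[ℓ])).injective).1 h3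
      have h4 : LinearMap.det ((S.rep ℓ).ρ x.frob) = 0 := by
          rw [LinearMap.det_eq_sign_charpoly_coeff, Polynomial.coeff_zero_eq_eval_zero, h2, mul_zero]
      have h5 : LinearMap.det ((S.rep ℓ).ρ x.frob) * LinearMap.det ((S.rep ℓ).ρ x.frob⁻¹) = 1 := by
          rw [← map_mul, ← map_mul, mul_inv_cancel, map_one, map_one]
      rw [h4, zero_mul] at h5
      exact zero_ne_one h5
    have hT0 : T = 0 := by
      rcases Nat.lt_or_ge (Multiset.card T) 3 with hlt | hge3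
      · exact small_aux _ hnd (fun a ha b hb hab m hm => hneat a b (hmem a ha) (hmem b hb) hab m hm)
          _ hne0 T hT3 (by omega) N hN hrel
      · exfalso
        have h3 : Multiset.card T = 3 := by omega
        have hndT : (T + T.map (fun a => algebraMap ℚ_[ℓ] (AlgebraicClosure ℚ_[ℓ])
          ((x.q : ℚ_[ℓ]) ^ w) / a)).Nodup := Multiset.nodup_of_le hT3 hnd
        obtain ⟨hT5, -, hT6⟩ := Multiset.nodup_add.1 hndT
        have hcc : algebraMap ℚ (AlgebraicClosure ℚ_[ℓ]) ((x.q : ℚ) ^ w) =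
            algebraMap ℚ_[ℓ] (AlgebraicClosure ℚ_[ℓ]) ((x.q : ℚ_[ℓ]) ^ w) := by
          simp only [map_pow, map_natCast]
        have hchar : ((S.rep ℓ).ρ x.frob).charpoly = (S.P x).map (algebraMap ℚ ℚ_[ℓ]) :=
          S.charpoly_frob x hxn.1 ℓ hℓ
        have hroot : ∀ a ∈ T + T.map (fun a => algebraMap ℚ_[ℓ] (AlgebraicClosure ℚ_[ℓ])
            ((x.q : ℚ_[ℓ]) ^ w) / a), aeval a (S.P x) = 0 := by
          intro a ha
          have h4 := hmem a (Multiset.mem_of_le hT3 ha)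
          rw [hchar, Polynomial.aeval_map_algebraMap] at h4
          exact h4
        let R : Finset (AlgebraicClosure ℚ_[ℓ]) := ⟨T, hT5⟩
        refine hsq (hmain ℚ_[ℓ] (AlgebraicClosure ℚ_[ℓ]) R ?_ ?_ h3 ?_ ⟨N, hN, ?_⟩ ?_)
        · intro a ha
          exact hroot a (Multiset.mem_add.2 (Or.inl ha))
        · intro a ha
          rw [hcc]
          exact hroot _ (Multiset.mem_add.2 (Or.inr (Multiset.mem_map_of_mem _ ha)))
        · intro a ha hca
          rw [hcc] at hca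
          exact Multiset.disjoint_left.1 hT6 hca (Multiset.mem_map_of_mem
            (fun a => algebraMap ℚ_[ℓ] (AlgebraicClosure ℚ_[ℓ]) ((x.q : ℚ_[ℓ]) ^ w) / a) ha)
        · rw [hcc]
          have h8 : (∏ a ∈ R, a) = T.prod := by
            show (Multiset.map (fun a => a) T).prod = T.prod
            rw [Multiset.map_id']
          rw [h8, hrel, h3]
        · intro t
          refine ⟨f.charpoly.eval t, ?_⟩
          have h9 := congrArg (Polynomial.eval (algebraMap ℚ_[ℓ] (AlgebraicClosure ℚ_[ℓ]) t)) hT4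
          rw [Polynomial.eval_map_algebraMap, Polynomial.aeval_algebraMap_apply_eq_algebraMap_eval,
            Polynomial.eval_multiset_prod, Multiset.map_map] at h9
          rw [h9]
          show _ = (Multiset.map (fun a => algebraMap ℚ_[ℓ] (AlgebraicClosure ℚ_[ℓ]) t - a) T).prod
          congr 1
          apply Multiset.map_congr rfl
          intro a _
          simp
    rw [hT0, Multiset.card_zero] at hT1
    exact Submodule.finrank_eq_zero.mp hT1.symm
  intro y hy hy'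
  have hyI : y ∈ W ⊓ perp (S.rep ℓ).ψ W := ⟨hy, hy'⟩
  rw [hbot] at hyI
  exact (Submodule.mem_bot _).mp hyI

/-- In dimension at most seven there are a rational number `d > 0` and a prime `p₀` such that `V_ℓ` is
semisimple for all primes `ℓ ≠ p₀` with balanced determinants for which `-d` is not a square in `ℚ_ℓ`. -/
theorem semisimple_of_quad (S : CompSys.{u, v} k w) (D : ℕ) (hx : ∃ x, Neat S D x) (h7 : D ≤ 7) :
    ∃ (d : ℚ) (p₀ : ℕ), 0 < d ∧ ∀ (ℓ : ℕ) [Fact ℓ.Prime], ℓ ≠ p₀ →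
      Module.finrank ℚ_[ℓ] (S.rep ℓ).V = D → Balanced (S.rep ℓ) →
      ¬ IsSquare (algebraMap ℚ ℚ_[ℓ] (-d)) → (S.rep ℓ).Semisimple := by
  obtain ⟨x, hxn⟩ := hx
  obtain ⟨d, hd, h⟩ := semisimple_of_quad_at S D x hxn h7
  exact ⟨d, x.p, hd, h⟩

end Pool.Agent.T10
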