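import Pool.Agent.W_MP_b4801b_h67.Defs2

set_option autoImplicit false

/-!
# Definitions for the zero-one law of the semisimplicity conjecture

`V` a representation of `G`.  `t_n` is the dimension of `End_G (V^{⊗ n})` and `s_n` is the rank of the bilinear
form `(f, h) ↦ tr (f h)` on `End_G (V^{⊗ n})`.
-/

noncomputable section

open Pool.Agent.B4801b TensorProduct

universe u v

namespace Pool.Agent.B4801bZ

section Generic

variable {K : Type*} [Field K] {M : Type*} [AddCommGroup M] [Module K M]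

/-- The dimension of a subspace. -/
def dimOf (W : Submodule K M) : ℕ := Module.finrank K W

/-- The space of the operators which commute with all operators of `A`. -/
def Comm (A : Set (M →ₗ[K] M)) : Submodule K (M →ₗ[K] M) :=
  Submodule.span K {f | ∀ a ∈ A, f ∘ₗ a = a ∘ₗ f}

/-- `tr (f h)` -/
def trMul (f h : M →ₗ[K] M) : K := LinearMap.trace K M (f ∘ₗ h)

/-- `f` is in `E` and `tr (f h) = 0` for all `h` in `E`. -/
def InTrRad (E : Submodule K (M →ₗ[K] M)) (f : M →ₗ[K] M) : Prop :=
  f ∈ E ∧ ∀ h ∈ E, trMul f h = 0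

/-- The radical of the form `tr (f h)` on the space `E` of operators. -/
def trRad (E : Submodule K (M →ₗ[K] M)) : Submodule K (M →ₗ[K] M) :=
  Submodule.span K {f | InTrRad E f}

/-- The dimension of the space `E` of operators. -/
def dimEn (E : Submodule K (M →ₗ[K] M)) : ℕ := dimOf E

/-- The rank of the form `tr (f h)` on the space `E` of operators: the dimension of `E` minus the dimension
of the radical. -/
def rankTr (E : Submodule K (M →ₗ[K] M)) : ℕ := dimEn E - dimEn (trRad E)

end Generic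

section Tensor

variable {K : Type*} [Field K] {V : Type*} [AddCommGroup V] [Module K V]

/-- The operator `f ⊗ ⋯ ⊗ f` on the `n`-th tensor power `V ⊗ ⋯ ⊗ V`. -/
def tPow (n : ℕ) (f : V →ₗ[K] V) : (⨂[K]^n V) →ₗ[K] (⨂[K]^n V) :=
  PiTensorProduct.map fun _ => f

variable {G : Type*} [Group G]

/-- The operators of `G` on the `n`-th tensor power. -/
def tOps (ρ : Representation K G V) (n : ℕ) : Set ((⨂[K]^n V) →ₗ[K] (⨂[K]^n V)) :=
  Set.range fun σ : G => tPow n (ρ σ)

/-- `End_G (V^{⊗ n})` -/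
def endT (ρ : Representation K G V) (n : ℕ) : Submodule K ((⨂[K]^n V) →ₗ[K] (⨂[K]^n V)) :=
  Comm (tOps ρ n)

/-- `det(σ | W)^(2N) m^(N dim W)` -/
def normDet (ρ : Representation K G V) (m : K) (N : ℕ) (W : Submodule K V) (hW : IsStable ρ W)
    (σ : G) : K :=
  detOn ρ W hW σ ^ (2 * N) * m ^ (N * dimOf W)

end Tensor

section Rep

variable {k : Type u} [Field k] {w ℓ : ℕ} [Fact ℓ.Prime]

/-- `dim V` -/
def rkNum (S : PolRep.{u, v} k w ℓ) : ℕ := Module.finrank ℚ_[ℓ] S.V

/-- `t_n`, the dimension of `End_G (V^{⊗ n})`, `G` the absolute Galois group of `k`. -/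
def tNum (S : PolRep.{u, v} k w ℓ) (n : ℕ) : ℕ := dimEn (endT S.ρ n)

/-- `s_n`, the rank of the form `tr (f h)` on `End_G (V^{⊗ n})`. -/
def sNum (S : PolRep.{u, v} k w ℓ) (n : ℕ) : ℕ := rankTr (endT S.ρ n)

/-- For every Galois-stable subspace `W` of `V` the character `det(W)^2 ⊗ χ_ℓ^(w dim W)`, where `χ_ℓ` is the
cyclotomic character, is killed by `N`. -/
def PolBal (S : PolRep.{u, v} k w ℓ) (N : ℕ) : Prop :=
  ∀ (W : Submodule ℚ_[ℓ] S.V) (hW : IsStable S.ρ W) (σ : Gal k),
    normDet S.ρ (cyc k ℓ σ ^ w) N W hW σ = 1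

end Rep

end Pool.Agent.B4801bZ
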