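import Pool.Agent.W_b4801b_h57.GPl

set_option autoImplicit false

/-!
# The alternating form attached to a linear form on `V^{⊗ 2N r}`

For `f ∈ P (Fin (2N) × Fin r) ∅` and `w` put
`F(u) = ∑_c f(c) * pl u (c (0, ·)) * ∏_{t ≠ 0} pl w (c (t, ·))`, an alternating form in
`u : Fin r → (α → K)` (for every `c` a multiple of `Matrix.detRowAlternating.compLinearMap (u ↦ (u (c (0, i)))_i)`;
`pl u c = det (u j (c i))_{i j} = det` of the transpose).  `F w = (f * plz w)`.  If `R i w_j = ∑ A l j w_l`,
`det(A)^(2N) m^(N r) = 1`, then `F(R i u) = det (A i) F(u)`: `f * tp (R i) = m^(-N r) • f` (`mem_gP`: exponent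
`(0 - 2 N r) / 2`), and `∑_c f(c) pl (R u) (c 0) ∏_{t ≠ 0} pl (R w) (c t) = ∑_d (f * tp R)(d) pl u (d 0)
∏_{t ≠ 0} pl w (d t) = m^(-N r) F(u)` by `pl_mulVec`, and the left side is `det(A)^(2N-1) F(R u)` by `pl_comb`.  As
`m^(-N r) = det(A)^(2N)` and `det A ≠ 0`: the claim.
-/

noncomputable section

namespace ZO

open Matrix Module

variable {α : Type} [Fintype α] [DecidableEq α] {K : Type*} [Field K] {r : ℕ} {ι : Type*}

/-- the general sum `∑_c f(c) ∏_t pl (v t) (c (t, ·))` -/
def GAlt_G {M : ℕ} (f : (Fin M × Fin r → α) → K) (v : Fin M → Fin r → α → K) : K :=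
  ∑ c : Fin M × Fin r → α, f c * ∏ t : Fin M, pl (v t) fun i => c (t, i)

theorem GAlt_G_mulVec {M : ℕ} (f : (Fin M × Fin r → α) → K) (v : Fin M → Fin r → α → K)
    (R : Matrix α α K) :
    GAlt_G f (fun t j => R *ᵥ v t j) =
      GAlt_G (fun d => ∑ c : Fin M × Fin r → α, f c * tp R (Fin M × Fin r) c d) v := by
  have key : ∀ c : Fin M × Fin r → α,
      ∏ t : Fin M, pl (fun j => R *ᵥ v t j) (fun i => c (t, i)) =
        ∑ d : Fin M × Fin r → α, tp R (Fin M × Fin r) c d *
          ∏ t : Fin M, pl (v t) fun i => d (t, i) := by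
    intro c
    simp only [pl_mulVec]
    rw [Finset.prod_univ_sum, Fintype.piFinset_univ]
    rw [← (Equiv.curry (Fin M) (Fin r) α).sum_comp]
    apply Finset.sum_congr rfl
    intro d _
    rw [Finset.prod_mul_distrib]
    congr 1
    simp only [tp, Matrix.of_apply]
    rw [Fintype.prod_prod_type]
    rfl
  unfold GAlt_G
  simp only [key, Finset.mul_sum, Finset.sum_mul]
  rw [Finset.sum_comm]
  apply Finset.sum_congr rfl
  intro d _
  apply Finset.sum_congr rfl
  intro c _
  ring

theorem GAlt_sum_apply {κ : Type*} (s : Finset κ) (g : κ → (α → K) [⋀^Fin r]→ₗ[K] K)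
    (u : Fin r → α → K) : (∑ c ∈ s, g c) u = ∑ c ∈ s, g c u := by
  classical
  induction s using Finset.induction_on with
  | empty => simp
  | insert a s ha ih =>
    rw [Finset.sum_insert ha, Finset.sum_insert ha, AlternatingMap.add_apply, ih]

/-- the alternating form -/
def GAlt_F {M : ℕ} (f : (Fin M × Fin r → α) → K) (t₀ : Fin M) (w : Fin r → α → K) :
    (α → K) [⋀^Fin r]→ₗ[K] K :=
  ∑ c : Fin M × Fin r → α,
    (f c * ∏ t ∈ Finset.univ.erase t₀, pl w fun i => c (t, i)) •
      ((Matrix.detRowAlternating : (Fin r → K) [⋀^Fin r]→ₗ[K] K).compLinearMap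
        (LinearMap.funLeft K K fun i => c (t₀, i)))

theorem GAlt_pl (u : Fin r → α → K) (c : Fin r → α) :
    ((Matrix.detRowAlternating : (Fin r → K) [⋀^Fin r]→ₗ[K] K).compLinearMap
        (LinearMap.funLeft K K c)) u = pl u c := by
  rw [AlternatingMap.compLinearMap_apply]
  unfold pl
  rw [← Matrix.det_transpose]
  rfl

theorem GAlt_F_apply {M : ℕ} (f : (Fin M × Fin r → α) → K) (t₀ : Fin M) (w : Fin r → α → K)
    (u : Fin r → α → K) :
    GAlt_F f t₀ w u = GAlt_G f (fun t => if t = t₀ then u else w) := by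
  unfold GAlt_F GAlt_G
  rw [GAlt_sum_apply]
  apply Finset.sum_congr rfl
  intro c _
  rw [AlternatingMap.smul_apply, GAlt_pl, smul_eq_mul]
  rw [← Finset.mul_prod_erase Finset.univ _ (Finset.mem_univ t₀)]
  simp only [if_true]
  have : ∏ t ∈ Finset.univ.erase t₀, pl (if t = t₀ then u else w) (fun i => c (t, i)) =
      ∏ t ∈ Finset.univ.erase t₀, pl w fun i => c (t, i) := by
    apply Finset.prod_congr rfl
    intro t ht
    rw [if_neg (Finset.ne_of_mem_erase ht)]
  rw [this]
  ring

theorem exists_alt (R : ι → Matrix α α K) (m : ι → K) {N : ℕ} (hN : 1 ≤ N)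
    {w : Fin r → α → K} (A : ι → Matrix (Fin r) (Fin r) K)
    (h : ∀ i j, R i *ᵥ w j = ∑ l, A i l j • w l)
    (hA : ∀ i, (A i).det ^ (2 * N) * m i ^ (N * r) = 1)
    {f : Matrix (Empty → α) (Fin (2 * N) × Fin r → α) K}
    (hf : f ∈ gP R m (Fin (2 * N) × Fin r) Empty) :
    ∃ F : (α → K) [⋀^Fin r]→ₗ[K] K, F w = Matrix.trace (plz (2 * N) w * f) ∧
      ∀ (i : ι) (u : Fin r → α → K), F (fun j => R i *ᵥ u j) = (A i).det * F u := by
  set e₀ : Empty → α := fun x => x.elim with he₀
  set t₀ : Fin (2 * N) := ⟨0, by omega⟩ with ht₀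
  refine ⟨GAlt_F (fun c => f e₀ c) t₀ w, ?_, ?_⟩
  · rw [GAlt_F_apply]
    unfold GAlt_G
    have htr : Matrix.trace (plz (2 * N) w * f) = (f * plz (2 * N) w) e₀ e₀ := by
      rw [Matrix.trace_mul_comm, Matrix.trace, Fintype.sum_unique]
      have hd : (default : Empty → α) = e₀ := Subsingleton.elim _ _
      rw [hd, Matrix.diag_apply]
    rw [htr]
    simp only [Matrix.mul_apply, plz, Matrix.of_apply]
    apply Finset.sum_congr rfl
    intro c _
    congr 1
    apply Finset.prod_congr rfl
    intro t _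
    split_ifs <;> rfl
  · intro i u
    have hdet : (A i).det ≠ 0 := by
      intro h0
      have := hA i
      rw [h0, zero_pow (by omega), zero_mul] at this
      exact zero_ne_one this
    have h1 := (mem_gP.1 hf).2 i
    have hcard : ((Fintype.card Empty : ℤ) - Fintype.card (Fin (2 * N) × Fin r)) / 2
        = -((N * r : ℕ) : ℤ) := by
      simp only [Fintype.card_empty, Fintype.card_prod, Fintype.card_fin]
      push_cast
      have : (0 : ℤ) - 2 * N * r = 2 * (-(N * r)) := by ring
      rw [this, Int.mul_ediv_cancel_left _ (by norm_num)]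
    rw [hcard, _root_.zpow_neg, _root_.zpow_natCast] at h1
    have hm1 : (m i ^ (N * r))⁻¹ = (A i).det ^ (2 * N) :=
      inv_eq_of_mul_eq_one_left (hA i)
    rw [hm1] at h1
    have h2 : ∀ d, ∑ c : Fin (2 * N) × Fin r → α, f e₀ c * tp (R i) (Fin (2 * N) × Fin r) c d
        = (A i).det ^ (2 * N) * f e₀ d := by
      intro d
      have h3 := congrFun (congrFun h1 e₀) d
      rw [Matrix.mul_apply] at h3
      rw [← h3, Matrix.smul_apply, smul_eq_mul, Matrix.mul_apply, Fintype.sum_unique]
      have hd : (default : Empty → α) = e₀ := Subsingleton.elim _ _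
      rw [hd]
      simp [tp]
    have h4 := GAlt_G_mulVec (fun c => f e₀ c) (fun t => if t = t₀ then u else w) (R i)
    have h5 : GAlt_G (fun d => ∑ c : Fin (2 * N) × Fin r → α,
          f e₀ c * tp (R i) (Fin (2 * N) × Fin r) c d) (fun t => if t = t₀ then u else w)
        = (A i).det ^ (2 * N) * GAlt_F (fun c => f e₀ c) t₀ w u := by
      rw [GAlt_F_apply]
      unfold GAlt_G
      rw [Finset.mul_sum]
      apply Finset.sum_congr rfl
      intro d _
      beta_reduce
      rw [h2 d]
      ring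
    have h6 : GAlt_G (fun c => f e₀ c)
          (fun t j => R i *ᵥ (fun t => if t = t₀ then u else w : Fin (2 * N) → Fin r → α → K) t j)
        = (A i).det ^ (2 * N - 1) * GAlt_F (fun c => f e₀ c) t₀ w (fun j => R i *ᵥ u j) := by
      rw [GAlt_F_apply]
      unfold GAlt_G
      rw [Finset.mul_sum]
      apply Finset.sum_congr rfl
      intro c _
      have h7 : ∀ c : Fin (2 * N) × Fin r → α, ∀ t ∈ Finset.univ.erase t₀,
          pl (fun j => R i *ᵥ (fun t => if t = t₀ then u else w : Fin (2 * N) → Fin r → α → K) t j)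
            (fun i => c (t, i)) = (A i).det *
          pl (if t = t₀ then (fun j => R i *ᵥ u j) else w) (fun i => c (t, i)) := by
        intro c t ht
        have hne := Finset.ne_of_mem_erase ht
        simp only [if_neg hne]
        exact pl_comb (A i) (fun j => h i j) _
      rw [← Finset.mul_prod_erase Finset.univ _ (Finset.mem_univ t₀)]
      rw [Finset.prod_congr rfl (h7 c), Finset.prod_mul_distrib, Finset.prod_const,
        Finset.card_erase_of_mem (Finset.mem_univ _), Finset.card_univ, Fintype.card_fin]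
      rw [← Finset.mul_prod_erase Finset.univ
        (fun t => pl (if t = t₀ then (fun j => R i *ᵥ u j) else w) (fun i => c (t, i)))
        (Finset.mem_univ t₀)]
      simp only [if_true]
      ring
    have h8 : (A i).det ^ (2 * N - 1) * GAlt_F (fun c => f e₀ c) t₀ w (fun j => R i *ᵥ u j)
        = (A i).det ^ (2 * N - 1) * ((A i).det * GAlt_F (fun c => f e₀ c) t₀ w u) := by
      rw [← h6, h4, h5, ← mul_assoc, ← pow_succ]
      congr 2
      omega
    exact mul_left_cancel₀ (pow_ne_zero _ hdet) h8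

end ZO
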