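import Pool.Agent.W_MP_b4801b_h67.Defs

set_option autoImplicit false

/-!
# Stable subspaces of dimension at most half the dimension

If `V` is not semisimple there is a stable subspace `W` without stable complement and `2 dim W ≤ dim V`.
Proof: take `W` without stable complement.  If `2 dim W > dim V` take `W' = {y | ψ x y = 0 for all x ∈ W}`, stable
(`m σ * ψ (σ x) (σ y) = ψ x y`, `m σ ≠ 0` because `ψ ≠ 0`... if `m σ = 0` then `ψ = 0`, so `V = 0` by
nondegeneracy and everything is trivial), of dimension `dim V - dim W` (`LinearMap.BilinForm` or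
`LinearMap` dual annihilators, `ψ` is nondegenerate on the left, so on both sides as `V` is
finite-dimensional).  Suppose `C` is a stable complement of `W'`.  Put `U = {x | ψ x y = 0 for all y ∈ C}`, stable, of
dimension `dim V - dim C = dim W' = dim V - dim W`, and `U ⊓ W = 0`: for `x ∈ U ⊓ W`: `ψ x` vanishes on
`C` and on `W'`, so on `V`, `x = 0`.  So `U` is a stable complement of `W`, contradiction.
-/

noncomputable section

open Pool.Agent.B4801b

namespace ZO

theorem exists_small {K : Type*} [Field K] {V : Type*} [AddCommGroup V] [Module K V]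
    [FiniteDimensional K V] {G : Type*} [Group G] (ρ : Representation K G V)
    (m : G → K) (ψ : LinearMap.BilinForm K V) (hψ : Nondeg ψ) (hm : Equivariant m ρ ψ)
    (hns : ¬ IsSemisimpleRep ρ) :
    ∃ W : Submodule K V, (∀ (σ : G), ∀ x ∈ W, ρ σ x ∈ W) ∧
      2 * Module.finrank K W ≤ Module.finrank K V ∧
      ¬ ∃ W' : Submodule K V, (∀ (σ : G), ∀ x ∈ W', ρ σ x ∈ W') ∧ IsCompl W W' := by
  classical
  unfold IsSemisimpleRep at hns
  push Not at hns
  obtain ⟨W, hW, hWc⟩ := hns
  have hWc' : ¬ ∃ W' : Submodule K V, (∀ (σ : G), ∀ x ∈ W', ρ σ x ∈ W') ∧ IsCompl W W' := by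
    rintro ⟨W', h1, h2⟩
    exact hWc W' h1 h2
  -- the multiplier does not vanish
  have hm0 : ∀ σ, m σ ≠ 0 := by
    intro σ h0
    have hz : ∀ x : V, x = 0 := by
      intro x
      apply hψ x
      intro y
      have h1 := hm σ x y
      rw [h0, zero_mul] at h1
      exact h1.symm
    apply hWc'
    refine ⟨⊥, fun τ x _ => by rw [hz (ρ τ x)]; exact zero_mem _, ?_⟩
    constructor
    · exact disjoint_bot_right
    · rw [codisjoint_iff, eq_top_iff]
      intro x _
      rw [hz x]
      exact zero_mem _
  by_cases hdim : 2 * Module.finrank K W ≤ Module.finrank K V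
  · exact ⟨W, hW, hdim, hWc'⟩
  -- the equivalence of `V` with its dual
  have hinj : Function.Injective ψ := by
    rw [injective_iff_map_eq_zero]
    intro x hx
    apply hψ x
    intro y
    rw [hx, LinearMap.zero_apply]
  let e : V ≃ₗ[K] Module.Dual K V :=
    LinearMap.linearEquivOfInjective ψ hinj (Subspace.dual_finrank_eq (K := K) (V := V)).symm
  have he : ∀ x, e x = ψ x := fun x => rfl
  -- inverse action
  have hinv : ∀ (σ : G) (x : V), ρ σ (ρ σ⁻¹ x) = x := by
    intro σ x
    rw [← Module.End.mul_apply, ← map_mul, mul_inv_cancel, map_one, Module.End.one_apply]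
  -- the right orthogonal of `W`
  let W' : Submodule K V := Submodule.dualCoannihilator (W.map e.toLinearMap)
  have hW'mem : ∀ y, y ∈ W' ↔ ∀ x ∈ W, ψ x y = 0 := by
    intro y
    constructor
    · intro hy x hx
      exact (Submodule.mem_dualCoannihilator y).mp hy (e x) ⟨x, hx, rfl⟩
    · intro hy
      refine (Submodule.mem_dualCoannihilator y).mpr ?_
      rintro _ ⟨x, hx, rfl⟩
      exact hy x hx
  have hW'st : ∀ (σ : G), ∀ y ∈ W', ρ σ y ∈ W' := by
    intro σ y hy
    rw [hW'mem] at hy ⊢
    intro x hx
    have h1 := hm σ (ρ σ⁻¹ x) y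
    rw [hinv, hy _ (hW σ⁻¹ x hx)] at h1
    exact (mul_eq_zero.mp h1).resolve_left (hm0 σ)
  have hW'dim : Module.finrank K W + Module.finrank K W' = Module.finrank K V := by
    have h1 := Subspace.finrank_add_finrank_dualCoannihilator_eq (K := K) (V := V)
      (W.map e.toLinearMap)
    rwa [LinearEquiv.finrank_map_eq e W] at h1
  refine ⟨W', hW'st, by omega, ?_⟩
  rintro ⟨C, hCst, hCc⟩
  apply hWc'
  -- the left orthogonal of `C`
  let U : Submodule K V := (Submodule.dualAnnihilator C).map e.symm.toLinearMap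
  have hUmem : ∀ x, x ∈ U ↔ ∀ y ∈ C, ψ x y = 0 := by
    intro x
    constructor
    · rintro ⟨φ, hφ, rfl⟩ y hy
      have h1 := (Submodule.mem_dualAnnihilator φ).mp hφ y hy
      have h2 : ψ (e.symm φ) = φ := by
        rw [← he, LinearEquiv.apply_symm_apply]
      change ψ (e.symm φ) y = 0
      rw [h2, h1]
    · intro hx
      refine ⟨e x, ?_, by simp⟩
      exact (Submodule.mem_dualAnnihilator _).mpr hx
  have hUst : ∀ (σ : G), ∀ x ∈ U, ρ σ x ∈ U := by
    intro σ x hx
    rw [hUmem] at hx ⊢
    intro y hy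
    have h1 := hm σ x (ρ σ⁻¹ y)
    rw [hinv, hx _ (hCst σ⁻¹ y hy)] at h1
    exact (mul_eq_zero.mp h1).resolve_left (hm0 σ)
  have hUdim : Module.finrank K C + Module.finrank K U = Module.finrank K V := by
    have h1 := Subspace.finrank_add_finrank_dualAnnihilator_eq (K := K) (V := V) C
    have h2 : Module.finrank K U = Module.finrank K (Submodule.dualAnnihilator C) :=
      LinearEquiv.finrank_map_eq e.symm _
    rw [h2]
    exact h1
  have hCdim : Module.finrank K W' + Module.finrank K C = Module.finrank K V :=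
    Submodule.finrank_add_eq_of_isCompl hCc
  have hdisj : Disjoint W U := by
    rw [Submodule.disjoint_def]
    intro x hxW hxU
    apply hψ x
    intro y
    have hy : y ∈ W' ⊔ C := by
      rw [hCc.sup_eq_top]
      exact Submodule.mem_top
    obtain ⟨a, ha, b, hb, rfl⟩ := Submodule.mem_sup.mp hy
    rw [map_add, (hW'mem a).mp ha x hxW, (hUmem x).mp hxU b hb, add_zero]
  refine ⟨U, hUst, hdisj, ?_⟩
  rw [codisjoint_iff]
  apply Submodule.eq_top_of_disjoint W U _ hdisj
  omega

end ZO
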