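import Mathlib

set_option autoImplicit false

/-!
# A stable complement from an alternating form

Let `G` act on `V`, `W` a stable subspace of dimension `r` with basis `w`, `F` an alternating form of degree
`r` on `V` with `F w ≠ 0` and `F (σ u) = d(σ) F u` for all `u : Fin r → V`, `d(σ) ≠ 0`.  Then `W` has a stable
complement.

Proof.  If `r = 0` then `W = 0` and the complement is `V`.  Let `r ≥ 1`.  For `v ∈ V` put
`π v = ∑_s (F (update w s v) / F w) • w s ∈ W`, a linear map `V → V` with `π w_t = w_t` (for `s ≠ t`
`update w s w_t` has two equal entries), so a projection onto `W`.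
Claim: `F (update u s v) = F (update u s (π v))` for all `u : Fin r → V` with values in `W` and all `s`.  The
difference `u ↦ F (update u s (v - π v))` is multilinear in the `u j`, `j ≠ s`, so it is enough to take
`u j ∈ {w_t}` for `j ≠ s` (`MultilinearMap.map_sum` / `Basis.ext_multilinear` on `W`), pairwise different
(otherwise zero); then `(u j)_{j ≠ s}` omits exactly one `w_t`, and up to the sign of a permutation
`F (update u s (v - π v)) = ± F (update w t (v - π v))`, and `F (update w t v) - F (update w t (π v)) =
F (update w t v) - ∑_s (F (update w s v) / F w) F (update w t (w s)) = 0` because `F (update w t (w s)) = 0` for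
`s ≠ t` and `= F w` for `s = t`.
Uniqueness: if `p ∈ W` and `F (update u s p) = 0` for some `s` and all `u` with values in `W`, then `p = 0`:
`p = ∑ c_t w_t`, and `F (update w t p) = c_t F w`.  (For `s` fixed: take for `u` the family `w` with the positions
`s` and `t` exchanged.)
`π (σ v) = σ (π v)`: for `u` with values in `W` write `u j = σ (u' j)`, `u' j ∈ W` (`σ⁻¹`):
`F (update u s (σ v)) = d(σ) F (update u' s v) = d(σ) F (update u' s (π v)) = F (update u s (σ (π v)))`, and
`F (update u s (σ v)) = F (update u s (π (σ v)))`; subtract and use uniqueness.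
So `ker π` is stable and a complement of `W = range π`.
-/

noncomputable section

namespace ZO

section aux

variable {K : Type*} [Field K] {V : Type*} [AddCommGroup V] [Module K V] {m : ℕ}

lemma gret_move (F : V [⋀^Fin (m + 1)]→ₗ[K] K) (x : Fin (m + 1) → V) (v : V)
    (a : Fin m → Fin (m + 1)) (ha : Function.Injective a) (t : Fin (m + 1)) (ht : ∀ i, a i ≠ t) :
    ∃ e : ℤˣ, F (Matrix.vecCons v (fun i => x (a i))) = e • F (Function.update x t v) := by
  have hinj : Function.Injective (Fin.cons t a : Fin (m + 1) → Fin (m + 1)) := by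
    rw [Fin.cons_injective_iff]
    refine ⟨?_, ha⟩
    rintro ⟨i, hi⟩
    exact ht i hi
  set σ : Equiv.Perm (Fin (m + 1)) :=
    Equiv.ofBijective _ (Finite.injective_iff_bijective.1 hinj) with hσ
  refine ⟨Equiv.Perm.sign σ, ?_⟩
  rw [← F.map_perm]
  congr 1
  funext i
  refine Fin.cases ?_ (fun j => ?_) i
  · simp [hσ]
  · simp [hσ, Function.update_of_ne (ht j)]

lemma gret_zero {W : Submodule K V} (w : Module.Basis (Fin (m + 1)) K W)
    (F : V [⋀^Fin (m + 1)]→ₗ[K] K) {v : V}
    (hv : ∀ t, F (Function.update (fun j => (w j : V)) t v) = 0) (u : Fin (m + 1) → W)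
    (t : Fin (m + 1)) : F (Function.update (fun j => (u j : V)) t v) = 0 := by
  have h1 : (F.curryLeft v).compLinearMap W.subtype = 0 := by
    refine Module.Basis.ext_alternating w fun a ha => ?_
    have hns : ¬ Function.Surjective a := by
      intro hs
      have := Fintype.card_le_of_surjective a hs
      simp at this
    obtain ⟨t, ht⟩ : ∃ t, ∀ i, a i ≠ t := by
      by_contra hcon
      push Not at hcon
      exact hns hcon
    obtain ⟨e, he⟩ := gret_move F (fun j => (w j : V)) v a ha t ht
    show F (Matrix.vecCons v (fun i => (w (a i) : V))) = 0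
    rw [he, hv t, smul_zero]
  have h2 : F (Matrix.vecCons v (fun i => (u (t.succAbove i) : V))) = 0 := by
    have := congrArg (fun g : W [⋀^Fin m]→ₗ[K] K => g (fun i => u (t.succAbove i))) h1
    exact this
  obtain ⟨e, he⟩ := gret_move F (fun j => (u j : V)) v t.succAbove Fin.succAbove_right_injective t
    (fun i => Fin.succAbove_ne t i)
  rw [he] at h2
  rcases Int.units_eq_one_or e with h | h
  · rw [h, one_smul] at h2
    exact h2
  · rw [h] at h2
    have : -(F (Function.update (fun j => (u j : V)) t v)) = 0 := by
      rw [← h2]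
      simp [Units.smul_def]
    exact neg_eq_zero.1 this

end aux

theorem exists_compl_of_alt {K : Type*} [Field K] {V : Type*} [AddCommGroup V] [Module K V]
    [FiniteDimensional K V] {G : Type*} [Group G] (ρ : Representation K G V) (W : Submodule K V)
    (hW : ∀ (σ : G), ∀ x ∈ W, ρ σ x ∈ W) {r : ℕ} (w : Module.Basis (Fin r) K W)
    (F : V [⋀^Fin r]→ₗ[K] K) (hF : F (fun j => (w j : V)) ≠ 0) (d : G → K) (hd : ∀ σ, d σ ≠ 0)
    (h : ∀ (σ : G) (u : Fin r → V), F (fun j => ρ σ (u j)) = d σ * F u) :
    ∃ W' : Submodule K V, (∀ (σ : G), ∀ x ∈ W', ρ σ x ∈ W') ∧ IsCompl W W' := by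
  classical
  rcases r with _ | m
  · have hbot : W = ⊥ := by
      rw [Submodule.eq_bot_iff]
      intro x hx
      have h1 := w.sum_repr ⟨x, hx⟩
      simp only [Finset.univ_eq_empty, Finset.sum_empty] at h1
      have h2 := congrArg (fun y : W => (y : V)) h1
      exact h2.symm
    refine ⟨⊤, fun _ _ _ => Submodule.mem_top, ?_⟩
    rw [hbot]
    exact isCompl_bot_top
  · set w' : Fin (m + 1) → V := fun j => (w j : V) with hw'
    -- the functionals
    let Φ : V →ₗ[K] (Fin (m + 1) → K) :=
      LinearMap.pi fun t => F.toMultilinearMap.toLinearMap w' t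
    have hΦ : ∀ v t, Φ v t = F (Function.update w' t v) := fun v t => rfl
    let π : V →ₗ[K] W := (w.equivFun.symm : (Fin (m + 1) → K) →ₗ[K] W) ∘ₗ ((F w')⁻¹ • Φ)
    have hπ : ∀ x : W, π x = x := by
      intro x
      have h1 : π ∘ₗ W.subtype = LinearMap.id := by
        refine w.ext fun s => ?_
        have h2 : (F w')⁻¹ • Φ (w s : V) = w.equivFun (w s) := by
          funext t
          rw [Pi.smul_apply, hΦ, Module.Basis.equivFun_self]
          by_cases hst : s = t
          · subst hst
            rw [if_pos rfl]
            have : Function.update w' s (w s : V) = w' := Function.update_eq_self s w'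
            rw [this, smul_eq_mul, inv_mul_cancel₀ hF]
          · rw [if_neg hst]
            have : F (Function.update w' t (w s : V)) = 0 := by
              refine F.map_eq_zero_of_eq _ (i := s) (j := t) ?_ hst
              rw [Function.update_of_ne hst, Function.update_self]
            rw [this, smul_zero]
        show w.equivFun.symm ((F w')⁻¹ • Φ (w s : V)) = w s
        rw [h2, LinearEquiv.symm_apply_apply]
      exact congrArg (fun g : W →ₗ[K] W => g x) h1
    have hmem : ∀ v, v ∈ LinearMap.ker π ↔ ∀ t, F (Function.update w' t v) = 0 := by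
      intro v
      rw [LinearMap.mem_ker]
      show w.equivFun.symm ((F w')⁻¹ • Φ v) = 0 ↔ _
      rw [LinearEquiv.map_eq_zero_iff, smul_eq_zero_iff_right (inv_ne_zero hF)]
      constructor
      · intro h1 t
        rw [← hΦ, h1]
        rfl
      · intro h1
        funext t
        rw [hΦ, h1 t]
        rfl
    refine ⟨LinearMap.ker π, ?_, LinearMap.isCompl_of_proj hπ⟩
    intro σ v hv
    rw [hmem] at hv ⊢
    intro t
    have hinv : ∀ y : V, ρ σ (ρ σ⁻¹ y) = y := fun y => by
      rw [← Module.End.mul_apply, ← map_mul, mul_inv_cancel, map_one, Module.End.one_apply]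
    let u : Fin (m + 1) → W := fun j => ⟨ρ σ⁻¹ (w j : V), hW σ⁻¹ _ (w j).2⟩
    have h1 := gret_zero w F hv u t
    have h2 := h σ (Function.update (fun j => (u j : V)) t v)
    rw [h1, mul_zero] at h2
    rw [← h2]
    congr 1
    funext j
    by_cases hj : j = t
    · subst hj
      rw [Function.update_self, Function.update_self]
    · rw [Function.update_of_ne hj, Function.update_of_ne hj]
      exact (hinv _).symm

end ZO
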