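import Pool.Agent.W_f569db_zo.Main

set_option autoImplicit false

/-!
# The system of equivariant maps

Let `R i` (`i` in an index set) be matrices, `m i ≠ 0` scalars and `g` an invertible matrix with
`m i • (R i)ᵀ g (R i) = g`.  `sysG`: `M ∈ P S S'` iff `M = 0` when `card S + card S'` is odd, and
`m i ^ ((card S' - card S) / 2) • (tp (R i) S' * M) = M * tp (R i) S` for all `i`.  (For types `S`, `S'` without
`Fintype` structure there is no condition.)

* `mem_P`: the condition for the given instances (`Fintype` and `DecidableEq` structures are unique: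
  `Subsingleton.elim`).
* `mul_mem`: if `card S + card S'` and `card S' + card S''` are even, the exponents add up
  (`((c : ℤ) - b) / 2 + (b - a) / 2 = (c - a) / 2`, `zpow_add₀`); if one of them is odd then one factor is
  zero.
* `kr_mem`: `tp (R i) (S' ⊕ T') = kr (tp (R i) S') (tp (R i) T')`, `kr_mul`, the exponents add up if both
  sums of cardinalities are even; if exactly one of the sums is odd, or both, one factor is zero.
* `pm_mem`: `tp (R i) S' * pm e = pm e * tp (R i) S` (product over `S'` reindexed by `e`).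
* `cap_mem`: `capM g S * tp (R i) (S ⊕ S)` has the entry `∏_s ((R i)ᵀ g (R i)) (c (inl s)) (c (inr s)) =
  (m i)⁻¹ ^ card S * ∏ ..`; exponent `(0 - 2 card S) / 2 = - card S`.
* `cup_mem`: `R i g' (R i)ᵀ = (m i)⁻¹ g'` (invert the equation for `g`).
-/

noncomputable section

namespace ZO

open Matrix Module

variable {α : Type} [Fintype α] [DecidableEq α] {K : Type*} [Field K] {ι : Type*}

/-- the equivariant maps `V^{⊗ S} → V^{⊗ S'}` -/
def gP (R : ι → Matrix α α K) (m : ι → K) (S S' : Type) :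
    Submodule K (Matrix (S' → α) (S → α) K) where
  carrier := {M | ∀ [Fintype S] [DecidableEq S] [Fintype S'] [DecidableEq S'],
    (Odd (Fintype.card S + Fintype.card S') → M = 0) ∧
      ∀ i, m i ^ (((Fintype.card S' : ℤ) - Fintype.card S) / 2) • (tp (R i) S' * M) =
        M * tp (R i) S}
  add_mem' := by
    intro A B hA hB _ _ _ _
    refine ⟨fun h => ?_, fun i => ?_⟩
    · rw [hA.1 h, hB.1 h, add_zero]
    · rw [Matrix.mul_add, smul_add, hA.2 i, hB.2 i, Matrix.add_mul]
  zero_mem' := by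
    intro _ _ _ _
    refine ⟨fun _ => rfl, fun i => ?_⟩
    rw [Matrix.mul_zero, smul_zero, Matrix.zero_mul]
  smul_mem' := by
    intro c A hA _ _ _ _
    refine ⟨fun h => ?_, fun i => ?_⟩
    · rw [hA.1 h, smul_zero]
    · rw [Matrix.mul_smul, smul_comm, hA.2 i, Matrix.smul_mul]

theorem mem_gP {R : ι → Matrix α α K} {m : ι → K} {S S' : Type} [fS : Fintype S]
    [dS : DecidableEq S] [fS' : Fintype S'] [dS' : DecidableEq S']
    {M : Matrix (S' → α) (S → α) K} :
    M ∈ gP R m S S' ↔ (Odd (Fintype.card S + Fintype.card S') → M = 0) ∧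
      ∀ i, m i ^ (((Fintype.card S' : ℤ) - Fintype.card S) / 2) • (tp (R i) S' * M) =
        M * tp (R i) S := by
  constructor
  · intro h
    exact h
  · intro h i1 i2 i3 i4
    obtain rfl : i1 = fS := Subsingleton.elim _ _
    obtain rfl : i2 = dS := Subsingleton.elim _ _
    obtain rfl : i3 = fS' := Subsingleton.elim _ _
    obtain rfl : i4 = dS' := Subsingleton.elim _ _
    exact h

theorem GSys_not_odd (n : ℕ) : ¬ Odd (n + n) := by
  rw [Nat.not_odd_iff_even]
  exact ⟨n, rfl⟩

theorem gP_one (R : ι → Matrix α α K) (m : ι → K) (S : Type) [Fintype S] [DecidableEq S] :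
    (1 : Matrix (S → α) (S → α) K) ∈ gP R m S S := by
  rw [mem_gP]
  refine ⟨fun h => absurd h (GSys_not_odd _), fun i => ?_⟩
  rw [sub_self, Int.zero_ediv, zpow_zero, one_smul, Matrix.mul_one, Matrix.one_mul]

theorem gP_mul {R : ι → Matrix α α K} {m : ι → K} (hm : ∀ i, m i ≠ 0) {S S' S'' : Type}
    [Fintype S] [DecidableEq S] [Fintype S'] [DecidableEq S'] [Fintype S''] [DecidableEq S'']
    {A : Matrix (S'' → α) (S' → α) K} {B : Matrix (S' → α) (S → α) K} (hA : A ∈ gP R m S' S'')
    (hB : B ∈ gP R m S S') : A * B ∈ gP R m S S'' := by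
  rw [mem_gP] at hA hB ⊢
  by_cases h1 : Odd (Fintype.card S' + Fintype.card S'')
  · rw [hA.1 h1, Matrix.zero_mul]
    refine ⟨fun _ => rfl, fun i => ?_⟩
    rw [Matrix.mul_zero, smul_zero, Matrix.zero_mul]
  by_cases h2 : Odd (Fintype.card S + Fintype.card S')
  · rw [hB.1 h2, Matrix.mul_zero]
    refine ⟨fun _ => rfl, fun i => ?_⟩
    rw [Matrix.mul_zero, smul_zero, Matrix.zero_mul]
  rw [Nat.not_odd_iff_even] at h1 h2
  have h3 : ¬ Odd (Fintype.card S + Fintype.card S'') := by
    rw [Nat.not_odd_iff_even, Nat.even_add] at *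
    tauto
  refine ⟨fun h => absurd h h3, fun i => ?_⟩
  have hexp : ((Fintype.card S'' : ℤ) - Fintype.card S) / 2 =
      ((Fintype.card S'' : ℤ) - Fintype.card S') / 2 +
        ((Fintype.card S' : ℤ) - Fintype.card S) / 2 := by
    obtain ⟨x, hx⟩ := h1
    obtain ⟨y, hy⟩ := h2
    omega
  rw [hexp, zpow_add₀ (hm i), mul_comm, mul_smul, ← Matrix.mul_assoc, ← Matrix.smul_mul,
    hA.2 i, Matrix.mul_assoc, ← Matrix.mul_smul, hB.2 i, Matrix.mul_assoc]

theorem GSys_tp_sum (R : Matrix α α K) (S T : Type) [Fintype S] [DecidableEq S] [Fintype T]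
    [DecidableEq T] : tp R (S ⊕ T) = kr (tp R S) (tp R T) := by
  ext c d
  simp only [tp, kr, Matrix.of_apply, Fintype.prod_sum_type, Function.comp_apply]

theorem GSys_kr_smul {S S' T T' : Type} (x y : K) (A : Matrix (S' → α) (S → α) K)
    (B : Matrix (T' → α) (T → α) K) : kr (x • A) (y • B) = (x * y) • kr A B := by
  ext c d
  simp only [kr, Matrix.of_apply, Matrix.smul_apply, smul_eq_mul]
  ring

theorem gP_kr {R : ι → Matrix α α K} {m : ι → K} (hm : ∀ i, m i ≠ 0) {S S' T T' : Type}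
    [Fintype S] [DecidableEq S] [Fintype S'] [DecidableEq S'] [Fintype T] [DecidableEq T]
    [Fintype T'] [DecidableEq T'] {A : Matrix (S' → α) (S → α) K} {B : Matrix (T' → α) (T → α) K}
    (hA : A ∈ gP R m S S') (hB : B ∈ gP R m T T') : kr A B ∈ gP R m (S ⊕ T) (S' ⊕ T') := by
  rw [mem_gP] at hA hB ⊢
  by_cases h1 : Odd (Fintype.card S + Fintype.card S')
  · rw [hA.1 h1]
    have h0 : kr (0 : Matrix (S' → α) (S → α) K) B = 0 := by
      ext c d
      simp [kr]
    rw [h0]
    refine ⟨fun _ => rfl, fun i => ?_⟩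
    rw [Matrix.mul_zero, smul_zero, Matrix.zero_mul]
  by_cases h2 : Odd (Fintype.card T + Fintype.card T')
  · rw [hB.1 h2]
    have h0 : kr A (0 : Matrix (T' → α) (T → α) K) = 0 := by
      ext c d
      simp [kr]
    rw [h0]
    refine ⟨fun _ => rfl, fun i => ?_⟩
    rw [Matrix.mul_zero, smul_zero, Matrix.zero_mul]
  rw [Nat.not_odd_iff_even] at h1 h2
  rw [Fintype.card_sum, Fintype.card_sum]
  have h3 : ¬ Odd (Fintype.card S + Fintype.card T + (Fintype.card S' + Fintype.card T')) := by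
    rw [Nat.not_odd_iff_even]
    obtain ⟨x, hx⟩ := h1
    obtain ⟨y, hy⟩ := h2
    exact ⟨x + y, by omega⟩
  refine ⟨fun h => absurd h h3, fun i => ?_⟩
  have hexp : (((Fintype.card S' + Fintype.card T' : ℕ) : ℤ) -
      ((Fintype.card S + Fintype.card T : ℕ) : ℤ)) / 2 =
      ((Fintype.card S' : ℤ) - Fintype.card S) / 2 +
        ((Fintype.card T' : ℤ) - Fintype.card T) / 2 := by
    obtain ⟨x, hx⟩ := h1
    obtain ⟨y, hy⟩ := h2
    omega
  rw [hexp, zpow_add₀ (hm i), GSys_tp_sum, GSys_tp_sum, kr_mul, kr_mul, ← hA.2 i, ← hB.2 i,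
    GSys_kr_smul]

theorem gP_pm (R : ι → Matrix α α K) (m : ι → K) {S S' : Type} [Fintype S] [DecidableEq S]
    [Fintype S'] [DecidableEq S'] (e : S ≃ S') : pm α K e ∈ gP R m S S' := by
  rw [mem_gP]
  have hcard : Fintype.card S = Fintype.card S' := Fintype.card_congr e
  rw [hcard]
  refine ⟨fun h => absurd h (GSys_not_odd _), fun i => ?_⟩
  rw [sub_self, Int.zero_ediv, zpow_zero, one_smul]
  ext c d
  rw [mul_pm_apply, pm_mul_apply]
  simp only [tp, Matrix.of_apply, Function.comp_apply]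
  rw [← Equiv.prod_comp e]
  simp

theorem GSys_tp_empty (R : Matrix α α K) : tp R Empty = 1 := by
  ext c d
  have h : c = d := Subsingleton.elim _ _
  subst h
  simp [tp]

/-- sum over the words on `S ⊕ S` of a product over `S` -/
theorem GSys_sum (S : Type) [Fintype S] [DecidableEq S] (h : S → α → α → K) :
    ∑ e : S ⊕ S → α, ∏ s, h s (e (Sum.inl s)) (e (Sum.inr s)) = ∏ s, ∑ x, ∑ y, h s x y := by
  have h1 : ∀ s, ∑ x, ∑ y, h s x y = ∑ p : α × α, h s p.1 p.2 := fun s => by
    rw [Fintype.sum_prod_type]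
  simp only [h1]
  rw [Finset.prod_univ_sum, Fintype.piFinset_univ]
  refine Fintype.sum_equiv ((Equiv.sumArrowEquivProdArrow S S α).trans
    (Equiv.arrowProdEquivProdArrow S (fun _ => α) (fun _ => α)).symm) _ _ fun e => ?_
  rfl

theorem gP_cap {R : ι → Matrix α α K} {m : ι → K} (hm : ∀ i, m i ≠ 0) {g : Matrix α α K}
    (hg : ∀ i, m i • ((R i)ᵀ * g * R i) = g) (S : Type) [Fintype S] [DecidableEq S] :
    capM g S ∈ gP R m (S ⊕ S) Empty := by
  rw [mem_gP, Fintype.card_sum, Fintype.card_empty]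
  refine ⟨fun h => absurd h (by rw [add_zero]; exact GSys_not_odd _), fun i => ?_⟩
  have hexp : (((0 : ℕ) : ℤ) - ((Fintype.card S + Fintype.card S : ℕ) : ℤ)) / 2 =
      -(Fintype.card S : ℤ) := by omega
  rw [hexp, GSys_tp_empty, Matrix.one_mul, _root_.zpow_neg, _root_.zpow_natCast]
  ext c d
  have hR : ∀ x y, m i * ∑ u, ∑ v, g u v * (R i u x * R i v y) = g x y := by
    intro x y
    have h := congrFun (congrFun (hg i) x) y
    rw [Matrix.smul_apply, Matrix.mul_apply, smul_eq_mul] at h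
    simp only [Matrix.mul_apply, Matrix.transpose_apply] at h
    rw [← h]
    congr 1
    rw [Finset.sum_comm]
    refine Finset.sum_congr rfl fun v _ => ?_
    rw [Finset.sum_mul]
    refine Finset.sum_congr rfl fun u _ => ?_
    ring
  have h1 : (capM g S * tp (R i) (S ⊕ S)) c d =
      ∑ e : S ⊕ S → α, ∏ s, g (e (Sum.inl s)) (e (Sum.inr s)) *
        (R i (e (Sum.inl s)) (d (Sum.inl s)) * R i (e (Sum.inr s)) (d (Sum.inr s))) := by
    rw [Matrix.mul_apply]
    refine Finset.sum_congr rfl fun e _ => ?_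
    simp only [capM, tp, Matrix.of_apply, Fintype.prod_sum_type]
    rw [← Finset.prod_mul_distrib, ← Finset.prod_mul_distrib]
  rw [h1, GSys_sum S (fun s x y => g x y * (R i x (d (Sum.inl s)) * R i y (d (Sum.inr s))))]
  rw [Matrix.smul_apply, smul_eq_mul]
  simp only [capM, Matrix.of_apply]
  rw [inv_mul_eq_iff_eq_mul₀ (pow_ne_zero _ (hm i))]
  rw [← Finset.card_univ, ← Finset.prod_const, ← Finset.prod_mul_distrib]
  exact Finset.prod_congr rfl fun s _ => (hR _ _).symm

theorem gP_cup {R : ι → Matrix α α K} {m : ι → K} (hm : ∀ i, m i ≠ 0) {g g' : Matrix α α K}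
    (gg' : g * g' = 1) (hg : ∀ i, m i • ((R i)ᵀ * g * R i) = g) (S : Type) [Fintype S]
    [DecidableEq S] : cupM g' S ∈ gP R m Empty (S ⊕ S) := by
  rw [mem_gP, Fintype.card_sum, Fintype.card_empty]
  refine ⟨fun h => absurd h (by rw [zero_add]; exact GSys_not_odd _), fun i => ?_⟩
  have hexp : (((Fintype.card S + Fintype.card S : ℕ) : ℤ) - ((0 : ℕ) : ℤ)) / 2 =
      (Fintype.card S : ℤ) := by omega
  rw [hexp, GSys_tp_empty, Matrix.mul_one, _root_.zpow_natCast]
  have g'g : g' * g = 1 := _root_.mul_eq_one_comm.1 gg'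
  have hinv : m i • (R i * g' * (R i)ᵀ) = g' := by
    have h1 : (m i • (g' * ((R i)ᵀ * g))) * R i = 1 := by
      rw [Matrix.smul_mul, Matrix.mul_assoc, ← Matrix.mul_smul, hg i, g'g]
    have h2 : R i * (m i • (g' * ((R i)ᵀ * g))) = 1 := _root_.mul_eq_one_comm.1 h1
    have h3 : m i • (R i * g' * (R i)ᵀ) * g = 1 := by
      rw [← h2, Matrix.smul_mul, Matrix.mul_smul]
      simp only [Matrix.mul_assoc]
    calc m i • (R i * g' * (R i)ᵀ) = m i • (R i * g' * (R i)ᵀ) * (g * g') := by
          rw [gg', Matrix.mul_one]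
      _ = g' := by rw [← Matrix.mul_assoc, h3, Matrix.one_mul]
  ext c d
  have hR : ∀ x y, m i * ∑ u, ∑ v, (R i x u * R i y v) * g' u v = g' x y := by
    intro x y
    have h := congrFun (congrFun hinv x) y
    rw [Matrix.smul_apply, Matrix.mul_apply, smul_eq_mul] at h
    simp only [Matrix.mul_apply, Matrix.transpose_apply] at h
    rw [← h]
    congr 1
    rw [Finset.sum_comm]
    refine Finset.sum_congr rfl fun v _ => ?_
    rw [Finset.sum_mul]
    refine Finset.sum_congr rfl fun u _ => ?_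
    ring
  have h1 : (tp (R i) (S ⊕ S) * cupM g' S) c d =
      ∑ e : S ⊕ S → α, ∏ s, (R i (c (Sum.inl s)) (e (Sum.inl s)) *
        R i (c (Sum.inr s)) (e (Sum.inr s))) * g' (e (Sum.inl s)) (e (Sum.inr s)) := by
    rw [Matrix.mul_apply]
    refine Finset.sum_congr rfl fun e _ => ?_
    simp only [cupM, tp, Matrix.of_apply, Fintype.prod_sum_type]
    rw [← Finset.prod_mul_distrib, ← Finset.prod_mul_distrib]
  rw [Matrix.smul_apply, h1, GSys_sum S (fun s x y => (R i (c (Sum.inl s)) x *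
    R i (c (Sum.inr s)) y) * g' x y), smul_eq_mul]
  simp only [cupM, Matrix.of_apply]
  rw [← Finset.card_univ, ← Finset.prod_const, ← Finset.prod_mul_distrib]
  exact Finset.prod_congr rfl fun s _ => hR _ _

/-- the system of equivariant maps -/
def sysG (R : ι → Matrix α α K) (m : ι → K) (hm : ∀ i, m i ≠ 0) (g g' : Matrix α α K)
    (gg' : g * g' = 1) (g'g : g' * g = 1) (hg : ∀ i, m i • ((R i)ᵀ * g * R i) = g) : Sys α K where
  P := gP R m
  g := g
  g' := g'
  gg' := gg'
  g'g := g'g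
  one_mem := gP_one R m
  mul_mem := gP_mul hm
  kr_mem := gP_kr hm
  pm_mem := gP_pm R m
  cap_mem := gP_cap hm hg
  cup_mem := gP_cup hm gg' hg

end ZO
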