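import Pool.Agent.W_b4801b_h57.GDefs
import Pool.Agent.W_b4801b_h57.GSys

set_option autoImplicit false

/-!
# Endomorphisms of tensor powers and matrices on words

Let `bs : Basis α K V` (`α` finite), `R σ` the matrix of `ρ σ`.  The basis `Basis.piTensorProduct (fun _ => bs)` of
`⨂[K]^n V`, indexed by the words `Fin n → α`, gives an isomorphism (`LinearMap.toMatrix`, an algebra
isomorphism) of `End (⨂[K]^n V)` with the matrices on words.  The matrix of `tensorPow n (ρ σ)` is
`tp (R σ) (Fin n)` (`Basis.piTensorProduct_repr_tprod_apply`, `PiTensorProduct.map_tprod`).  So `endTensor ρ n`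
corresponds to `gP R m (Fin n) (Fin n)` (`mem_gP`: the exponent is `0`, the parity condition is empty), and
`radTensor ρ n` to `(sysG ..).N (Fin n) (Fin n)` (the trace of an operator is the trace of its matrix).
Hence `dimEnd ρ n = h (2 n)` and `rankTrace ρ n = A (2 n)`: `h (2 n) = dim P ∅ (Fin n ⊕ Fin n)`
`= dim P (Fin n) (Fin n)` by bending (`finrank_P_empty`; `map_bnd_P` with source `Empty`, the injectivity of
`bnd` as in `a_bnd`, and `pm (Equiv.sumEmpty ..)`), `A (2n) = a (Fin n) (Fin n)` by `a_eq_A`.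
-/

noncomputable section

open Pool.Agent.B4801b Pool.Agent.B4801bZ Module

namespace ZO

variable {α : Type} [Fintype α] [DecidableEq α] {K : Type*} [Field K] {V : Type*} [AddCommGroup V]
  [Module K V] {G : Type*} [Group G]

/-- `h (2n) = dim P (Fin n) (Fin n)` for every system -/
theorem Sys.h_two_mul (Q : Sys α K) (n : ℕ) : Q.h (2 * n) = finrank K (Q.P (Fin n) (Fin n)) := by
  have h1 := Q.finrank_P_empty (Fin n ⊕ Fin n)
  rw [Fintype.card_sum, Fintype.card_fin, ← two_mul] at h1
  have hinj : Function.Injective (bnd (S := Fin n) (T := Empty) (T' := Fin n) Q.g) :=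
    Function.LeftInverse.injective (g := bndI Q.g') (fun F => bndI_bnd Q.g'g F)
  have h2 := (Submodule.equivMapOfInjective _ hinj (Q.P Empty (Fin n ⊕ Fin n))).finrank_eq
  rw [Q.map_bnd_P] at h2
  have hP : (Q.P (Fin n ⊕ Empty) (Fin n)).map
      (Sys.Pm_tr α K (Equiv.sumEmpty (Fin n) Empty) (Equiv.refl (Fin n))).toLinearMap =
      Q.P (Fin n) (Fin n) := by
    refine le_antisymm ?_ ?_
    · rintro _ ⟨X, hX, rfl⟩
      exact Q.Pm_tr_P _ _ hX
    · intro Y hY
      refine ⟨(Sys.Pm_tr α K (Equiv.sumEmpty (Fin n) Empty) (Equiv.refl (Fin n))).symm Y, ?_,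
        LinearEquiv.apply_symm_apply _ Y⟩
      rw [Sys.Pm_tr_symm]
      exact Q.Pm_tr_P _ _ hY
  have h3 := LinearEquiv.finrank_map_eq
    (Sys.Pm_tr α K (Equiv.sumEmpty (Fin n) Empty) (Equiv.refl (Fin n)))
    (Q.P (Fin n ⊕ Empty) (Fin n))
  rw [hP] at h3
  rw [← h1, h2, h3]

/-- the matrix of an operator on the tensor power -/
def GTens_mat (bs : Module.Basis α K V) (n : ℕ) :
    Module.End K (TensorPower K n V) ≃ₗ[K] Matrix (Fin n → α) (Fin n → α) K :=
  LinearMap.toMatrix (Basis.piTensorProduct fun _ : Fin n => bs)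
    (Basis.piTensorProduct fun _ : Fin n => bs)

theorem GTens_mat_mul (bs : Module.Basis α K V) (n : ℕ) (f g : Module.End K (TensorPower K n V)) :
    GTens_mat bs n (f * g) = GTens_mat bs n f * GTens_mat bs n g :=
  LinearMap.toMatrix_mul _ f g

theorem GTens_mat_trace (bs : Module.Basis α K V) (n : ℕ) (f : Module.End K (TensorPower K n V)) :
    LinearMap.trace K (TensorPower K n V) f = Matrix.trace (GTens_mat bs n f) :=
  LinearMap.trace_eq_matrix_trace K (Basis.piTensorProduct fun _ : Fin n => bs) f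

theorem GTens_mat_pow (bs : Module.Basis α K V) (n : ℕ) (f : Module.End K V) :
    GTens_mat bs n (tensorPow n f) = tp (LinearMap.toMatrix bs bs f) (Fin n) := by
  ext c d
  unfold GTens_mat
  rw [LinearMap.toMatrix_apply, Basis.piTensorProduct_apply, PiTensorProduct.map_tprod,
    Basis.piTensorProduct_repr_tprod_apply]
  change _ = ∏ i, LinearMap.toMatrix bs bs f (c i) (d i)
  refine Finset.prod_congr rfl fun i _ => ?_
  rw [LinearMap.toMatrix_apply]

theorem GTens_mem (ρ : Representation K G V) (bs : Module.Basis α K V) (m : G → K) (n : ℕ)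
    (f : Module.End K (TensorPower K n V)) : GTens_mat bs n f ∈
      gP (fun σ : G => LinearMap.toMatrix bs bs (ρ σ)) m (Fin n) (Fin n) ↔
      f ∈ endTensor ρ n := by
  rw [mem_gP]
  have h1 : ∀ σ : G, (m σ ^ (((Fintype.card (Fin n) : ℤ) - Fintype.card (Fin n)) / 2) •
      (tp (LinearMap.toMatrix bs bs (ρ σ)) (Fin n) * GTens_mat bs n f) =
        GTens_mat bs n f * tp (LinearMap.toMatrix bs bs (ρ σ)) (Fin n)) ↔
      f * tensorPow n (ρ σ) = tensorPow n (ρ σ) * f := by
    intro σ
    rw [sub_self, Int.zero_ediv, zpow_zero, one_smul, ← GTens_mat_pow, ← GTens_mat_mul,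
      ← GTens_mat_mul, (GTens_mat bs n).injective.eq_iff]
    exact eq_comm
  constructor
  · rintro ⟨-, h2⟩ σ
    exact (h1 σ).1 (h2 σ)
  · intro h2
    refine ⟨fun h3 => ?_, fun σ => (h1 σ).2 (h2 σ)⟩
    rw [← two_mul] at h3
    exact absurd (even_two_mul (Fintype.card (Fin n))) (Nat.not_even_iff_odd.2 h3)

theorem finrank_endTensor (ρ : Representation K G V) (bs : Module.Basis α K V) (m : G → K)
    (n : ℕ) : dimEnd ρ n =
      finrank K (gP (fun σ : G => LinearMap.toMatrix bs bs (ρ σ)) m (Fin n) (Fin n)) := by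
  have h1 : (endTensor ρ n).map (GTens_mat bs n).toLinearMap =
      gP (fun σ : G => LinearMap.toMatrix bs bs (ρ σ)) m (Fin n) (Fin n) := by
    refine le_antisymm ?_ ?_
    · rintro _ ⟨f, hf, rfl⟩
      rw [LinearEquiv.coe_coe, GTens_mem]
      exact hf
    · intro Y hY
      obtain ⟨f, rfl⟩ := (GTens_mat bs n).surjective Y
      rw [GTens_mem] at hY
      exact ⟨f, hY, rfl⟩
  have h2 := LinearEquiv.finrank_map_eq (GTens_mat bs n) (endTensor ρ n)
  rw [h1] at h2
  exact h2.symm

theorem finrank_radTensor (ρ : Representation K G V) (bs : Module.Basis α K V) (n : ℕ)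
    (Q : Sys α K) {m : G → K}
    (hQ : Q.P = gP (fun σ : G => LinearMap.toMatrix bs bs (ρ σ)) m) :
    finrank K (radTensor ρ n) = finrank K (Q.N (Fin n) (Fin n)) := by
  have h0 : ∀ f : Module.End K (TensorPower K n V), GTens_mat bs n f ∈ Q.P (Fin n) (Fin n) ↔
      f ∈ endTensor ρ n := by
    intro f
    rw [hQ]
    exact GTens_mem ρ bs m n f
  have h1 : ∀ f : Module.End K (TensorPower K n V), GTens_mat bs n f ∈ Q.N (Fin n) (Fin n) ↔
      f ∈ radTensor ρ n := by
    intro f
    constructor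
    · rintro ⟨h2, h3⟩
      refine ⟨(h0 f).1 h2, fun h hh => ?_⟩
      rw [GTens_mat_trace bs, GTens_mat_mul]
      exact h3 _ ((h0 h).2 hh)
    · rintro ⟨h2, h3⟩
      refine ⟨(h0 f).2 h2, fun B hB => ?_⟩
      obtain ⟨h, rfl⟩ := (GTens_mat bs n).surjective B
      rw [← GTens_mat_mul, ← GTens_mat_trace]
      exact h3 h ((h0 h).1 hB)
  have h2 : (radTensor ρ n).map (GTens_mat bs n).toLinearMap = Q.N (Fin n) (Fin n) := by
    refine le_antisymm ?_ ?_
    · rintro _ ⟨f, hf, rfl⟩
      exact (h1 f).2 hf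
    · intro Y hY
      obtain ⟨f, rfl⟩ := (GTens_mat bs n).surjective Y
      exact ⟨f, (h1 f).1 hY, rfl⟩
  have h3 := LinearEquiv.finrank_map_eq (GTens_mat bs n) (radTensor ρ n)
  rw [h2] at h3
  exact h3.symm

end ZO
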