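import Pool.Agent.W_f569db_zo.Main

set_option autoImplicit false

/-!
# Numerically trivial classes on higher powers

If `0 ≠ z ∈ N ∅ D`, `card D = 2 k`, then for every `n ≥ k` there is `0 ≠ z' ∈ N ∅ (Fin n ⊕ Fin n)` (or any type
with `2 n` elements): `z' = z ⊗ cup` with `cup = cupM g' (Fin (n - k)) ∈ P ∅ (Fin (n-k) ⊕ Fin (n-k))`, which is not zero
(`g'` is invertible, so some entry `g' x y ≠ 0`, and the entry of `cupM` at the word constant `x` on the left,
constant `y` on the right is `(g' x y)^(n-k)`; for `n = k` it is `1`).  `kr z cup` composed with permutation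
matrices: `z ⊗ cup = (1 ⊗ cup) (z ⊗ 1)` or `kr z cup = kr 1 cup * kr z 1`, `N` is an ideal:
`kr 1 z ∈ N` (`one_kr_mem_N`) and exchange the factors, see `mainT` in `W_f569db_zo/Main` for the case `z ⊗ z`.
`h_gt`: `A (2 n) < h (2 n)`: `h - A = dim (N ∅ (Fin (2n))) > 0`.
-/

noncomputable section

namespace ZO

open Matrix Module

variable {α : Type} [Fintype α] [DecidableEq α] [Nonempty α] {K : Type*} [Field K] [CharZero K]

namespace Sys

variable (Q : Sys α K)

/-- some entry of the inverse of the bilinear form is not zero -/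
theorem exists_g'_ne : ∃ x y : α, Q.g' x y ≠ 0 := by
  by_contra h
  push Not at h
  have h0 : Q.g' = 0 := by
    ext x y
    exact h x y
  have h1 := Q.gg'
  rw [h0, Matrix.mul_zero] at h1
  obtain ⟨x⟩ := (inferInstance : Nonempty α)
  have h2 := congrFun (congrFun h1 x) x
  rw [Matrix.one_apply_eq] at h2
  exact zero_ne_one h2

theorem cupM_ne_zero (T : Type) [Fintype T] [DecidableEq T] : cupM Q.g' T ≠ 0 := by
  obtain ⟨x, y, hxy⟩ := Q.exists_g'_ne
  intro h
  have h1 := congrFun (congrFun h (Sum.elim (fun _ => x) (fun _ => y))) (fun e => e.elim)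
  change ∏ s : T, Q.g' x y = 0 at h1
  rw [Finset.prod_const] at h1
  exact pow_ne_zero _ hxy h1

/-- multiplication on the left by a permutation matrix is injective -/
theorem pm_mul_ne_zero {S S' S'' : Type} [Fintype S] [DecidableEq S] [Fintype S'] [DecidableEq S']
    [Fintype S''] [DecidableEq S''] (e : S ≃ S') {A : Matrix (S → α) (S'' → α) K}
    (h : A ≠ 0) : pm α K e * A ≠ 0 := by
  intro h0
  apply h
  calc A = (pm α K e.symm * pm α K e) * A := by rw [pm_symm_mul, Matrix.one_mul]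
    _ = pm α K e.symm * (pm α K e * A) := by rw [Matrix.mul_assoc]
    _ = 0 := by rw [h0, Matrix.mul_zero]

theorem exists_pad {D : Type} [Fintype D] [DecidableEq D] {k : ℕ} (hD : Fintype.card D = 2 * k)
    {z : Matrix (D → α) (Empty → α) K} (hz : z ∈ Q.N Empty D) (hz0 : z ≠ 0) (n : ℕ) (hn : k ≤ n)
    (D' : Type) [Fintype D'] [DecidableEq D'] (hD' : Fintype.card D' = 2 * n) :
    ∃ z' : Matrix (D' → α) (Empty → α) K, z' ∈ Q.N Empty D' ∧ z' ≠ 0 := by
  classical
  have hc : Fintype.card ((Fin (n - k) ⊕ Fin (n - k)) ⊕ D) = Fintype.card D' := by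
    rw [Fintype.card_sum, Fintype.card_sum, Fintype.card_fin, hD, hD']
    omega
  set u := cupM Q.g' (Fin (n - k)) with hu
  have hu1 : u ∈ Q.P Empty (Fin (n - k) ⊕ Fin (n - k)) := Q.cup_mem _
  have hu0 : u ≠ 0 := Q.cupM_ne_zero _
  refine ⟨pm α K (Fintype.equivOfCardEq hc) *
    (kr u z * pm α K (Equiv.emptySum Empty Empty).symm), ?_, ?_⟩
  · refine Q.N_mul_left (Q.pm_mem _) (Q.N_mul_right ?_ (Q.pm_mem _))
    have h1 : kr u (1 : Matrix (D → α) (D → α) K) *
        kr (1 : Matrix (Empty → α) (Empty → α) K) z = kr u z := by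
      rw [kr_mul, Matrix.mul_one, Matrix.one_mul]
    rw [← h1]
    exact Q.N_mul_left (Q.kr_mem hu1 (Q.one_mem D)) (Q.one_kr_mem_N hz)
  · refine pm_mul_ne_zero _ ?_
    intro h
    exact kr_ne_zero hu0 hz0 (main_mul_pm_inj _ h)

theorem A_lt_h {D : Type} [Fintype D] [DecidableEq D] {k : ℕ} (hD : Fintype.card D = 2 * k)
    {z : Matrix (D → α) (Empty → α) K} (hz : z ∈ Q.N Empty D) (hz0 : z ≠ 0) (n : ℕ) (hn : k ≤ n) :
    Q.A (2 * n) < Q.h (2 * n) := by
  obtain ⟨z', h1, h2⟩ := Q.exists_pad hD hz hz0 n hn (Fin (2 * n)) (Fintype.card_fin _)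
  have h3 : 0 < finrank K (Q.N Empty (Fin (2 * n))) := by
    rw [Module.finrank_pos_iff]
    exact ⟨⟨⟨z', h1⟩, 0, fun h => h2 (congrArg Subtype.val h)⟩⟩
  have h4 : (0 : ℝ) < finrank K (Q.N Empty (Fin (2 * n))) := by
    exact_mod_cast h3
  unfold A a h
  linarith

end Sys

end ZO
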