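import Pool.Agent.W_b4801b_h57.FinalE
import Pool.Agent.W_b4801b_h57.OneLevel
import Pool.Agent.W_b4801b_h57.GAlt
import Pool.Agent.W_b4801b_h57.GRet
import Pool.Agent.W_b4801b_h57.GPerp
import Pool.Agent.W_b4801b_h57.GTens

set_option autoImplicit false

/-!
# The zero-one law for representations

Let `V` be a representation of `G` over a field of characteristic zero with a nondegenerate form `ψ`,
`m σ ψ (σ x) (σ y) = ψ x y`, balanced with exponent `N ≥ 1`, `b = dim V ≥ 1`.

`main_rep`: if `V` is not semisimple then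
(1) `rankTrace ρ n < dimEnd ρ n` for all `n ≥ N (b / 2)`;
(2) `J * rankTrace ρ n ≤ 2 * dimEnd ρ n` whenever `zpC b (N b) J^(8 b^(2 N b) + 4) ≤ n`.
`rank_le`, `dim_le`: `rankTrace ≤ dimEnd ≤ (n+1)^(b^2) rankTrace` always.

Proof.  `bs : Basis (Fin b) K V`, `R σ` the matrix of `ρ σ`, `g = (ψ (bs i) (bs j))`, invertible with inverse `g'`
(`ψ` nondegenerate), `Rᵀ g R` is the matrix of `ψ (σ x) (σ y)`; `m σ ≠ 0`.  `Q = sysG ..`.  `exists_small` gives
`W` without stable complement, `r = dim W`, `2 r ≤ b`, basis `w` of `W`, `A σ` the matrix of `ρ σ` on `W`.  In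
coordinates (`bs.repr`) `plz (2N) w ∈ P` (`plz_mem`, the hypothesis on determinants), `≠ 0`; it is in `N`:
otherwise some `f ∈ P (..) ∅` has `trace (plz * f) ≠ 0`, and `exists_alt` (transported to `V` by `bs.equivFun`)
and `exists_compl_of_alt` give a stable complement.  (1): `A_lt_h` with `k = N r ≤ N (b / 2)`.  (2): `exists_pad`
with `n = N b ≥ N r`, `D' = Fin (2 N b)`, and `power_law`.  `dimEnd = h (2n)`, `rankTrace = A (2n)` by
`finrank_endTensor`, `finrank_radTensor`, `Sys.h_two_mul`, `a_eq_A`.  `dim_le`: `low` and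
`dim P (Fin n) (Fin n) ≤ b^(2n)`.
-/

noncomputable section

open Pool.Agent.B4801b Pool.Agent.B4801bZ Module Matrix

namespace ZO

variable {K : Type*} [Field K] [CharZero K] {V : Type*} [AddCommGroup V] [Module K V]
  [FiniteDimensional K V] {G : Type*} [Group G]

/-- the system attached to a polarised representation in a basis -/
theorem GMain_sys (ρ : Representation K G V) (m : G → K) (ψ : LinearMap.BilinForm K V)
    (hψ : Nondeg ψ) (hm : Equivariant m ρ ψ) {α : Type} [Fintype α] [DecidableEq α] [Nonempty α]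
    (bs : Module.Basis α K V) :
    ∃ Q : Sys α K, Q.P = gP (fun σ : G => LinearMap.toMatrix bs bs (ρ σ)) m := by
  classical
  set g : Matrix α α K := Matrix.of fun i j => ψ (bs i) (bs j) with hgdef
  have hdet : g.det ≠ 0 := by
    intro h0
    obtain ⟨v, hv, hv0⟩ := Matrix.exists_vecMul_eq_zero_iff.2 h0
    apply hv
    have hx : (∑ i, v i • bs i) = 0 := by
      apply hψ
      intro y
      have h1 : ∀ j, ψ (∑ i, v i • bs i) (bs j) = 0 := by
        intro j
        have h2 := congrFun hv0 j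
        rw [map_sum, LinearMap.sum_apply]
        rw [Pi.zero_apply] at h2
        rw [← h2]
        refine Finset.sum_congr rfl fun i _ => ?_
        rw [map_smul, LinearMap.smul_apply, smul_eq_mul]
        rfl
      rw [← bs.sum_repr y, map_sum]
      refine Finset.sum_eq_zero fun j _ => ?_
      rw [map_smul, h1 j, smul_zero]
    funext i
    have h3 := bs.linearIndependent
    rw [Fintype.linearIndependent_iff] at h3
    exact h3 v hx i
  have hunit : IsUnit g.det := isUnit_iff_ne_zero.2 hdet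
  have hm0 : ∀ σ : G, m σ ≠ 0 := by
    intro σ h0
    obtain ⟨i⟩ := (inferInstance : Nonempty α)
    apply bs.ne_zero i
    apply hψ
    intro y
    rw [← hm σ (bs i) y, h0, zero_mul]
  have hg : ∀ σ : G, m σ • ((LinearMap.toMatrix bs bs (ρ σ))ᵀ * g *
      LinearMap.toMatrix bs bs (ρ σ)) = g := by
    intro σ
    ext i j
    rw [Matrix.smul_apply, smul_eq_mul]
    change _ = ψ (bs i) (bs j)
    rw [← hm σ (bs i) (bs j)]
    congr 1
    have e : ∀ i, ρ σ (bs i) = ∑ k, LinearMap.toMatrix bs bs (ρ σ) k i • bs k := by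
      intro i
      conv_lhs => rw [← bs.sum_repr (ρ σ (bs i))]
      refine Finset.sum_congr rfl fun k _ => ?_
      rw [LinearMap.toMatrix_apply]
    have h0 : ψ (∑ k, LinearMap.toMatrix bs bs (ρ σ) k i • bs k)
        (∑ l, LinearMap.toMatrix bs bs (ρ σ) l j • bs l) =
        ∑ l, ∑ k, LinearMap.toMatrix bs bs (ρ σ) k i * (LinearMap.toMatrix bs bs (ρ σ) l j *
          ψ (bs k) (bs l)) := by
      rw [map_sum]
      refine Finset.sum_congr rfl fun l _ => ?_
      rw [map_smul, smul_eq_mul, map_sum, LinearMap.sum_apply, Finset.mul_sum]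
      refine Finset.sum_congr rfl fun k _ => ?_
      rw [map_smul, LinearMap.smul_apply, smul_eq_mul]
      ring
    rw [e i, e j, h0, Matrix.mul_apply]
    have h1 : ∀ l, ((LinearMap.toMatrix bs bs (ρ σ))ᵀ * g) i l =
        ∑ k, LinearMap.toMatrix bs bs (ρ σ) k i * ψ (bs k) (bs l) := by
      intro l
      rw [Matrix.mul_apply]
      rfl
    refine Finset.sum_congr rfl fun l _ => ?_
    rw [h1 l, Finset.sum_mul]
    refine Finset.sum_congr rfl fun k _ => ?_
    ring
  exact ⟨sysG (fun σ : G => LinearMap.toMatrix bs bs (ρ σ)) m hm0 g g⁻¹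
    (Matrix.mul_nonsing_inv g hunit) (Matrix.nonsing_inv_mul g hunit) hg, rfl⟩

theorem GMain_dim (ρ : Representation K G V) (m : G → K) {α : Type} [Fintype α] [DecidableEq α]
    (bs : Module.Basis α K V) (Q : Sys α K)
    (hQ : Q.P = gP (fun σ : G => LinearMap.toMatrix bs bs (ρ σ)) m) (n : ℕ) :
    (dimEnd ρ n : ℝ) = Q.h (2 * n) ∧ (rankTrace ρ n : ℝ) = Q.A (2 * n) := by
  have h1 : dimEnd ρ n = finrank K (Q.P (Fin n) (Fin n)) := by
    rw [finrank_endTensor ρ bs m n, hQ]
  have h2 : finrank K (radTensor ρ n) = finrank K (Q.N (Fin n) (Fin n)) :=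
    finrank_radTensor ρ bs n Q hQ
  have h3 : finrank K (Q.N (Fin n) (Fin n)) ≤ finrank K (Q.P (Fin n) (Fin n)) :=
    Submodule.finrank_mono (Q.N_le _ _)
  refine ⟨by rw [h1, Q.h_two_mul n], ?_⟩
  have h4 : Q.A (2 * n) = Q.a (Fin n) (Fin n) := by
    rw [Q.a_eq_A, Fintype.card_fin, two_mul]
  have h5 : rankTrace ρ n = finrank K (Q.P (Fin n) (Fin n)) - finrank K (Q.N (Fin n) (Fin n)) := by
    change dimEnd ρ n - _ = _
    rw [h1, h2]
  rw [h4, h5, Nat.cast_sub h3]
  rfl

/-- the numerically trivial class of a stable subspace without stable complement -/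
theorem GMain_z (ρ : Representation K G V) (m : G → K) {N : ℕ} (hN : 1 ≤ N)
    (hbal : BalancedRep m ρ N) {α : Type} [Fintype α] [DecidableEq α] (bs : Module.Basis α K V)
    (Q : Sys α K) (hQ : Q.P = gP (fun σ : G => LinearMap.toMatrix bs bs (ρ σ)) m)
    (W : Submodule K V) (hW : ∀ (σ : G), ∀ x ∈ W, ρ σ x ∈ W)
    (hnc : ¬ ∃ W' : Submodule K V, (∀ (σ : G), ∀ x ∈ W', ρ σ x ∈ W') ∧ IsCompl W W') :
    ∃ z : Matrix (Fin (2 * N) × Fin (finrank K W) → α) (Empty → α) K,
      z ∈ Q.N Empty (Fin (2 * N) × Fin (finrank K W)) ∧ z ≠ 0 := by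
  classical
  set w : Module.Basis (Fin (finrank K W)) K W := Module.finBasis K W with hw
  set u : Fin (finrank K W) → α → K := fun j => bs.equivFun (w j : V) with hu
  set A : G → Matrix (Fin (finrank K W)) (Fin (finrank K W)) K :=
    fun σ => LinearMap.toMatrix w w ((ρ σ).restrict (hW σ)) with hAdef
  have hR : ∀ (σ : G) (x : V), LinearMap.toMatrix bs bs (ρ σ) *ᵥ bs.equivFun x =
      bs.equivFun (ρ σ x) := by
    intro σ x
    exact LinearMap.toMatrix_mulVec_repr bs bs (ρ σ) x
  have hcomb : ∀ (σ : G) j, LinearMap.toMatrix bs bs (ρ σ) *ᵥ u j = ∑ l, A σ l j • u l := by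
    intro σ j
    rw [hu]
    simp only
    rw [hR σ]
    have h1 : (ρ σ).restrict (hW σ) (w j) = ∑ l, A σ l j • w l := by
      conv_lhs => rw [← w.sum_repr ((ρ σ).restrict (hW σ) (w j))]
      refine Finset.sum_congr rfl fun l _ => ?_
      rw [hAdef]
      simp only
      rw [LinearMap.toMatrix_apply]
    have h2 : ρ σ (w j : V) = ∑ l, A σ l j • (w l : V) := by
      have h3 := congrArg (Subtype.val) h1
      rw [Submodule.coe_sum] at h3
      exact h3
    rw [h2, map_sum]
    refine Finset.sum_congr rfl fun l _ => ?_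
    rw [map_smul]
  have hA : ∀ σ : G, (A σ).det ^ (2 * N) * m σ ^ (N * finrank K W) = 1 := by
    intro σ
    rw [hAdef]
    simp only
    rw [LinearMap.det_toMatrix]
    exact hbal W hW σ
  have hdet : ∀ σ : G, (A σ).det ≠ 0 := by
    intro σ h0
    have h1 := hA σ
    rw [h0, zero_pow (by omega), zero_mul] at h1
    exact zero_ne_one h1
  have hli : LinearIndependent K u := by
    have h1 : LinearIndependent K fun j => (w j : V) :=
      w.linearIndependent.map' W.subtype (Submodule.ker_subtype W)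
    exact h1.map' (bs.equivFun : V →ₗ[K] α → K) (LinearEquiv.ker _)
  refine ⟨plz (2 * N) u, ⟨?_, ?_⟩, plz_ne_zero (2 * N) hli⟩
  · rw [hQ]
    exact plz_mem _ m N A hcomb hA
  · intro f hf
    by_contra hne
    rw [hQ] at hf
    obtain ⟨F, hF, hF2⟩ := exists_alt (fun σ : G => LinearMap.toMatrix bs bs (ρ σ)) m hN A hcomb
      hA hf
    apply hnc
    refine exists_compl_of_alt ρ W hW w (F.compLinearMap (bs.equivFun : V →ₗ[K] α → K)) ?_
      (fun σ => (A σ).det) hdet ?_
    · change F u ≠ 0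
      rw [hF]
      exact hne
    · intro σ v
      change F (fun j => bs.equivFun (ρ σ (v j))) = (A σ).det * F fun j => bs.equivFun (v j)
      rw [← hF2 σ fun j => bs.equivFun (v j)]
      congr 1
      funext j
      exact (hR σ (v j)).symm

theorem main_rep (ρ : Representation K G V) (m : G → K) (ψ : LinearMap.BilinForm K V)
    (hψ : Nondeg ψ) (hm : Equivariant m ρ ψ) {N : ℕ} (hN : 1 ≤ N) (hbal : BalancedRep m ρ N)
    (hb : 1 ≤ finrank K V) (hns : ¬ IsSemisimpleRep ρ) :
    (∀ n, N * (finrank K V / 2) ≤ n → rankTrace ρ n < dimEnd ρ n) ∧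
    (∀ J n : ℕ, zpC (finrank K V) (N * finrank K V) *
        J ^ (8 * finrank K V ^ (2 * (N * finrank K V)) + 4) ≤ n →
      J * rankTrace ρ n ≤ 2 * dimEnd ρ n) := by
  haveI : Nonempty (Fin (finrank K V)) := ⟨⟨0, hb⟩⟩
  set bs : Module.Basis (Fin (finrank K V)) K V := Module.finBasis K V
  obtain ⟨Q, hQ⟩ := GMain_sys ρ m ψ hψ hm bs
  obtain ⟨W, hW, hdim, hnc⟩ := exists_small ρ m ψ hψ hm hns
  obtain ⟨z, hz, hz0⟩ := GMain_z ρ m hN hbal bs Q hQ W hW hnc
  have hcard : Fintype.card (Fin (2 * N) × Fin (finrank K W)) = 2 * (N * finrank K W) := by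
    rw [Fintype.card_prod, Fintype.card_fin, Fintype.card_fin, mul_assoc]
  have hr : finrank K W ≤ finrank K V / 2 := by omega
  refine ⟨fun n hn => ?_, fun J n hJ => ?_⟩
  · have h1 := Q.A_lt_h hcard hz hz0 n ((Nat.mul_le_mul_left N hr).trans hn)
    obtain ⟨h2, h3⟩ := GMain_dim ρ m bs Q hQ n
    rw [← h2, ← h3] at h1
    exact_mod_cast h1
  · have hle : N * finrank K W ≤ N * finrank K V := by
      apply Nat.mul_le_mul_left
      omega
    obtain ⟨z', hz', hz0'⟩ := Q.exists_pad hcard hz hz0 (N * finrank K V) hle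
      (Fin (2 * (N * finrank K V))) (Fintype.card_fin _)
    have hk : 1 ≤ N * finrank K V := Nat.mul_pos hN hb
    have h1 := Q.power_law hk (Fintype.card_fin _) hz' hz0' J n
      (by rw [Fintype.card_fin]; exact hJ)
    obtain ⟨h2, h3⟩ := GMain_dim ρ m bs Q hQ n
    rw [← h2, ← h3] at h1
    exact_mod_cast h1

theorem rank_le (ρ : Representation K G V) (n : ℕ) : rankTrace ρ n ≤ dimEnd ρ n :=
  Nat.sub_le _ _

theorem dim_le (ρ : Representation K G V) (m : G → K) (ψ : LinearMap.BilinForm K V)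
    (hψ : Nondeg ψ) (hm : Equivariant m ρ ψ) (hb : 1 ≤ finrank K V) (n : ℕ) :
    dimEnd ρ n ≤ (n + 1) ^ (finrank K V ^ 2) * rankTrace ρ n := by
  haveI : Nonempty (Fin (finrank K V)) := ⟨⟨0, hb⟩⟩
  set bs : Module.Basis (Fin (finrank K V)) K V := Module.finBasis K V
  obtain ⟨Q, hQ⟩ := GMain_sys ρ m ψ hψ hm bs
  obtain ⟨h2, h3⟩ := GMain_dim ρ m bs Q hQ n
  have h1 := low Q (Fin n)
  rw [Q.a_eq_A, Fintype.card_fin, Fintype.card_fin, ← two_mul, ← h3] at h1
  have h4 : Q.h (2 * n) ≤ (finrank K V : ℝ) ^ (2 * n) := by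
    rw [Q.h_two_mul n]
    have h5 : finrank K (Q.P (Fin n) (Fin n)) ≤
        finrank K (Matrix (Fin n → Fin (finrank K V)) (Fin n → Fin (finrank K V)) K) :=
      Submodule.finrank_le _
    rw [Module.finrank_matrix, Module.finrank_self, Fintype.card_fun, Fintype.card_fin,
      Fintype.card_fin, mul_one, ← pow_add, ← two_mul] at h5
    exact_mod_cast h5
  rw [← h2] at h4
  have h6 := h4.trans h1
  exact_mod_cast h6

end ZO
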