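import Pool.Agent.W_b4801b_h57.ChMain
import Pool.Agent.W_b4801b_h57.GMain

set_option autoImplicit false

/-!
# Semisimple representations: `rankTrace = dimEnd`
-/

noncomputable section

open Pool.Agent.B4801b Pool.Agent.B4801bZ Module

namespace Pool.Agent.B4801bC

/-- transport of complements to coordinates -/
theorem ChRank_compl {K : Type*} [Field K] {V : Type*} [AddCommGroup V] [Module K V] {n : ℕ}
    {G : Type*} [Group G] (ρ : Representation K G V) (bs : Module.Basis (Fin n) K V)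
    (R : G →* B4801bT.Mat n K) (hR : ∀ σ x, (R σ).mulVec (bs.equivFun x) = bs.equivFun (ρ σ x))
    (hss : IsSemisimpleRep ρ) (W : Submodule K (Fin n → K)) (hW : ∀ σ, Stb (R σ) W) :
    ∃ W' : Submodule K (Fin n → K), (∀ σ, Stb (R σ) W') ∧ IsCompl W W' := by
  obtain ⟨W', hW', hc⟩ := hss (W.comap (bs.equivFun : V →ₗ[K] Fin n → K)) (by
    intro σ x hx
    change bs.equivFun (ρ σ x) ∈ W
    rw [← hR]
    exact hW σ _ hx)
  refine ⟨W'.map (bs.equivFun : V →ₗ[K] Fin n → K), ?_, ?_⟩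
  · rintro σ _ ⟨x, hx, rfl⟩
    exact ⟨ρ σ x, hW' σ x hx, (hR σ x).symm⟩
  · have h1 : W = (W.comap (bs.equivFun : V →ₗ[K] Fin n → K)).map
        (bs.equivFun : V →ₗ[K] Fin n → K) := by
      rw [Submodule.map_comap_eq_of_surjective bs.equivFun.surjective]
    rw [h1]
    exact (Submodule.orderIsoMapComap bs.equivFun).isCompl hc

theorem rank_eq (ℓ : ℕ) [Fact ℓ.Prime] {G : Type*} [Group G] [TopologicalSpace G]
    [IsTopologicalGroup G] [CompactSpace G] {V : Type*} [AddCommGroup V] [Module ℚ_[ℓ] V]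
    [FiniteDimensional ℚ_[ℓ] V] (ρ : Representation ℚ_[ℓ] G V) (m : G → ℚ_[ℓ])
    (ψ : LinearMap.BilinForm ℚ_[ℓ] V) (hψ : Nondeg ψ) (hm : Equivariant m ρ ψ)
    (hb : 1 ≤ finrank ℚ_[ℓ] V) (hcont : IsContinuousRep ρ) (hss : IsSemisimpleRep ρ) (n : ℕ) :
    rankTrace ρ n = dimEnd ρ n := by
  classical
  have : Nonempty (Fin (finrank ℚ_[ℓ] V)) := ⟨⟨0, hb⟩⟩
  set bs : Module.Basis (Fin (finrank ℚ_[ℓ] V)) ℚ_[ℓ] V := Module.finBasis ℚ_[ℓ] V
  obtain ⟨Q, hQ⟩ := ZO.GMain_sys ρ m ψ hψ hm bs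
  let R : G →* B4801bT.Mat (finrank ℚ_[ℓ] V) ℚ_[ℓ] :=
    ((LinearMap.toMatrixAlgEquiv bs : _ ≃ₐ[ℚ_[ℓ]] B4801bT.Mat (finrank ℚ_[ℓ] V) ℚ_[ℓ]) :
      _ →* B4801bT.Mat (finrank ℚ_[ℓ] V) ℚ_[ℓ]).comp ρ
  have hR : ∀ σ, R σ = LinearMap.toMatrix bs bs (ρ σ) := fun σ => rfl
  have hRv : ∀ σ x, (R σ).mulVec (bs.equivFun x) = bs.equivFun (ρ σ x) := by
    intro σ x
    rw [hR]
    exact LinearMap.toMatrix_mulVec_repr bs bs (ρ σ) x
  have hc : ∀ i j, Continuous fun σ => R σ i j := by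
    intro i j
    have h1 : ∀ σ, R σ i j = bs.coord i (ρ σ (bs j)) := by
      intro σ
      rw [hR, LinearMap.toMatrix_apply]
      rfl
    simp only [h1]
    exact hcont (bs.coord i) (bs j)
  have hexp : (((Fintype.card (Fin n) : ℤ) - Fintype.card (Fin n)) / 2) = 0 := by
    rw [sub_self, Int.zero_ediv]
  have htp : ∀ σ, B4801bT.tp n (R σ) = ZO.tp (LinearMap.toMatrix bs bs (ρ σ)) (Fin n) := by
    intro σ
    rfl
  have hmem : ∀ M : Matrix (Fin n → Fin (finrank ℚ_[ℓ] V)) (Fin n → Fin (finrank ℚ_[ℓ] V)) ℚ_[ℓ],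
      M ∈ Q.P (Fin n) (Fin n) ↔ ∀ σ, Commute M (B4801bT.tp n (R σ)) := by
    intro M
    rw [hQ, ZO.mem_gP]
    constructor
    · intro h σ
      have h1 := h.2 σ
      rw [hexp, zpow_zero, one_smul] at h1
      rw [htp σ]
      exact h1.symm
    · intro h
      refine ⟨fun ho => ?_, fun σ => ?_⟩
      · exact absurd ho (by rw [← two_mul]; simp)
      · rw [hexp, zpow_zero, one_smul, ← htp σ]
        exact (h σ).eq.symm
  have hN : Q.N (Fin n) (Fin n) = ⊥ := by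
    rw [eq_bot_iff]
    intro z hz
    rw [Submodule.mem_bot]
    exact chev_rad ℓ n R hc (ChRank_compl ρ bs R hRv hss) z ((hmem z).1 hz.1)
      fun f hf => hz.2 f ((hmem f).2 hf)
  rw [rankTrace, ZO.finrank_radTensor ρ bs n Q hQ, hN, finrank_bot, Nat.sub_zero]
  rfl

end Pool.Agent.B4801bC
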