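import Pool.Agent.W_b4801b_h57.GMain

set_option autoImplicit false

/-!
# The rank of the trace form is positive

`b^(2n) ≤ (n+1)^(b²) s_n` (`low`), so `s_n ≥ 1`.
-/

noncomputable section

open Pool.Agent.B4801b Pool.Agent.B4801bZ Module Matrix

namespace ZO

variable {K : Type*} [Field K] [CharZero K] {V : Type*} [AddCommGroup V] [Module K V]
  [FiniteDimensional K V] {G : Type*} [Group G]

theorem rank_pos (ρ : Representation K G V) (m : G → K) (ψ : LinearMap.BilinForm K V)
    (hψ : Nondeg ψ) (hm : Equivariant m ρ ψ) (hb : 1 ≤ finrank K V) (n : ℕ) :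
    1 ≤ rankTrace ρ n := by
  have : Nonempty (Fin (finrank K V)) := ⟨⟨0, hb⟩⟩
  set bs : Module.Basis (Fin (finrank K V)) K V := Module.finBasis K V
  obtain ⟨Q, hQ⟩ := GMain_sys ρ m ψ hψ hm bs
  obtain ⟨-, h3⟩ := GMain_dim ρ m bs Q hQ n
  have h1 := low Q (Fin n)
  rw [Q.a_eq_A, Fintype.card_fin, Fintype.card_fin, ← two_mul, ← h3] at h1
  by_contra h0
  have h2 : rankTrace ρ n = 0 := by omega
  rw [h2, Nat.cast_zero, mul_zero] at h1
  have h4 : (0 : ℝ) < (finrank K V : ℝ) ^ (2 * n) := by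
    have h5 : (0 : ℝ) < (finrank K V : ℝ) := by exact_mod_cast hb
    positivity
  linarith

end ZO
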