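import Pool.Agent.W_MP_b4801b_h67.Defs

set_option autoImplicit false

/-!
# Definitions for the zero-one law of the semisimplicity conjecture

`endTensor ρ n` is the algebra `A_n = End_G (V^{⊗ n})`; `radTensor ρ n` is the radical `J_n` of the trace form
`(f, h) ↦ tr (f h)` on it.
-/

noncomputable section

open Pool.Agent.B4801b TensorProduct

universe u v

namespace Pool.Agent.B4801bZ

section Generic

variable {K : Type*} [Field K] {V : Type*} [AddCommGroup V] [Module K V] {G : Type*} [Group G]

/-- The operator `f ⊗ ⋯ ⊗ f` on `V ⊗ ⋯ ⊗ V` (`n` factors). -/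
abbrev tensorPow (n : ℕ) (f : Module.End K V) : Module.End K (⨂[K]^n V) :=
  PiTensorProduct.map fun _ => f

/-- The endomorphisms of the `n`-th tensor power of `V` which commute with the action of `G`. -/
def endTensor (ρ : Representation K G V) (n : ℕ) : Submodule K (Module.End K (⨂[K]^n V)) where
  carrier := {f | ∀ σ : G, f * tensorPow n (ρ σ) = tensorPow n (ρ σ) * f}
  add_mem' := fun {a b} ha hb σ => by rw [add_mul, mul_add, ha σ, hb σ]
  zero_mem' := fun σ => by rw [zero_mul, mul_zero]
  smul_mem' := fun c f hf σ => by rw [smul_mul_assoc, mul_smul_comm, hf σ]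

/-- The elements `f` of `End_G (V^{⊗ n})` with `tr (f h) = 0` for all `h` in `End_G (V^{⊗ n})`. -/
def radTensor (ρ : Representation K G V) (n : ℕ) : Submodule K (Module.End K (⨂[K]^n V)) where
  carrier := {f | f ∈ endTensor ρ n ∧
    ∀ h ∈ endTensor ρ n, LinearMap.trace K (⨂[K]^n V) (f * h) = 0}
  add_mem' := fun {a b} ha hb => ⟨add_mem ha.1 hb.1, fun h hh => by
    rw [add_mul, map_add, ha.2 h hh, hb.2 h hh, add_zero]⟩
  zero_mem' := ⟨zero_mem _, fun h _ => by rw [zero_mul, map_zero]⟩
  smul_mem' := fun c f hf => ⟨Submodule.smul_mem _ c hf.1, fun h hh => by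
    rw [smul_mul_assoc, map_smul, hf.2 h hh, smul_zero]⟩

/-- `t_n`, the dimension of `End_G (V^{⊗ n})`. -/
def dimEnd (ρ : Representation K G V) (n : ℕ) : ℕ := Module.finrank K (endTensor ρ n)

/-- `s_n`, the rank of the trace form on `End_G (V^{⊗ n})`: the dimension of this space minus the dimension
of the radical of the form. -/
def rankTrace (ρ : Representation K G V) (n : ℕ) : ℕ :=
  Module.finrank K (endTensor ρ n) - Module.finrank K (radTensor ρ n)

/-- For every `G`-stable subspace `W` the character `det(σ | W)^2 m(σ)^(dim W)` is killed by `N`. -/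
def BalancedRep (m : G → K) (ρ : Representation K G V) (N : ℕ) : Prop :=
  ∀ (W : Submodule K V) (hW : ∀ (σ : G), ∀ x ∈ W, ρ σ x ∈ W) (σ : G),
    LinearMap.det ((ρ σ).restrict (hW σ)) ^ (2 * N) * m σ ^ (N * Module.finrank K W) = 1

end Generic

/-- For every Galois-stable subspace `W` of `V` the character `det(W)^2 ⊗ χ_ℓ^(w dim W)`, where `χ_ℓ` is the
cyclotomic character, is killed by `N`. -/
def PolRepBalanced {k : Type u} [Field k] {w ℓ : ℕ} [Fact ℓ.Prime] (S : PolRep.{u, v} k w ℓ)
    (N : ℕ) : Prop :=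
  BalancedRep (fun σ => cyc k ℓ σ ^ w) S.ρ N

end Pool.Agent.B4801bZ
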