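import Pool.Agent.W_b4801b_h57.ZDefs
import Pool.Agent.W_b4801b_h57.GDefs

set_option autoImplicit false

/-!
# The definitions of `ZDefs` and of `GDefs` agree
-/

noncomputable section

open Pool.Agent.B4801b TensorProduct Module

universe u v

namespace Pool.Agent.B4801bZ

section Generic

variable {K : Type*} [Field K] {V : Type*} [AddCommGroup V] [Module K V] {G : Type*} [Group G]

theorem endT_eq (ρ : Representation K G V) (n : ℕ) : endT ρ n = endTensor ρ n := by
  apply le_antisymm
  · refine Submodule.span_le.2 fun f h σ => ?_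
    exact h _ ⟨σ, rfl⟩
  · intro f h
    refine Submodule.subset_span ?_
    rintro _ ⟨σ, rfl⟩
    exact h σ

theorem trRad_eq (ρ : Representation K G V) (n : ℕ) : trRad (endTensor ρ n) = radTensor ρ n := by
  apply le_antisymm
  · refine Submodule.span_le.2 fun f h => ?_
    exact ⟨h.1, fun g hg => h.2 g hg⟩
  · intro f h
    exact Submodule.subset_span ⟨h.1, fun g hg => h.2 g hg⟩

theorem dimEn_eq (ρ : Representation K G V) (n : ℕ) : dimEn (endT ρ n) = dimEnd ρ n := by
  rw [endT_eq]
  rfl

theorem rankTr_eq (ρ : Representation K G V) (n : ℕ) : rankTr (endT ρ n) = rankTrace ρ n := by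
  rw [rankTr, endT_eq, trRad_eq]
  rfl

end Generic

theorem polBal_iff {k : Type u} [Field k] {w ℓ : ℕ} [Fact ℓ.Prime] (S : PolRep.{u, v} k w ℓ)
    (N : ℕ) : PolBal S N ↔ PolRepBalanced S N :=
  Iff.rfl

end Pool.Agent.B4801bZ
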