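import Pool.Agent.W_b4801b_h57.GramP
import Pool.Agent.W_f569db_zo.Two

set_option autoImplicit false

/-!
# Cauchy-Schwarz for virtual objects

`cod_sand_eq'`: generalisation of `cod_sand_eq` (same proof: bending the factor `S'` of the target; `bnd_kr_one`,
`bnd_mul`, `pm (Equiv.sumAssoc S' S T)`): for `e` on `S` and `f` on `S'`
`cod (sand (f ⊗ 1) (e ⊗ 1)) (P (S ⊕ T) (S' ⊕ T)) (N ..) = pT (adj f ⊗ e)`.

`virt`: let `e ∈ P S S`, `f ∈ P S' S'` be idempotents, `R = rank e`, `r = rank f`, `a = a T T`.  Then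
`(r * pT e - pT (adj f ⊗ e))^2 ≤ 2 r (r a - pT f) * (R^2 a)`.
Proof.  `gram_P` for the three objects `(T, 1)`, `(S' ⊕ T, f ⊗ 1)`, `(S ⊕ T, e ⊗ 1)` (e.g. `κ = Fin 3`, or
`κ = Option Bool`) gives vectors `v₀, v₁, v₂` with `⟨v₀,v₀⟩ = a`, `⟨v₁,v₀⟩ = pT f`, `⟨v₂,v₀⟩ = pT e`
(definition of `pT`), `⟨v₂,v₁⟩ = pT (adj f ⊗ e)` (`cod_sand_eq'`), `⟨v₁,v₁⟩ = pT (adj f ⊗ f) ≤ r^2 a`
(`cod_sand_eq`, `pT_le`, `rank_kr_idem`, `rank_adj_idem`), `⟨v₂,v₂⟩ ≤ R^2 a`.
Then `|r v₀ - v₁|^2 = r^2 a - 2 r pT f + ⟨v₁,v₁⟩ ≤ 2 r (r a - pT f)` and Cauchy-Schwarz for `r v₀ - v₁` and `v₂`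
(`Finset.sum_mul_sq_le_sq_mul_sq`).
-/

noncomputable section

namespace ZO

open Matrix Module

variable {α : Type} [Fintype α] [DecidableEq α] {K : Type*} [Field K] [CharZero K]

namespace Sys

variable (Q : Sys α K) {S S' T : Type} [Fintype S] [DecidableEq S] [Fintype S'] [DecidableEq S']
  [Fintype T] [DecidableEq T]

theorem cod_sand_eq' {e : Matrix (S → α) (S → α) K} {f : Matrix (S' → α) (S' → α) K} :
    cod (sand (kr f (1 : Matrix (T → α) (T → α) K)) (kr e (1 : Matrix (T → α) (T → α) K)))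
      (Q.P (S ⊕ T) (S' ⊕ T)) (Q.N (S ⊕ T) (S' ⊕ T)) = Q.pT T (kr (adj Q.g Q.g' f) e) := by
  let b : Matrix (S' ⊕ T → α) (S ⊕ T → α) K →ₗ[K] Matrix (T → α) (S' ⊕ (S ⊕ T) → α) K :=
    bnd (S := S') (T' := T) (T := S ⊕ T) Q.g
  let r : Matrix (T → α) (S' ⊕ (S ⊕ T) → α) K →ₗ[K] Matrix (T → α) ((S' ⊕ S) ⊕ T → α) K :=
    sand (1 : Matrix (T → α) (T → α) K) (pm α K (Equiv.sumAssoc S' S T))
  have hb : Function.Injective b := by
    intro x y hxy
    have := congrArg (bndI (S := S') (T' := T) (T := S ⊕ T) Q.g') hxy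
    rwa [bndI_bnd Q.g'g, bndI_bnd Q.g'g] at this
  have hΨ : Function.Injective (r ∘ₗ b) := by
    rw [LinearMap.coe_comp]
    exact (Two_pm_inj _).comp hb
  refine Two_cod_transport _ _ (r ∘ₗ b) (r ∘ₗ b) hΨ ?_ ?_ ?_
  · intro x
    show r (b _) = sand _ _ (r (b x))
    have h1 : b (kr f (1 : Matrix (T → α) (T → α) K) * x * kr e (1 : Matrix (T → α) (T → α) K)) =
        b x * kr (adj Q.g Q.g' f) (kr e (1 : Matrix (T → α) (T → α) K)) := by
      show bnd Q.g _ = bnd Q.g x * _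
      rw [Matrix.mul_assoc, bnd_kr_one Q.g'g, bnd_mul, Matrix.mul_assoc, kr_mul, Matrix.one_mul,
        Matrix.mul_one]
    have h0 : sand (kr f (1 : Matrix (T → α) (T → α) K)) (kr e (1 : Matrix (T → α) (T → α) K)) x =
        kr f (1 : Matrix (T → α) (T → α) K) * x * kr e (1 : Matrix (T → α) (T → α) K) :=
      sand_apply _ _ _
    rw [h0, h1]
    show (1 : Matrix (T → α) (T → α) K) *
        (b x * kr (adj Q.g Q.g' f) (kr e (1 : Matrix (T → α) (T → α) K))) *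
          pm α K (Equiv.sumAssoc S' S T) =
      (1 : Matrix (T → α) (T → α) K) * ((1 : Matrix (T → α) (T → α) K) * b x *
        pm α K (Equiv.sumAssoc S' S T)) *
          kr (kr (adj Q.g Q.g' f) e) (1 : Matrix (T → α) (T → α) K)
    rw [Matrix.one_mul, Matrix.one_mul, Matrix.one_mul, Matrix.mul_assoc, Two_kr_assoc,
      Matrix.mul_assoc]
  · rw [Submodule.map_comp]
    show ((Q.P (S ⊕ T) (S' ⊕ T)).map (bnd (S := S') Q.g)).map r = _
    rw [map_bnd_P]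
    exact Q.Two_map_pm_P _
  · rw [Submodule.map_comp]
    show ((Q.N (S ⊕ T) (S' ⊕ T)).map (bnd (S := S') Q.g)).map r = _
    rw [map_bnd_N]
    exact Q.Two_map_pm_N _

/-- the three objects -/
def CauchyV_U (S S' T : Type) : Option Bool → Type
  | none => T
  | some false => S' ⊕ T
  | some true => S ⊕ T

instance CauchyV_fin (S S' T : Type) [Fintype S] [Fintype S'] [Fintype T] :
    ∀ k, Fintype (CauchyV_U S S' T k)
  | none => inferInstanceAs (Fintype T)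
  | some false => inferInstanceAs (Fintype (S' ⊕ T))
  | some true => inferInstanceAs (Fintype (S ⊕ T))

instance CauchyV_dec (S S' T : Type) [DecidableEq S] [DecidableEq S'] [DecidableEq T] :
    ∀ k, DecidableEq (CauchyV_U S S' T k)
  | none => inferInstanceAs (DecidableEq T)
  | some false => inferInstanceAs (DecidableEq (S' ⊕ T))
  | some true => inferInstanceAs (DecidableEq (S ⊕ T))

/-- the three idempotents -/
def CauchyV_e (S S' T : Type) [Fintype T] [DecidableEq T] (e : Matrix (S → α) (S → α) K)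
    (f : Matrix (S' → α) (S' → α) K) :
    ∀ k, Matrix (CauchyV_U S S' T k → α) (CauchyV_U S S' T k → α) K
  | none => (1 : Matrix (T → α) (T → α) K)
  | some false => kr f (1 : Matrix (T → α) (T → α) K)
  | some true => kr e (1 : Matrix (T → α) (T → α) K)

theorem CauchyV_gram {e : Matrix (S → α) (S → α) K} {f : Matrix (S' → α) (S' → α) K}
    (he : e ∈ Q.P S S) (hf : f ∈ Q.P S' S') (he2 : e * e = e) (hf2 : f * f = f) :
    ∃ (n : ℕ) (v₀ v₁ v₂ : Fin n → ℝ), (∑ i, v₀ i * v₀ i = Q.a T T) ∧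
      (∑ i, v₁ i * v₀ i = Q.pT T f) ∧ (∑ i, v₂ i * v₀ i = Q.pT T e) ∧
      (∑ i, v₂ i * v₁ i = Q.pT T (kr (adj Q.g Q.g' f) e)) ∧
      (∑ i, v₁ i * v₁ i = Q.pT T (kr (adj Q.g Q.g' f) f)) ∧
      (∑ i, v₂ i * v₂ i = Q.pT T (kr (adj Q.g Q.g' e) e)) := by
  have hmem : ∀ k, CauchyV_e S S' T e f k ∈ Q.P (CauchyV_U S S' T k) (CauchyV_U S S' T k) := by
    intro k
    match k with
    | none => exact Q.one_mem T
    | some false => exact Q.kr_mem hf (Q.one_mem T)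
    | some true => exact Q.kr_mem he (Q.one_mem T)
  have hid : ∀ k, CauchyV_e S S' T e f k * CauchyV_e S S' T e f k = CauchyV_e S S' T e f k := by
    intro k
    match k with
    | none => exact Matrix.one_mul _
    | some false =>
      show kr f (1 : Matrix (T → α) (T → α) K) * kr f (1 : Matrix (T → α) (T → α) K) =
        kr f (1 : Matrix (T → α) (T → α) K)
      rw [kr_mul, hf2, Matrix.one_mul]
    | some true =>
      show kr e (1 : Matrix (T → α) (T → α) K) * kr e (1 : Matrix (T → α) (T → α) K) =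
        kr e (1 : Matrix (T → α) (T → α) K)
      rw [kr_mul, he2, Matrix.one_mul]
  obtain ⟨n, ρ, hρ⟩ := Q.gram_P (CauchyV_U S S' T) (CauchyV_e S S' T e f) hmem hid
  refine ⟨n, ρ none, ρ (some false), ρ (some true), ?_, ?_, ?_, ?_, ?_, ?_⟩
  · rw [← hρ none none]
    exact Q.Two_sand_one T
  · rw [← hρ (some false) none]
    rfl
  · rw [← hρ (some true) none]
    rfl
  · rw [← hρ (some true) (some false)]
    exact Q.cod_sand_eq'
  · rw [← hρ (some false) (some false)]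
    exact Q.cod_sand_eq'
  · rw [← hρ (some true) (some true)]
    exact Q.cod_sand_eq'

theorem CauchyV_le [Nonempty α] {e : Matrix (S → α) (S → α) K}
    (he : e ∈ Q.P S S) (he2 : e * e = e) :
    Q.pT T (kr (adj Q.g Q.g' e) e) ≤ (e.rank : ℝ) ^ 2 * Q.a T T := by
  have h1 := Q.pT_le (T := T) (Q.kr_mem (Q.adj_mem he) he)
    (by rw [kr_mul, adj_idem Q.g'g he2, he2])
  rw [rank_kr_idem (adj_idem Q.g'g he2) he2, rank_adj_idem Q.g'g he2, Nat.cast_mul, ← sq] at h1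
  exact h1

theorem virt [Nonempty α] {e : Matrix (S → α) (S → α) K} {f : Matrix (S' → α) (S' → α) K}
    (he : e ∈ Q.P S S) (hf : f ∈ Q.P S' S') (he2 : e * e = e) (hf2 : f * f = f) :
    ((f.rank : ℝ) * Q.pT T e - Q.pT T (kr (adj Q.g Q.g' f) e)) ^ 2 ≤
      2 * f.rank * (f.rank * Q.a T T - Q.pT T f) * ((e.rank : ℝ) ^ 2 * Q.a T T) := by
  obtain ⟨n, v₀, v₁, v₂, h00, h10, h20, h21, h11, h22⟩ := Q.CauchyV_gram (T := T) he hf he2 hf2
  have hle1 := Q.CauchyV_le (T := T) hf hf2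
  have hle2 := Q.CauchyV_le (T := T) he he2
  set r : ℝ := (f.rank : ℝ) with hr
  have hcs := Finset.sum_mul_sq_le_sq_mul_sq Finset.univ v₂ (fun i => r * v₀ i - v₁ i)
  have e1 : ∑ i, v₂ i * (r * v₀ i - v₁ i) =
      r * Q.pT T e - Q.pT T (kr (adj Q.g Q.g' f) e) := by
    rw [← h20, ← h21, Finset.mul_sum, ← Finset.sum_sub_distrib]
    exact Finset.sum_congr rfl fun i _ => by ring
  have e2 : ∑ i, (r * v₀ i - v₁ i) ^ 2 =
      r ^ 2 * Q.a T T - 2 * r * Q.pT T f + Q.pT T (kr (adj Q.g Q.g' f) f) := by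
    rw [← h00, ← h10, ← h11, Finset.mul_sum, Finset.mul_sum, ← Finset.sum_sub_distrib,
      ← Finset.sum_add_distrib]
    exact Finset.sum_congr rfl fun i _ => by ring
  have e3 : ∑ i, v₂ i ^ 2 = Q.pT T (kr (adj Q.g Q.g' e) e) := by
    rw [← h22]
    exact Finset.sum_congr rfl fun i _ => by ring
  rw [e1] at hcs
  have h3 : ∑ i, (r * v₀ i - v₁ i) ^ 2 ≤ 2 * r * (r * Q.a T T - Q.pT T f) := by
    rw [e2]
    nlinarith
  have h4 : 0 ≤ ∑ i, (r * v₀ i - v₁ i) ^ 2 := Finset.sum_nonneg fun i _ => sq_nonneg _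
  have h5 : 0 ≤ ∑ i, v₂ i ^ 2 := Finset.sum_nonneg fun i _ => sq_nonneg _
  calc (r * Q.pT T e - Q.pT T (kr (adj Q.g Q.g' f) e)) ^ 2
      ≤ (∑ i, v₂ i ^ 2) * ∑ i, (r * v₀ i - v₁ i) ^ 2 := hcs
    _ ≤ ((e.rank : ℝ) ^ 2 * Q.a T T) * (2 * r * (r * Q.a T T - Q.pT T f)) := by
        rw [e3] at h5 ⊢
        exact mul_le_mul hle2 h3 h4 (h5.trans hle2)
    _ = 2 * r * (r * Q.a T T - Q.pT T f) * ((e.rank : ℝ) ^ 2 * Q.a T T) := by ring

end Sys

end ZO
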