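import Pool.Agent.W_b4801b_h57.ChDefs

set_option autoImplicit false

/-!
# `gS R` is a Lie algebra normalized by `G`

`gS_lie`: `dtp_lie`, `Stb.mul`, `Stb.sub`.
`gS_conj`: let `U` be stable under `Γ` of finite index.  `U' := {v | tp (R σ) v ∈ U}` (a `comap`) is stable under
`σ⁻¹ Γ σ` (finite index; e.g. `Γ.map (MulAut.conj σ⁻¹).toMonoidHom` or a `comap`), as
`tp (R σ) tp (R τ) v = tp (R (σ τ σ⁻¹)) tp (R σ) v`; so `dtp Y` preserves `U'`.  For `u ∈ U` the vector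
`v := tp (R σ⁻¹) u` is in `U'`, so `tp (R σ) dtp Y tp (R σ⁻¹) u ∈ U`, and `tp (R σ) dtp Y = dtp (R σ Y R σ⁻¹) tp (R σ)`
by `tp_mul_dtp`.
`gS_stb`: `a = 1`, `U = {v | (fun i => v (fun _ => i)) ∈ W}`; `tp 1 A I J = A (I 0) (J 0)`, `dtp 1 Y I J = Y (I 0) (J 0)`.
-/

noncomputable section

namespace Pool.Agent.B4801bC

open Pool.Agent.B4801bT

variable {K : Type*} [Field K] {n : ℕ} {G : Type*} [Group G]

theorem gS_lie (R : G →* Mat n K) {X Y : Mat n K} (hX : X ∈ gS R) (hY : Y ∈ gS R) :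
    X * Y - Y * X ∈ gS R := by
  intro a U hU
  rw [dtp_lie]
  exact ((hX a U hU).mul (hY a U hU)).sub ((hY a U hU).mul (hX a U hU))

theorem gS_conj (R : G →* Mat n K) {Y : Mat n K} (hY : Y ∈ gS R) (σ : G) :
    R σ * Y * R σ⁻¹ ∈ gS R := by
  intro a U hU
  obtain ⟨Γ, hΓ, hst⟩ := hU
  have hσ1 : R σ * R σ⁻¹ = 1 := by rw [← map_mul, mul_inv_cancel, map_one]
  have hσ2 : R σ⁻¹ * R σ = 1 := by rw [← map_mul, inv_mul_cancel, map_one]
  have hAB : tp a (R σ) * tp a (R σ⁻¹) = 1 := by rw [← tp_mul, hσ1, tp_one]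
  have hpot : Pot R a (U.comap (Matrix.toLin' (tp a (R σ)))) := by
    refine ⟨Γ.comap (MulAut.conj σ).toMonoidHom, ?_, ?_⟩
    · refine ⟨?_⟩
      rw [Subgroup.index_comap_of_surjective _ (MulAut.conj σ).surjective]
      exact hΓ.index_ne_zero
    · intro τ hτ v hv
      have hτ' : σ * τ * σ⁻¹ ∈ Γ := hτ
      have hv' : (tp a (R σ)).mulVec v ∈ U := hv
      change (tp a (R σ)).mulVec ((tp a (R τ)).mulVec v) ∈ U
      have h1 : tp a (R σ) * tp a (R τ) = tp a (R (σ * τ * σ⁻¹)) * tp a (R σ) := by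
        rw [← tp_mul, ← tp_mul, ← map_mul, ← map_mul, inv_mul_cancel_right]
      rw [Matrix.mulVec_mulVec, h1, ← Matrix.mulVec_mulVec]
      exact hst _ hτ' _ hv'
  have hYU := hY a _ hpot
  intro u hu
  have h2 : dtp a (R σ * Y * R σ⁻¹) = tp a (R σ) * dtp a Y * tp a (R σ⁻¹) := by
    have h3 : tp a (R σ) * dtp a Y = dtp a (R σ * Y * R σ⁻¹) * tp a (R σ) := by
      refine tp_mul_dtp a _ _ _ ?_
      rw [mul_assoc (R σ * Y), hσ2, mul_one]
    rw [h3, mul_assoc (dtp a (R σ * Y * R σ⁻¹)), hAB, mul_one]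
  rw [h2, mul_assoc (tp a (R σ)), ← Matrix.mulVec_mulVec, ← Matrix.mulVec_mulVec]
  have h4 : (tp a (R σ⁻¹)).mulVec u ∈ U.comap (Matrix.toLin' (tp a (R σ))) := by
    change (tp a (R σ)).mulVec ((tp a (R σ⁻¹)).mulVec u) ∈ U
    rw [Matrix.mulVec_mulVec, hAB, Matrix.one_mulVec]
    exact hu
  exact hYU _ h4

/-- restriction of a function on words of length one to the letters -/
def ChLie_res (K : Type*) [Field K] (n : ℕ) : ((Fin 1 → Fin n) → K) →ₗ[K] (Fin n → K) :=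
  LinearMap.funLeft K K (fun (i : Fin n) (_ : Fin 1) => i)

theorem ChLie_res_apply (v : (Fin 1 → Fin n) → K) (i : Fin n) :
    ChLie_res K n v i = v (fun _ => i) := rfl

theorem ChLie_sum (f : (Fin 1 → Fin n) → K) :
    ∑ J, f J = ∑ j : Fin n, f (fun _ => j) := by
  refine Fintype.sum_equiv (Equiv.funUnique (Fin 1) (Fin n)) _ _ fun J => ?_
  congr 1
  funext i
  rw [Subsingleton.elim i 0]
  rfl

theorem ChLie_tp (M : Mat n K) (v : (Fin 1 → Fin n) → K) :
    ChLie_res K n ((tp 1 M).mulVec v) = M.mulVec (ChLie_res K n v) := by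
  funext i
  rw [ChLie_res_apply]
  simp only [Matrix.mulVec, dotProduct]
  rw [ChLie_sum]
  refine Finset.sum_congr rfl fun j _ => ?_
  rw [ChLie_res_apply]
  simp [tp]

theorem ChLie_dtp (M : Mat n K) (v : (Fin 1 → Fin n) → K) :
    ChLie_res K n ((dtp 1 M).mulVec v) = M.mulVec (ChLie_res K n v) := by
  funext i
  rw [ChLie_res_apply]
  simp only [Matrix.mulVec, dotProduct]
  rw [ChLie_sum]
  refine Finset.sum_congr rfl fun j _ => ?_
  rw [ChLie_res_apply]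
  have h : dtp 1 M (fun _ => i) (fun _ => j) = M i j := by
    simp only [dtp, Fin.sum_univ_one]
    rw [if_pos]
    intro k hk
    exact absurd (Subsingleton.elim k 0) hk
  rw [h]

theorem gS_stb (R : G →* Mat n K) {Y : Mat n K} (hY : Y ∈ gS R) (W : Submodule K (Fin n → K))
    (Γ : Subgroup G) (hΓ : Γ.FiniteIndex) (hW : ∀ σ ∈ Γ, Stb (R σ) W) : Stb Y W := by
  have hpot : Pot R 1 (W.comap (ChLie_res K n)) := by
    refine ⟨Γ, hΓ, fun σ hσ v hv => ?_⟩
    have hv' : ChLie_res K n v ∈ W := hv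
    change ChLie_res K n ((tp 1 (R σ)).mulVec v) ∈ W
    rw [ChLie_tp]
    exact hW σ hσ _ hv'
  intro w hw
  have h1 : ChLie_res K n (fun J => w (J 0)) = w := rfl
  have h2 := hY 1 _ hpot (fun J => w (J 0)) (by
    change ChLie_res K n (fun J => w (J 0)) ∈ W
    rw [h1]
    exact hw)
  have h3 : ChLie_res K n ((dtp 1 Y).mulVec (fun J => w (J 0))) ∈ W := h2
  rw [ChLie_dtp, h1] at h3
  exact h3

end Pool.Agent.B4801bC
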