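import Pool.Agent.W_b4801b_h32.TpNil

set_option autoImplicit false

/-!
# Chevalley's theorem on tensor products: the Lie algebra of the potentially stable subspaces

`G` a group, `R : G → M_n(K)` multiplicative.  `gS R` is the set of the matrices `Y` such that for all `a` the
derivation `dtp a Y` preserves every subspace of the `a`-th tensor power which is stable under a subgroup of
finite index.
-/

noncomputable section

namespace Pool.Agent.B4801bC

open Pool.Agent.B4801bT

variable {K : Type*} [Field K] {n : ℕ} {G : Type*} [Group G]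

/-- The subspace `U` is stable under the matrix `M`. -/
def Stb {ι : Type*} [Fintype ι] (M : Matrix ι ι K) (U : Submodule K (ι → K)) : Prop :=
  ∀ v ∈ U, M.mulVec v ∈ U

section

variable {ι : Type*} [Fintype ι]

theorem stb_toLin [DecidableEq ι] (M : Matrix ι ι K) (U : Submodule K (ι → K)) :
    Stb M U ↔ ∀ v ∈ U, (Matrix.toLin' M : Module.End K (ι → K)) v ∈ U := Iff.rfl

theorem Stb.add {M N : Matrix ι ι K} {U : Submodule K (ι → K)} (hM : Stb M U) (hN : Stb N U) :
    Stb (M + N) U := by
  intro v hv
  rw [Matrix.add_mulVec]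
  exact U.add_mem (hM v hv) (hN v hv)

theorem Stb.sub {M N : Matrix ι ι K} {U : Submodule K (ι → K)} (hM : Stb M U) (hN : Stb N U) :
    Stb (M - N) U := by
  intro v hv
  rw [Matrix.sub_mulVec]
  exact U.sub_mem (hM v hv) (hN v hv)

theorem Stb.mul {M N : Matrix ι ι K} {U : Submodule K (ι → K)} (hM : Stb M U) (hN : Stb N U) :
    Stb (M * N) U := by
  intro v hv
  rw [← Matrix.mulVec_mulVec]
  exact hM _ (hN v hv)

theorem Stb.smul {M : Matrix ι ι K} {U : Submodule K (ι → K)} (hM : Stb M U) (c : K) :
    Stb (c • M) U := by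
  intro v hv
  rw [Matrix.smul_mulVec]
  exact U.smul_mem c (hM v hv)

theorem stb_zero (U : Submodule K (ι → K)) : Stb (0 : Matrix ι ι K) U := by
  intro v _
  rw [Matrix.zero_mulVec]
  exact U.zero_mem

theorem stb_one [DecidableEq ι] (U : Submodule K (ι → K)) : Stb (1 : Matrix ι ι K) U := by
  intro v hv
  rw [Matrix.one_mulVec]
  exact hv

theorem Stb.pow [DecidableEq ι] {M : Matrix ι ι K} {U : Submodule K (ι → K)} (hM : Stb M U)
    (j : ℕ) : Stb (M ^ j) U := by
  induction j with
  | zero => rw [pow_zero]; exact stb_one U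
  | succ j ih => rw [pow_succ]; exact ih.mul hM

end

/-- The subspace `U` of the `a`-th tensor power is stable under a subgroup of finite index of `G`. -/
def Pot (R : G →* Mat n K) (a : ℕ) (U : Submodule K ((Fin a → Fin n) → K)) : Prop :=
  ∃ Γ : Subgroup G, Γ.FiniteIndex ∧ ∀ σ ∈ Γ, Stb (tp a (R σ)) U

/-- The matrices whose derivations of the tensor powers preserve all subspaces which are stable under a
subgroup of finite index. -/
def gS (R : G →* Mat n K) : Submodule K (Mat n K) where
  carrier := {Y | ∀ (a : ℕ) (U : Submodule K ((Fin a → Fin n) → K)), Pot R a U → Stb (dtp a Y) U}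
  add_mem' := fun {X Y} hX hY a U hU => by
    rw [dtp_add]
    exact (hX a U hU).add (hY a U hU)
  zero_mem' := fun a U _ => by
    rw [dtp_zero]
    exact stb_zero U
  smul_mem' := fun c Y hY a U hU => by
    rw [dtp_smul]
    exact (hY a U hU).smul c

/-- `Y ↦ dtp a Y` as a linear map to the endomorphisms of the tensor power. -/
def dtpL (K : Type*) [Field K] (n a : ℕ) :
    Mat n K →ₗ[K] Module.End K ((Fin a → Fin n) → K) where
  toFun Y := Matrix.toLin' (dtp a Y)
  map_add' X Y := by rw [dtp_add, map_add]
  map_smul' c Y := by rw [dtp_smul, map_smul, RingHom.id_apply]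

/-- the image of `gS R` on the `a`-th tensor power -/
def gT (R : G →* Mat n K) (a : ℕ) : Submodule K (Module.End K ((Fin a → Fin n) → K)) :=
  (gS R).map (dtpL K n a)

end Pool.Agent.B4801bC
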