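import Pool.Agent.W_b4801b_h32.ParEngel
import Pool.Agent.W_b4801b_h57.ChDefs

set_option autoImplicit false

/-!
# Spaces of nilpotent matrices normalized by a semisimple group

Let every `R`-stable subspace of `K ^ n` have an `R`-stable complement (`hss`), and let `u` be a space of nilpotent
matrices closed under commutators, with `R σ * x * R σ⁻¹ ∈ u` for `x ∈ u`, which preserve all `R`-stable subspaces.
Then `u = ⊥`.
Proof.  `u ^ k = ⊥` for some `k` (`ParEngel_pow`; `u ^ k` is the span of the products of `k` elements of `u`); take the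
minimal `k`.  `k ≥ 1` if `n > 0` (for `n = 0` everything is zero).  Suppose `k ≥ 2`.  `F := {v | x v = 0 for all x ∈ u}` is
`R`-stable: `x (R σ v) = R σ (R σ⁻¹ x R σ) v = 0`.  Let `F'` be an `R`-stable complement; it is stable under `u`.  For
`p ∈ u ^ (k - 1)`, `v ∈ F'`: `p v ∈ F'` (`Submodule.pow_induction_on..`, products preserve `F'`), and `x (p v) = 0` for `x ∈ u`
as `x p ∈ u ^ k`; so `p v ∈ F ⊓ F' = 0`.  For `v ∈ F`: `p v = 0` as `k - 1 ≥ 1`.  So `u ^ (k - 1) = ⊥`, contradiction.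
So `k = 1` and `u = ⊥`.
-/

noncomputable section

namespace Pool.Agent.B4801bC

open Pool.Agent.B4801bT

variable {K : Type*} [Field K] {n : ℕ} {G : Type*} [Group G]

/-- The vectors killed by all elements of `u`. -/
def ChNil_F (u : Submodule K (Mat n K)) : Submodule K (Fin n → K) where
  carrier := {v | ∀ x ∈ u, x.mulVec v = 0}
  add_mem' := by
    intro a b ha hb x hx
    rw [Matrix.mulVec_add, ha x hx, hb x hx, add_zero]
  zero_mem' := by
    intro x _
    exact Matrix.mulVec_zero x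
  smul_mem' := by
    intro c a ha x hx
    rw [Matrix.mulVec_smul, ha x hx, smul_zero]

theorem ChNil_stb (R : G →* Mat n K) (u : Submodule K (Mat n K))
    (hconj : ∀ σ, ∀ x ∈ u, R σ * x * R σ⁻¹ ∈ u) (σ : G) : Stb (R σ) (ChNil_F u) := by
  intro v hv x hx
  have h1 : R σ * (R σ⁻¹ * x * R (σ⁻¹)⁻¹) = x * R σ := by
    rw [inv_inv, ← mul_assoc, ← mul_assoc, ← map_mul, mul_inv_cancel, map_one, one_mul]
  rw [Matrix.mulVec_mulVec, ← h1, ← Matrix.mulVec_mulVec, hv _ (hconj σ⁻¹ x hx),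
    Matrix.mulVec_zero]

theorem ChNil_pow (u : Submodule K (Mat n K)) (W : Submodule K (Fin n → K))
    (h : ∀ x ∈ u, Stb x W) (j : ℕ) : ∀ p ∈ u ^ j, Stb p W := by
  induction j with
  | zero =>
    intro p hp
    rw [pow_zero] at hp
    obtain ⟨c, rfl⟩ := Submodule.mem_one.1 hp
    rw [Algebra.algebraMap_eq_smul_one]
    exact (stb_one W).smul c
  | succ j ih =>
    intro p hp
    rw [pow_succ'] at hp
    refine Submodule.mul_induction_on hp ?_ ?_
    · intro x hx q hq
      exact (h x hx).mul (ih q hq)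
    · intro a b ha hb
      exact ha.add hb

theorem ChNil_step (R : G →* Mat n K)
    (hss : ∀ W : Submodule K (Fin n → K), (∀ σ, Stb (R σ) W) →
      ∃ W' : Submodule K (Fin n → K), (∀ σ, Stb (R σ) W') ∧ IsCompl W W')
    (u : Submodule K (Mat n K))
    (hst : ∀ x ∈ u, ∀ W : Submodule K (Fin n → K), (∀ σ, Stb (R σ) W) → Stb x W)
    (hconj : ∀ σ, ∀ x ∈ u, R σ * x * R σ⁻¹ ∈ u) (k : ℕ) (hk : u ^ (k + 2) = ⊥) :
    u ^ (k + 1) = ⊥ := by
  obtain ⟨W', hW', hc⟩ := hss (ChNil_F u) (ChNil_stb R u hconj)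
  rw [eq_bot_iff]
  intro p hp
  rw [Submodule.mem_bot]
  have h1 : ∀ v ∈ ChNil_F u, p.mulVec v = 0 := by
    intro v hv
    rw [pow_succ] at hp
    refine Submodule.mul_induction_on hp ?_ ?_
    · intro q _ x hx
      rw [← Matrix.mulVec_mulVec, hv x hx, Matrix.mulVec_zero]
    · intro a b ha hb
      rw [Matrix.add_mulVec, ha, hb, add_zero]
  have h2 : ∀ v ∈ W', p.mulVec v = 0 := by
    intro v hv
    have h3 : p.mulVec v ∈ W' := ChNil_pow u W' (fun x hx => hst x hx W' hW') (k + 1) p hp v hv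
    have h4 : p.mulVec v ∈ ChNil_F u := by
      intro x hx
      have h5 : x * p ∈ u ^ (k + 2) := by
        rw [pow_succ']
        exact Submodule.mul_mem_mul hx hp
      rw [hk, Submodule.mem_bot] at h5
      rw [Matrix.mulVec_mulVec, h5, Matrix.zero_mulVec]
    exact (Submodule.disjoint_def.1 hc.disjoint) _ h4 h3
  apply Matrix.toLin'.injective
  rw [map_zero]
  refine LinearMap.ext fun v => ?_
  rw [Matrix.toLin'_apply, LinearMap.zero_apply]
  have h6 : v ∈ ChNil_F u ⊔ W' := by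
    rw [hc.sup_eq_top]
    exact Submodule.mem_top
  obtain ⟨a, ha, b, hb, rfl⟩ := Submodule.mem_sup.1 h6
  rw [Matrix.mulVec_add, h1 a ha, h2 b hb, add_zero]

theorem eq_bot_of_nil (R : G →* Mat n K)
    (hss : ∀ W : Submodule K (Fin n → K), (∀ σ, Stb (R σ) W) →
      ∃ W' : Submodule K (Fin n → K), (∀ σ, Stb (R σ) W') ∧ IsCompl W W')
    (u : Submodule K (Mat n K))
    (hst : ∀ x ∈ u, ∀ W : Submodule K (Fin n → K), (∀ σ, Stb (R σ) W) → Stb x W)
    (hlie : ∀ x ∈ u, ∀ y ∈ u, x * y - y * x ∈ u) (hnil : ∀ x ∈ u, IsNilpotent x)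
    (hconj : ∀ σ, ∀ x ∈ u, R σ * x * R σ⁻¹ ∈ u) : u = ⊥ := by
  obtain ⟨k, hk⟩ := ParEngel_pow u hnil hlie
  have key : ∀ j : ℕ, u ^ (j + 1) = ⊥ → u = ⊥ := by
    intro j
    induction j with
    | zero =>
      intro h
      rwa [zero_add, pow_one] at h
    | succ j ih =>
      intro h
      exact ih (ChNil_step R hss u hst hconj j h)
  refine key k ?_
  rw [pow_succ, hk, Submodule.bot_mul]

end Pool.Agent.B4801bC
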