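import Pool.Agent.W_b4801b_h32.RepTensor
import Pool.Agent.W_b4801b_h57.ChDefs

set_option autoImplicit false

/-!
# Replicas

`isRep_diag`: copy of `RepTensor_isRep` (RepTensor.lean) for a general index type and `A = s + m`.  For `v` in the
generalized eigenspace of `A` for `μ`: `(s - μ) ^ k v = 0` for some `k` (`A - s` is nilpotent and commutes with `s`), so
`s v = μ v` (`s` is diagonalizable), so `(P' v) i = 0` unless `d i = μ`, and `diag(f d) P' v = f μ P' v`.

`gS_replica`: let `U` be stable under a subgroup of finite index.  `dtp Y = dtp s + dtp m`, the summands commute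
(`dtp_lie`, `dtp_zero`), `dtp m` is nilpotent (`dtp_isNilpotent`), `dtp s * tp P = tp P * diagonal (∑ d)` (`tp_mul_dtp`,
`dtp_diagonal`), `tp P * tp P' = 1` (`tp_mul`, `tp_one`).  By `isRep_diag` and `IsRep.mapsTo` `U` is stable under
`tp P * diagonal (f (∑ d)) * tp P'`, which is `dtp (P diag(f d) P')` (`f` additive; `tp_mul_dtp` with
`P * D = (P D P') * P`).

`gS_log`: some power `σ ^ N`, `N > 0`, is in `Γ` (`Subgroup.exists_pow_mem_of_index_ne_zero`), so `U` is stable under
`C = tp ((R σ) ^ N) = tp (s ^ N) * tp ((1 + x) ^ N) = S + S (tp ((1 + x) ^ N) - 1)`, `S = tp (s ^ N)`,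
`(1 + x) ^ N = 1 + x'` with `x'` nilpotent, `tp_sub_one_isNilpotent`; `S * tp P = tp P * diagonal (∏ d ^ N)`.
`d i ≠ 0` as `R σ` is invertible.  `isRep_diag` with `f`, `f (∏ d ^ N) = N ∑ f d` (`RepTensor_log_prod`,
`RepTensor_log_pow`): `U` is stable under `N • dtp (P diag(f d) P')`, divide by `N`.
-/

noncomputable section

namespace Pool.Agent.B4801bC

open Pool.Agent.B4801bT

variable {K : Type*} [Field K] [IsAlgClosed K] [CharZero K] {n : ℕ} {G : Type*} [Group G]

/-- if `M` and a nilpotent `Z` commute and `M ^ k v = 0`, then a power of `M - Z` kills `v`. -/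
theorem ChRep_kill {ι : Type*} [Fintype ι] [DecidableEq ι] (M Z : Matrix ι ι K) (hc : Commute M Z)
    (hZ : IsNilpotent Z) (k : ℕ) (v : ι → K) (hv : (M ^ k).mulVec v = 0) :
    ∃ k', ((M - Z) ^ k').mulVec v = 0 := by
  obtain ⟨l, hl⟩ := hZ
  refine ⟨k + l, ?_⟩
  have hc' : Commute M (-Z) := hc.neg_right
  rw [sub_eq_add_neg, hc'.add_pow, Matrix.sum_mulVec]
  apply Finset.sum_eq_zero
  intro m _
  rcases le_or_gt k m with hm | hm
  · obtain ⟨r, rfl⟩ := Nat.exists_eq_add_of_le hm
    have h1 : M ^ (k + r) * (-Z) ^ (k + l - (k + r)) * ((k + l).choose (k + r) : Matrix ι ι K) =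
        ((k + l).choose (k + r) : Matrix ι ι K) * ((-Z) ^ (k + l - (k + r)) * M ^ r) * M ^ k := by
      have h2 : Commute (((k + l).choose (k + r) : Matrix ι ι K))
          (M ^ (k + r) * (-Z) ^ (k + l - (k + r))) := Nat.cast_commute _ _
      have h4 : M ^ (k + r) = M ^ r * M ^ k := by rw [add_comm, pow_add]
      rw [← h2.eq, (hc'.pow_pow (k + r) (k + l - (k + r))).eq, h4]
      simp only [mul_assoc]
    rw [h1, ← Matrix.mulVec_mulVec, hv, Matrix.mulVec_zero]
  · have h1 : (-Z) ^ (k + l - m) = 0 := by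
      have h2 : k + l - m = l + (k - m) := by omega
      have h3 : (-Z) ^ l = 0 := by rw [neg_pow, hl, mul_zero]
      rw [h2, pow_add, h3, zero_mul]
    rw [h1, mul_zero, zero_mul, Matrix.zero_mulVec]

/-- the derivation of `P diag(e) P'`. -/
theorem ChRep_dtp (a : ℕ) (P P' : Mat n K) (hPP' : P * P' = 1) (hP'P : P' * P = 1) (e : Fin n → K) :
    dtp a (P * Matrix.diagonal e * P') =
      tp a P * Matrix.diagonal (fun I : Fin a → Fin n => ∑ i, e (I i)) * tp a P' := by
  have h1 : P * Matrix.diagonal e = (P * Matrix.diagonal e * P') * P := by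
    rw [mul_assoc, hP'P, mul_one]
  have h2 := tp_mul_dtp a P _ _ h1
  rw [dtp_diagonal] at h2
  rw [h2, mul_assoc (dtp a _), ← tp_mul, hPP', tp_one, mul_one]

theorem isRep_diag {ι : Type*} [Fintype ι] [DecidableEq ι] (A s m P P' : Matrix ι ι K) (d : ι → K)
    (f : K → K) (hm : IsNilpotent m) (hc : Commute s m) (h : A = s + m) (hPP' : P * P' = 1)
    (hP'P : P' * P = 1) (hsP : s * P = P * Matrix.diagonal d) :
    IsRep f (Matrix.toLin' A) (Matrix.toLin' (P * Matrix.diagonal (fun i => f (d i)) * P')) := by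
  intro μ v hv
  rw [Module.End.mem_maxGenEigenspace] at hv
  obtain ⟨k, hk⟩ := hv
  have e1 : (Matrix.toLin' A - μ • (1 : Module.End K (ι → K))) ^ k =
      Matrix.toLin' ((A - μ • 1) ^ k) := by
    rw [Matrix.toLin'_pow, map_sub, map_smul, Matrix.toLin'_one]
    rfl
  rw [e1, Matrix.toLin'_apply] at hk
  have hcz : Commute (A - μ • (1 : Matrix ι ι K)) m := by
    have h1 : Commute A m := by
      rw [h]
      exact hc.add_left (Commute.refl m)
    refine h1.sub_left ?_
    exact (Commute.one_left m).smul_left μ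
  obtain ⟨k', hk'⟩ := ChRep_kill (A - μ • (1 : Matrix ι ι K)) m hcz hm k v hk
  have e2 : A - μ • (1 : Matrix ι ι K) - m = s - μ • (1 : Matrix ι ι K) := by
    rw [h]
    abel
  rw [e2] at hk'
  have e3 : ∀ m : ℕ, P' * (s - μ • (1 : Matrix ι ι K)) ^ m =
      Matrix.diagonal (fun i => (d i - μ) ^ m) * P' := by
    have e4 : P' * (s - μ • (1 : Matrix ι ι K)) = Matrix.diagonal (fun i => d i - μ) * P' := by
      have e5 : Matrix.diagonal (fun i => d i - μ) =
          Matrix.diagonal d - μ • (1 : Matrix ι ι K) := by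
        rw [Matrix.smul_one_eq_diagonal, Matrix.diagonal_sub]
      have e6 : P' * s = Matrix.diagonal d * P' := by
        calc P' * s = P' * (s * P) * P' := by rw [mul_assoc, mul_assoc, hPP', mul_one]
          _ = Matrix.diagonal d * P' := by rw [hsP, ← mul_assoc P', hP'P, one_mul]
      rw [e5, mul_sub, sub_mul, e6, Matrix.mul_smul, Matrix.smul_mul, mul_one, one_mul]
    intro m
    induction m with
    | zero => simp
    | succ m ih =>
      rw [pow_succ, ← mul_assoc, ih, mul_assoc, e4, ← mul_assoc, Matrix.diagonal_mul_diagonal]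
      congr 2
      funext i
      rw [pow_succ]
  have e7 : (Matrix.diagonal (fun i => (d i - μ) ^ k')).mulVec (P'.mulVec v) = 0 := by
    rw [Matrix.mulVec_mulVec, ← e3, ← Matrix.mulVec_mulVec, hk', Matrix.mulVec_zero]
  have e8 : (Matrix.diagonal (fun i => f (d i))).mulVec (P'.mulVec v) = f μ • P'.mulVec v := by
    funext i
    have e9 := congrFun e7 i
    rw [Matrix.mulVec_diagonal, Pi.zero_apply, mul_eq_zero] at e9
    rw [Matrix.mulVec_diagonal, Pi.smul_apply, smul_eq_mul]
    rcases e9 with e9 | e9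
    · have h0 : k' ≠ 0 := by
        rintro rfl
        simp at e9
      rw [sub_eq_zero.1 ((pow_eq_zero_iff h0).1 e9)]
    · rw [e9, mul_zero, mul_zero]
  rw [Matrix.toLin'_apply, ← Matrix.mulVec_mulVec, ← Matrix.mulVec_mulVec, e8,
    Matrix.mulVec_smul, Matrix.mulVec_mulVec, hPP', Matrix.one_mulVec]

theorem gS_replica (R : G →* Mat n K) {Y s m P P' : Mat n K} {d : Fin n → K} (f : K →+ K)
    (hY : Y ∈ gS R) (hm : IsNilpotent m) (hc : Commute s m) (h : Y = s + m) (hPP' : P * P' = 1)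
    (hP'P : P' * P = 1) (hsP : s * P = P * Matrix.diagonal d) :
    P * Matrix.diagonal (fun i => f (d i)) * P' ∈ gS R := by
  intro a U hU
  have h1 : Stb (dtp a Y) U := hY a U hU
  have hcd : Commute (dtp a s) (dtp a m) := by
    have h2 := dtp_lie a s m
    rw [hc.eq, sub_self, dtp_zero] at h2
    exact (sub_eq_zero.1 h2.symm)
  have hT1 : tp a P * tp a P' = 1 := by rw [← tp_mul, hPP', tp_one]
  have hT2 : tp a P' * tp a P = 1 := by rw [← tp_mul, hP'P, tp_one]
  have hTs : dtp a s * tp a P = tp a P *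
      Matrix.diagonal (fun I : Fin a → Fin n => ∑ i, d (I i)) := by
    rw [← tp_mul_dtp a P (Matrix.diagonal d) s hsP.symm, dtp_diagonal]
  have h3 := isRep_diag (dtp a Y) (dtp a s) (dtp a m) (tp a P) (tp a P')
    (fun I : Fin a → Fin n => ∑ i, d (I i)) f (dtp_isNilpotent a m hm) hcd
    (by rw [h, dtp_add]) hT1 hT2 hTs
  rw [ChRep_dtp a P P' hPP' hP'P, stb_toLin]
  have h4 : (fun I : Fin a → Fin n => ∑ i, f (d (I i))) =
      fun I : Fin a → Fin n => f (∑ i, d (I i)) := by
    funext I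
    rw [map_sum]
  rw [h4]
  exact h3.mapsTo U ((stb_toLin _ _).1 h1)

theorem gS_semi (R : G →* Mat n K) {Y s m : Mat n K} (hY : Y ∈ gS R) (hs : Diagonalizable s)
    (hm : IsNilpotent m) (hc : Commute s m) (h : Y = s + m) : s ∈ gS R ∧ m ∈ gS R := by
  obtain ⟨P, d, hP, hsP⟩ := id hs
  obtain ⟨P', hPP', hP'P⟩ : ∃ P' : Mat n K, P * P' = 1 ∧ P' * P = 1 := by
    obtain ⟨u, rfl⟩ := hP
    exact ⟨↑u⁻¹, u.mul_inv, u.inv_mul⟩
  have h1 := gS_replica R (AddMonoidHom.id K) hY hm hc h hPP' hP'P hsP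
  have h2 : P * Matrix.diagonal (fun i => (AddMonoidHom.id K) (d i)) * P' = s := by
    show P * Matrix.diagonal d * P' = s
    rw [← hsP, mul_assoc, hPP', mul_one]
  rw [h2] at h1
  refine ⟨h1, ?_⟩
  have h3 : m = Y - s := by
    rw [h]
    abel
  rw [h3]
  exact (gS R).sub_mem hY h1

theorem gS_log (R : G →* Mat n K) (σ : G) {s x P P' : Mat n K} {d : Fin n → K} {f : K → K}
    (hf : IsLog f) (hx : IsNilpotent x) (hc : Commute s x) (h : R σ = s * (1 + x))
    (hPP' : P * P' = 1) (hP'P : P' * P = 1) (hsP : s * P = P * Matrix.diagonal d) :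
    P * Matrix.diagonal (fun i => f (d i)) * P' ∈ gS R := by
  intro a U hU
  obtain ⟨Γ, hΓ, hst⟩ := hU
  obtain ⟨N, hN, _, hσN⟩ := Subgroup.exists_pow_mem_of_index_ne_zero hΓ.index_ne_zero σ
  have h1 := hst _ hσN
  rw [map_pow] at h1
  -- the numbers d i are not zero
  have hu : IsUnit s := by
    have h2 : R σ * R σ⁻¹ = 1 := by rw [← map_mul, mul_inv_cancel, map_one]
    rw [h, mul_assoc] at h2
    exact IsUnit.of_mul_eq_one _ h2
  have hd : ∀ i, d i ≠ 0 := by
    have h1 : Matrix.diagonal d = P' * s * P := by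
      rw [mul_assoc, hsP, ← mul_assoc, hP'P, one_mul]
    have h2 : IsUnit (Matrix.diagonal d) := by
      rw [h1]
      exact ((IsUnit.of_mul_eq_one _ hP'P).mul hu).mul (IsUnit.of_mul_eq_one _ hPP')
    have h3 := (Matrix.isUnit_iff_isUnit_det _).1 h2
    rw [Matrix.det_diagonal, isUnit_iff_ne_zero, Finset.prod_ne_zero_iff] at h3
    exact fun i => h3 i (Finset.mem_univ i)
  have hT1 : tp a P * tp a P' = 1 := by rw [← tp_mul, hPP', tp_one]
  have hT2 : tp a P' * tp a P = 1 := by rw [← tp_mul, hP'P, tp_one]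
  have hsN : s ^ N * P = P * Matrix.diagonal (fun i => d i ^ N) := RepTensor_pow_diag s P d hsP N
  have hTs : tp a (s ^ N) * tp a P = tp a P *
      Matrix.diagonal (fun I : Fin a → Fin n => ∏ i, d (I i) ^ N) := by
    rw [← tp_mul, hsN, tp_mul, tp_diagonal]
  have hc1 : Commute s (1 + x) := (Commute.one_right s).add_right hc
  have hAN : tp a ((R σ) ^ N) = tp a (s ^ N) * tp a ((1 + x) ^ N) := by
    rw [h, hc1.mul_pow, tp_mul]
  have hnil : IsNilpotent (tp a ((1 + x) ^ N) - 1) := by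
    have h1 : IsNilpotent ((1 + x) ^ N - 1) := by
      rw [← geom_sum_mul, add_sub_cancel_left]
      have h5 : Commute (∑ i ∈ Finset.range N, (1 + x) ^ i) x :=
        Commute.sum_left _ _ _ fun i _ =>
          (((Commute.one_left x).add_left (Commute.refl x)).pow_left i)
      exact h5.isNilpotent_mul_left hx
    have h2 : (1 + x) ^ N = 1 + ((1 + x) ^ N - 1) := by abel
    rw [h2]
    exact tp_sub_one_isNilpotent a _ h1
  have hcomm : Commute (tp a (s ^ N)) (tp a ((1 + x) ^ N) - 1) := by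
    refine Commute.sub_right ?_ (Commute.one_right _)
    show tp a (s ^ N) * tp a ((1 + x) ^ N) = tp a ((1 + x) ^ N) * tp a (s ^ N)
    rw [← tp_mul, ← tp_mul, (hc1.pow_pow N N).eq]
  have hrep := isRep_diag (tp a ((R σ) ^ N)) (tp a (s ^ N))
    (tp a (s ^ N) * (tp a ((1 + x) ^ N) - 1)) (tp a P) (tp a P')
    (fun I : Fin a → Fin n => ∏ i, d (I i) ^ N) f (hcomm.isNilpotent_mul_left hnil)
    ((Commute.refl _).mul_right hcomm) (by rw [hAN, mul_sub, mul_one]; abel) hT1 hT2 hTs
  have h7 : ∀ I : Fin a → Fin n, f (∏ i, d (I i) ^ N) = N * ∑ i, f (d (I i)) := by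
    intro I
    rw [RepTensor_log_prod hf Finset.univ (fun i => d (I i) ^ N)
      (fun i => pow_ne_zero N (hd _)), Finset.mul_sum]
    exact Finset.sum_congr rfl fun i _ => RepTensor_log_pow hf _ (hd _) N
  have h8 := hrep.mapsTo U ((stb_toLin _ _).1 h1)
  rw [← stb_toLin] at h8
  have h9 : tp a P * Matrix.diagonal (fun I : Fin a → Fin n => f (∏ i, d (I i) ^ N)) * tp a P' =
      (N : K) • dtp a (P * Matrix.diagonal (fun i => f (d i)) * P') := by
    rw [ChRep_dtp a P P' hPP' hP'P, ← Matrix.smul_mul, ← Matrix.mul_smul, ← Matrix.diagonal_smul]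
    congr 3
    funext I
    rw [h7]
    rfl
  rw [h9] at h8
  have hN0 : (N : K) ≠ 0 := by exact_mod_cast hN.ne'
  have h10 := h8.smul (N : K)⁻¹
  rwa [smul_smul, inv_mul_cancel₀ hN0, one_smul] at h10

end Pool.Agent.B4801bC
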