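import Pool.Agent.W_b4801b_h57.ChRep

set_option autoImplicit false

/-!
# Elements of the radical of the trace form are nilpotent

Let `a ≥ 1`, `Y ∈ gS R` with `tr (dtp a Y * dtp a Z) = 0` for all `Z ∈ gS R`.  Then `Y` is nilpotent.
Proof.  `Y = s + m` (`exists_jordan`), `s P = P diag(d)`, `P' = P⁻¹`.  Let `φ : K → ℚ` be `ℚ`-linear, `f := algebraMap ℚ K ∘ φ`
(additive), `Z := P diag(f d) P' ∈ gS R` (`gS_replica`).  `Z` commutes with `m` (conjugate by `P`: `P' m P` commutes with
`diag(d)`, so with `diag(f d)`: its entry `(i, j)` is zero unless `d i = d j`), so `dtp m` commutes with `dtp Z`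
(`dtp_lie`, `dtp_zero`), `dtp m * dtp Z` is nilpotent (`dtp_isNilpotent`) and has trace zero
(`Matrix.isNilpotent_trace_of_isNilpotent`, reduced ring).  `tr (dtp s * dtp Z) = ∑_I c_I f(c_I)` with `c_I = ∑ d (I i)`: both are
`tp P * diagonal .. * tp P'` (`Matrix.trace_mul_comm`).  So `0 = ∑_I c_I (φ(c_I) : K)`; apply `φ`: `0 = ∑_I φ(c_I) ^ 2` in `ℚ`, so
`φ(c_I) = 0` for all `I`, all `φ`.  So `c_I = 0` (linear forms separate), for constant words `I`: `a d_j = 0`, `d_j = 0`
(`a ≥ 1`).  So `s = 0`, `Y = m`.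
-/

noncomputable section

namespace Pool.Agent.B4801bC

open Pool.Agent.B4801bT

variable {K : Type*} [Field K] [IsAlgClosed K] [CharZero K] {n : ℕ} {G : Type*} [Group G]

theorem ChTr_comm {m s P P' : Mat n K} {d : Fin n → K} (f : K → K) (hc : Commute s m)
    (hPP' : P * P' = 1) (hP'P : P' * P = 1) (hsP : s * P = P * Matrix.diagonal d) :
    Commute m (P * Matrix.diagonal (fun i => f (d i)) * P') := by
  have e6 : P' * s = Matrix.diagonal d * P' := by
    calc P' * s = P' * (s * P) * P' := by rw [mul_assoc, mul_assoc, hPP', mul_one]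
      _ = Matrix.diagonal d * P' := by rw [hsP, ← mul_assoc P', hP'P, one_mul]
  have h1 : Matrix.diagonal d * (P' * m * P) = P' * m * P * Matrix.diagonal d := by
    calc Matrix.diagonal d * (P' * m * P) = (Matrix.diagonal d * P') * m * P := by
          simp only [mul_assoc]
      _ = P' * (s * m) * P := by rw [← e6]; simp only [mul_assoc]
      _ = P' * m * (s * P) := by rw [hc.eq]; simp only [mul_assoc]
      _ = P' * m * P * Matrix.diagonal d := by rw [hsP]; simp only [mul_assoc]
  have h2 : Matrix.diagonal (fun i => f (d i)) * (P' * m * P) =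
      P' * m * P * Matrix.diagonal (fun i => f (d i)) := by
    ext i j
    have h3 := congrFun (congrFun h1 i) j
    rw [Matrix.diagonal_mul, Matrix.mul_diagonal] at h3
    rw [Matrix.diagonal_mul, Matrix.mul_diagonal]
    by_cases hij : d i = d j
    · rw [hij, mul_comm]
    · have h4 : (d i - d j) * (P' * m * P) i j = 0 := by
        rw [sub_mul, h3]
        ring
      rcases mul_eq_zero.1 h4 with h5 | h5
      · exact absurd (sub_eq_zero.1 h5) hij
      · rw [h5, mul_zero, zero_mul]
  show m * (P * Matrix.diagonal (fun i => f (d i)) * P') =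
    P * Matrix.diagonal (fun i => f (d i)) * P' * m
  calc m * (P * Matrix.diagonal (fun i => f (d i)) * P') =
        P * (P' * m * P * Matrix.diagonal (fun i => f (d i))) * P' := by
        have h5 : m = P * P' * m := by rw [hPP', one_mul]
        conv_lhs => rw [h5]
        simp only [mul_assoc]
    _ = P * Matrix.diagonal (fun i => f (d i)) * P' * m * (P * P') := by
        rw [← h2]
        simp only [mul_assoc]
    _ = P * Matrix.diagonal (fun i => f (d i)) * P' * m := by rw [hPP', mul_one]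

theorem ChTr_word (R : G →* Mat n K) {a : ℕ} {Y s m P P' : Mat n K} {d : Fin n → K}
    (hY : Y ∈ gS R) (hm : IsNilpotent m) (hc : Commute s m) (hYs : Y = s + m) (hPP' : P * P' = 1)
    (hP'P : P' * P = 1) (hsP : s * P = P * Matrix.diagonal d)
    (h : ∀ Z ∈ gS R, (dtp a Y * dtp a Z).trace = 0) (φ : Module.Dual ℚ K) (I : Fin a → Fin n) :
    φ (∑ i, d (I i)) = 0 := by
  let f : K →+ K := (algebraMap ℚ K).toAddMonoidHom.comp φ.toAddMonoidHom
  have hf : ∀ x, f x = algebraMap ℚ K (φ x) := fun x => rfl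
  have hZ := gS_replica R f hY hm hc hYs hPP' hP'P hsP
  have h0 := h _ hZ
  have hcm := ChTr_comm (m := m) (s := s) (P := P) (P' := P') (d := d) f hc hPP' hP'P hsP
  have hcd : Commute (dtp a m) (dtp a (P * Matrix.diagonal (fun i => f (d i)) * P')) := by
    have h2 := dtp_lie a m (P * Matrix.diagonal (fun i => f (d i)) * P')
    rw [hcm.eq, sub_self, dtp_zero] at h2
    exact (sub_eq_zero.1 h2.symm)
  have h3 : (dtp a m * dtp a (P * Matrix.diagonal (fun i => f (d i)) * P')).trace = 0 :=
    (Matrix.isNilpotent_trace_of_isNilpotent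
      (hcd.isNilpotent_mul_right (dtp_isNilpotent a m hm))).eq_zero
  have hsd : s = P * Matrix.diagonal d * P' := by
    rw [← hsP, mul_assoc, hPP', mul_one]
  rw [hYs, dtp_add, add_mul, Matrix.trace_add, h3, add_zero, hsd, ChRep_dtp a P P' hPP' hP'P,
    ChRep_dtp a P P' hPP' hP'P] at h0
  have hT2 : tp a P' * tp a P = 1 := by rw [← tp_mul, hP'P, tp_one]
  have h4 : (tp a P * Matrix.diagonal (fun I : Fin a → Fin n => ∑ i, d (I i)) * tp a P') *
      (tp a P * Matrix.diagonal (fun I : Fin a → Fin n => ∑ i, f (d (I i))) * tp a P') =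
      tp a P * (Matrix.diagonal (fun I : Fin a → Fin n => (∑ i, d (I i)) * ∑ i, f (d (I i))) *
        tp a P') := by
    calc _ = tp a P * (Matrix.diagonal (fun I : Fin a → Fin n => ∑ i, d (I i)) *
          ((tp a P' * tp a P) * (Matrix.diagonal (fun I : Fin a → Fin n => ∑ i, f (d (I i))) *
            tp a P'))) := by simp only [mul_assoc]
      _ = _ := by
          rw [hT2, one_mul, ← mul_assoc (Matrix.diagonal _), Matrix.diagonal_mul_diagonal]
  rw [h4, Matrix.trace_mul_comm, mul_assoc, hT2, mul_one, Matrix.trace_diagonal] at h0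
  have h5 : ∑ I : Fin a → Fin n, (φ (∑ i, d (I i))) ^ 2 = 0 := by
    have h6 := congrArg φ h0
    rw [map_zero, map_sum] at h6
    rw [← h6]
    refine Finset.sum_congr rfl fun J _ => ?_
    rw [← map_sum f, hf, mul_comm, ← Algebra.smul_def, map_smul, smul_eq_mul, sq]
  have h7 := (Finset.sum_eq_zero_iff_of_nonneg (fun J _ => sq_nonneg _)).1 h5 I (Finset.mem_univ I)
  exact pow_eq_zero_iff (two_ne_zero) |>.1 h7

theorem nilpotent_of_trace (R : G →* Mat n K) {a : ℕ} (ha : 1 ≤ a) {Y : Mat n K} (hY : Y ∈ gS R)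
    (h : ∀ Z ∈ gS R, (dtp a Y * dtp a Z).trace = 0) : IsNilpotent Y := by
  obtain ⟨s, m, hs, hm, hc, hYs⟩ := exists_jordan Y
  obtain ⟨P, d, hP, hsP⟩ := id hs
  obtain ⟨P', hPP', hP'P⟩ : ∃ P' : Mat n K, P * P' = 1 ∧ P' * P = 1 := by
    obtain ⟨u, rfl⟩ := hP
    exact ⟨↑u⁻¹, u.mul_inv, u.inv_mul⟩
  have hd0 : ∀ j, d j = 0 := by
    intro j
    have h1 : ∀ φ : Module.Dual ℚ K, φ ((a : K) * d j) = 0 := by
      intro φ
      have h2 := ChTr_word R hY hm hc hYs hPP' hP'P hsP h φ (fun _ => j)
      rwa [Finset.sum_const, Finset.card_univ, Fintype.card_fin, nsmul_eq_mul] at h2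
    have h2 := (Module.forall_dual_apply_eq_zero_iff ℚ ((a : K) * d j)).1 h1
    rcases mul_eq_zero.1 h2 with h3 | h3
    · exfalso
      have h4 : a = 0 := by exact_mod_cast h3
      omega
    · exact h3
  have hs0 : s = 0 := by
    have h1 : s * P = 0 := by
      rw [hsP, funext hd0]
      ext i j
      simp
    calc s = s * P * P' := by rw [mul_assoc, hPP', mul_one]
      _ = 0 := by rw [h1, zero_mul]
  rw [hYs, hs0, zero_add]
  exact hm

end Pool.Agent.B4801bC
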