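import Pool.Agent.W_b4801b_h32.LieDefs
import Pool.Agent.W_b4801b_h57.ChLie
import Pool.Agent.W_b4801b_h57.ChRep
import Pool.Agent.W_b4801b_h57.ChNil
import Pool.Agent.W_b4801b_h57.ChTr

set_option autoImplicit false

/-!
# The image of `gS R` on a tensor power is algebraic with nondegenerate trace form

`AlgLie (gT R a)` for `a ≥ 1` if every `R`-stable subspace of `K ^ n` has an `R`-stable complement.
* `lie`: `dtp_lie`, `gS_lie` (`Matrix.toLin'_mul`).
* `nil`: let `toLin' (dtp Y) = S + M`, `Y ∈ gS R`.  `Y = s + m` (`exists_jordan`), `dtp Y = dtp s + dtp m` is a Jordan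
  decomposition (`Diagonalizable.dtp`, `diagonalizable_iff`, `dtp_isNilpotent`, `dtp_lie`), so `M = toLin' (dtp m)` by uniqueness
  (Mathlib or `IsRep.unique` with `f = id`: both `S` and `toLin' (dtp s)` are `IsRep id`), and `m ∈ gS R` (`gS_semi`).
* `nondeg`: `u := {Y ∈ gS R | tr (dtp Y * dtp Z) = 0 for all Z ∈ gS R}` is zero by `eq_bot_of_nil`: it is a subspace, stable
  under commutators with `gS R` (`tr ([X, Y] Z) = tr (X [Y, Z])`), its elements are nilpotent (`nilpotent_of_trace`), it is normalized by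
  `R σ` (`gS_conj`, `dtp (R σ Y R σ⁻¹) = tp (R σ) dtp Y tp (R σ⁻¹)`), and its elements preserve the `R`-stable subspaces (`gS_stb`
  with `Γ = ⊤`).  For `x = toLin' (dtp Y)` in the radical: `Y ∈ u` (`Matrix.trace_toLin'_eq`, `Matrix.toLin'_mul`), so `x = 0`.
-/

noncomputable section

namespace Pool.Agent.B4801bC

open Pool.Agent.B4801bT

variable {K : Type*} [Field K] [IsAlgClosed K] [CharZero K] {n : ℕ} {G : Type*} [Group G]

omit [IsAlgClosed K] [CharZero K] in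
theorem ChAlg_toLin_mul {ι : Type*} [Fintype ι] [DecidableEq ι] (A B : Matrix ι ι K) :
    (Matrix.toLin' (A * B) : Module.End K (ι → K))
      = (Matrix.toLin' A : Module.End K (ι → K)) * Matrix.toLin' B := by
  rw [Matrix.toLin'_mul]
  rfl

omit [IsAlgClosed K] [CharZero K] in
theorem ChAlg_dtpL (a : ℕ) (Y : Mat n K) :
    dtpL K n a Y = (Matrix.toLin' (dtp a Y) : Module.End K ((Fin a → Fin n) → K)) := rfl

omit [IsAlgClosed K] [CharZero K] in
theorem ChAlg_dtpL_lie (a : ℕ) (X Y : Mat n K) :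
    dtpL K n a X * dtpL K n a Y - dtpL K n a Y * dtpL K n a X = dtpL K n a (X * Y - Y * X) := by
  rw [ChAlg_dtpL, ChAlg_dtpL, ChAlg_dtpL, dtp_lie, map_sub, ChAlg_toLin_mul, ChAlg_toLin_mul]

/-- the radical of the trace form of the `a`-th tensor power on `gS R` -/
def ChAlg_rad (R : G →* Mat n K) (a : ℕ) : Submodule K (Mat n K) where
  carrier := {Y | Y ∈ gS R ∧ ∀ Z ∈ gS R, (dtp a Y * dtp a Z).trace = 0}
  add_mem' := fun {X Y} hX hY => ⟨(gS R).add_mem hX.1 hY.1, fun Z hZ => by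
    rw [dtp_add, add_mul, Matrix.trace_add, hX.2 Z hZ, hY.2 Z hZ, add_zero]⟩
  zero_mem' := ⟨(gS R).zero_mem, fun Z _ => by
    rw [dtp_zero, zero_mul, Matrix.trace_zero]⟩
  smul_mem' := fun c Y hY => ⟨(gS R).smul_mem c hY.1, fun Z hZ => by
    rw [dtp_smul, smul_mul_assoc, Matrix.trace_smul, hY.2 Z hZ, smul_zero]⟩

omit [IsAlgClosed K] [CharZero K] in
theorem ChAlg_trace {ι : Type*} [Fintype ι] (X Y Z : Matrix ι ι K) :
    ((X * Y - Y * X) * Z).trace = (X * (Y * Z - Z * Y)).trace := by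
  rw [sub_mul, mul_sub, Matrix.trace_sub, Matrix.trace_sub]
  congr 1
  · rw [mul_assoc]
  · rw [Matrix.mul_assoc Y X Z, Matrix.trace_mul_comm Y (X * Z), mul_assoc]

omit [IsAlgClosed K] [CharZero K] in
theorem ChAlg_rad_lie (R : G →* Mat n K) (a : ℕ) {x y : Mat n K} (hx : x ∈ ChAlg_rad R a)
    (hy : y ∈ gS R) : x * y - y * x ∈ ChAlg_rad R a := by
  refine ⟨gS_lie R hx.1 hy, fun Z hZ => ?_⟩
  rw [dtp_lie, ChAlg_trace, ← dtp_lie]
  exact hx.2 _ (gS_lie R hy hZ)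

omit [IsAlgClosed K] [CharZero K] in
theorem ChAlg_rad_conj (R : G →* Mat n K) (a : ℕ) (σ : G) {x : Mat n K}
    (hx : x ∈ ChAlg_rad R a) : R σ * x * R σ⁻¹ ∈ ChAlg_rad R a := by
  have hσ1 : R σ * R σ⁻¹ = 1 := by rw [← map_mul, mul_inv_cancel, map_one]
  have hσ2 : R σ⁻¹ * R σ = 1 := by rw [← map_mul, inv_mul_cancel, map_one]
  have hAB : tp a (R σ) * tp a (R σ⁻¹) = 1 := by rw [← tp_mul, hσ1, tp_one]
  refine ⟨gS_conj R hx.1 σ, fun Z hZ => ?_⟩
  have h2 : dtp a (R σ * x * R σ⁻¹) = tp a (R σ) * dtp a x * tp a (R σ⁻¹) := by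
    have h3 : tp a (R σ) * dtp a x = dtp a (R σ * x * R σ⁻¹) * tp a (R σ) := by
      refine tp_mul_dtp a _ _ _ ?_
      rw [mul_assoc (R σ * x), hσ2, mul_one]
    rw [h3, mul_assoc (dtp a (R σ * x * R σ⁻¹)), hAB, mul_one]
  have h4 : R σ⁻¹ * Z * R σ ∈ gS R := by
    have h5 := gS_conj R hZ σ⁻¹
    rwa [inv_inv] at h5
  have h6 : tp a (R σ⁻¹) * dtp a Z = dtp a (R σ⁻¹ * Z * R σ) * tp a (R σ⁻¹) := by
    refine tp_mul_dtp a _ _ _ ?_
    rw [mul_assoc (R σ⁻¹ * Z), hσ1, mul_one]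
  have hBA : tp a (R σ⁻¹) * tp a (R σ) = 1 := by rw [← tp_mul, hσ2, tp_one]
  rw [h2, mul_assoc (tp a (R σ) * dtp a x), h6, mul_assoc (tp a (R σ)), Matrix.trace_mul_comm,
    mul_assoc (dtp a x), mul_assoc (dtp a (R σ⁻¹ * Z * R σ)), hBA, mul_one]
  exact hx.2 _ h4

theorem ChAlg_rad_bot (R : G →* Mat n K)
    (hss : ∀ W : Submodule K (Fin n → K), (∀ σ, Stb (R σ) W) →
      ∃ W' : Submodule K (Fin n → K), (∀ σ, Stb (R σ) W') ∧ IsCompl W W')
    {a : ℕ} (ha : 1 ≤ a) : ChAlg_rad R a = ⊥ := by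
  refine eq_bot_of_nil R hss _ ?_ ?_ ?_ ?_
  · intro x hx W hW
    exact gS_stb R hx.1 W ⊤ inferInstance fun σ _ => hW σ
  · intro x hx y hy
    exact ChAlg_rad_lie R a hx hy.1
  · intro x hx
    exact nilpotent_of_trace R ha hx.1 hx.2
  · intro σ x hx
    exact ChAlg_rad_conj R a σ hx

theorem algLie_gT (R : G →* Mat n K)
    (hss : ∀ W : Submodule K (Fin n → K), (∀ σ, Stb (R σ) W) →
      ∃ W' : Submodule K (Fin n → K), (∀ σ, Stb (R σ) W') ∧ IsCompl W W')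
    {a : ℕ} (ha : 1 ≤ a) : AlgLie (gT R a) := by
  refine ⟨?_, ?_, ?_⟩
  · rintro _ ⟨X, hX, rfl⟩ _ ⟨Y, hY, rfl⟩
    exact ⟨X * Y - Y * X, gS_lie R hX hY, (ChAlg_dtpL_lie a X Y).symm⟩
  · rintro _ ⟨Y, hY, rfl⟩ S M hS hM hc hSM
    obtain ⟨s, m, hs, hm, hsm, hYsm⟩ := exists_jordan Y
    refine ⟨m, (gS_semi R hY hs hm hsm hYsm).2, ?_⟩
    have hc' : Commute (dtpL K n a m) (dtpL K n a s) := by
      have h1 := ChAlg_dtpL_lie a m s
      rw [← hsm.eq, sub_self, map_zero] at h1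
      exact sub_eq_zero.mp h1
    have hnil : IsNilpotent (dtpL K n a m) := by
      have h1 := (dtp_isNilpotent a m hm).map
        (Matrix.toLinAlgEquiv' (R := K) (n := Fin a → Fin n))
      exact h1
    have hss' : (dtpL K n a s).IsSemisimple :=
      (diagonalizable_iff _).1 (Diagonalizable.dtp a s hs)
    have hsum : dtpL K n a m + dtpL K n a s = M + S := by
      rw [← map_add, add_comm m s, ← hYsm, add_comm M S]
      exact hSM
    exact (Module.End.isNilpotent_isSemisimple_unique hnil hss' hM hS hc' hc.symm hsum).1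
  · rintro _ ⟨Y, hY, rfl⟩ hrad
    have hYu : Y ∈ ChAlg_rad R a := by
      refine ⟨hY, fun Z hZ => ?_⟩
      have h1 := hrad (dtpL K n a Z) ⟨Z, hZ, rfl⟩
      rw [ChAlg_dtpL, ChAlg_dtpL, ← ChAlg_toLin_mul, Matrix.trace_toLin'_eq] at h1
      exact h1
    rw [ChAlg_rad_bot R hss ha] at hYu
    rw [(Submodule.mem_bot K).mp hYu, map_zero]

end Pool.Agent.B4801bC
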