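import Mathlib

set_option autoImplicit false

/-!
# Averaging a projection over a subgroup of finite index

`ρ : G →* End V`, `K` of characteristic zero, `U` a stable subspace, `Γ` a subgroup of finite index, `P` a projection onto `U` which
commutes with `Γ`.  Then there is a projection onto `U` which commutes with `G`.
Proof.  See `exists_proj_descent` in `Pool/Agent/W_b4801b_h32/Descent.lean` (same proof, without the descent): for `c ∈ G ⧸ Γ`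
let `Q c := ρ σ * P * ρ σ⁻¹`, `σ = c.out`; it depends only on `c`: for `τ = σ γ`, `γ ∈ Γ`: `ρ τ P ρ τ⁻¹ = ρ σ P ρ σ⁻¹`.  `P₀ := (1 / m)
∑_c Q c`, `m = #(G ⧸ Γ) ≠ 0`.  `ρ τ * Q c * ρ τ⁻¹ = Q (τ • c)`, so `P₀` commutes with `ρ τ`.  `Q c` maps `V` into `U` and fixes `U`.
-/

noncomputable section

namespace Pool.Agent.B4801bC

theorem average {K : Type*} [Field K] [CharZero K] {V : Type*} [AddCommGroup V] [Module K V]
    {G : Type*} [Group G] (ρ : G →* Module.End K V) (Γ : Subgroup G) (hΓ : Γ.FiniteIndex)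
    (U : Submodule K V) (hU : ∀ σ, ∀ v ∈ U, ρ σ v ∈ U) (P : Module.End K V)
    (hP1 : ∀ v, P v ∈ U) (hP2 : ∀ v ∈ U, P v = v) (hP3 : ∀ σ ∈ Γ, Commute P (ρ σ)) :
    ∃ P₀ : Module.End K V, (∀ v, P₀ v ∈ U) ∧ (∀ v ∈ U, P₀ v = v) ∧
      ∀ σ, Commute P₀ (ρ σ) := by
  classical
  haveI := hΓ
  haveI : Fintype (G ⧸ Γ) := Subgroup.fintypeQuotientOfFiniteIndex
  have hinv1 : ∀ σ : G, ρ σ * ρ σ⁻¹ = 1 := fun σ => by rw [← map_mul, mul_inv_cancel, map_one]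
  have hinv2 : ∀ σ : G, ρ σ⁻¹ * ρ σ = 1 := fun σ => by rw [← map_mul, inv_mul_cancel, map_one]
  set Q : G ⧸ Γ → Module.End K V := fun c => ρ c.out * P * ρ (c.out)⁻¹ with hQ
  -- independence of the representative
  have hind : ∀ τ : G, Q (τ : G ⧸ Γ) = ρ τ * P * ρ τ⁻¹ := by
    intro τ
    have h1 : (((τ : G ⧸ Γ).out : G) : G ⧸ Γ) = (τ : G ⧸ Γ) := QuotientGroup.out_eq' _
    have h2 : ((τ : G ⧸ Γ).out)⁻¹ * τ ∈ Γ := QuotientGroup.eq.mp h1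
    set σ : G := (τ : G ⧸ Γ).out with hσ
    obtain ⟨γ, hγ, hτ⟩ : ∃ γ ∈ Γ, τ = σ * γ := ⟨σ⁻¹ * τ, h2, by group⟩
    have hc : P * ρ γ = ρ γ * P := hP3 γ hγ
    change ρ σ * P * ρ σ⁻¹ = ρ τ * P * ρ τ⁻¹
    calc ρ σ * P * ρ σ⁻¹ = ρ σ * (P * (ρ γ * ρ γ⁻¹)) * ρ σ⁻¹ := by rw [hinv1, mul_one]
      _ = ρ σ * ((P * ρ γ) * ρ γ⁻¹) * ρ σ⁻¹ := by rw [mul_assoc P]
      _ = ρ σ * ((ρ γ * P) * ρ γ⁻¹) * ρ σ⁻¹ := by rw [hc]
      _ = (ρ σ * ρ γ) * P * (ρ γ⁻¹ * ρ σ⁻¹) := by simp only [mul_assoc]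
      _ = ρ (σ * γ) * P * ρ (γ⁻¹ * σ⁻¹) := by rw [map_mul, map_mul]
      _ = ρ τ * P * ρ τ⁻¹ := by rw [hτ, mul_inv_rev]
  have hconj : ∀ (τ : G) (c : G ⧸ Γ), ρ τ * Q c = Q (τ • c) * ρ τ := by
    intro τ c
    have h1 : ((c.out : G) : G ⧸ Γ) = c := QuotientGroup.out_eq' _
    have h2 : τ • c = ((τ * c.out : G) : G ⧸ Γ) := by
      conv_lhs => rw [← h1]
      rfl
    rw [h2, hind]
    change ρ τ * (ρ c.out * P * ρ (c.out)⁻¹) = ρ (τ * c.out) * P * ρ (τ * c.out)⁻¹ * ρ τ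
    rw [mul_inv_rev, map_mul, map_mul]
    simp only [mul_assoc]
    rw [hinv2, mul_one]
  have hQU : ∀ c v, Q c v ∈ U := by
    intro c v
    change ρ c.out (P (ρ (c.out)⁻¹ v)) ∈ U
    exact hU _ _ (hP1 _)
  have hQfix : ∀ c, ∀ v ∈ U, Q c v = v := by
    intro c v hv
    change ρ c.out (P (ρ (c.out)⁻¹ v)) = v
    rw [hP2 _ (hU _ _ hv)]
    change (ρ c.out * ρ (c.out)⁻¹) v = v
    rw [hinv1]; rfl
  have hm : ((Fintype.card (G ⧸ Γ) : ℕ) : K) ≠ 0 :=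
    Nat.cast_ne_zero.mpr Fintype.card_ne_zero
  refine ⟨((Fintype.card (G ⧸ Γ) : ℕ) : K)⁻¹ • ∑ c, Q c, ?_, ?_, ?_⟩
  · intro v
    rw [LinearMap.smul_apply, LinearMap.sum_apply]
    exact U.smul_mem _ (U.sum_mem fun c _ => hQU c v)
  · intro v hv
    rw [LinearMap.smul_apply, LinearMap.sum_apply, Finset.sum_congr rfl fun c _ => hQfix c v hv,
      Finset.sum_const, Finset.card_univ, ← Nat.cast_smul_eq_nsmul K, smul_smul,
      inv_mul_cancel₀ hm, one_smul]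
  · intro τ
    have hs : ρ τ * ∑ c, Q c = (∑ c, Q c) * ρ τ := by
      rw [Finset.mul_sum, Finset.sum_mul]
      calc ∑ c, ρ τ * Q c = ∑ c, Q (τ • c) * ρ τ := Finset.sum_congr rfl fun c _ => hconj τ c
        _ = ∑ c, Q c * ρ τ :=
          Equiv.sum_comp (MulAction.toPerm τ : (G ⧸ Γ) ≃ (G ⧸ Γ)) (fun c => Q c * ρ τ)
    have : Commute (ρ τ) (∑ c, Q c) := hs
    exact (this.smul_right _).symm

end Pool.Agent.B4801bC
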