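import Pool.Agent.W_b4801b_h57.ChLgTp

set_option autoImplicit false

/-!
# Recovering the tensor power of a group element from its replica and logarithm

`A = s (1 + x)`, `s P = P diag(d)`, `P P' = P' P = 1`, `f` an abstract logarithm, `d i ≠ 0`, injective on the eigenvalues
`∏ d (I i)` of `tp a s`.  Let `Q` commute with `dtp a (P diag(f d) P')` and with `dtp a (lg x)`.  Then `Q` commutes with
`tp a A`.
Proof.  `tp A = tp s * tp (1 + x)`.  `Q` commutes with `tp (1 + x)` by `commute_tp_unip` (`x ^ n = 0`, `RepTensor_pow`).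
`dtp (P diag(f d) P') = tp P * diagonal (∑ f (d (I i))) * tp P'` (`tp_mul_dtp`, `dtp_diagonal`, `tp_mul`, `tp_one`) and
`∑ f (d (I i)) = f (∏ d (I i))` (`RepTensor_log_prod`).  `tp s = tp P * diagonal (∏ d (I i)) * tp P'`.  So
`Q' := tp P' * Q * tp P` commutes with `diagonal (f ∘ p)`, `p I = ∏ d (I i)`: `Q' I J (f (p J) - f (p I)) = 0`.  So
`Q' I J = 0` or `p I = p J`: `Q'` commutes with `diagonal p`, and `Q` commutes with `tp s` (`RepTensor_conj`).
-/

noncomputable section

namespace Pool.Agent.B4801bC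

open Pool.Agent.B4801bT

variable {K : Type*} [Field K] [IsAlgClosed K] [CharZero K] {n : ℕ}

theorem commute_tp (a : ℕ) {A s x P P' : Mat n K} {d : Fin n → K} {f : K → K} (hf : IsLog f)
    (hx : IsNilpotent x) (h : A = s * (1 + x)) (hPP' : P * P' = 1) (hP'P : P' * P = 1)
    (hsP : s * P = P * Matrix.diagonal d) (hd : ∀ i, d i ≠ 0)
    (hinj : ∀ I J : Fin a → Fin n, f (∏ i, d (I i)) = f (∏ i, d (J i)) →
      ∏ i, d (I i) = ∏ i, d (J i))
    (Q : TMat a n K)
    (h1 : Commute Q (dtp a (P * Matrix.diagonal (fun i => f (d i)) * P')))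
    (h2 : Commute Q (dtp a (lg K n x))) : Commute Q (tp a A) := by
  have hu : Commute Q (tp a (1 + x)) := commute_tp_unip a x n (RepTensor_pow x hx) Q h2
  have hT1 : tp a P * tp a P' = 1 := by rw [← tp_mul, hPP', tp_one]
  have hT2 : tp a P' * tp a P = 1 := by rw [← tp_mul, hP'P, tp_one]
  have hTs : tp a s * tp a P = tp a P *
      Matrix.diagonal (fun I : Fin a → Fin n => ∏ i, d (I i)) := by
    rw [← tp_mul, hsP, tp_mul, tp_diagonal]
  have hTB : dtp a (P * Matrix.diagonal (fun i => f (d i)) * P') * tp a P = tp a P *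
      Matrix.diagonal (fun I : Fin a → Fin n => ∑ i, f (d (I i))) := by
    rw [← dtp_diagonal a (fun i => f (d i))]
    refine (tp_mul_dtp a P _ _ ?_).symm
    rw [mul_assoc, hP'P, mul_one]
  have h3 := (RepTensor_conj (tp a P) (tp a P') Q hT1 hT2 _ _ hTB).1 h1.symm
  have h4 : Commute (tp a s) Q := by
    rw [RepTensor_conj (tp a P) (tp a P') Q hT1 hT2 _ _ hTs]
    set t' := tp a P' * Q * tp a P with ht'
    show Matrix.diagonal _ * t' = t' * Matrix.diagonal _
    ext I J
    rw [Matrix.diagonal_mul, Matrix.mul_diagonal]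
    have h5 := congrFun (congrFun h3.eq I) J
    rw [Matrix.diagonal_mul, Matrix.mul_diagonal] at h5
    by_cases h6 : t' I J = 0
    · rw [h6, mul_zero, zero_mul]
    · have h7 : ∑ i, f (d (I i)) = ∑ i, f (d (J i)) := by
        have h8 : (∑ i, f (d (I i)) - ∑ i, f (d (J i))) * t' I J = 0 := by
          rw [sub_mul, h5]
          ring
        rcases mul_eq_zero.1 h8 with h9 | h9
        · exact sub_eq_zero.1 h9
        · exact absurd h9 h6
      have h10 : f (∏ i, d (I i)) = f (∏ i, d (J i)) := by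
        rw [RepTensor_log_prod hf Finset.univ (fun i => d (I i)) (fun i => hd _),
          RepTensor_log_prod hf Finset.univ (fun i => d (J i)) (fun i => hd _), h7]
      rw [hinj I J h10, mul_comm]
  rw [h, tp_mul]
  exact h4.symm.mul_right hu

end Pool.Agent.B4801bC
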