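import Pool.Agent.W_b4801b_h57.ChDefs

set_option autoImplicit false

/-!
# The trace form on the commutant of a semisimple representation

Let `K₀ ⊆ K` be fields of characteristic zero, `M σ` (`σ ∈ G`) matrices over `K₀` (index type `ι`), such that every subspace of
`K ^ ι` stable under all `M σ` (over `K`) is the image of a projection commuting with all `M σ`.  Let `z` be a matrix over `K₀` which
commutes with all `M σ`, with `tr (z f) = 0` for all `f` over `K₀` which commute with all `M σ`.  Then `z = 0`.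
Proof.  `z_K := z.map (algebraMap K₀ K)`, `T := toLin' z_K`.  `range T` and `ker T` are stable.  Let `P` be a projection onto `range T` and
`P'` one onto `ker T`, commuting with all `M σ`.  `C := ker P'` is stable, a complement of `ker T`, so `T` maps `C` bijectively
onto `range T`; let `h := (T|C)⁻¹ ∘ P` (values in `C`).  `h` commutes with all `M σ`, and `T h = P`, so
`tr (T h) = tr P = dim range T` (`LinearMap.IsProj.trace`, or `P` is a projection).  Let `H` be the matrix of `h`.  For every `K₀`-linear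
`φ : K → K₀` the matrix `H.map φ` commutes with all `M σ`, and `φ (tr (z_K H)) = tr (z (H.map φ)) = 0`.  So `tr (z_K H) = 0`, so
`dim range T = 0` (characteristic zero), `z_K = 0`, `z = 0`.
-/

noncomputable section

namespace Pool.Agent.B4801bC

theorem rad_zero {K₀ : Type*} [Field K₀] [CharZero K₀] {K : Type*} [Field K] [Algebra K₀ K]
    {ι : Type*} [Fintype ι] [DecidableEq ι] {G : Type*} (M : G → Matrix ι ι K₀)
    (hK : ∀ U : Submodule K (ι → K), (∀ σ, Stb ((M σ).map (algebraMap K₀ K)) U) →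
      ∃ P : Module.End K (ι → K), (∀ v, P v ∈ U) ∧ (∀ v ∈ U, P v = v) ∧
        ∀ σ, Commute P (Matrix.toLin' ((M σ).map (algebraMap K₀ K))))
    (z : Matrix ι ι K₀) (hz : ∀ σ, Commute z (M σ))
    (h : ∀ f : Matrix ι ι K₀, (∀ σ, Commute f (M σ)) → (z * f).trace = 0) : z = 0 := by
  have hchar : CharZero K := charZero_of_injective_algebraMap (algebraMap K₀ K).injective
  obtain ⟨T, hT⟩ : ∃ T : Module.End K (ι → K), T = Matrix.toLin' (z.map (algebraMap K₀ K)) :=
    ⟨_, rfl⟩
  have hmap : ∀ a b : Matrix ι ι K₀, (a * b).map (algebraMap K₀ K) =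
      a.map (algebraMap K₀ K) * b.map (algebraMap K₀ K) := fun a b => Matrix.map_mul
  have hTc : ∀ σ, Commute T (Matrix.toLin' ((M σ).map (algebraMap K₀ K))) := by
    intro σ
    show T * Matrix.toLin' ((M σ).map (algebraMap K₀ K)) =
      Matrix.toLin' ((M σ).map (algebraMap K₀ K)) * T
    rw [hT, Module.End.mul_eq_comp, Module.End.mul_eq_comp, ← Matrix.toLin'_mul,
      ← Matrix.toLin'_mul, ← hmap, ← hmap, (hz σ).eq]
  have hcomm : ∀ {A B : Module.End K (ι → K)}, Commute A B → ∀ v, A (B v) = B (A v) := by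
    intro A B hAB v
    exact LinearMap.congr_fun hAB.eq v
  obtain ⟨P, hP1, hP2, hP3⟩ := hK (LinearMap.range T) (by
    rintro σ v ⟨w, rfl⟩
    exact ⟨Matrix.toLin' ((M σ).map (algebraMap K₀ K)) w, hcomm (hTc σ) w⟩)
  obtain ⟨P', hP1', hP2', hP3'⟩ := hK (LinearMap.ker T) (by
    intro σ v hv
    rw [LinearMap.mem_ker] at hv ⊢
    have h1 := hcomm (hTc σ) v
    rw [hv, map_zero] at h1
    exact h1)
  obtain ⟨g, hg⟩ := T.rangeRestrict.exists_rightInverse_of_surjective T.range_rangeRestrict
  have hg' : ∀ u : LinearMap.range T, T (g u) = u := by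
    intro u
    have h1 := LinearMap.congr_fun hg u
    exact congrArg Subtype.val h1
  obtain ⟨Hh, hHh⟩ : ∃ Hh : Module.End K (ι → K), ∀ v, Hh v =
      g ⟨P v, hP1 v⟩ - P' (g ⟨P v, hP1 v⟩) :=
    ⟨(LinearMap.id - P') ∘ₗ g ∘ₗ (P.codRestrict (LinearMap.range T) hP1), fun v => rfl⟩
  have hTH : T * Hh = P := by
    refine LinearMap.ext fun v => ?_
    show T (Hh v) = P v
    rw [hHh, map_sub, hg', (LinearMap.mem_ker).1 (hP1' _), sub_zero]
  have hHc : ∀ σ, Commute Hh (Matrix.toLin' ((M σ).map (algebraMap K₀ K))) := by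
    intro σ
    obtain ⟨A, hA⟩ : ∃ A : Module.End K (ι → K), A = Matrix.toLin' ((M σ).map (algebraMap K₀ K)) :=
      ⟨_, rfl⟩
    have h1 := hTc σ
    have h2 := hP3 σ
    have h3 := hP3' σ
    rw [← hA] at h1 h2 h3 ⊢
    refine LinearMap.ext fun v => ?_
    show Hh (A v) = A (Hh v)
    rw [hHh, hHh, map_sub, ← hcomm h3 (g ⟨P v, hP1 v⟩)]
    have h4 : g ⟨P (A v), hP1 (A v)⟩ - A (g ⟨P v, hP1 v⟩) ∈ LinearMap.ker T := by
      rw [LinearMap.mem_ker, map_sub, hg', hcomm h1, hg']
      show P (A v) - A (P v) = 0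
      rw [hcomm h2, sub_self]
    have h5 := hP2' _ h4
    rw [map_sub] at h5
    have h6 : P' (g ⟨P (A v), hP1 (A v)⟩) = g ⟨P (A v), hP1 (A v)⟩ - A (g ⟨P v, hP1 v⟩) +
        P' (A (g ⟨P v, hP1 v⟩)) := by
      rw [← h5]
      abel
    rw [h6]
    abel
  have htr : Matrix.trace (z.map (algebraMap K₀ K) * LinearMap.toMatrix' Hh) =
      (Module.finrank K (LinearMap.range T) : K) := by
    have h1 : LinearMap.trace K (ι → K) P = (Module.finrank K (LinearMap.range T) : K) :=
      LinearMap.IsProj.trace ⟨hP1, hP2⟩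
    rw [← h1, ← hTH, LinearMap.trace_eq_matrix_trace K (Pi.basisFun K ι),
      LinearMap.toMatrix_eq_toMatrix', LinearMap.toMatrix'_mul, hT, LinearMap.toMatrix'_toLin']
  have hφ : ∀ φ : Module.Dual K₀ K,
      φ (Matrix.trace (z.map (algebraMap K₀ K) * LinearMap.toMatrix' Hh)) = 0 := by
    intro φ
    have hl : ∀ a : Matrix ι ι K₀, ∀ b : Matrix ι ι K,
        (a.map (algebraMap K₀ K) * b).map φ = a * b.map φ := by
      intro a b
      ext i j
      simp only [Matrix.map_apply, Matrix.mul_apply, map_sum]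
      refine Finset.sum_congr rfl fun k _ => ?_
      rw [← Algebra.smul_def, map_smul, smul_eq_mul]
    have hr : ∀ a : Matrix ι ι K₀, ∀ b : Matrix ι ι K,
        (b * a.map (algebraMap K₀ K)).map φ = b.map φ * a := by
      intro a b
      ext i j
      simp only [Matrix.map_apply, Matrix.mul_apply, map_sum]
      refine Finset.sum_congr rfl fun k _ => ?_
      rw [mul_comm, ← Algebra.smul_def, map_smul, smul_eq_mul, mul_comm]
    have h1 : φ (Matrix.trace (z.map (algebraMap K₀ K) * LinearMap.toMatrix' Hh)) =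
        Matrix.trace (z * (LinearMap.toMatrix' Hh).map φ) := by
      rw [← hl, Matrix.trace, Matrix.trace, map_sum]
      rfl
    rw [h1]
    apply h
    intro σ
    show (LinearMap.toMatrix' Hh).map φ * M σ = M σ * (LinearMap.toMatrix' Hh).map φ
    rw [← hl, ← hr]
    congr 1
    have h2 := congrArg LinearMap.toMatrix' (hHc σ).eq
    rw [Module.End.mul_eq_comp, Module.End.mul_eq_comp, LinearMap.toMatrix'_comp,
      LinearMap.toMatrix'_comp, LinearMap.toMatrix'_toLin'] at h2
    exact h2
  have hzero := (Module.forall_dual_apply_eq_zero_iff K₀ _).1 hφ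
  rw [htr, Nat.cast_eq_zero, Submodule.finrank_eq_zero, LinearMap.range_eq_bot, hT] at hzero
  have h7 : z.map (algebraMap K₀ K) = 0 := (LinearEquiv.map_eq_zero_iff Matrix.toLin').1 hzero
  ext i j
  have h8 := congrFun (congrFun h7 i) j
  rw [Matrix.map_apply, Matrix.zero_apply] at h8
  exact (map_eq_zero (algebraMap K₀ K)).1 h8

end Pool.Agent.B4801bC
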