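import Pool.Agent.W_b4801b_h32.RepTensor
import Pool.Agent.W_b4801b_h32.Sep
import Pool.Agent.W_b4801b_h57.ChDefs

set_option autoImplicit false

/-!
# The logarithm of the tensor power of a unipotent matrix

`lg_tp`: `x` nilpotent, `X := tp a (1 + x) - 1`, `X ^ M = 0`.  Then `lg K M X = dtp a (lg K m x)` for `x ^ m = 0`.
Proof.  Put `U_X(c) = ∑_{i ≤ M} binom(c, i) X ^ i`, a matrix over `K[c]` (as `LogTensor_U`, with the index type
`Fin a → Fin n`: copy the definition and the proofs of `LogTensor_U_nat`, `LogTensor_U_deriv` for a general index type).  At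
natural numbers `c = j`: `U_X(j) = (1 + X) ^ j = tp (1 + x) ^ j = tp ((1 + x) ^ j) = tp (LogTensor_U m x at j)`.  Both
`U_X(c)` and `tp a (LogTensor_U m x)` have polynomial entries, so they are equal (infinitely many values,
`Polynomial.eq_of_infinite_eval_eq`).  Take the derivative at `0`: `lg K M X` on the left, `dtp a (lg K m x)` on the right
(`deriv_tp`, `LogTensor_U_deriv`).

`commute_tp_unip`: `Q` commutes with `lg K M X = dtp a (lg K m x)`, and `X` is in the algebra generated by `lg K M X`
(`mem_adjoin_lg`), so `Q` commutes with `X` and with `tp a (1 + x) = 1 + X`.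
-/

noncomputable section

open Polynomial

namespace Pool.Agent.B4801bC

open Pool.Agent.B4801bT

variable {K : Type*} [Field K] [CharZero K] {n : ℕ}

/-- `U(X) = ∑_{i ≤ m} binom(X, i) x ^ i` for a general index type. -/
def ChLgTp_U {ι : Type*} [Fintype ι] [DecidableEq ι] (m : ℕ) (x : Matrix ι ι K) :
    Matrix ι ι K[X] :=
  fun p q => ∑ i ∈ Finset.range (m + 1), LogTensor_bi K i * C ((x ^ i) p q)

theorem ChLgTp_U_nat {ι : Type*} [Fintype ι] [DecidableEq ι] (m : ℕ) (x : Matrix ι ι K)
    (hx : x ^ m = 0) (j : ℕ) :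
    (ChLgTp_U m x).map (fun p => p.eval (j : K)) = (1 + x) ^ j := by
  have e1 : (1 + x) ^ j = ∑ i ∈ Finset.range (j + 1), (j.choose i : K) • x ^ i := by
    rw [add_comm, (Commute.one_right x).add_pow]
    refine Finset.sum_congr rfl fun i _ => ?_
    rw [one_pow, mul_one, Nat.cast_smul_eq_nsmul, nsmul_eq_mul, Nat.cast_comm]
  have e2 : (1 + x) ^ j = ∑ i ∈ Finset.range (m + 1), (j.choose i : K) • x ^ i := by
    rw [e1]
    have s1 : ∑ i ∈ Finset.range (j + 1), (j.choose i : K) • x ^ i =
        ∑ i ∈ Finset.range (m + j + 1), (j.choose i : K) • x ^ i := by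
      refine Finset.sum_subset (Finset.range_subset_range.2 (by omega)) fun i _ hi => ?_
      rw [Finset.mem_range, not_lt] at hi
      rw [Nat.choose_eq_zero_of_lt (by omega), Nat.cast_zero, zero_smul]
    have s2 : ∑ i ∈ Finset.range (m + 1), (j.choose i : K) • x ^ i =
        ∑ i ∈ Finset.range (m + j + 1), (j.choose i : K) • x ^ i := by
      refine Finset.sum_subset (Finset.range_subset_range.2 (by omega)) fun i _ hi => ?_
      rw [Finset.mem_range, not_lt] at hi
      have : x ^ i = 0 := by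
        rw [show i = m + (i - m) by omega, pow_add, hx, zero_mul]
      rw [this, smul_zero]
    rw [s1, s2]
  rw [e2]
  ext p q
  rw [Matrix.map_apply, ChLgTp_U, eval_finsetSum, Matrix.sum_apply]
  refine Finset.sum_congr rfl fun i _ => ?_
  rw [eval_mul, eval_C, LogTensor_bi_nat, Matrix.smul_apply, smul_eq_mul]

theorem ChLgTp_U_deriv {ι : Type*} [Fintype ι] [DecidableEq ι] (m : ℕ) (x : Matrix ι ι K) :
    (ChLgTp_U m x).map (fun p => (derivative p).eval 0) = lg K m x := by
  ext p q
  rw [Matrix.map_apply, ChLgTp_U, lg, derivative_sum, eval_finsetSum, Finset.sum_range_succ',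
    Matrix.sum_apply]
  have h0 : (derivative (LogTensor_bi K 0 * C ((x ^ 0) p q))).eval 0 = 0 := by
    rw [derivative_mul, derivative_C, mul_zero, add_zero, eval_mul, LogTensor_bi_deriv_zero,
      zero_mul]
  rw [h0, add_zero]
  refine Finset.sum_congr rfl fun i _ => ?_
  rw [derivative_mul, derivative_C, mul_zero, add_zero, eval_mul, eval_C, LogTensor_bi_deriv,
    Matrix.smul_apply, smul_eq_mul]

theorem lg_tp (a : ℕ) (x : Mat n K) (m M : ℕ) (hx : x ^ m = 0)
    (hX : (tp a (1 + x) - 1) ^ M = 0) :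
    lg K M (tp a (1 + x) - 1) = dtp a (lg K m x) := by
  have hU0 : (LogTensor_U m x).map (fun p => p.eval 0) = 1 := by
    have := LogTensor_U_nat m x hx 0
    rwa [Nat.cast_zero, pow_zero] at this
  have key : ChLgTp_U M (tp a (1 + x) - 1) = tp a (LogTensor_U m x) := by
    ext1 I J
    apply Polynomial.eq_of_infinite_eval_eq
    refine Set.Infinite.mono (s := Set.range fun j : ℕ => (j : K)) ?_
      (Set.infinite_range_of_injective Nat.cast_injective)
    rintro _ ⟨j, rfl⟩
    show eval (j : K) _ = eval (j : K) _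
    have h1 : (ChLgTp_U M (tp a (1 + x) - 1)).map (fun p => p.eval (j : K)) =
        (tp a (LogTensor_U m x)).map (fun p => p.eval (j : K)) := by
      rw [ChLgTp_U_nat M _ hX j, add_sub_cancel, ← tp_pow, ← LogTensor_U_nat m x hx j]
      exact tp_map (evalRingHom (j : K)) a (LogTensor_U m x)
    exact congrFun (congrFun h1 I) J
  rw [← ChLgTp_U_deriv, key, deriv_tp a _ hU0, LogTensor_U_deriv]

theorem commute_tp_unip (a : ℕ) (x : Mat n K) (m : ℕ) (hx : x ^ m = 0) (Q : TMat a n K)
    (h : Commute Q (dtp a (lg K m x))) : Commute Q (tp a (1 + x)) := by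
  obtain ⟨M, hM⟩ := tp_sub_one_isNilpotent a x ⟨m, hx⟩
  have h1 := lg_tp a x m M hx hM
  have h2 : Algebra.adjoin K {lg K M (tp a (1 + x) - 1)} ≤ Subalgebra.centralizer K {Q} := by
    rw [Algebra.adjoin_le_iff, Set.singleton_subset_iff]
    rw [SetLike.mem_coe, Subalgebra.mem_centralizer_iff]
    intro g hg
    rw [Set.mem_singleton_iff.1 hg, h1]
    exact h.eq
  have h3 := h2 (mem_adjoin_lg (tp a (1 + x) - 1) M hM)
  rw [Subalgebra.mem_centralizer_iff] at h3
  have h4 : Commute Q (tp a (1 + x) - 1) := h3 Q rfl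
  have h5 : tp a (1 + x) = 1 + (tp a (1 + x) - 1) := by abel
  rw [h5]
  exact (Commute.one_right Q).add_right h4

end Pool.Agent.B4801bC
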