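import Pool.Agent.W_b4801b_h32.LogTensor
import Pool.Agent.W_b4801b_h32.MatJordan
import Pool.Agent.W_b4801b_h32.Sep
import Pool.Agent.W_b4801b_h57.ChRep

set_option autoImplicit false

/-!
# Logarithms of unipotent matrices and stable subspaces

`stb_lg`: as `dtp_lg_commute` (LogTensor.lean) with `commutes with t` replaced by `preserves U`.  For `v ∈ U` and a linear
form `λ` vanishing on `U` the polynomial `λ (tp a (LogTensor_U m x) v) ∈ K[X]` vanishes at all `X = N j`
(`LogTensor_U_nat`), so it is zero; its derivative at `0` is `λ (dtp a (lg K m x) v)` (`deriv_tp`, `LogTensor_U_deriv`).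
So `dtp a (lg x) v` is killed by all linear forms which vanish on `U`; it is in `U` (`Submodule.forall_dual..`,
`Submodule.exists_dual_map_eq_bot_of_notMem` or `dualAnnihilator`).

`stb_unip`: let `C = S (1 + X)` with `S` diagonalizable and invertible, `X` nilpotent, `S X = X S`, and let `U` be stable
under `C`.  Then `U` is stable under `S` (`C = S + S X`, `isRep_diag` with `f = id`, `IsRep.mapsTo`) and under `1 + X`:
`S` is injective on `U`, so `S U = U`, so `U` is stable under `S⁻¹`, and `1 + X = S⁻¹ C`.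

`gS_lg`: let `U` be stable under `Γ`, `σ ^ N ∈ Γ`, `N > 0`.  `tp ((R σ) ^ N) = tp (s ^ N) * tp ((1 + x) ^ N)`; by `stb_unip` `U` is
stable under `tp ((1 + x) ^ N)` (`tp_sub_one_isNilpotent`, `Diagonalizable.tp`, a power of a diagonalizable matrix is
diagonalizable: `RepTensor_pow_diag`), so under its powers; `x ^ n = 0` (`RepTensor_pow`); `stb_lg`.
-/

noncomputable section

open Polynomial

namespace Pool.Agent.B4801bC

open Pool.Agent.B4801bT

variable {K : Type*} [Field K] {n : ℕ} {G : Type*} [Group G]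

theorem stb_lg [CharZero K] (a : ℕ) (x : Mat n K) (m : ℕ) (hx : x ^ m = 0) (N : ℕ) (hN : 0 < N)
    (U : Submodule K ((Fin a → Fin n) → K))
    (h : ∀ j : ℕ, Stb (tp a ((1 + x) ^ (N * j))) U) : Stb (dtp a (lg K m x)) U := by
  classical
  have hU0 : (LogTensor_U m x).map (fun p => p.eval 0) = 1 := by
    have := LogTensor_U_nat m x hx 0
    rwa [Nat.cast_zero, pow_zero] at this
  intro v hv
  by_contra hcon
  obtain ⟨f, hf, hfU⟩ := Submodule.exists_dual_map_eq_bot_of_notMem hcon inferInstance
  have hfU' : ∀ w ∈ U, f w = 0 := by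
    intro w hw
    have : f w ∈ U.map f := Submodule.mem_map_of_mem hw
    rw [hfU] at this
    exact (Submodule.mem_bot K).1 this
  -- the coefficients of `f`
  set c : (Fin a → Fin n) → K := fun I => f (Pi.single I 1) with hc
  have hfc : ∀ w : (Fin a → Fin n) → K, f w = ∑ I, w I * c I := by
    intro w
    conv_lhs => rw [pi_eq_sum_univ' w]
    rw [map_sum]
    refine Finset.sum_congr rfl fun I _ => ?_
    rw [map_smul, smul_eq_mul]
  set p : K[X] := ∑ I, (∑ J, tp a (LogTensor_U m x) I J * C (v J)) * C (c I) with hp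
  have hp0 : p = 0 := by
    apply Polynomial.eq_zero_of_infinite_isRoot
    refine Set.Infinite.mono (s := Set.range fun j : ℕ => ((N * j : ℕ) : K)) ?_ ?_
    · rintro _ ⟨j, rfl⟩
      show IsRoot _ _
      rw [IsRoot.def, hp, eval_finsetSum]
      have h2 : tp a ((1 + x) ^ (N * j)) =
          (tp a (LogTensor_U m x)).map (fun p => p.eval ((N * j : ℕ) : K)) := by
        rw [← LogTensor_U_nat m x hx (N * j)]
        exact tp_map (evalRingHom ((N * j : ℕ) : K)) a (LogTensor_U m x)
      have h3 := hfU' _ (h j v hv)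
      rw [hfc, h2] at h3
      rw [← h3]
      refine Finset.sum_congr rfl fun I _ => ?_
      rw [eval_mul, eval_C, eval_finsetSum]
      congr 1
      rw [Matrix.mulVec, dotProduct]
      refine Finset.sum_congr rfl fun J _ => ?_
      rw [eval_mul, eval_C, Matrix.map_apply]
    · apply Set.infinite_range_of_injective
      intro i j hij
      have : (N * i : ℕ) = N * j := Nat.cast_injective (R := K) hij
      exact Nat.eq_of_mul_eq_mul_left hN this
  apply hf
  have h4 : (derivative p).eval 0 = 0 := by rw [hp0, derivative_zero, eval_zero]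
  rw [hfc, ← h4, hp, derivative_sum, eval_finsetSum]
  refine Finset.sum_congr rfl fun I _ => ?_
  rw [derivative_mul, derivative_C, mul_zero, add_zero, eval_mul, eval_C, derivative_sum,
    eval_finsetSum]
  congr 1
  rw [← LogTensor_U_deriv, ← deriv_tp a _ hU0, Matrix.mulVec, dotProduct]
  refine Finset.sum_congr rfl fun J _ => ?_
  rw [derivative_mul, derivative_C, mul_zero, add_zero, eval_mul, eval_C, Matrix.map_apply]

theorem stb_unip [IsAlgClosed K] [CharZero K] {ι : Type*} [Fintype ι] [DecidableEq ι]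
    (C S X : Matrix ι ι K) (hS : Diagonalizable S) (hu : IsUnit S) (hX : IsNilpotent X)
    (hc : Commute S X) (h : C = S * (1 + X)) (U : Submodule K (ι → K)) (hU : Stb C U) :
    Stb S U ∧ Stb (1 + X) U := by
  obtain ⟨P, d, hP, hsP⟩ := id hS
  obtain ⟨P', hPP', hP'P⟩ : ∃ P' : Matrix ι ι K, P * P' = 1 ∧ P' * P = 1 := by
    obtain ⟨u, rfl⟩ := hP
    exact ⟨↑u⁻¹, u.mul_inv, u.inv_mul⟩
  have hCS : Commute S (S * X) := (Commute.refl S).mul_right hc
  have hrep := isRep_diag C S (S * X) P P' d id (hc.isNilpotent_mul_left hX) hCS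
    (by rw [h, mul_add, mul_one]) hPP' hP'P hsP
  have hSd : P * Matrix.diagonal (fun i => id (d i)) * P' = S := by
    show P * Matrix.diagonal d * P' = S
    rw [← hsP, mul_assoc, hPP', mul_one]
  rw [hSd] at hrep
  have hS1 : Stb S U := by
    intro v hv
    exact hrep.mapsTo U hU v hv
  refine ⟨hS1, ?_⟩
  obtain ⟨u, hu'⟩ := hu
  have hinj : Function.Injective (fun v : ι → K => S.mulVec v) := by
    intro v w hvw
    have h1 : (↑u⁻¹ : Matrix ι ι K).mulVec (S.mulVec v) =
        (↑u⁻¹ : Matrix ι ι K).mulVec (S.mulVec w) := by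
      show _ = (↑u⁻¹ : Matrix ι ι K).mulVec ((fun v : ι → K => S.mulVec v) w)
      rw [← hvw]
    rw [Matrix.mulVec_mulVec, Matrix.mulVec_mulVec, ← hu', u.inv_mul, Matrix.one_mulVec,
      Matrix.one_mulVec] at h1
    exact h1
  let f : U →ₗ[K] U := (Matrix.toLin' S).restrict (fun v hv => hS1 v hv)
  have hf : Function.Injective f := by
    intro v w hvw
    apply Subtype.ext
    apply hinj
    exact congrArg Subtype.val hvw
  have hf2 : Function.Surjective f := LinearMap.injective_iff_surjective.1 hf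
  intro v hv
  obtain ⟨w, hw⟩ := hf2 ⟨C.mulVec v, hU v hv⟩
  have h2 : S.mulVec (w : ι → K) = C.mulVec v := congrArg Subtype.val hw
  rw [h, ← Matrix.mulVec_mulVec] at h2
  rw [← hinj h2]
  exact w.2

theorem gS_lg [IsAlgClosed K] [CharZero K] (R : G →* Mat n K) (σ : G) {s x : Mat n K}
    (hs : Diagonalizable s) (hu : IsUnit s) (hx : IsNilpotent x) (hc : Commute s x)
    (h : R σ = s * (1 + x)) : lg K n x ∈ gS R := by
  intro a U hU
  obtain ⟨Γ, hΓ, hst⟩ := hU
  obtain ⟨N, hN, _, hmem⟩ := Subgroup.exists_pow_mem_of_index_ne_zero hΓ.index_ne_zero σ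
  have hC := hst _ hmem
  rw [map_pow, h] at hC
  have hc1 : Commute s (1 + x) := (Commute.one_right s).add_right hc
  have hAN : tp a ((s * (1 + x)) ^ N) = tp a (s ^ N) * tp a ((1 + x) ^ N) := by
    rw [hc1.mul_pow, tp_mul]
  have hsN : Diagonalizable (s ^ N) := by
    obtain ⟨P, d, hP, hsP⟩ := hs
    exact ⟨P, fun i => d i ^ N, hP, RepTensor_pow_diag s P d hsP N⟩
  have hnil : IsNilpotent (tp a ((1 + x) ^ N) - 1) := by
    have h1 : IsNilpotent ((1 + x) ^ N - 1) := by
      rw [← geom_sum_mul, add_sub_cancel_left]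
      have h5 : Commute (∑ i ∈ Finset.range N, (1 + x) ^ i) x :=
        Commute.sum_left _ _ _ fun i _ =>
          (((Commute.one_left x).add_left (Commute.refl x)).pow_left i)
      exact h5.isNilpotent_mul_left hx
    have h2 : (1 + x) ^ N = 1 + ((1 + x) ^ N - 1) := by abel
    rw [h2]
    exact tp_sub_one_isNilpotent a _ h1
  have hunit : IsUnit (tp a (s ^ N)) := by
    obtain ⟨u, rfl⟩ := hu
    refine IsUnit.of_mul_eq_one (tp a ((↑u⁻¹ : Mat n K) ^ N)) ?_
    rw [← tp_mul, ← (Commute.units_inv_right (Commute.refl (u : Mat n K))).mul_pow, u.mul_inv,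
      one_pow, tp_one]
  have hcomm : Commute (tp a (s ^ N)) (tp a ((1 + x) ^ N) - 1) := by
    refine Commute.sub_right ?_ (Commute.one_right _)
    show tp a (s ^ N) * tp a ((1 + x) ^ N) = tp a ((1 + x) ^ N) * tp a (s ^ N)
    rw [← tp_mul, ← tp_mul, (hc1.pow_pow N N).eq]
  have hfin := stb_unip (tp a ((s * (1 + x)) ^ N)) (tp a (s ^ N)) (tp a ((1 + x) ^ N) - 1)
    (Diagonalizable.tp a _ hsN) hunit hnil hcomm (by rw [hAN]; congr 1; abel) U hC
  have h3 : Stb (tp a ((1 + x) ^ N)) U := by
    have h4 := hfin.2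
    rwa [add_sub_cancel] at h4
  refine stb_lg a x n (RepTensor_pow x hx) N hN U fun j => ?_
  rw [pow_mul, tp_pow]
  exact h3.pow j

end Pool.Agent.B4801bC
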