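import Pool.Agent.W_b4801b_h32.Neat
import Pool.Agent.W_b4801b_h32.TpAlg

set_option autoImplicit false

/-!
# Neat subgroups for tensor powers

`exists_neat` (Neat.lean) applied to the representation `g ↦ tp a (R g)`, reindexed by `finFunctionFinEquiv : (Fin a → Fin n) ≃
Fin (n ^ a)`: `Matrix.reindexAlgEquiv` (or `submatrix`) gives `G →* Mat (n ^ a) ℚ_[ℓ]` (`tp_one`, `tp_mul`), the entries are
polynomials in the entries of `R g`, so continuous; an eigenvector `v` of `tp a (R g)` over `K` (note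
`tp a (A.map φ) = (tp a A).map φ`, `tp_map`) gives the eigenvector `v ∘ e.symm` of the reindexed matrix.
-/

noncomputable section

namespace Pool.Agent.B4801bC

open Pool.Agent.B4801bT

theorem ChNeat_eig {K : Type*} [Field K] {ι κ : Type*} [Fintype ι] [DecidableEq ι] [Fintype κ]
    [DecidableEq κ] (e : ι ≃ κ) (A : Matrix ι ι K) (B : Matrix κ κ K)
    (hB : B = A.submatrix e.symm e.symm) (μ : K)
    (h : Module.End.HasEigenvalue (Matrix.toLin' A) μ) :
    Module.End.HasEigenvalue (Matrix.toLin' B) μ := by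
  obtain ⟨v, hv⟩ := h.exists_hasEigenvector
  have hv0 : v ≠ 0 := hv.2
  have hv1 := hv.apply_eq_smul
  rw [Matrix.toLin'_apply] at hv1
  apply Module.End.hasEigenvalue_of_hasEigenvector (x := v ∘ e.symm)
  rw [Module.End.hasEigenvector_iff, Module.End.mem_eigenspace_iff, Matrix.toLin'_apply]
  refine ⟨?_, ?_⟩
  · rw [hB]
    ext k
    have h2 := congrFun hv1 (e.symm k)
    simp only [Matrix.mulVec, dotProduct, Pi.smul_apply, Matrix.submatrix_apply,
      Function.comp_apply] at h2 ⊢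
    rw [← h2]
    exact Equiv.sum_comp e.symm (fun i => A (e.symm k) i * v i)
  · intro h0
    apply hv0
    ext i
    have h3 := congrFun h0 (e i)
    simpa using h3

theorem exists_neat_tp {G : Type*} [Group G] [TopologicalSpace G] [IsTopologicalGroup G]
    [CompactSpace G] (ℓ : ℕ) [Fact ℓ.Prime] (n a : ℕ) (R : G →* Mat n ℚ_[ℓ])
    (hc : ∀ i j, Continuous fun g => R g i j) :
    ∃ Γ : Subgroup G, Γ.FiniteIndex ∧ ∀ g ∈ Γ, ∀ μ ν : AlgebraicClosure ℚ_[ℓ],
      Module.End.HasEigenvalue (Matrix.toLin'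
        (tp a ((R g).map (algebraMap ℚ_[ℓ] (AlgebraicClosure ℚ_[ℓ]))))) μ →
      Module.End.HasEigenvalue (Matrix.toLin'
        (tp a ((R g).map (algebraMap ℚ_[ℓ] (AlgebraicClosure ℚ_[ℓ]))))) ν →
      ∀ N : ℕ, 0 < N → (μ / ν) ^ N = 1 → μ = ν := by
  let e : (Fin a → Fin n) ≃ Fin (n ^ a) := finFunctionFinEquiv
  let S : G →* Mat (n ^ a) ℚ_[ℓ] :=
    { toFun := fun g => (tp a (R g)).submatrix e.symm e.symm
      map_one' := by
        rw [map_one, tp_one, Matrix.submatrix_one_equiv]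
      map_mul' := by
        intro x y
        rw [map_mul, tp_mul, Matrix.submatrix_mul_equiv] }
  have hS : ∀ g, S g = (tp a (R g)).submatrix e.symm e.symm := fun g => rfl
  have hcS : ∀ i j, Continuous fun g => S g i j := by
    intro i j
    have h1 : (fun g => S g i j) = fun g => ∏ k : Fin a, R g (e.symm i k) (e.symm j k) := by
      ext g
      rw [hS, Matrix.submatrix_apply]
      rfl
    rw [h1]
    exact continuous_finsetProd _ fun k _ => hc _ _
  obtain ⟨Γ, hΓ, h⟩ := exists_neat ℓ (n ^ a) S hcS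
  refine ⟨Γ, hΓ, ?_⟩
  intro g hg μ ν hμ hν N hN hμν
  have hmap : (S g).map (algebraMap ℚ_[ℓ] (AlgebraicClosure ℚ_[ℓ])) =
      (tp a ((R g).map (algebraMap ℚ_[ℓ] (AlgebraicClosure ℚ_[ℓ])))).submatrix e.symm e.symm := by
    rw [hS]
    ext i j
    rw [Matrix.map_apply, Matrix.submatrix_apply, Matrix.submatrix_apply]
    simp only [tp, Matrix.map_apply, map_prod]
  exact h g hg μ ν (ChNeat_eig e _ _ hmap μ hμ) (ChNeat_eig e _ _ hmap ν hν) N hN hμν

end Pool.Agent.B4801bC
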