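import Pool.Agent.W_b4801b_h57.ChNil
import Pool.Agent.W_b4801b_h32.Triple

set_option autoImplicit false

/-!
# Semisimplicity passes to extensions of a field of characteristic zero

Let `K₀ ⊆ K`, `char K₀ = 0`, `R : G → M_n(K₀)`, every `R`-stable subspace of `K₀ ^ n` has a stable complement.  The same holds over
`K`.

`trace_nondeg`: let `A₀ := Submodule.span K₀ (Set.range R)`.  If `x ∈ A₀` and `tr (x y) = 0` for all `y ∈ A₀` then `x = 0`.
Proof.  `A₀` is closed under products (`R σ R τ = R (σ τ)`).  `J := {x ∈ A₀ | tr (x y) = 0 for all y ∈ A₀}` is a two-sided ideal of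
`A₀`; `x ∈ J` is nilpotent (`x ^ k = x x ^ (k-1)`, `tr (x ^ k) = 0` for all `k ≥ 1`: for `k ≥ 2` `x ^ (k-1) ∈ A₀`, for `k = 1` use
`1 = R 1 ∈ A₀`; characteristic zero; `Triple_isNilpotent_of_trace_pow` in `W_b4801b_h32/Triple.lean` has this for endomorphisms over any
field of characteristic zero, or Newton's identities).  `J = ⊥` by `eq_bot_of_nil`.

`compl_bc`: Let `A := Submodule.span K (range of R over K)`, a subalgebra of `M_n(K)`.  (a) the trace form on `A` is nondegenerate:
let `x = ∑ c_i R(σ_i) ∈ A` with `tr (x y) = 0` for `y ∈ A`.  For a `K₀`-linear `φ : K → K₀`: `x.map φ = ∑ φ(c_i) R(σ_i) ∈ A₀` and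
`tr (x.map φ * y) = φ (tr (x * y)) = 0` for `y = R τ`, so for `y ∈ A₀`; so `x.map φ = 0` for all `φ`, `x = 0`
(`Module.forall_dual_apply_eq_zero_iff`).  (b) `A` (as a `Subalgebra`) is a finite dimensional algebra, its Jacobson radical is nilpotent
(`IsArtinianRing.isNilpotent_jacobson_bot`, `IsArtinianRing` from finite dimension), so for `j` in it `tr (j y) = 0` for all `y ∈ A`
(`j y` is nilpotent), so it is zero by (a).  So `A` is a semisimple ring (`IsArtinianRing.isSemisimpleRing_iff_jacobson`), and the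
`A`-module `K ^ n` is semisimple (`Matrix.mulVec` action; e.g. as a module over the subalgebra of `Module.End K (Fin n → K)`); an `R`-stable
subspace `W` is an `A`-submodule, take a complement.
-/

noncomputable section

namespace Pool.Agent.B4801bC

open Pool.Agent.B4801bT

variable {K₀ : Type*} [Field K₀] [CharZero K₀] {n : ℕ} {G : Type*} [Group G]

section

variable {F : Type*} [Field F]

theorem ChUp_mul_mem (R : G →* Mat n F) {x y : Mat n F}
    (hx : x ∈ Submodule.span F (Set.range R)) (hy : y ∈ Submodule.span F (Set.range R)) :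
    x * y ∈ Submodule.span F (Set.range R) := by
  induction hx using Submodule.span_induction with
  | mem x hx =>
    obtain ⟨σ, rfl⟩ := hx
    induction hy using Submodule.span_induction with
    | mem y hy =>
      obtain ⟨τ, rfl⟩ := hy
      rw [← map_mul]
      exact Submodule.subset_span ⟨_, rfl⟩
    | zero => rw [mul_zero]; exact Submodule.zero_mem _
    | add y z _ _ h1 h2 => rw [mul_add]; exact Submodule.add_mem _ h1 h2
    | smul c y _ h1 => rw [mul_smul_comm]; exact Submodule.smul_mem _ _ h1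
  | zero => rw [zero_mul]; exact Submodule.zero_mem _
  | add x z _ _ h1 h2 => rw [add_mul]; exact Submodule.add_mem _ h1 h2
  | smul c x _ h1 => rw [smul_mul_assoc]; exact Submodule.smul_mem _ _ h1

theorem ChUp_one_mem (R : G →* Mat n F) : (1 : Mat n F) ∈ Submodule.span F (Set.range R) :=
  Submodule.subset_span ⟨1, map_one R⟩

theorem ChUp_pow_mem (R : G →* Mat n F) {x : Mat n F}
    (hx : x ∈ Submodule.span F (Set.range R)) (k : ℕ) :
    x ^ k ∈ Submodule.span F (Set.range R) := by
  induction k with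
  | zero => rw [pow_zero]; exact ChUp_one_mem R
  | succ k ih => rw [pow_succ]; exact ChUp_mul_mem R ih hx

theorem ChUp_stb_of_mem_span (R : G →* Mat n F) (W : Submodule F (Fin n → F))
    (hW : ∀ σ, Stb (R σ) W) {x : Mat n F} (hx : x ∈ Submodule.span F (Set.range R)) :
    Stb x W := by
  induction hx using Submodule.span_induction with
  | mem x hx =>
    obtain ⟨σ, rfl⟩ := hx
    exact hW σ
  | zero => exact stb_zero W
  | add x y _ _ h1 h2 => exact h1.add h2
  | smul c x _ h1 => exact h1.smul c

/-- The radical of the trace form on the span of the range of `R`. -/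
def ChUp_J (R : G →* Mat n F) : Submodule F (Mat n F) where
  carrier := {x | x ∈ Submodule.span F (Set.range R) ∧
    ∀ y ∈ Submodule.span F (Set.range R), (x * y).trace = 0}
  add_mem' := fun {x y} hx hy => ⟨Submodule.add_mem _ hx.1 hy.1, fun z hz => by
    rw [add_mul, Matrix.trace_add, hx.2 z hz, hy.2 z hz, add_zero]⟩
  zero_mem' := ⟨Submodule.zero_mem _, fun z _ => by rw [zero_mul, Matrix.trace_zero]⟩
  smul_mem' := fun c x hx => ⟨Submodule.smul_mem _ _ hx.1, fun z hz => by
    rw [smul_mul_assoc, Matrix.trace_smul, hx.2 z hz, smul_zero]⟩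

/-- The span of the range of `R`, as an algebra of endomorphisms. -/
def ChUp_alg (R : G →* Mat n F) : Subalgebra F (Module.End F (Fin n → F)) where
  carrier := {f | LinearMap.toMatrix' f ∈ Submodule.span F (Set.range R)}
  add_mem' := fun {f g} hf hg => by
    simp only [Set.mem_ofPred_eq, map_add] at hf hg ⊢
    exact Submodule.add_mem _ hf hg
  mul_mem' := fun {f g} hf hg => by
    simp only [Set.mem_ofPred_eq] at hf hg ⊢
    rw [LinearMap.toMatrix'_mul]
    exact ChUp_mul_mem R hf hg
  algebraMap_mem' := fun c => by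
    simp only [Set.mem_ofPred_eq]
    rw [Algebra.algebraMap_eq_smul_one, map_smul, LinearMap.toMatrix'_one]
    exact Submodule.smul_mem _ _ (ChUp_one_mem R)

theorem ChUp_mem_alg (R : G →* Mat n F) (f : Module.End F (Fin n → F)) :
    f ∈ ChUp_alg R ↔ LinearMap.toMatrix' f ∈ Submodule.span F (Set.range R) := Iff.rfl

/-- If the trace form on the span of the range of `R` is nondegenerate then the algebra is semisimple. -/
theorem ChUp_semisimple (R : G →* Mat n F)
    (h : ∀ x ∈ Submodule.span F (Set.range R),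
      (∀ y ∈ Submodule.span F (Set.range R), (x * y).trace = 0) → x = 0) :
    IsSemisimpleRing (ChUp_alg R) := by
  have : IsArtinianRing (ChUp_alg R) := IsArtinianRing.of_finite F (ChUp_alg R)
  rw [IsArtinianRing.isSemisimpleRing_iff_jacobson, eq_bot_iff]
  intro j hj
  obtain ⟨N, hN⟩ := (IsSemiprimaryRing.isNilpotent : IsNilpotent (Ring.jacobson (ChUp_alg R)))
  have key : ∀ y : ChUp_alg R, ((j * y : ChUp_alg R)) ^ N = 0 := by
    intro y
    have h1 : j * y ∈ Ring.jacobson (ChUp_alg R) := Ideal.mul_mem_right _ _ hj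
    have h2 : (j * y) ^ N ∈ (Ring.jacobson (ChUp_alg R)) ^ N := Ideal.pow_mem_pow h1 N
    rw [hN] at h2
    exact (Submodule.mem_bot _).mp h2
  have h0 : LinearMap.toMatrix' (j : Module.End F (Fin n → F)) = 0 := by
    apply h _ j.2
    intro y hy
    let y' : ChUp_alg R := ⟨Matrix.toLin' y, by
      rw [ChUp_mem_alg, LinearMap.toMatrix'_toLin']
      exact hy⟩
    have h1 := key y'
    have h2 : IsNilpotent (LinearMap.toMatrix' (j : Module.End F (Fin n → F)) * y) := by
      refine ⟨N, ?_⟩
      have h3 : ((j * y' : ChUp_alg R) : Module.End F (Fin n → F)) ^ N = 0 := by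
        rw [← SubmonoidClass.coe_pow, h1, ZeroMemClass.coe_zero]
      have h4 : LinearMap.toMatrix' (j : Module.End F (Fin n → F)) * y
          = LinearMap.toMatrixAlgEquiv' ((j * y' : ChUp_alg R) : Module.End F (Fin n → F)) := by
        rw [MulMemClass.coe_mul, map_mul]
        congr 1
        exact (LinearMap.toMatrix'_toLin' y).symm
      rw [h4, ← map_pow, h3, map_zero]
    exact (Matrix.isNilpotent_trace_of_isNilpotent h2).eq_zero
  have h5 : (j : Module.End F (Fin n → F)) = 0 := (map_eq_zero_iff _ (LinearEquiv.injective _)).mp h0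
  rw [Submodule.mem_bot]
  exact Subtype.ext h5

end

theorem trace_nondeg (R : G →* Mat n K₀)
    (hss : ∀ W : Submodule K₀ (Fin n → K₀), (∀ σ, Stb (R σ) W) →
      ∃ W' : Submodule K₀ (Fin n → K₀), (∀ σ, Stb (R σ) W') ∧ IsCompl W W')
    (x : Mat n K₀) (hx : x ∈ Submodule.span K₀ (Set.range R))
    (h : ∀ y ∈ Submodule.span K₀ (Set.range R), (x * y).trace = 0) : x = 0 := by
  have hJ := eq_bot_of_nil R hss (ChUp_J R) ?_ ?_ ?_ ?_
  · have hx' : x ∈ ChUp_J R := ⟨hx, h⟩
    rw [hJ] at hx'
    exact (Submodule.mem_bot K₀).mp hx'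
  · rintro y ⟨hy, -⟩ W hW
    exact ChUp_stb_of_mem_span R W hW hy
  · rintro y ⟨hy, hy'⟩ z ⟨hz, hz'⟩
    refine Submodule.sub_mem _ ⟨ChUp_mul_mem R hy hz, fun w hw => ?_⟩
      ⟨ChUp_mul_mem R hz hy, fun w hw => ?_⟩
    · rw [mul_assoc]
      exact hy' _ (ChUp_mul_mem R hz hw)
    · rw [mul_assoc]
      exact hz' _ (ChUp_mul_mem R hy hw)
  · rintro y ⟨hy, hy'⟩
    have hn : IsNilpotent (Matrix.toLinAlgEquiv' y : Module.End K₀ (Fin n → K₀)) := by
      apply Triple_isNilpotent_of_trace_pow
      intro k hk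
      obtain ⟨k, rfl⟩ : ∃ j, k = j + 1 := ⟨k - 1, by omega⟩
      rw [← map_pow]
      have h1 : LinearMap.trace K₀ (Fin n → K₀) (Matrix.toLinAlgEquiv' (y ^ (k + 1)))
          = (y ^ (k + 1)).trace := Matrix.trace_toLin'_eq _
      rw [h1, pow_succ']
      exact hy' _ (ChUp_pow_mem R hy k)
    obtain ⟨k, hk⟩ := hn
    refine ⟨k, ?_⟩
    rw [← map_pow] at hk
    exact (map_eq_zero_iff _ (AlgEquiv.injective _)).mp hk
  · rintro σ y ⟨hy, hy'⟩
    have hσ : ∀ τ : G, R τ ∈ Submodule.span K₀ (Set.range R) :=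
      fun τ => Submodule.subset_span ⟨τ, rfl⟩
    refine ⟨ChUp_mul_mem R (ChUp_mul_mem R (hσ _) hy) (hσ _), fun w hw => ?_⟩
    rw [mul_assoc, mul_assoc, Matrix.trace_mul_comm, mul_assoc, mul_assoc]
    exact hy' _ (by
      rw [← mul_assoc]
      exact ChUp_mul_mem R (ChUp_mul_mem R (hσ _) hw) (hσ _))

theorem compl_bc {K : Type*} [Field K] [Algebra K₀ K] (R : G →* Mat n K₀) (RK : G →* Mat n K)
    (hRK : ∀ σ, RK σ = (R σ).map (algebraMap K₀ K))
    (hss : ∀ W : Submodule K₀ (Fin n → K₀), (∀ σ, Stb (R σ) W) →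
      ∃ W' : Submodule K₀ (Fin n → K₀), (∀ σ, Stb (R σ) W') ∧ IsCompl W W')
    (W : Submodule K (Fin n → K)) (hW : ∀ σ, Stb (RK σ) W) :
    ∃ W' : Submodule K (Fin n → K), (∀ σ, Stb (RK σ) W') ∧ IsCompl W W' := by
  have hmap : ∀ x ∈ Submodule.span K (Set.range RK), ∀ φ : K →ₗ[K₀] K₀,
      x.map φ ∈ Submodule.span K₀ (Set.range R) := by
    intro x hx
    induction hx using Submodule.span_induction with
    | mem x hx =>
      obtain ⟨σ, rfl⟩ := hx
      intro φ
      have h1 : (RK σ).map φ = φ 1 • R σ := by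
        rw [hRK]
        ext i j
        simp only [Matrix.map_apply, Matrix.smul_apply, smul_eq_mul]
        rw [Algebra.algebraMap_eq_smul_one, map_smul, smul_eq_mul, mul_comm]
      rw [h1]
      exact Submodule.smul_mem _ _ (Submodule.subset_span ⟨σ, rfl⟩)
    | zero =>
      intro φ
      have h1 : (0 : Mat n K).map φ = 0 := by
        ext i j
        simp
      rw [h1]
      exact Submodule.zero_mem _
    | add x y _ _ h1 h2 =>
      intro φ
      have h3 : (x + y).map φ = x.map φ + y.map φ := by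
        ext i j
        simp
      rw [h3]
      exact Submodule.add_mem _ (h1 φ) (h2 φ)
    | smul c x _ h1 =>
      intro φ
      have h3 : (c • x).map φ = x.map (φ ∘ₗ LinearMap.mulLeft K₀ c) := by
        ext i j
        simp
      rw [h3]
      exact h1 _
  have hnd : ∀ x ∈ Submodule.span K (Set.range RK),
      (∀ y ∈ Submodule.span K (Set.range RK), (x * y).trace = 0) → x = 0 := by
    intro x hx hxy
    have h0 : ∀ φ : K →ₗ[K₀] K₀, x.map φ = 0 := by
      intro φ
      apply trace_nondeg R hss _ (hmap x hx φ)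
      intro y hy
      induction hy using Submodule.span_induction with
      | mem y hy =>
        obtain ⟨τ, rfl⟩ := hy
        have h1 := hxy (RK τ) (Submodule.subset_span ⟨τ, rfl⟩)
        have h2 : (x.map φ * R τ).trace = φ ((x * RK τ).trace) := by
          rw [Matrix.trace, Matrix.trace, map_sum]
          refine Finset.sum_congr rfl fun i _ => ?_
          rw [Matrix.diag_apply, Matrix.diag_apply, Matrix.mul_apply, Matrix.mul_apply, map_sum]
          refine Finset.sum_congr rfl fun j _ => ?_
          rw [Matrix.map_apply, hRK, Matrix.map_apply, mul_comm (x i j), ← Algebra.smul_def,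
            map_smul, smul_eq_mul, mul_comm]
        rw [h2, h1, map_zero]
      | zero => rw [mul_zero, Matrix.trace_zero]
      | add y z _ _ h1 h2 => rw [mul_add, Matrix.trace_add, h1, h2, add_zero]
      | smul c y _ h1 => rw [mul_smul_comm, Matrix.trace_smul, h1, smul_zero]
    ext i j
    rw [Matrix.zero_apply, ← Module.forall_dual_apply_eq_zero_iff K₀]
    intro φ
    have h1 := congrFun (congrFun (h0 φ) i) j
    rwa [Matrix.map_apply, Matrix.zero_apply] at h1
  have := ChUp_semisimple RK hnd
  have hss2 : IsSemisimpleModule (ChUp_alg RK) (Fin n → K) := inferInstance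
  let WS : Submodule (ChUp_alg RK) (Fin n → K) :=
    { carrier := W
      add_mem' := fun ha hb => W.add_mem ha hb
      zero_mem' := W.zero_mem
      smul_mem' := fun s v hv => by
        have h1 := ChUp_stb_of_mem_span RK W hW s.2 v hv
        rw [LinearMap.toMatrix'_mulVec] at h1
        exact h1 }
  obtain ⟨W2, hW2⟩ := hss2.toComplementedLattice.exists_isCompl WS
  have hmem : ∀ s ∈ ChUp_alg RK, ∀ v ∈ W2, s v ∈ W2 := fun s hs v hv =>
    W2.smul_mem (⟨s, hs⟩ : ChUp_alg RK) hv
  let W' : Submodule K (Fin n → K) :=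
    { carrier := W2
      add_mem' := fun ha hb => W2.add_mem ha hb
      zero_mem' := W2.zero_mem
      smul_mem' := fun c v hv => by
        have h1 := hmem (algebraMap K _ c) (Subalgebra.algebraMap_mem _ c) v hv
        rwa [Module.algebraMap_end_apply] at h1 }
  refine ⟨W', ?_, ?_⟩
  · intro σ v hv
    have h1 := hmem (Matrix.toLin' (RK σ)) (by
      rw [ChUp_mem_alg, LinearMap.toMatrix'_toLin']
      exact Submodule.subset_span ⟨σ, rfl⟩) v hv
    rwa [Matrix.toLin'_apply] at h1
  · constructor
    · rw [Submodule.disjoint_def]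
      intro v hv hv'
      exact (Submodule.disjoint_def.mp hW2.disjoint) v hv hv'
    · rw [codisjoint_iff, eq_top_iff]
      intro v _
      have h1 : v ∈ WS ⊔ W2 := by
        rw [hW2.sup_eq_top]
        exact Submodule.mem_top
      obtain ⟨a, ha, b, hb, hab⟩ := Submodule.mem_sup.mp h1
      exact Submodule.mem_sup.mpr ⟨a, ha, b, hb, hab⟩

end Pool.Agent.B4801bC
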