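import Pool.Agent.W_b4801b_h32.AlgProj
import Pool.Agent.W_b4801b_h32.LogHom
import Pool.Agent.W_b4801b_h57.ChAlg
import Pool.Agent.W_b4801b_h57.ChLog
import Pool.Agent.W_b4801b_h57.ChCom
import Pool.Agent.W_b4801b_h57.ChNeat
import Pool.Agent.W_b4801b_h57.ChAvg
import Pool.Agent.W_b4801b_h57.ChUp
import Pool.Agent.W_b4801b_h57.ChFin

set_option autoImplicit false

/-!
# Chevalley's theorem for continuous representations of compact groups over `ℚ_ℓ`

`chev_rad`: let `R : G → M_n(ℚ_ℓ)` be a continuous representation of a compact group, every stable subspace of which has a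
stable complement.  Then the trace form on the commutant of the `a`-th tensor power is nondegenerate.
-/

noncomputable section

namespace Pool.Agent.B4801bC

open Pool.Agent.B4801bT

section

variable {K : Type*} [Field K] [IsAlgClosed K] [CharZero K] {n : ℕ}

/-- The products of the eigenvalues of `s` are eigenvalues of `tp a (s (1 + x))`. -/
theorem ChMain_eigen (a : ℕ) {A s x P P' : Mat n K} {d : Fin n → K} (hx : IsNilpotent x)
    (hc : Commute s x) (h : A = s * (1 + x)) (hP'P : P' * P = 1)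
    (hsP : s * P = P * Matrix.diagonal d) (I : Fin a → Fin n) :
    Module.End.HasEigenvalue (Matrix.toLin' (tp a A)) (∏ i, d (I i)) := by
  classical
  set μ : K := ∏ i, d (I i) with hμ
  set X : TMat a n K := tp a (1 + x) - 1 with hXdef
  have hX : IsNilpotent X := tp_sub_one_isNilpotent a x hx
  have hsX : Commute (tp a s) X := by
    have h1 : Commute (tp a s) (tp a (1 + x)) := by
      change tp a s * tp a (1 + x) = tp a (1 + x) * tp a s
      rw [← tp_mul, ← tp_mul]
      congr 1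
      exact (Commute.one_right s).add_right hc
    exact h1.sub_right (Commute.one_right _)
  -- eigenvector of `tp a s`
  have htp : tp a s * tp a P = tp a P * Matrix.diagonal fun I : Fin a → Fin n => ∏ i, d (I i) := by
    rw [← tp_mul, hsP, tp_mul, tp_diagonal]
  set v0 : (Fin a → Fin n) → K := (tp a P).mulVec (Pi.single I 1) with hv0
  have h0 : v0 ≠ 0 := by
    intro h0
    have h1 : (tp a P').mulVec v0 = Pi.single I 1 := by
      rw [hv0, Matrix.mulVec_mulVec, ← tp_mul, hP'P, tp_one, Matrix.one_mulVec]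
    rw [h0, Matrix.mulVec_zero] at h1
    have h2 := congrFun h1 I
    rw [Pi.single_eq_same] at h2
    exact zero_ne_one h2
  have hs0 : (tp a s).mulVec v0 = μ • v0 := by
    rw [hv0, Matrix.mulVec_mulVec, htp, ← Matrix.mulVec_mulVec, ← Matrix.mulVec_smul]
    congr 1
    funext J
    rw [Matrix.mulVec_diagonal, Pi.smul_apply, smul_eq_mul]
    by_cases hJ : J = I
    · rw [hJ]
    · rw [Pi.single_eq_of_ne hJ, mul_zero, mul_zero]
  -- the last nonzero `X ^ k v0`
  have hex : ∃ k, (X ^ k).mulVec v0 = 0 := by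
    obtain ⟨k, hk⟩ := hX
    exact ⟨k, by rw [hk, Matrix.zero_mulVec]⟩
  have hk := Nat.find_spec hex
  set k := Nat.find hex with hkdef
  have hk0 : k ≠ 0 := by
    intro hk0
    rw [hk0, pow_zero, Matrix.one_mulVec] at hk
    exact h0 hk
  obtain ⟨j, hj⟩ := Nat.exists_eq_succ_of_ne_zero hk0
  have hv : (X ^ j).mulVec v0 ≠ 0 := Nat.find_min hex (by omega)
  refine Module.End.hasEigenvalue_of_hasEigenvector (x := (X ^ j).mulVec v0)
    ⟨Module.End.mem_eigenspace_iff.2 ?_, hv⟩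
  clear_value v0
  have e1 : tp a (1 + x) = 1 + X := by rw [hXdef, add_sub_cancel]
  have e2 : X.mulVec ((X ^ j).mulVec v0) = 0 := by
    rw [Matrix.mulVec_mulVec, ← pow_succ']
    rw [hj] at hk
    exact hk
  rw [Matrix.toLin'_apply, h, tp_mul, e1, ← Matrix.mulVec_mulVec, Matrix.add_mulVec,
    Matrix.one_mulVec, e2, add_zero, Matrix.mulVec_mulVec, (hsX.pow_right j).eq,
    ← Matrix.mulVec_mulVec, hs0, Matrix.mulVec_smul]

end

/-- Every stable subspace of a tensor power is the image of an equivariant projection. -/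
theorem chev_proj (ℓ : ℕ) [Fact ℓ.Prime] {G : Type*} [Group G] [TopologicalSpace G]
    [IsTopologicalGroup G] [CompactSpace G] {n a : ℕ} (ha : 1 ≤ a) (R : G →* Mat n ℚ_[ℓ])
    (hcont : ∀ i j, Continuous fun g => R g i j)
    (hss : ∀ W : Submodule ℚ_[ℓ] (Fin n → ℚ_[ℓ]), (∀ σ, Stb (R σ) W) →
      ∃ W' : Submodule ℚ_[ℓ] (Fin n → ℚ_[ℓ]), (∀ σ, Stb (R σ) W') ∧ IsCompl W W')
    (RK : G →* Mat n (AlgebraicClosure ℚ_[ℓ]))
    (hRK : ∀ σ, RK σ = (R σ).map (algebraMap ℚ_[ℓ] (AlgebraicClosure ℚ_[ℓ])))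
    (U : Submodule (AlgebraicClosure ℚ_[ℓ]) ((Fin a → Fin n) → AlgebraicClosure ℚ_[ℓ]))
    (hU : ∀ σ, Stb (tp a (RK σ)) U) :
    ∃ P : Module.End (AlgebraicClosure ℚ_[ℓ]) ((Fin a → Fin n) → AlgebraicClosure ℚ_[ℓ]),
      (∀ v, P v ∈ U) ∧ (∀ v ∈ U, P v = v) ∧
        ∀ σ, Commute P (Matrix.toLin' (tp a (RK σ))) := by
  classical
  have : CharZero (AlgebraicClosure ℚ_[ℓ]) :=
    charZero_of_injective_algebraMap (algebraMap ℚ_[ℓ] (AlgebraicClosure ℚ_[ℓ])).injective
  have halg : AlgLie (gT RK a) := algLie_gT RK (compl_bc R RK hRK hss) ha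
  have hU' : ∀ x ∈ gT RK a, ∀ v ∈ U, x v ∈ U := by
    rintro _ ⟨Y, hY, rfl⟩
    exact hY a U ⟨⊤, inferInstance, fun σ _ => hU σ⟩
  obtain ⟨P, hP1, hP2, hP3⟩ := halg.exists_proj U hU'
  obtain ⟨Γ, hΓ, hneat⟩ := exists_neat_tp ℓ n a R hcont
  have hcomm : ∀ σ ∈ Γ, Commute P (Matrix.toLin' (tp a (RK σ))) := by
    intro σ hσ
    have hA : IsUnit (RK σ) := (Group.isUnit σ).map RK
    obtain ⟨s, x, hs, hu, hx, hc, hsx⟩ := exists_unipotent (RK σ) hA
    obtain ⟨P0, d, hP0, hsP⟩ := hs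
    obtain ⟨⟨P0', P1, hPP1, hP1P⟩, rfl⟩ := hP0
    simp only at hsP
    have hd : ∀ i, d i ≠ 0 := by
      intro i hi
      obtain ⟨⟨s', t, hst, hts⟩, rfl⟩ := hu
      simp only at hsP
      have h1 : Matrix.diagonal d * (P1 * t * P0') = 1 := by
        calc Matrix.diagonal d * (P1 * t * P0') = (P1 * P0') * Matrix.diagonal d * (P1 * t * P0') := by
              rw [hP1P, one_mul]
          _ = P1 * (P0' * Matrix.diagonal d) * (P1 * t * P0') := by rw [mul_assoc P1]
          _ = P1 * (s' * P0') * (P1 * t * P0') := by rw [hsP]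
          _ = P1 * s' * (P0' * P1) * t * P0' := by simp only [mul_assoc]
          _ = P1 * (s' * t) * P0' := by rw [hPP1, mul_one, mul_assoc P1]
          _ = 1 := by rw [hst, mul_one, hP1P]
      have h2 := congrFun (congrFun h1 i) i
      rw [Matrix.diagonal_mul, hi, zero_mul, Matrix.one_apply_eq] at h2
      exact zero_ne_one h2
    have heig := ChMain_eigen a hx hc hsx hP1P hsP
    set p : (Fin a → Fin n) → AlgebraicClosure ℚ_[ℓ] := fun I => ∏ i, d (I i) with hp
    have hp0 : ∀ I, p I ≠ 0 := fun I => Finset.prod_ne_zero_iff.2 fun i _ => hd (I i)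
    set S : Finset (AlgebraicClosure ℚ_[ℓ]) :=
      (Finset.univ.filter fun IJ : (Fin a → Fin n) × (Fin a → Fin n) => p IJ.1 ≠ p IJ.2).image
        fun IJ => p IJ.1 / p IJ.2 with hS
    obtain ⟨f, hf, hfS⟩ := exists_log_ne_zero (AlgebraicClosure ℚ_[ℓ]) S (by
      intro c hcS
      rw [hS, Finset.mem_image] at hcS
      obtain ⟨⟨I, J⟩, hIJ, rfl⟩ := hcS
      rw [Finset.mem_filter] at hIJ
      refine ⟨div_ne_zero (hp0 I) (hp0 J), fun N hN hN1 => ?_⟩
      apply hIJ.2
      refine hneat σ hσ (p I) (p J) ?_ ?_ N hN hN1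
      · rw [← hRK σ]
        exact heig I
      · rw [← hRK σ]
        exact heig J)
    have hinj : ∀ I J : Fin a → Fin n, f (∏ i, d (I i)) = f (∏ i, d (J i)) →
        ∏ i, d (I i) = ∏ i, d (J i) := by
      intro I J hfe
      by_contra hne
      have h1 : p I / p J ∈ S := by
        rw [hS, Finset.mem_image]
        exact ⟨(I, J), Finset.mem_filter.2 ⟨Finset.mem_univ _, hne⟩, rfl⟩
      apply hfS _ h1
      have h2 := hf (p I / p J) (p J) (div_ne_zero (hp0 I) (hp0 J)) (hp0 J)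
      rw [div_mul_cancel₀ _ (hp0 J)] at h2
      have h3 : f (p I) = f (p J) := hfe
      rw [h3] at h2
      exact left_eq_add.1 ((add_comm _ _).trans h2.symm |>.symm)
    set Q : TMat a n (AlgebraicClosure ℚ_[ℓ]) := LinearMap.toMatrix' P with hQ
    have hQP : Matrix.toLin' Q = P := Matrix.toLin'_toMatrix' P
    have key : ∀ M : TMat a n (AlgebraicClosure ℚ_[ℓ]), Commute P (Matrix.toLin' M) ↔
        Commute Q M := by
      intro M
      rw [← hQP]
      constructor
      · intro h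
        have h1 : Matrix.toLin' (Q * M) = Matrix.toLin' (M * Q) := by
          rw [Matrix.toLin'_mul, Matrix.toLin'_mul]
          exact h
        exact Matrix.toLin'.injective h1
      · intro h
        have h1 : Matrix.toLin' (Q * M) = Matrix.toLin' (M * Q) := by rw [h.eq]
        rw [Matrix.toLin'_mul, Matrix.toLin'_mul] at h1
        exact h1
    have hg : ∀ Y ∈ gS RK, Commute Q (dtp a Y) := by
      intro Y hY
      rw [← key]
      exact hP3 _ ⟨Y, hY, rfl⟩
    rw [key]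
    exact commute_tp a hf hx hsx hPP1 hP1P hsP hd hinj Q
      (hg _ (gS_log RK σ hf hx hc hsx hPP1 hP1P hsP))
      (hg _ (gS_lg RK σ ⟨P0', d, ⟨⟨P0', P1, hPP1, hP1P⟩, rfl⟩, hsP⟩ hu hx hc hsx))
  let ρ : G →* Module.End (AlgebraicClosure ℚ_[ℓ]) ((Fin a → Fin n) → AlgebraicClosure ℚ_[ℓ]) :=
    { toFun := fun σ => Matrix.toLin' (tp a (RK σ))
      map_one' := by
        rw [map_one, tp_one]
        exact Matrix.toLin'_one
      map_mul' := fun σ τ => by
        rw [map_mul, tp_mul, Matrix.toLin'_mul]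
        rfl }
  exact average ρ Γ hΓ U (fun σ v hv => hU σ v hv) P hP1 hP2 hcomm

theorem chev_rad (ℓ : ℕ) [Fact ℓ.Prime] {G : Type*} [Group G] [TopologicalSpace G]
    [IsTopologicalGroup G] [CompactSpace G] {n : ℕ} (a : ℕ) (R : G →* Mat n ℚ_[ℓ])
    (hcont : ∀ i j, Continuous fun g => R g i j)
    (hss : ∀ W : Submodule ℚ_[ℓ] (Fin n → ℚ_[ℓ]), (∀ σ, Stb (R σ) W) →
      ∃ W' : Submodule ℚ_[ℓ] (Fin n → ℚ_[ℓ]), (∀ σ, Stb (R σ) W') ∧ IsCompl W W')
    (z : TMat a n ℚ_[ℓ]) (hz : ∀ σ, Commute z (tp a (R σ)))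
    (h : ∀ f : TMat a n ℚ_[ℓ], (∀ σ, Commute f (tp a (R σ))) → (z * f).trace = 0) : z = 0 := by
  classical
  rcases Nat.eq_zero_or_pos a with rfl | ha
  · have h1 := h 1 fun σ => Commute.one_left _
    rw [mul_one, Matrix.trace, Fintype.sum_unique, Matrix.diag_apply] at h1
    ext I J
    rw [Subsingleton.elim I default, Subsingleton.elim J default, h1, Matrix.zero_apply]
  · let RK : G →* Mat n (AlgebraicClosure ℚ_[ℓ]) :=
      ((algebraMap ℚ_[ℓ] (AlgebraicClosure ℚ_[ℓ])).mapMatrix : Mat n ℚ_[ℓ] →+* _).toMonoidHom.comp R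
    have hRK : ∀ σ, RK σ = (R σ).map (algebraMap ℚ_[ℓ] (AlgebraicClosure ℚ_[ℓ])) := fun σ => rfl
    refine rad_zero (K := AlgebraicClosure ℚ_[ℓ]) (fun σ => tp a (R σ)) ?_ z hz h
    intro U hU
    simp only [← tp_map, ← hRK] at hU ⊢
    exact chev_proj ℓ ha R hcont hss RK hRK U hU

end Pool.Agent.B4801bC
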