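import Pool.Agent.W_f569db_zo.Cauchy

set_option autoImplicit false

/-!
# Lifting idempotents modulo the trace radical

Proof: `exists_quot D` gives `π : D →ₐ[K] R` surjective with kernel `rad D`, whose elements are nilpotent
(`cauchy_ker`); `π x` is idempotent; `exists_isIdempotentElem_eq_of_ker_isNilpotent` as in the proof of
`left_idem`.
-/

noncomputable section

namespace ZO

open Matrix Module

variable {ι : Type*} [Fintype ι] [DecidableEq ι] {K : Type*} [Field K] [CharZero K]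

theorem exists_idem_lift (D : Subalgebra K (Matrix ι ι K)) {x : Matrix ι ι K} (hx : x ∈ D)
    (h : x * x - x ∈ rad D) : ∃ e ∈ D, e * e = e ∧ e - x ∈ rad D := by
  obtain ⟨R, _, _, _, _, π, hπ, hk⟩ := exists_quot D
  have h1 : π (⟨x, hx⟩ * ⟨x, hx⟩ - ⟨x, hx⟩) = 0 := (hk _).2 h
  have h2 : IsIdempotentElem (π ⟨x, hx⟩) := by
    rw [map_sub, map_mul] at h1
    exact sub_eq_zero.mp h1
  obtain ⟨q, hq, hqe⟩ := exists_isIdempotentElem_eq_of_ker_isNilpotent
    (π : D →+* R) (fun y hy => cauchy_ker ((hk y).1 hy)) (π ⟨x, hx⟩) ⟨⟨x, hx⟩, rfl⟩ h2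
  have hqe' : π q = π ⟨x, hx⟩ := hqe
  refine ⟨q.1, q.2, congrArg Subtype.val hq, ?_⟩
  have h3 : π (q - ⟨x, hx⟩) = 0 := by
    rw [map_sub, hqe', sub_self]
  exact (hk _).1 h3

end ZO
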