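import Pool.Agent.W_f569db_zo.Two

set_option autoImplicit false

/-!
# The trace on `Hom_num (X V^{⊗ S} ⊗ V^{⊗ T}, V^{⊗ T})`

For `X ∈ P S S'` right multiplication `F ↦ F * (X ⊗ 1_T)` maps `P (S' ⊕ T) T` to `P (S ⊕ T) T` and
`N (S' ⊕ T) T` to `N (S ⊕ T) T` (`kr_mem`, `mul_mem`, `N_mul_right`).  `tau T X` (for `X ∈ P S S`) is the
trace on `P (S ⊕ T) T` minus the trace on `N (S ⊕ T) T`, i.e. the trace on the quotient.

* `tau_add`, `tau_smul`, `tau_sum`: linearity (`kr` is linear in the first argument; `restrict` is linear,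
  `LinearMap.ext`).
* `tau_comm`: for `X ∈ P S S'`, `Y ∈ P S' S`: `F ↦ F (Y X ⊗ 1)` on `P (S ⊕ T) T` is the composition of
  `tauP (Y : S' → S)`... : right multiplication by `Y X ⊗ 1 = (Y ⊗ 1) (X ⊗ 1)` is first right multiplication
  by `Y ⊗ 1` : `P (S ⊕ T) T → P (S' ⊕ T) T`, then by `X ⊗ 1` : `P (S' ⊕ T) T → P (S ⊕ T) T`; use
  `LinearMap.trace_comp_comm'` on `P` and on `N` separately.
* `tau_of_mem_N`: if `X ∈ N S S` then `F * (X ⊗ 1) ∈ N` for all `F ∈ P (S ⊕ T) T` (`kr_one_mem_N`), so the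
  endomorphism of `P (S ⊕ T) T` has range in the subspace `N (S ⊕ T) T`, and its trace is equal to the trace
  of its restriction to this subspace.
* `kr_one_mem_N`: `X ∈ N S S → X ⊗ 1_T ∈ N (S ⊕ T) (S ⊕ T)`: e.g. by bending as in `one_kr_mem_N` (which is
  the case of a source `Empty`; the same proof gives `kr 1 X ∈ N (T ⊕ S) (T ⊕ S)`: `bnd g (kr 1 X) =
  X * bnd g 1` by `bnd_one_kr`), then exchange the two factors by `pm (Equiv.sumComm ..)`.
* `pT_nat`: for an idempotent `q ∈ P S S` the operator `F ↦ F (q ⊗ 1)` is an idempotent on `P` and on `N`,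
  so the traces are the dimensions of the ranges (`LinearMap.IsIdempotentElem.isProj_range`,
  `LinearMap.IsProj.trace`), and the dimension of the range of the restriction to `F` is the dimension of
  `F.map (sand 1 (kr q 1))`.
-/

noncomputable section

namespace ZO

open Matrix Module

variable {α : Type} [Fintype α] [DecidableEq α] {K : Type*} [Field K]

namespace Sys

variable (Q : Sys α K) {S S' : Type} [Fintype S] [DecidableEq S] [Fintype S'] [DecidableEq S']

/-- the right multiplication by `X ⊗ 1` on `P` -/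
def tauP (T : Type) [Fintype T] [DecidableEq T] {X : Matrix (S' → α) (S → α) K}
    (hX : X ∈ Q.P S S') : Q.P (S' ⊕ T) T →ₗ[K] Q.P (S ⊕ T) T :=
  (sand (1 : Matrix (T → α) (T → α) K) (kr X (1 : Matrix (T → α) (T → α) K))).restrict
    (fun F hF => by
      rw [sand_apply, Matrix.one_mul]
      exact Q.mul_mem hF (Q.kr_mem hX (Q.one_mem T)))

/-- the right multiplication by `X ⊗ 1` on `N` -/
def tauN (T : Type) [Fintype T] [DecidableEq T] {X : Matrix (S' → α) (S → α) K}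
    (hX : X ∈ Q.P S S') : Q.N (S' ⊕ T) T →ₗ[K] Q.N (S ⊕ T) T :=
  (sand (1 : Matrix (T → α) (T → α) K) (kr X (1 : Matrix (T → α) (T → α) K))).restrict
    (fun F hF => by
      rw [sand_apply, Matrix.one_mul]
      exact Q.N_mul_right hF (Q.kr_mem hX (Q.one_mem T)))

open Classical in
/-- the trace of `F ↦ F * (X ⊗ 1)` on `P (S ⊕ T) T / N (S ⊕ T) T` -/
def tau (T : Type) [Fintype T] [DecidableEq T] (X : Matrix (S → α) (S → α) K) : K :=
  if h : X ∈ Q.P S S then
    LinearMap.trace K _ (Q.tauP T h) - LinearMap.trace K _ (Q.tauN T h) else 0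

variable {T : Type} [Fintype T] [DecidableEq T]

theorem tau_eq {X : Matrix (S → α) (S → α) K} (h : X ∈ Q.P S S) :
    Q.tau T X = LinearMap.trace K _ (Q.tauP T h) - LinearMap.trace K _ (Q.tauN T h) :=
  dif_pos h

theorem Tau_kr_add_left {β : Type} {L : Type*} [Field L] {S₁ S₂ T₁ T₂ : Type}
    (A B : Matrix (S₂ → β) (S₁ → β) L)
    (C : Matrix (T₂ → β) (T₁ → β) L) : kr (A + B) C = kr A C + kr B C := by
  ext c d
  change (A _ _ + B _ _) * C _ _ = A _ _ * C _ _ + B _ _ * C _ _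
  rw [add_mul]

theorem Tau_kr_smul_left {β : Type} {L : Type*} [Field L] {S₁ S₂ T₁ T₂ : Type} (a : L)
    (A : Matrix (S₂ → β) (S₁ → β) L)
    (C : Matrix (T₂ → β) (T₁ → β) L) : kr (a • A) C = a • kr A C := by
  ext c d
  change (a * A _ _) * C _ _ = a * (A _ _ * C _ _)
  rw [mul_assoc]

theorem tauP_apply {X : Matrix (S' → α) (S → α) K} (hX : X ∈ Q.P S S') (F : Q.P (S' ⊕ T) T) :
    (Q.tauP T hX F : Matrix (T → α) (S ⊕ T → α) K) =
      (F : Matrix (T → α) (S' ⊕ T → α) K) * kr X (1 : Matrix (T → α) (T → α) K) := by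
  change (1 : Matrix (T → α) (T → α) K) * (F : Matrix (T → α) (S' ⊕ T → α) K) * kr X 1 = _
  rw [Matrix.one_mul]
  rfl

theorem tauN_apply {X : Matrix (S' → α) (S → α) K} (hX : X ∈ Q.P S S') (F : Q.N (S' ⊕ T) T) :
    (Q.tauN T hX F : Matrix (T → α) (S ⊕ T → α) K) =
      (F : Matrix (T → α) (S' ⊕ T → α) K) * kr X (1 : Matrix (T → α) (T → α) K) := by
  change (1 : Matrix (T → α) (T → α) K) * (F : Matrix (T → α) (S' ⊕ T → α) K) * kr X 1 = _
  rw [Matrix.one_mul]
  rfl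

theorem tau_add {X Y : Matrix (S → α) (S → α) K} (hX : X ∈ Q.P S S) (hY : Y ∈ Q.P S S) :
    Q.tau T (X + Y) = Q.tau T X + Q.tau T Y := by
  have h1 : Q.tauP T (add_mem hX hY) = Q.tauP T hX + Q.tauP T hY := by
    refine LinearMap.ext fun F => Subtype.ext ?_
    rw [LinearMap.add_apply, Submodule.coe_add, tauP_apply, tauP_apply, tauP_apply,
      Tau_kr_add_left, Matrix.mul_add]
  have h2 : Q.tauN T (add_mem hX hY) = Q.tauN T hX + Q.tauN T hY := by
    refine LinearMap.ext fun F => Subtype.ext ?_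
    rw [LinearMap.add_apply, Submodule.coe_add, tauN_apply, tauN_apply, tauN_apply,
      Tau_kr_add_left, Matrix.mul_add]
  rw [Q.tau_eq hX, Q.tau_eq hY, Q.tau_eq (add_mem hX hY), h1, h2, map_add, map_add]
  ring

theorem tau_smul (c : K) {X : Matrix (S → α) (S → α) K} (hX : X ∈ Q.P S S) :
    Q.tau T (c • X) = c * Q.tau T X := by
  have h0 : c • X ∈ Q.P S S := Submodule.smul_mem _ c hX
  have h1 : Q.tauP T h0 = c • Q.tauP T hX := by
    refine LinearMap.ext fun F => Subtype.ext ?_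
    rw [LinearMap.smul_apply, Submodule.coe_smul, tauP_apply, tauP_apply,
      Tau_kr_smul_left, Matrix.mul_smul]
  have h2 : Q.tauN T h0 = c • Q.tauN T hX := by
    refine LinearMap.ext fun F => Subtype.ext ?_
    rw [LinearMap.smul_apply, Submodule.coe_smul, tauN_apply, tauN_apply,
      Tau_kr_smul_left, Matrix.mul_smul]
  rw [Q.tau_eq hX, Q.tau_eq h0, h1, h2, map_smul, map_smul, smul_eq_mul, smul_eq_mul]
  ring

theorem tau_sum {ι : Type*} (s : Finset ι) (X : ι → Matrix (S → α) (S → α) K)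
    (hX : ∀ i ∈ s, X i ∈ Q.P S S) : Q.tau T (∑ i ∈ s, X i) = ∑ i ∈ s, Q.tau T (X i) := by
  classical
  induction s using Finset.induction_on with
  | empty =>
    rw [Finset.sum_empty, Finset.sum_empty]
    have h1 := Q.tau_smul (T := T) 0 (zero_mem (Q.P S S))
    rwa [zero_smul, zero_mul] at h1
  | insert a s ha ih =>
    rw [Finset.sum_insert ha, Finset.sum_insert ha,
      Q.tau_add (hX a (Finset.mem_insert_self a s))
        (sum_mem fun i hi => hX i (Finset.mem_insert_of_mem hi)),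
      ih fun i hi => hX i (Finset.mem_insert_of_mem hi)]

theorem tau_comm {X : Matrix (S' → α) (S → α) K} {Y : Matrix (S → α) (S' → α) K}
    (hX : X ∈ Q.P S S') (hY : Y ∈ Q.P S' S) : Q.tau T (Y * X) = Q.tau T (X * Y) := by
  have e1 : Q.tauP T (Q.mul_mem hY hX) = Q.tauP T hX ∘ₗ Q.tauP T hY := by
    refine LinearMap.ext fun F => Subtype.ext ?_
    rw [LinearMap.comp_apply, tauP_apply, tauP_apply, tauP_apply, Matrix.mul_assoc, kr_mul,
      Matrix.one_mul]
  have e2 : Q.tauN T (Q.mul_mem hY hX) = Q.tauN T hX ∘ₗ Q.tauN T hY := by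
    refine LinearMap.ext fun F => Subtype.ext ?_
    rw [LinearMap.comp_apply, tauN_apply, tauN_apply, tauN_apply, Matrix.mul_assoc, kr_mul,
      Matrix.one_mul]
  have e3 : Q.tauP T (Q.mul_mem hX hY) = Q.tauP T hY ∘ₗ Q.tauP T hX := by
    refine LinearMap.ext fun F => Subtype.ext ?_
    rw [LinearMap.comp_apply, tauP_apply, tauP_apply, tauP_apply, Matrix.mul_assoc, kr_mul,
      Matrix.one_mul]
  have e4 : Q.tauN T (Q.mul_mem hX hY) = Q.tauN T hY ∘ₗ Q.tauN T hX := by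
    refine LinearMap.ext fun F => Subtype.ext ?_
    rw [LinearMap.comp_apply, tauN_apply, tauN_apply, tauN_apply, Matrix.mul_assoc, kr_mul,
      Matrix.one_mul]
  rw [Q.tau_eq (Q.mul_mem hY hX), Q.tau_eq (Q.mul_mem hX hY), e1, e2, e3, e4,
    LinearMap.trace_comp_comm', LinearMap.trace_comp_comm' (Q.tauN T hY)]

theorem kr_one_mem_N {X : Matrix (S → α) (S → α) K} (hX : X ∈ Q.N S S) :
    kr X (1 : Matrix (T → α) (T → α) K) ∈ Q.N (S ⊕ T) (S ⊕ T) := by
  have hinj : Function.Injective (bnd (S := T) (T := T ⊕ S) (T' := S) Q.g) :=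
    Function.LeftInverse.injective (g := bndI Q.g') (fun F => bndI_bnd Q.g'g F)
  have h1 : bnd Q.g (kr (1 : Matrix (T → α) (T → α) K) X) =
      X * bnd Q.g (1 : Matrix (T ⊕ S → α) (T ⊕ S → α) K) := by
    rw [← bnd_one_kr, Matrix.mul_one]
  have h2 : bnd Q.g (kr (1 : Matrix (T → α) (T → α) K) X) ∈ Q.N (T ⊕ (T ⊕ S)) S := by
    rw [h1]
    exact Q.N_mul_right hX (Q.bnd_mem (Q.one_mem _))
  rw [← map_bnd_N] at h2
  obtain ⟨F, hF, hF2⟩ := h2
  have h3 : kr (1 : Matrix (T → α) (T → α) K) X ∈ Q.N (T ⊕ S) (T ⊕ S) := by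
    rw [← hinj hF2]
    exact hF
  have h4 := Q.Pm_tr_N (Equiv.sumComm T S) (Equiv.sumComm T S) h3
  have h5 : Pm_tr α K (Equiv.sumComm T S) (Equiv.sumComm T S)
      (kr (1 : Matrix (T → α) (T → α) K) X) = kr X (1 : Matrix (T → α) (T → α) K) := by
    change pm α K (Equiv.sumComm T S) * kr (1 : Matrix (T → α) (T → α) K) X *
      pm α K (Equiv.sumComm T S).symm = _
    ext c d
    rw [mul_pm_apply, pm_mul_apply]
    exact mul_comm _ _
  rwa [h5] at h4

theorem tau_of_mem_N {X : Matrix (S → α) (S → α) K} (hX : X ∈ Q.N S S) : Q.tau T X = 0 := by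
  have hk : kr X (1 : Matrix (T → α) (T → α) K) ∈ Q.N (S ⊕ T) (S ⊕ T) := Q.kr_one_mem_N hX
  have hmem : ∀ F : Q.P (S ⊕ T) T, (Q.tauP T hX.1 F : Matrix (T → α) (S ⊕ T → α) K) ∈
      Q.N (S ⊕ T) T := by
    intro F
    rw [tauP_apply]
    exact Q.N_mul_left F.2 hk
  let G : Q.P (S ⊕ T) T →ₗ[K] Q.N (S ⊕ T) T :=
    LinearMap.codRestrict (Q.N (S ⊕ T) T) ((Q.P (S ⊕ T) T).subtype ∘ₗ Q.tauP T hX.1) hmem
  let J : Q.N (S ⊕ T) T →ₗ[K] Q.P (S ⊕ T) T := Submodule.inclusion (Q.N_le (S ⊕ T) T)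
  have e1 : Q.tauP T hX.1 = J ∘ₗ G := by
    refine LinearMap.ext fun F => Subtype.ext ?_
    rfl
  have e2 : Q.tauN T hX.1 = G ∘ₗ J := by
    refine LinearMap.ext fun F => Subtype.ext ?_
    rw [tauN_apply]
    change _ = (Q.tauP T hX.1 (J F) : Matrix (T → α) (S ⊕ T → α) K)
    rw [tauP_apply]
    rfl
  rw [Q.tau_eq hX.1, e1, e2, LinearMap.trace_comp_comm', sub_self]

theorem Tau_trace {V : Type*} [AddCommGroup V] [Module K V] [FiniteDimensional K V]
    {φ : V →ₗ[K] V} (F : Submodule K V) (hF : ∀ x ∈ F, φ x ∈ F)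
    (hφ : ∀ x, φ (φ x) = φ x) :
    LinearMap.trace K _ (φ.restrict hF) = (finrank K (F.map φ) : K) := by
  have h1 : IsIdempotentElem (φ.restrict hF) := by
    refine LinearMap.ext fun x => Subtype.ext ?_
    exact hφ x
  have h2 := (LinearMap.IsIdempotentElem.isProj_range _ h1).trace
  have h3 : (LinearMap.range (φ.restrict hF)).map F.subtype = F.map φ := by
    ext y
    constructor
    · rintro ⟨_, ⟨x, rfl⟩, rfl⟩
      exact ⟨x, x.2, rfl⟩
    · rintro ⟨x, hx, rfl⟩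
      exact ⟨φ.restrict hF ⟨x, hx⟩, ⟨⟨x, hx⟩, rfl⟩, rfl⟩
  rw [h2, ← h3, Submodule.finrank_map_subtype_eq]

theorem pT_nat {q : Matrix (S → α) (S → α) K} (hq : q ∈ Q.P S S) (hq2 : q * q = q) :
    ∃ n : ℕ, Q.pT T q = n ∧ Q.tau T q = n := by
  have hPN : (Q.N (S ⊕ T) T).map (sand (1 : Matrix (T → α) (T → α) K)
      (kr q (1 : Matrix (T → α) (T → α) K))) ≤ (Q.P (S ⊕ T) T).map
      (sand (1 : Matrix (T → α) (T → α) K) (kr q (1 : Matrix (T → α) (T → α) K))) :=
    Submodule.map_mono (Q.N_le (S ⊕ T) T)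
  have hle := Submodule.finrank_mono hPN
  have hid : ∀ F : Matrix (T → α) (S ⊕ T → α) K,
      sand (1 : Matrix (T → α) (T → α) K) (kr q (1 : Matrix (T → α) (T → α) K))
        (sand (1 : Matrix (T → α) (T → α) K) (kr q (1 : Matrix (T → α) (T → α) K)) F) =
      sand (1 : Matrix (T → α) (T → α) K) (kr q (1 : Matrix (T → α) (T → α) K)) F := by
    intro F
    rw [sand_apply, sand_apply, Matrix.one_mul, Matrix.one_mul, Matrix.mul_assoc, kr_mul, hq2,
      Matrix.one_mul]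
  have hP : LinearMap.trace K _ (Q.tauP T hq) = (finrank K ((Q.P (S ⊕ T) T).map
      (sand (1 : Matrix (T → α) (T → α) K) (kr q (1 : Matrix (T → α) (T → α) K)))) : K) := by
    exact Tau_trace _ _ hid
  have hN : LinearMap.trace K _ (Q.tauN T hq) = (finrank K ((Q.N (S ⊕ T) T).map
      (sand (1 : Matrix (T → α) (T → α) K) (kr q (1 : Matrix (T → α) (T → α) K)))) : K) := by
    exact Tau_trace _ _ hid
  refine ⟨finrank K ((Q.P (S ⊕ T) T).map
      (sand (1 : Matrix (T → α) (T → α) K) (kr q (1 : Matrix (T → α) (T → α) K)))) -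
      finrank K ((Q.N (S ⊕ T) T).map
      (sand (1 : Matrix (T → α) (T → α) K) (kr q (1 : Matrix (T → α) (T → α) K)))), ?_, ?_⟩
  · unfold pT cod
    rw [Nat.cast_sub hle]
  · rw [Q.tau_eq hq, hP, hN, Nat.cast_sub hle]

/-- transport along a bijection of the index sets, from `tau_comm` and `pm_symm_mul` -/
theorem tau_pm (e : S ≃ S') {X : Matrix (S → α) (S → α) K} (hX : X ∈ Q.P S S) :
    Q.tau T (pm α K e * X * pm α K e.symm) = Q.tau T X := by
  have hX1 : pm α K e * X ∈ Q.P S S' := Q.mul_mem (Q.pm_mem e) hX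
  rw [Q.tau_comm (Q.pm_mem e.symm) hX1, ← Matrix.mul_assoc, pm_symm_mul, Matrix.one_mul]

end Sys

end ZO
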