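import Pool.Agent.W_f569db_zo.Ann
import Pool.Agent.W_b4801b_h57.Tau
import Pool.Agent.W_b4801b_h57.Lift

set_option autoImplicit false

/-!
# One layer, relative to an idempotent

Let `0 ≠ y ∈ P ∅ S` and `e ∈ P S S` idempotent with `e * y = y`.  Then
`dim (P S Y) y - dim (N S Y) y ≥ pT e - (rank e - 1) a T T` for `Y = T ⊕ T`.

Proof.  Take `q` from `exists_ann` (idempotent, `q ≠ 1`, `f * y = 0 → f - f * q ∈ N`).  As in the proof of
`layer`: `cod (sand 1 y) P N ≥ a - pT q` where `a := finrank P S (T ⊕ T) - finrank N S (T ⊕ T)`, and this `a` is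
`pT 1` (`cod_eq_pT` for `q = 1`, or compare with `cod (sand 1 1)`).  So with `p := 1 - q`, an idempotent of
`P S S`, `p ≠ 0`: by `pT_nat` and additivity of `tau`: `pT 1 - pT q = pT p` (the three numbers are natural
numbers whose images in `K` are `tau 1`, `tau q`, `tau p`).
`(1 - e) * y = 0`, so `(1 - e) - (1 - e) * q = (1 - e) * p ∈ N S S`.  Put `x := e - p * e ∈ P S S`.  Then
`x * x - x ∈ N S S`: `x * x - x = - e p e - p e e + p e p e + p e = (1 - e) p e - p (1 - e) p e` (use
`e e = e`, `p p = p`: `x * x = e - e p e - p e + p e p e`, and `e p e = p e - (1 - e) p e`,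
`p e p e = p p e - p (1 - e) p e = p e - p (1 - e) p e`), which is in the ideal `N` by `N_mul_left`,
`N_mul_right`.  By `exists_idem_lift` for `Q.alg S` (`rad_alg`) there is an idempotent `e' ∈ P S S` with
`e' - x ∈ N S S`.  Traces: `tr e' = tr x = tr e - tr (p e) = tr e - tr (e p) = tr e - tr p` (`trace_N`), so by
`trace_idem`: `rank e' = rank e - rank p ≤ rank e - 1` (`p ≠ 0` idempotent has rank `≥ 1`; natural numbers in
characteristic zero).  Similarly `tau e' = tau x = tau e - tau (p e) = tau e - tau (e p) = tau e - tau p`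
(`tau_of_mem_N`, `tau_comm`), so `pT p = pT e - pT e' ≥ pT e - rank e' * a T T` (`pT_le`).
-/

noncomputable section

namespace ZO

open Matrix Module

variable {α : Type} [Fintype α] [DecidableEq α] [Nonempty α] {K : Type*} [Field K] [CharZero K]

namespace Sys

variable (Q : Sys α K) {S : Type} [Fintype S] [DecidableEq S]

theorem LayerE_full (T : Type) [Fintype T] [DecidableEq T] :
    (finrank K (Q.P S (T ⊕ T)) : ℝ) - finrank K (Q.N S (T ⊕ T)) =
      Q.pT T (1 : Matrix (S → α) (S → α) K) := by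
  rw [← Q.cod_eq_pT (T := T) (1 : Matrix (S → α) (S → α) K)]
  have h1 : sand (1 : Matrix (T ⊕ T → α) (T ⊕ T → α) K) (1 : Matrix (S → α) (S → α) K) =
      LinearMap.id := by
    apply LinearMap.ext
    intro x
    rw [sand_apply, Matrix.one_mul, Matrix.mul_one]
    rfl
  unfold cod
  rw [h1, Submodule.map_id, Submodule.map_id]

theorem LayerE_ge (T : Type) [Fintype T] [DecidableEq T] {q : Matrix (S → α) (S → α) K}
    (hq : q ∈ Q.P S S) (hqq : q * q = q) {y : Matrix (S → α) (Empty → α) K}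
    (hann : ∀ (Y : Type) [Fintype Y] [DecidableEq Y]
      (f : Matrix (Y → α) (S → α) K), f ∈ Q.P S Y → f * y = 0 → f - f * q ∈ Q.N S Y) :
    Q.pT T (1 : Matrix (S → α) (S → α) K) - Q.pT T q ≤
      cod (sand (1 : Matrix (T ⊕ T → α) (T ⊕ T → α) K) y) (Q.P S (T ⊕ T)) (Q.N S (T ⊕ T)) := by
  set φ := sand (1 : Matrix (T ⊕ T → α) (T ⊕ T → α) K) y with hφ
  rw [← Q.LayerE_full T]
  set F := Q.P S (T ⊕ T) with hF
  set G := Q.N S (T ⊕ T) with hG
  have hGF : G ≤ F := Q.N_le S (T ⊕ T)
  have h1 := cod_eq φ F G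
  have h2 := dim_image_le (sand (1 : Matrix (T ⊕ T → α) (T ⊕ T → α) K) q)
    (fun x => by
      rw [sand_apply, sand_apply, Matrix.one_mul, Matrix.one_mul, Matrix.mul_assoc, hqq])
    F G (F ⊓ LinearMap.ker φ) hGF
    (fun x hx => by
      rw [sand_apply, Matrix.one_mul]
      exact Q.mul_mem hx hq)
    (fun x hx => by
      rw [sand_apply, Matrix.one_mul]
      exact Q.N_mul_right hx hq)
    inf_le_left
    (fun x hx => by
      rw [sand_apply, Matrix.one_mul]
      refine hann _ x hx.1 ?_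
      have h3 : φ x = 0 := hx.2
      rw [hφ, sand_apply, Matrix.one_mul] at h3
      exact h3)
  rw [Q.cod_eq_pT q] at h2
  have h3 : G ⊓ (F ⊓ LinearMap.ker φ) = G ⊓ LinearMap.ker φ := by
    rw [← inf_assoc, inf_eq_left.2 hGF]
  rw [h3] at h2
  rw [h1]
  linarith

theorem layerE (T : Type) [Fintype T] [DecidableEq T] {e : Matrix (S → α) (S → α) K}
    (he : e ∈ Q.P S S) (he2 : e * e = e) {y : Matrix (S → α) (Empty → α) K}
    (hy : y ∈ Q.P Empty S) (hy0 : y ≠ 0) (hey : e * y = y) :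
    Q.pT T e - ((e.rank : ℝ) - 1) * Q.a T T ≤
      cod (sand (1 : Matrix (T ⊕ T → α) (T ⊕ T → α) K) y) (Q.P S (T ⊕ T)) (Q.N S (T ⊕ T)) := by
  obtain ⟨q, hq, hqq, hq1, hann⟩ := Q.exists_ann hy hy0
  have hge := Q.LayerE_ge T hq hqq (y := y) hann
  obtain ⟨p, hp⟩ : ∃ p : Matrix (S → α) (S → α) K, p = 1 - q := ⟨_, rfl⟩
  have hpP : p ∈ Q.P S S := by
    rw [hp]
    exact sub_mem (Q.one_mem S) hq
  have hpp : p * p = p := by
    rw [hp, Matrix.mul_sub, Matrix.mul_one, Matrix.sub_mul, Matrix.one_mul, hqq, sub_self,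
      sub_zero]
  -- `(1 - e) * p` is numerically trivial
  have h1e : (1 - e) * p ∈ Q.N S S := by
    have h1 := hann S (1 - e) (sub_mem (Q.one_mem S) he) (by
      rw [Matrix.sub_mul, Matrix.one_mul, hey, sub_self])
    have h2 : (1 - e) * p = (1 - e) - (1 - e) * q := by
      rw [hp, Matrix.mul_sub, Matrix.mul_one]
    rw [h2]
    exact h1
  obtain ⟨x, hx⟩ : ∃ x : Matrix (S → α) (S → α) K, x = e - p * e := ⟨_, rfl⟩
  have hxP : x ∈ Q.P S S := by
    rw [hx]
    exact sub_mem he (Q.mul_mem hpP he)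
  have hxx : x * x - x ∈ rad (Q.alg S) := by
    rw [Q.rad_alg]
    have h1 : x * x - x = (1 - e) * p * e - p * ((1 - e) * p) * e := by
      have h2 : x * x = e * e - e * p * e - p * (e * e) + p * e * p * e := by
        rw [hx]
        noncomm_ring
      have h3 : (1 - e) * p * e - p * ((1 - e) * p) * e =
          p * e - e * p * e - p * p * e + p * e * p * e := by
        noncomm_ring
      rw [h2, h3, he2, hpp, hx]
      abel
    rw [h1]
    exact sub_mem (Q.N_mul_right h1e he) (Q.N_mul_right (Q.N_mul_left hpP h1e) he)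
  obtain ⟨e', he', hee', hex⟩ := exists_idem_lift (Q.alg S) (x := x) hxP hxx
  rw [Q.rad_alg] at hex
  have he'P : e' ∈ Q.P S S := he'
  -- traces
  have htr : Matrix.trace e = Matrix.trace e' + Matrix.trace p := by
    have h1 := Q.trace_N hex
    have h2 := Q.trace_N h1e
    rw [Matrix.trace_sub, hx, Matrix.trace_sub, Matrix.trace_mul_comm p e] at h1
    rw [Matrix.sub_mul, Matrix.one_mul, Matrix.trace_sub] at h2
    linear_combination -h1 - h2
  have htr1 : Matrix.trace (1 : Matrix (S → α) (S → α) K) =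
      Matrix.trace q + Matrix.trace p := by
    rw [hp, Matrix.trace_sub]
    ring
  have hrk : e.rank = e'.rank + p.rank := by
    rw [trace_idem he2, trace_idem hee', trace_idem hpp] at htr
    exact_mod_cast htr
  have hrk1 : Fintype.card (S → α) = q.rank + p.rank := by
    rw [trace_idem hqq, trace_idem hpp, Matrix.trace_one] at htr1
    exact_mod_cast htr1
  have hlt := rank_lt_of_idem hqq hq1
  have hp1 : 1 ≤ p.rank := by omega
  -- the numbers `tau`
  have htau1 : Q.tau T (1 : Matrix (S → α) (S → α) K) = Q.tau T q + Q.tau T p := by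
    rw [← Q.tau_add hq hpP]
    congr 1
    rw [hp]
    abel
  have htau : Q.tau T e = Q.tau T e' + Q.tau T p := by
    have h1 : Q.tau T e = Q.tau T x + Q.tau T (p * e) := by
      rw [← Q.tau_add hxP (Q.mul_mem hpP he)]
      congr 1
      rw [hx]
      abel
    have h2 : Q.tau T e' = Q.tau T x := by
      have h3 : Q.tau T e' = Q.tau T (e' - x) + Q.tau T x := by
        rw [← Q.tau_add hex.1 hxP]
        congr 1
        abel
      rw [h3, Q.tau_of_mem_N hex, zero_add]
    have h3 : Q.tau T p = Q.tau T (p * e) := by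
      have h4 : Q.tau T p = Q.tau T ((1 - e) * p) + Q.tau T (e * p) := by
        rw [← Q.tau_add h1e.1 (Q.mul_mem he hpP)]
        congr 1
        noncomm_ring
      rw [h4, Q.tau_of_mem_N h1e, zero_add]
      exact Q.tau_comm hpP he
    rw [h1, h2, h3]
  obtain ⟨n1, hn1, hn1'⟩ := Q.pT_nat (T := T) (Q.one_mem S) (Matrix.one_mul _)
  obtain ⟨nq, hnq, hnq'⟩ := Q.pT_nat (T := T) hq hqq
  obtain ⟨np, hnp, hnp'⟩ := Q.pT_nat (T := T) hpP hpp
  obtain ⟨ne, hne, hne'⟩ := Q.pT_nat (T := T) he he2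
  obtain ⟨ne', hne1, hne1'⟩ := Q.pT_nat (T := T) he'P hee'
  have hN1 : n1 = nq + np := by
    rw [hn1', hnq', hnp'] at htau1
    exact_mod_cast htau1
  have hN2 : ne = ne' + np := by
    rw [hne', hne1', hnp'] at htau
    exact_mod_cast htau
  have hle := Q.pT_le (T := T) he'P hee'
  have ha := (Q.a_pos T).le
  have hr : (e'.rank : ℝ) ≤ (e.rank : ℝ) - 1 := by
    have h1 : ((e'.rank + 1 : ℕ) : ℝ) ≤ (e.rank : ℕ) := by
      exact_mod_cast (by omega : e'.rank + 1 ≤ e.rank)
    push_cast at h1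
    linarith
  have hr2 : (e'.rank : ℝ) * Q.a T T ≤ ((e.rank : ℝ) - 1) * Q.a T T :=
    mul_le_mul_of_nonneg_right hr ha
  have h1 : Q.pT T (1 : Matrix (S → α) (S → α) K) - Q.pT T q = Q.pT T e - Q.pT T e' := by
    rw [hn1, hnq, hne, hne1, hN1, hN2]
    push_cast
    ring
  linarith

end Sys

end ZO
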