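import Pool.Agent.W_f569db_zo.BendB
import Pool.Agent.W_f569db_zo.SymAlg

set_option autoImplicit false

/-!
# Symmetrizers and antisymmetrizers of `E^{⊗ J}`, `E = V^{⊗ D}`

`E^{⊗ J} = V^{⊗ (J × D)}`.  `pmL σ` permutes the factors `E`.  Recall `pm e' * pm e = pm (e.trans e')`, so
`pmL σ * pmL τ = pmL (σ * τ)`, `pmL 1 = 1`.
-/

noncomputable section

namespace ZO

open Matrix Module

variable (α : Type) [Fintype α] [DecidableEq α] (K : Type*) [Field K]

/-- the permutation `σ` of the factors `E = V^{⊗ D}` of `E^{⊗ J}` -/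
def pmL (D : Type) {J : Type} (σ : Equiv.Perm J) : Matrix (J × D → α) (J × D → α) K :=
  pm α K (Equiv.prodCongr σ (Equiv.refl D))

/-- the symmetrizer of `E^{⊗ J}` -/
def esym (J D : Type) [Fintype J] [DecidableEq J] : Matrix (J × D → α) (J × D → α) K :=
  ((Fintype.card J).factorial : K)⁻¹ • ∑ σ : Equiv.Perm J, pmL α K D σ

/-- the antisymmetrizer of `E^{⊗ J}` -/
def ealt (J D : Type) [Fintype J] [DecidableEq J] : Matrix (J × D → α) (J × D → α) K :=
  ((Fintype.card J).factorial : K)⁻¹ •
    ∑ σ : Equiv.Perm J, ((Equiv.Perm.sign σ : ℤ) : K) • pmL α K D σ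

variable {α K} {J D : Type} [Fintype J] [DecidableEq J] [Fintype D] [DecidableEq D]

theorem pmL_mul (σ τ : Equiv.Perm J) : pmL α K D σ * pmL α K D τ = pmL α K D (σ * τ) := by
  unfold pmL
  rw [pm_mul]
  rfl

theorem pmL_one : pmL α K D (1 : Equiv.Perm J) = 1 := by
  have h : Equiv.prodCongr (1 : Equiv.Perm J) (Equiv.refl D) = Equiv.refl (J × D) := by
    ext x <;> rfl
  unfold pmL
  rw [h, pm_refl]

/-- a tensor which is fixed by all permutations of the factors is fixed by the symmetrizer -/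
theorem SymD_mul [CharZero K] {ι : Type*} {y : Matrix (J × D → α) ι K}
    (h : ∀ σ : Equiv.Perm J, pmL α K D σ * y = y) : esym α K J D * y = y := by
  unfold esym
  rw [Matrix.smul_mul, Matrix.sum_mul]
  simp only [h, Finset.sum_const, Finset.card_univ, Fintype.card_perm]
  rw [← Nat.cast_smul_eq_nsmul K, smul_smul, inv_mul_cancel₀, one_smul]
  exact_mod_cast Nat.factorial_ne_zero _

theorem SymD_left (σ : Equiv.Perm J) : pmL α K D σ * esym α K J D = esym α K J D := by
  unfold esym
  rw [Matrix.mul_smul, Matrix.mul_sum]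
  congr 1
  simp only [pmL_mul]
  exact Equiv.sum_comp (Equiv.mulLeft σ) (fun τ => pmL α K D τ)

theorem SymD_altleft (σ : Equiv.Perm J) :
    pmL α K D σ * ealt α K J D = ((Equiv.Perm.sign σ : ℤ) : K) • ealt α K J D := by
  unfold ealt
  rw [Matrix.mul_smul, Matrix.mul_sum, smul_comm]
  congr 1
  rw [Finset.smul_sum]
  simp only [Matrix.mul_smul, pmL_mul]
  refine Fintype.sum_equiv (Equiv.mulLeft σ) _ _ fun τ => ?_
  rw [Equiv.coe_mulLeft, smul_smul]
  congr 1
  rw [map_mul, Units.val_mul, Int.cast_mul, ← mul_assoc, ← Int.cast_mul, ← Units.val_mul,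
    Int.units_mul_self, Units.val_one, Int.cast_one, one_mul]

theorem esym_idem [CharZero K] : esym α K J D * esym α K J D = esym α K J D :=
  SymD_mul SymD_left

theorem ealt_idem [CharZero K] : ealt α K J D * ealt α K J D = ealt α K J D := by
  conv_lhs =>
    enter [1]
    unfold ealt
  rw [Matrix.smul_mul, Matrix.sum_mul]
  have h : ∀ σ : Equiv.Perm J, (((Equiv.Perm.sign σ : ℤ) : K) • pmL α K D σ) * ealt α K J D =
      ealt α K J D := by
    intro σ
    rw [Matrix.smul_mul, SymD_altleft, smul_smul, ← Int.cast_mul, ← Units.val_mul,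
      Int.units_mul_self, Units.val_one, Int.cast_one, one_smul]
  simp only [h, Finset.sum_const, Finset.card_univ, Fintype.card_perm]
  rw [← Nat.cast_smul_eq_nsmul K, smul_smul, inv_mul_cancel₀, one_smul]
  exact_mod_cast Nat.factorial_ne_zero _

/-- a tensor which is fixed by all permutations of the factors is fixed by the symmetrizer -/
theorem esym_mul [CharZero K] {ι : Type*} {y : Matrix (J × D → α) ι K}
    (h : ∀ σ : Equiv.Perm J, pmL α K D σ * y = y) : esym α K J D * y = y :=
  SymD_mul h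

theorem esym_fin_zero : esym α K (Fin 0) D = 1 := by
  unfold esym
  rw [Fintype.sum_unique, Fintype.card_fin, Nat.factorial_zero, Nat.cast_one, inv_one, one_smul]
  exact pmL_one

theorem ealt_fin_zero : ealt α K (Fin 0) D = 1 := by
  unfold ealt
  rw [Fintype.sum_unique, Fintype.card_fin, Nat.factorial_zero, Nat.cast_one, inv_one, one_smul]
  have h : (default : Equiv.Perm (Fin 0)) = 1 := Subsingleton.elim _ _
  rw [h, Equiv.Perm.sign_one, Units.val_one, Int.cast_one, one_smul]
  exact pmL_one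

theorem SymD_pm_transpose {S S' : Type} [Fintype S] [DecidableEq S] [Fintype S'] [DecidableEq S']
    (e : S ≃ S') : (pm α K e)ᵀ = pm α K e.symm := by
  ext c d
  rw [Matrix.transpose_apply, Pm_apply, Pm_apply]
  have h : d ∘ e = c ↔ c ∘ e.symm = d := by
    constructor
    · rintro rfl
      funext x
      simp
    · rintro rfl
      funext x
      simp
  by_cases h1 : d ∘ e = c
  · rw [if_pos h1, if_pos (h.1 h1)]
  · rw [if_neg h1, if_neg (fun h2 => h1 (h.2 h2))]

theorem SymD_tp_pm {S : Type} [Fintype S] [DecidableEq S] (g : Matrix α α K) (e : S ≃ S) :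
    tp g S * pm α K e = pm α K e * tp g S := by
  ext c d
  rw [mul_pm_apply, pm_mul_apply]
  change ∏ s, g (c s) ((d ∘ e.symm) s) = ∏ s, g ((c ∘ e) s) (d s)
  rw [← Equiv.prod_comp e]
  refine Finset.prod_congr rfl fun s _ => ?_
  simp

theorem SymD_alt_transpose : (ealt α K J D)ᵀ = ealt α K J D := by
  unfold ealt
  rw [Matrix.transpose_smul, Matrix.transpose_sum]
  congr 1
  refine Fintype.sum_equiv (Equiv.inv (Equiv.Perm J)) _ _ fun σ => ?_
  rw [Equiv.inv_apply, Matrix.transpose_smul, Equiv.Perm.sign_inv]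
  congr 1
  unfold pmL
  rw [SymD_pm_transpose]
  rfl

theorem SymD_tp_alt (g : Matrix α α K) :
    tp g (J × D) * ealt α K J D = ealt α K J D * tp g (J × D) := by
  unfold ealt
  rw [Matrix.mul_smul, Matrix.smul_mul, Matrix.mul_sum, Matrix.sum_mul]
  congr 1
  refine Finset.sum_congr rfl fun σ _ => ?_
  rw [Matrix.mul_smul, Matrix.smul_mul]
  congr 1
  exact SymD_tp_pm g _

/-- `tp g` commutes with permutations of the factors, and the transpose of `pm e` is `pm e.symm`; so the
adjoint of `pmL σ` is `pmL σ⁻¹`; reindex the sum by `σ ↦ σ⁻¹`. -/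
theorem adj_ealt {g g' : Matrix α α K} (h : g * g' = 1) :
    adj g g' (ealt α K J D) = ealt α K J D := by
  unfold adj
  rw [SymD_tp_alt, Matrix.mul_assoc, ← tp_mul, h, tp_one, Matrix.mul_one, SymD_alt_transpose]

namespace Sys

variable (Q : Sys α K)

theorem pmL_mem (σ : Equiv.Perm J) : pmL α K D σ ∈ Q.P (J × D) (J × D) := Q.pm_mem _

theorem esym_mem : esym α K J D ∈ Q.P (J × D) (J × D) :=
  Submodule.smul_mem _ _ (Submodule.sum_mem _ fun σ _ => Q.pmL_mem σ)

theorem ealt_mem : ealt α K J D ∈ Q.P (J × D) (J × D) :=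
  Submodule.smul_mem _ _ (Submodule.sum_mem _ fun σ _ => Submodule.smul_mem _ _ (Q.pmL_mem σ))

end Sys

end ZO
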