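import Pool.Agent.W_f569db_zo.Chain
import Pool.Agent.W_b4801b_h57.LayerE
import Pool.Agent.W_b4801b_h57.SymD

set_option autoImplicit false

/-!
# The chain of layers with symmetric powers

Let `0 ≠ z ∈ N ∅ D`.  `zpow z j ∈ P ∅ (Fin j × D)` is `z^{⊗ j}`.

* `zpow_mem`: by induction on `j`: `zpow z 0 = pm (Equiv ..)` for `Empty ≃ Fin 0 × D`, and
  `zpow z (j+1) = M_j * zpow z j` with
  `M_j = pm ε * kr 1 z * pm (Equiv.sumEmpty (Fin j × D) Empty).symm ∈ N (Fin j × D) (Fin (j+1) × D)` (`one_kr_mem_N`),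
  where `ε : (Fin j × D) ⊕ D ≃ Fin (j+1) × D` sends `inr x` to `(last, x)` and `inl (i, x)` to
  `(castSucc i, x)` (`Fin.prod_univ_castSucc`).
* `zpow_ne_zero`: if `z w d ≠ 0` then the entry of `zpow z j` at the word `(i, x) ↦ w x` is `(z w d)^j`.
* `pmL_zpow`: permuting the factors of a product (`Equiv.prod_comp`).
* `chainE`: put `Y = T ⊕ T`, `F_j = dim (P (Fin j × D) Y) * zpow z j`, `G_j = dim (N (Fin j × D) Y) * zpow z j`.
  `layerE` with `e = esym`: `F_j - G_j ≥ pT (esym (Fin j) D) - (rank - 1) a T T`.  As `f * zpow z (j+1) =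
  (f * M_j) * zpow z j` with `f * M_j ∈ N`: `F_{j+1} ≤ G_j`.  So `F_0 ≥ ∑_{j<J} (F_j - G_j)`.  And
  `F_0 ≤ dim (P Empty Y) = h (2 card T)` (`finrank_P_empty`), because `f * zpow z 0 ∈ P Empty Y`.
-/

noncomputable section

namespace ZO

open Matrix Module

variable {α : Type} [Fintype α] [DecidableEq α] {K : Type*} [Field K] [CharZero K]
  {D : Type} [Fintype D] [DecidableEq D]

/-- the tensor power `z^{⊗ j}` of a tensor -/
def zpow (z : Matrix (D → α) (Empty → α) K) (j : ℕ) : Matrix (Fin j × D → α) (Empty → α) K :=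
  Matrix.of fun c d => ∏ i : Fin j, z (fun x => c (i, x)) d

theorem zpow_ne_zero {z : Matrix (D → α) (Empty → α) K} (hz : z ≠ 0) (j : ℕ) : zpow z j ≠ 0 := by
  intro h
  apply hz
  ext w d
  by_contra hwd
  have h1 : zpow z j (fun p => w p.2) d = 0 := by rw [h]; rfl
  have h2 : zpow z j (fun p => w p.2) d = (z w d) ^ j := by
    change ∏ _i : Fin j, z w d = (z w d) ^ j
    rw [Finset.prod_const, Finset.card_univ, Fintype.card_fin]
  rw [h2] at h1
  exact pow_ne_zero j hwd h1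

theorem pmL_zpow (z : Matrix (D → α) (Empty → α) K) (j : ℕ) (σ : Equiv.Perm (Fin j)) :
    pmL α K D σ * zpow z j = zpow z j := by
  ext c d
  unfold pmL
  rw [pm_mul_apply]
  unfold zpow
  rw [Matrix.of_apply, Matrix.of_apply]
  exact Equiv.prod_comp σ (fun i : Fin j => z (fun x => c (i, x)) d)

/-- appending one more block -/
def ChainE_eq (j : ℕ) (D : Type) : (Fin j × D) ⊕ D ≃ Fin (j + 1) × D where
  toFun := Sum.elim (fun p => (p.1.castSucc, p.2)) (fun x => (Fin.last j, x))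
  invFun := fun p => Fin.lastCases (motive := fun _ => (Fin j × D) ⊕ D) (Sum.inr p.2)
    (fun i => Sum.inl (i, p.2)) p.1
  left_inv := by
    rintro (⟨i, x⟩ | x)
    · simp
    · simp
  right_inv := by
    rintro ⟨i, x⟩
    induction i using Fin.lastCases with
    | last => simp
    | cast i => simp

omit [CharZero K] in
theorem ChainE_prod (z : Matrix (D → α) (Empty → α) K) (j : ℕ) :
    zpow z (j + 1) = pm α K (ChainE_eq j D) *
      (kr (zpow z j) z * pm α K (Equiv.emptySum Empty Empty).symm) := by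
  ext c d
  rw [pm_mul_apply, mul_pm_apply]
  unfold zpow kr
  rw [Matrix.of_apply, Matrix.of_apply, Matrix.of_apply, Fin.prod_univ_castSucc]
  have h1 : (d ∘ (Equiv.emptySum Empty Empty).symm.symm) ∘ Sum.inl = d := Subsingleton.elim _ _
  have h2 : (d ∘ (Equiv.emptySum Empty Empty).symm.symm) ∘ Sum.inr = d := Subsingleton.elim _ _
  rw [h1, h2]
  rfl

namespace Sys

variable (Q : Sys α K)

theorem zpow_succ {z : Matrix (D → α) (Empty → α) K} (hz : z ∈ Q.N Empty D) (j : ℕ) :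
    ∃ M ∈ Q.N (Fin j × D) (Fin (j + 1) × D), zpow z (j + 1) = M * zpow z j := by
  refine ⟨pm α K (ChainE_eq j D) * (kr (1 : Matrix (Fin j × D → α) (Fin j × D → α) K) z *
    pm α K (Equiv.sumEmpty (Fin j × D) Empty).symm), ?_, ?_⟩
  · exact Q.N_mul_left (Q.pm_mem _) (Q.N_mul_right (Q.one_kr_mem_N hz) (Q.pm_mem _))
  · rw [ChainE_prod, Matrix.mul_assoc, Matrix.mul_assoc]
    congr 1
    have h1 : kr (zpow z j) z = kr (1 : Matrix (Fin j × D → α) (Fin j × D → α) K) z *
        kr (zpow z j) (1 : Matrix (Empty → α) (Empty → α) K) := by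
      rw [kr_mul, Matrix.one_mul, Matrix.mul_one]
    rw [h1, Matrix.mul_assoc, Chain_pm]

theorem zpow_mem {z : Matrix (D → α) (Empty → α) K} (hz : z ∈ Q.N Empty D) (j : ℕ) :
    zpow z j ∈ Q.P Empty (Fin j × D) := by
  induction j with
  | zero =>
    have h1 : zpow z 0 = pm α K (Equiv.equivOfIsEmpty Empty (Fin 0 × D)) := by
      ext c d
      rw [Pm_apply, if_pos (Subsingleton.elim _ _)]
      unfold zpow
      rw [Matrix.of_apply, Finset.univ_eq_empty, Finset.prod_empty]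
    rw [h1]
    exact Q.pm_mem _
  | succ j ih =>
    obtain ⟨M, hM, h⟩ := Q.zpow_succ hz j
    rw [h]
    exact Q.mul_mem hM.1 ih

theorem chainE [Nonempty α] {z : Matrix (D → α) (Empty → α) K} (hz : z ∈ Q.N Empty D)
    (hz0 : z ≠ 0) (T : Type) [Fintype T] [DecidableEq T] (J : ℕ) :
    ∑ j ∈ Finset.range J, (Q.pT T (esym α K (Fin j) D) -
      (((esym α K (Fin j) D).rank : ℝ) - 1) * Q.a T T) ≤ Q.h (2 * Fintype.card T) := by
  obtain ⟨F, hF⟩ : ∃ F : ℕ → ℝ, F = fun j => (finrank K ((Q.P (Fin j × D) (T ⊕ T)).map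
    (sand (1 : Matrix (T ⊕ T → α) (T ⊕ T → α) K) (zpow z j))) : ℝ) := ⟨_, rfl⟩
  obtain ⟨G, hG⟩ : ∃ G : ℕ → ℝ, G = fun j => (finrank K ((Q.N (Fin j × D) (T ⊕ T)).map
    (sand (1 : Matrix (T ⊕ T → α) (T ⊕ T → α) K) (zpow z j))) : ℝ) := ⟨_, rfl⟩
  have hlayer : ∀ j, Q.pT T (esym α K (Fin j) D) -
      (((esym α K (Fin j) D).rank : ℝ) - 1) * Q.a T T ≤ F j - G j := by
    intro j
    have h1 := Q.layerE T (Q.esym_mem (J := Fin j) (D := D)) esym_idem (Q.zpow_mem hz j)
      (zpow_ne_zero hz0 j) (esym_mul (pmL_zpow z j))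
    rw [hF, hG]
    exact h1
  have hFG : ∀ j, F (j + 1) ≤ G j := by
    intro j
    rw [hF, hG]
    have hle : (Q.P (Fin (j + 1) × D) (T ⊕ T)).map
        (sand (1 : Matrix (T ⊕ T → α) (T ⊕ T → α) K) (zpow z (j + 1))) ≤
        (Q.N (Fin j × D) (T ⊕ T)).map
          (sand (1 : Matrix (T ⊕ T → α) (T ⊕ T → α) K) (zpow z j)) := by
      rintro _ ⟨f, hf, rfl⟩
      obtain ⟨M, hM, h⟩ := Q.zpow_succ hz j
      refine ⟨f * M, Q.N_mul_left hf hM, ?_⟩
      rw [sand_apply, sand_apply, Matrix.one_mul, Matrix.one_mul, h, Matrix.mul_assoc]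
    have h1 := Submodule.finrank_mono hle
    simp only
    exact_mod_cast h1
  have hF0 : ∀ j, 0 ≤ F j := by
    intro j
    rw [hF]
    exact Nat.cast_nonneg _
  have hsum : ∀ J : ℕ, ∑ j ∈ Finset.range J, (Q.pT T (esym α K (Fin j) D) -
      (((esym α K (Fin j) D).rank : ℝ) - 1) * Q.a T T) ≤ F 0 - F J := by
    intro J
    induction J with
    | zero => rw [Finset.range_zero, Finset.sum_empty, sub_self]
    | succ J ih =>
      rw [Finset.sum_range_succ]
      have h1 := hlayer J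
      have h2 := hFG J
      linarith
  have hle : F 0 ≤ Q.h (2 * Fintype.card T) := by
    have h1 : (Q.P (Fin 0 × D) (T ⊕ T)).map
        (sand (1 : Matrix (T ⊕ T → α) (T ⊕ T → α) K) (zpow z 0)) ≤ Q.P Empty (T ⊕ T) := by
      rintro _ ⟨f, hf, rfl⟩
      rw [sand_apply, Matrix.one_mul]
      exact Q.mul_mem hf (Q.zpow_mem hz 0)
    have h2 := Submodule.finrank_mono h1
    have h3 := Q.finrank_P_empty (T ⊕ T)
    rw [Fintype.card_sum, ← two_mul] at h3
    rw [← h3, hF]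
    simp only
    exact_mod_cast h2
  have h1 := hsum J
  have h2 := hF0 J
  linarith

end Sys

end ZO
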