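import Mathlib

set_option autoImplicit false

/-!
# Solving the Koszul recursion

`defic`: let `∑_{i + l = j} (-1)^i r i * R l = 0` and `∑_{i + l = j} (-1)^i P i l = 0` for `j ≥ 1`, `r 0 = 1`,
`R 0 = 1`, `P 0 l = p l`, `p 0 = 1`, `0 ≤ R`, and `|r i * p l - P i l| ≤ c i * R l` for `i ≥ 1`.  Let `η j =
∑_{i + l = j} (-1)^i (r i * p l - P i l)` `= ∑_{i + l = j} (-1)^i r i * p l` for `j ≥ 1` (the term `i = 0` of the
difference is zero).  Then `δ j = R j - p j` satisfies `∑_{i + l = j} (-1)^i r i * δ l = - η j` (`j ≥ 1`), `δ 0 = 0`,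
so `δ j = - ∑_{k = 1}^j R (j - k) * η k` (strong induction on `j`: `δ j = - η j - ∑_{i ≥ 1} (-1)^i r i δ (j-i)`,
insert the formula for `δ (j - i)`, and use `∑_{i ≥ 1, i ≤ j - k} (-1)^i r i R (j-k-i) = - R (j - k)` for
`k < j`; or, with power series: `δ(t) * r(-t) = -η(t)` and `R(t) * r(-t) = 1`).
`|η k| ≤ ∑_{i + l = k, i ≥ 1} c i * R l`.
Hence, if `R l ≤ M` for all `l ≤ j`, and `c i ≤ C` for `1 ≤ i ≤ B`, `c i = 0` for `i > B`: `|η k| ≤ B * C * M` and
`|R j - p j| ≤ j * M * (B * C * M)`.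
-/

namespace ZO

theorem defic (r R p c : ℕ → ℝ) (P : ℕ → ℕ → ℝ) (hr0 : r 0 = 1) (hR0 : R 0 = 1) (hp0 : p 0 = 1)
    (hR : ∀ l, 0 ≤ R l)
    (hrR : ∀ j, 1 ≤ j → ∑ q ∈ Finset.HasAntidiagonal.antidiagonal j, (-1 : ℝ) ^ q.1 * (r q.1 * R q.2) = 0)
    (hP : ∀ j, 1 ≤ j → ∑ q ∈ Finset.HasAntidiagonal.antidiagonal j, (-1 : ℝ) ^ q.1 * P q.1 q.2 = 0)
    (hP0 : ∀ l, P 0 l = p l)
    (hc : ∀ i l, 1 ≤ i → |r i * p l - P i l| ≤ c i * R l)
    (B : ℕ) {C M : ℝ} (hC : 0 ≤ C) (hcC : ∀ i, 1 ≤ i → i ≤ B → c i ≤ C)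
    (hc0 : ∀ i, B < i → c i = 0) (j : ℕ) (hM : ∀ l ≤ j, R l ≤ M) :
    |R j - p j| ≤ j * M * (B * C * M) := by
  classical
  have hM1 : (1 : ℝ) ≤ M := by
    have := hM 0 (Nat.zero_le _)
    rwa [hR0] at this
  have hM0 : (0 : ℝ) ≤ M := by linarith
  -- the error sequence
  set eta : ℕ → ℝ := fun k => if k = 0 then 0 else
    ∑ q ∈ Finset.HasAntidiagonal.antidiagonal k, (-1 : ℝ) ^ q.1 * (r q.1 * p q.2) with heta
  -- power series
  set rr : PowerSeries ℝ := PowerSeries.mk (fun i => (-1 : ℝ) ^ i * r i) with hrr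
  set RR : PowerSeries ℝ := PowerSeries.mk R with hRR
  set pp : PowerSeries ℝ := PowerSeries.mk p with hpp
  set ee : PowerSeries ℝ := PowerSeries.mk eta with hee
  have h1 : rr * RR = 1 := by
    ext n
    rw [PowerSeries.coeff_mul, PowerSeries.coeff_one]
    rcases Nat.eq_zero_or_pos n with hn | hn
    · subst hn
      simp [hrr, hRR, hr0, hR0]
    · rw [if_neg (by omega), ← hrR n hn]
      apply Finset.sum_congr rfl
      intro q _
      simp [hrr, hRR, mul_assoc]
  have h2 : rr * pp = 1 + ee := by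
    ext n
    rw [PowerSeries.coeff_mul, map_add, PowerSeries.coeff_one]
    rcases Nat.eq_zero_or_pos n with hn | hn
    · subst hn
      simp [hrr, hpp, hee, heta, hr0, hp0]
    · rw [if_neg (by omega), zero_add]
      simp only [hee, PowerSeries.coeff_mk, heta]
      rw [if_neg (by omega)]
      apply Finset.sum_congr rfl
      intro q _
      simp [hrr, hpp, mul_assoc]
  have h3 : RR - pp = - (ee * RR) := by
    have e1 : pp = RR * (rr * pp) := by
      rw [← mul_assoc, mul_comm RR rr, h1, one_mul]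
    rw [e1, h2]
    ring
  have h4 : R j - p j = - ∑ q ∈ Finset.HasAntidiagonal.antidiagonal j, eta q.1 * R q.2 := by
    have := congrArg (PowerSeries.coeff j) h3
    rw [map_sub, map_neg, PowerSeries.coeff_mul] at this
    simpa [hRR, hpp, hee] using this
  -- bound of the error
  have h5 : ∀ k, k ≤ j → 1 ≤ k → |eta k| ≤ B * C * M := by
    intro k hkj hk
    have e1 : eta k = ∑ q ∈ Finset.HasAntidiagonal.antidiagonal k,
        (-1 : ℝ) ^ q.1 * (r q.1 * p q.2 - P q.1 q.2) := by
      simp only [heta]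
      rw [if_neg (by omega)]
      have := hP k hk
      have e2 : ∑ q ∈ Finset.HasAntidiagonal.antidiagonal k,
          (-1 : ℝ) ^ q.1 * (r q.1 * p q.2 - P q.1 q.2)
          = ∑ q ∈ Finset.HasAntidiagonal.antidiagonal k, (-1 : ℝ) ^ q.1 * (r q.1 * p q.2)
            - ∑ q ∈ Finset.HasAntidiagonal.antidiagonal k, (-1 : ℝ) ^ q.1 * P q.1 q.2 := by
        rw [← Finset.sum_sub_distrib]
        apply Finset.sum_congr rfl
        intro q _
        ring
      rw [e2, this, sub_zero]
    rw [e1]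
    have e3 : ∀ q ∈ Finset.HasAntidiagonal.antidiagonal k,
        |(-1 : ℝ) ^ q.1 * (r q.1 * p q.2 - P q.1 q.2)|
          ≤ if q.1 ∈ Finset.Icc 1 B then C * M else 0 := by
      intro q hq
      have hqs : q.1 + q.2 = k := by simpa using hq
      rw [abs_mul, abs_pow, abs_neg, abs_one, one_pow, one_mul]
      rcases Nat.eq_zero_or_pos q.1 with h0 | h0
      · rw [h0, hr0, hP0, one_mul, sub_self, abs_zero]
        simp
      · have hb := hc q.1 q.2 h0
        by_cases hB : q.1 ≤ B
        · rw [if_pos (Finset.mem_Icc.mpr ⟨h0, hB⟩)]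
          refine hb.trans ?_
          have hRl := hM q.2 (by omega)
          have hRl0 := hR q.2
          have hcl := hcC q.1 h0 hB
          calc c q.1 * R q.2 ≤ C * R q.2 := mul_le_mul_of_nonneg_right hcl hRl0
            _ ≤ C * M := mul_le_mul_of_nonneg_left hRl hC
        · rw [if_neg (by simp [Finset.mem_Icc]; omega)]
          rw [hc0 q.1 (by omega), zero_mul] at hb
          exact hb
    refine (Finset.abs_sum_le_sum_abs _ _).trans ((Finset.sum_le_sum e3).trans ?_)
    rw [← Finset.sum_filter, Finset.sum_const, nsmul_eq_mul]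
    have hcard : ((Finset.HasAntidiagonal.antidiagonal k).filter
        (fun q : ℕ × ℕ => q.1 ∈ Finset.Icc 1 B)).card ≤ B := by
      have : ((Finset.HasAntidiagonal.antidiagonal k).filter
          (fun q : ℕ × ℕ => q.1 ∈ Finset.Icc 1 B)).card ≤ (Finset.Icc 1 B).card := by
        apply Finset.card_le_card_of_injOn (fun q : ℕ × ℕ => q.1)
        · intro q hq
          have := (Finset.mem_filter.mp hq).2
          exact this
        · intro q hq q' hq' hqq
          have a1 : q.1 + q.2 = k := Finset.HasAntidiagonal.mem_antidiagonal.mp (Finset.mem_filter.mp hq).1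
          have a2 : q'.1 + q'.2 = k := Finset.HasAntidiagonal.mem_antidiagonal.mp (Finset.mem_filter.mp hq').1
          simp only at hqq
          ext
          · exact hqq
          · omega
      simpa using this
    have hcard' : (((Finset.HasAntidiagonal.antidiagonal k).filter
        (fun q : ℕ × ℕ => q.1 ∈ Finset.Icc 1 B)).card : ℝ) ≤ B := by exact_mod_cast hcard
    calc (((Finset.HasAntidiagonal.antidiagonal k).filter
        (fun q : ℕ × ℕ => q.1 ∈ Finset.Icc 1 B)).card : ℝ) * (C * M) ≤ B * (C * M) :=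
          mul_le_mul_of_nonneg_right hcard' (mul_nonneg hC hM0)
      _ = B * C * M := by ring
  have hBCM : (0 : ℝ) ≤ B * C * M := by positivity
  rw [h4, abs_neg]
  rw [Finset.Nat.sum_antidiagonal_eq_sum_range_succ (fun a b => eta a * R b)]
  rw [Finset.sum_range_succ']
  have h6 : eta 0 * R (j - 0) = 0 := by simp [heta]
  rw [h6, add_zero]
  refine (Finset.abs_sum_le_sum_abs _ _).trans ?_
  have h7 : ∀ i ∈ Finset.range j, |eta (i + 1) * R (j - (i + 1))| ≤ (B * C * M) * M := by
    intro i hi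
    have hij := Finset.mem_range.mp hi
    rw [abs_mul, abs_of_nonneg (hR _)]
    exact mul_le_mul (h5 (i + 1) (by omega) (by omega)) (hM _ (by omega)) (hR _) hBCM
  refine (Finset.sum_le_sum h7).trans ?_
  rw [Finset.sum_const, nsmul_eq_mul, Finset.card_range]
  apply le_of_eq
  ring

end ZO
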