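import Pool.Agent.W_b4801b_h57.SymD
import Pool.Agent.W_b4801b_h57.Tau
import Pool.Agent.W_f569db_zo.Ana
import Pool.Agent.W_f569db_zo.Main

set_option autoImplicit false

/-!
# The deficit of exterior powers

`b = card α`, `card D = 2 k`, `B = b ^ (2 k)`, `T = Fin m`, `a = a T T = A (2 m) > 0`.

`phi_one`: `pT 1 = A (i * 2 k + 2 m)` for `1` on `Fin i × D` (`pT 1 = a (S ⊕ T) T = A (card S + 2 card T)` by
`a_eq_A`, `csp_sand_one`, `kr_one`).

`alt_deficit`: `rank (ealt i) * a - pT (ealt i) ≤ B ^ i * b ^ 2 * i * k / √m * a`.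
Proof: `1 = ealt + (1 - ealt)`: `pT` is additive (`pT_nat`, `tau_add`) and `pT (1 - ealt) ≤ rank (1 - ealt) * a`
(`pT_le`), `rank 1 = B ^ i` (`trace_idem`), so `rank (ealt) a - pT (ealt) ≤ B^i a - pT 1`, and
`pT 1 = A (2 (m + i k)) ≥ (1 - b^2 (i k) / m * log (m+1)) b^(2 i k) A (2 m)` (`ratio_quant` for `s m = A (2 m)`,
`β = b^2`, `C = b^2`, exponent `i k`; its hypotheses are verified in `Sys.zero_one` and `layer_half`), and
`log (m+1) ≤ √m` (`log_le_sqrt`).
-/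

noncomputable section

namespace ZO

open Matrix Module

variable {α : Type} [Fintype α] [DecidableEq α] [Nonempty α] {K : Type*} [Field K] [CharZero K]
  {D : Type} [Fintype D] [DecidableEq D]

namespace Sys

variable (Q : Sys α K)

theorem phi_one (i m : ℕ) : Q.pT (Fin m) (1 : Matrix (Fin i × D → α) (Fin i × D → α) K) =
    Q.A (i * Fintype.card D + 2 * m) := by
  have h1 : Q.pT (Fin m) (1 : Matrix (Fin i × D → α) (Fin i × D → α) K) =
      Q.a ((Fin i × D) ⊕ Fin m) (Fin m) := by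
    unfold pT
    rw [kr_one, csp_sand_one]
    rfl
  rw [h1, Q.a_eq_A]
  congr 1
  rw [Fintype.card_sum, Fintype.card_prod, Fintype.card_fin, Fintype.card_fin]
  ring

theorem FinalA_ratio {k : ℕ} (i m : ℕ) (hm : 1 ≤ m) :
    ((Fintype.card α : ℝ) ^ (2 * k)) ^ i * Q.A (2 * m) - Q.A (i * (2 * k) + 2 * m) ≤
      ((Fintype.card α : ℝ) ^ (2 * k)) ^ i * (Fintype.card α : ℝ) ^ 2 * (i * k) / Real.sqrt m *
        Q.A (2 * m) := by
  have hb : (1 : ℝ) ≤ Fintype.card α := by exact_mod_cast Fintype.card_pos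
  have hm0 : (0 : ℝ) < m := by exact_mod_cast hm
  have hs : 0 < Real.sqrt m := Real.sqrt_pos.mpr hm0
  have hss : Real.sqrt m * Real.sqrt m = m := Real.mul_self_sqrt hm0.le
  have hlow : ∀ m : ℕ, ((Fintype.card α : ℝ) ^ 2) ^ m ≤
      ((m : ℝ) + 1) ^ (Fintype.card α ^ 2) * Q.A (2 * m) := by
    intro m
    have h1 := low Q (Fin m)
    rw [Q.a_eq_A (Fin m) (Fin m), Fintype.card_fin, ← two_mul] at h1
    rw [← pow_mul]
    exact h1
  have hpos : ∀ m : ℕ, 0 < Q.A (2 * m) := by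
    intro m
    have h1 := Q.a_pos (Fin m)
    rw [Q.a_eq_A (Fin m) (Fin m), Fintype.card_fin, ← two_mul] at h1
    exact h1
  have hlc : ∀ m : ℕ, (Q.A (2 * (m + 1))) ^ 2 ≤ Q.A (2 * m) * Q.A (2 * (m + 2)) := by
    intro m
    have h1 := Q.cs_a (Fin m) (Fin (m + 2))
    rw [Q.a_eq_A, Q.a_eq_A, Q.a_eq_A, Fintype.card_fin, Fintype.card_fin] at h1
    have e1 : m + (m + 2) = 2 * (m + 1) := by ring
    have e2 : m + m = 2 * m := by ring
    have e3 : m + 2 + (m + 2) = 2 * (m + 2) := by ring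
    rw [e1, e2, e3] at h1
    exact h1
  have hq := ratio_quant (fun m => Q.A (2 * m)) ((Fintype.card α : ℝ) ^ 2) (Fintype.card α ^ 2)
    (one_le_pow₀ hb) hpos hlc hlow (by simpa using Q.A_le 0) (i * k) m hm
  have e1 : 2 * (m + i * k) = i * (2 * k) + 2 * m := by ring
  simp only [e1] at hq
  have e2 : ((Fintype.card α : ℝ) ^ 2) ^ (i * k) = ((Fintype.card α : ℝ) ^ (2 * k)) ^ i := by
    rw [← pow_mul, ← pow_mul]
    congr 1
    ring
  rw [e2] at hq
  push_cast at hq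
  have hB : 0 ≤ ((Fintype.card α : ℝ) ^ (2 * k)) ^ i := by positivity
  have hA := hpos m
  have h2 : (Fintype.card α : ℝ) ^ 2 * (i * k) / m * Real.log (m + 1) ≤
      (Fintype.card α : ℝ) ^ 2 * (i * k) / Real.sqrt m := by
    calc (Fintype.card α : ℝ) ^ 2 * (i * k) / m * Real.log (m + 1)
        ≤ (Fintype.card α : ℝ) ^ 2 * (i * k) / m * Real.sqrt m :=
          mul_le_mul_of_nonneg_left (log_le_sqrt m) (by positivity)
      _ = (Fintype.card α : ℝ) ^ 2 * (i * k) / Real.sqrt m := by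
        rw [div_mul_eq_mul_div, div_eq_div_iff hm0.ne' hs.ne', mul_assoc, hss]
  have h3 : ((Fintype.card α : ℝ) ^ (2 * k)) ^ i * Q.A (2 * m) *
      ((Fintype.card α : ℝ) ^ 2 * (i * k) / m * Real.log (m + 1)) ≤
      ((Fintype.card α : ℝ) ^ (2 * k)) ^ i * Q.A (2 * m) *
      ((Fintype.card α : ℝ) ^ 2 * (i * k) / Real.sqrt m) :=
    mul_le_mul_of_nonneg_left h2 (mul_nonneg hB hA.le)
  have h4 : ((Fintype.card α : ℝ) ^ (2 * k)) ^ i * (Fintype.card α : ℝ) ^ 2 * (i * k) /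
      Real.sqrt m * Q.A (2 * m) = ((Fintype.card α : ℝ) ^ (2 * k)) ^ i * Q.A (2 * m) *
      ((Fintype.card α : ℝ) ^ 2 * (i * k) / Real.sqrt m) := by ring
  rw [h4]
  have h5 : (1 - (Fintype.card α : ℝ) ^ 2 * (i * k) / m * Real.log (m + 1)) *
      ((Fintype.card α : ℝ) ^ (2 * k)) ^ i * Q.A (2 * m) =
      ((Fintype.card α : ℝ) ^ (2 * k)) ^ i * Q.A (2 * m) -
      ((Fintype.card α : ℝ) ^ (2 * k)) ^ i * Q.A (2 * m) *
      ((Fintype.card α : ℝ) ^ 2 * (i * k) / m * Real.log (m + 1)) := by ring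
  rw [h5] at hq
  linarith

/-- a complementary idempotent -/
theorem FinalA_compl {S T : Type} [Fintype S] [DecidableEq S] [Fintype T] [DecidableEq T]
    {q : Matrix (S → α) (S → α) K} (hq : q ∈ Q.P S S) (hq2 : q * q = q) :
    (q.rank : ℝ) * Q.a T T - Q.pT T q ≤
      (Fintype.card α : ℝ) ^ Fintype.card S * Q.a T T -
        Q.pT T (1 : Matrix (S → α) (S → α) K) := by
  have h1 : (1 - q) ∈ Q.P S S := Submodule.sub_mem _ (Q.one_mem S) hq
  have h2 : (1 - q) * (1 - q) = 1 - q := by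
    rw [Matrix.mul_sub, Matrix.sub_mul, Matrix.sub_mul, hq2]
    simp
  have hsum : q + (1 - q) = 1 := by abel
  have hr : q.rank + (1 - q).rank = Fintype.card α ^ Fintype.card S := by
    have h3 : Matrix.trace q + Matrix.trace (1 - q) =
        Matrix.trace (1 : Matrix (S → α) (S → α) K) := by
      rw [← Matrix.trace_add, hsum]
    rw [trace_idem hq2, trace_idem h2, Matrix.trace_one, Fintype.card_fun] at h3
    exact_mod_cast h3
  obtain ⟨n1, e1, f1⟩ := Q.pT_nat (T := T) hq hq2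
  obtain ⟨n2, e2, f2⟩ := Q.pT_nat (T := T) h1 h2
  obtain ⟨n3, e3, f3⟩ := Q.pT_nat (T := T) (Q.one_mem S) (Matrix.one_mul 1)
  have h4 := Q.tau_add (T := T) hq h1
  rw [hsum, f1, f2, f3] at h4
  have h5 : n3 = n1 + n2 := by exact_mod_cast h4
  have h6 := Q.pT_le (T := T) h1 h2
  have h7 : (q.rank : ℝ) + ((1 - q).rank : ℝ) = (Fintype.card α : ℝ) ^ Fintype.card S := by
    exact_mod_cast hr
  have h8 : Q.pT T (1 : Matrix (S → α) (S → α) K) = Q.pT T q + Q.pT T (1 - q) := by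
    rw [e1, e2, e3, h5]
    push_cast
    ring
  rw [← h7, h8, add_mul]
  linarith

theorem alt_deficit {k : ℕ} (hD : Fintype.card D = 2 * k) (i m : ℕ) (hm : 1 ≤ m) :
    ((ealt α K (Fin i) D).rank : ℝ) * Q.A (2 * m) - Q.pT (Fin m) (ealt α K (Fin i) D) ≤
      ((Fintype.card α : ℝ) ^ (2 * k)) ^ i * (Fintype.card α : ℝ) ^ 2 * (i * k) / Real.sqrt m *
        Q.A (2 * m) := by
  have h1 := Q.FinalA_compl (T := Fin m) (Q.ealt_mem (J := Fin i) (D := D)) ealt_idem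
  rw [Q.phi_one, Q.a_eq_A (Fin m) (Fin m), Fintype.card_fin, Fintype.card_prod, Fintype.card_fin,
    ← two_mul, hD] at h1
  have e1 : (Fintype.card α : ℝ) ^ (i * (2 * k)) = ((Fintype.card α : ℝ) ^ (2 * k)) ^ i := by
    rw [← pow_mul]
    congr 1
    ring
  rw [e1] at h1
  exact h1.trans (Q.FinalA_ratio i m hm)

end Sys

end ZO
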