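import Pool.Agent.W_b4801b_h57.KosT
import Pool.Agent.W_f569db_zo.Orb
import Pool.Agent.W_f569db_zo.TwoA

set_option autoImplicit false

/-!
# Ranks of symmetrizers and antisymmetrizers

`B = card (D → α) = card α ^ card D` is the dimension of `E`.

* `rank_esym_le`: `rank e_l^+ ≤ (l + 1) ^ B`: the range of `esym` (as an operator, `Matrix.mulVecLin`)
  consists of functions `v : (Fin l × D → α) → K` with `v (c ∘ (σ × 1)) = v c` for all `σ`
  (`pmL σ * esym = esym`), which depend only on the numbers `#{i | c (i, ·) = x}`, `x : D → α`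
  (`orb_perm` in `W_f569db_zo/Orb`), so the dimension is at most the number of functions
  `(D → α) → Fin (l + 1)`.
* `ealt_eq_zero`: `e_i^- = 0` if `i > B`: the trace of `pmL σ` is the number of words `c` with
  `c ∘ (σ × 1) = c`, so the trace of `ealt` is `(i!)⁻¹ ∑_c ∑_{σ : c ∘ (σ × 1) = c} sgn σ`; for every word
  `c : Fin i × D → α` two of the `i > B` letters `c (a, ·) : D → α` are equal (pigeonhole), so the
  transposition `(a a')` lies in the stabilizer of `c` and the inner sum is zero (multiply by the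
  transposition: `Finset.sum_involution` or `s = -s`).  So the rank (`trace_idem`) is zero, and
  the matrix is zero.  Alternatively directly on the entries: `ealt c d = (i!)⁻¹ ∑_{σ : c ∘ (σ × 1) = d} sgn σ`.
* `rank_ealt_le`: the rank is at most the number of rows, `B ^ i`.
* `koszul_rank`: from `koszul_trace`, `trace_kr`, `trace_idem` (an identity in `K` between images of
  integers).
-/

noncomputable section

namespace ZO

open Matrix Module

variable {α : Type} [Fintype α] [DecidableEq α] {K : Type*} [Field K] [CharZero K]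
  {D : Type} [Fintype D] [DecidableEq D]

/-- the numbers `#{i | c (i, ·) = x}` -/
def RankS_cnt (l : ℕ) (D : Type) [Fintype D] [DecidableEq D] (c : Fin l × D → α) :
    (D → α) → Fin (l + 1) := fun x =>
  ⟨Fintype.card {i : Fin l // (fun a => c (i, a)) = x}, Nat.lt_succ_of_le
    ((Fintype.card_subtype_le _).trans (Fintype.card_fin l).le)⟩

theorem RankS_row {l : ℕ} {c c' : Fin l × D → α} (h : RankS_cnt l D c = RankS_cnt l D c')
    (d : Fin l × D → α) : esym α K (Fin l) D c d = esym α K (Fin l) D c' d := by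
  obtain ⟨e, he⟩ := orb_perm (u := fun i : Fin l => fun a : D => c (i, a))
    (v := fun i : Fin l => fun a : D => c' (i, a)) (fun p => by
      have h5 := congrArg Fin.val (congrFun h p)
      unfold RankS_cnt at h5
      convert h5)
  have h1 := congrFun (congrFun (SymD_left (α := α) (K := K) (D := D) e) c') d
  unfold pmL at h1
  rw [pm_mul_apply] at h1
  have h2 : c' ∘ (Equiv.prodCongr e (Equiv.refl D)) = c := by
    funext x
    exact congrFun (congrFun he x.1) x.2
  rw [h2] at h1
  exact h1

open Classical in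
theorem rank_esym_le (l : ℕ) : (esym α K (Fin l) D).rank ≤
    (l + 1) ^ (Fintype.card α ^ Fintype.card D) := by
  obtain ⟨P, hP⟩ : ∃ P : Matrix (Fin l × D → α) ((D → α) → Fin (l + 1)) K,
    P = Matrix.of fun c x => if RankS_cnt l D c = x then 1 else 0 := ⟨_, rfl⟩
  obtain ⟨M, hM⟩ : ∃ M : Matrix ((D → α) → Fin (l + 1)) (Fin l × D → α) K,
    M = Matrix.of fun x d => if h : ∃ c, RankS_cnt l D c = x then
      esym α K (Fin l) D h.choose d else 0 := ⟨_, rfl⟩
  have h1 : esym α K (Fin l) D = P * M := by
    ext c d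
    rw [Matrix.mul_apply, hP, hM]
    simp only [Matrix.of_apply, ite_mul, one_mul, zero_mul]
    rw [Finset.sum_ite_eq, if_pos (Finset.mem_univ _)]
    have h2 : ∃ c', RankS_cnt l D c' = RankS_cnt l D c := ⟨c, rfl⟩
    rw [dif_pos h2]
    exact RankS_row h2.choose_spec.symm d
  rw [h1]
  refine (Matrix.rank_mul_le_left _ _).trans ((Matrix.rank_le_card_width _).trans ?_)
  rw [Fintype.card_fun, Fintype.card_fun, Fintype.card_fin]

theorem ealt_eq_zero (i : ℕ) (hi : Fintype.card α ^ Fintype.card D < i) :
    ealt α K (Fin i) D = 0 := by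
  ext c d
  have h0 : Fintype.card (D → α) < Fintype.card (Fin i) := by
    rw [Fintype.card_fun, Fintype.card_fin]
    exact hi
  obtain ⟨a, a', hne, haa⟩ := Fintype.exists_ne_map_eq_of_card_lt
    (fun i : Fin i => fun x : D => c (i, x)) h0
  have h1 := congrFun (congrFun (SymD_altleft (α := α) (K := K) (D := D) (Equiv.swap a a')) c) d
  unfold pmL at h1
  rw [pm_mul_apply, Equiv.Perm.sign_swap hne] at h1
  have h2 : c ∘ (Equiv.prodCongr (Equiv.swap a a') (Equiv.refl D)) = c := by
    funext x
    change c (Equiv.swap a a' x.1, x.2) = c x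
    by_cases h3 : x.1 = a
    · rw [h3, Equiv.swap_apply_left]
      have := congrFun haa x.2
      rw [← this, ← h3]
    · by_cases h4 : x.1 = a'
      · rw [h4, Equiv.swap_apply_right]
        have := congrFun haa x.2
        rw [this, ← h4]
      · rw [Equiv.swap_apply_of_ne_of_ne h3 h4]
  rw [h2, Matrix.smul_apply] at h1
  rw [Matrix.zero_apply]
  have h3 : ealt α K (Fin i) D c d = -(ealt α K (Fin i) D c d) := by
    refine h1.trans ?_
    simp
  exact self_eq_neg.1 h3

theorem rank_ealt_le (i : ℕ) : (ealt α K (Fin i) D).rank ≤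
    (Fintype.card α ^ Fintype.card D) ^ i := by
  refine (Matrix.rank_le_card_width _).trans ?_
  rw [Fintype.card_fun, Fintype.card_prod, Fintype.card_fin, ← pow_mul, mul_comm]

theorem rank_esym_zero : (esym α K (Fin 0) D).rank = 1 := by
  rw [esym_fin_zero, Matrix.rank_one, Fintype.card_eq_one_iff_nonempty_unique]
  exact ⟨inferInstance⟩

theorem rank_ealt_zero : (ealt α K (Fin 0) D).rank = 1 := by
  rw [ealt_fin_zero, Matrix.rank_one, Fintype.card_eq_one_iff_nonempty_unique]
  exact ⟨inferInstance⟩

theorem koszul_rank (j : ℕ) (hj : 1 ≤ j) :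
    ∑ p ∈ Finset.HasAntidiagonal.antidiagonal j, (-1 : ℝ) ^ p.1 *
      (((ealt α K (Fin p.1) D).rank : ℝ) * ((esym α K (Fin p.2) D).rank : ℝ)) = 0 := by
  have h := koszul_trace α K D j hj
  have h1 : ∑ p ∈ Finset.HasAntidiagonal.antidiagonal j, (-1 : K) ^ p.1 *
      (((ealt α K (Fin p.1) D).rank : K) * ((esym α K (Fin p.2) D).rank : K)) = 0 := by
    rw [← h]
    refine Finset.sum_congr rfl fun p _ => ?_
    rw [trace_kr, trace_idem ealt_idem, trace_idem esym_idem]
  have h2 : ∑ p ∈ Finset.HasAntidiagonal.antidiagonal j, (-1 : ℤ) ^ p.1 *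
      (((ealt α K (Fin p.1) D).rank : ℤ) * ((esym α K (Fin p.2) D).rank : ℤ)) = 0 := by
    have h3 : ((∑ p ∈ Finset.HasAntidiagonal.antidiagonal j, (-1 : ℤ) ^ p.1 *
      (((ealt α K (Fin p.1) D).rank : ℤ) * ((esym α K (Fin p.2) D).rank : ℤ)) : ℤ) : K) = 0 := by
      push_cast
      exact h1
    exact_mod_cast h3
  exact_mod_cast congrArg (Int.cast : ℤ → ℝ) h2

end ZO
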