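import Pool.Agent.W_b4801b_h57.ChainE
import Pool.Agent.W_b4801b_h57.CauchyV
import Pool.Agent.W_b4801b_h57.RankS
import Pool.Agent.W_b4801b_h57.Defic
import Pool.Agent.W_b4801b_h57.FinalA

set_option autoImplicit false

/-!
# The power law

`b = card α`, `card D = 2 k`, `B = b ^ (2 k)`, `T = Fin m`, `a = a T T = A (2 m) > 0`.

`phi_one`, `alt_deficit`: see `FinalA`.

`sym_deficit`: for `j < J` and `64 (B+1)^4 B^(4B+2) b^4 k^2 J^(8B+4) ≤ m`:
`rank (esym j) - pT (esym j) / a ≤ 1/2`.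
Proof: `defic` with `r i = rank (ealt i)`, `R l = rank (esym l)`, `p l = pT (esym l) / a`,
`P i l = pT (kr (ealt i) (esym l)) / a`, `c i = √(2 r_i (r_i - pT (ealt i) / a))` (`virt` divided by `a^2`, with
`adj_ealt`; `Real.sqrt`), the Koszul identities `koszul_rank` and `koszul_tau` (turned into a real identity by
`pT_nat`), `P 0 l = p l` (`ealt (Fin 0) = 1`; `kr 1 (esym l)` is conjugate to `esym l` by the permutation matrix
of `(Fin 0 × D) ⊕ (Fin l × D) ≃ Fin l × D`: `tau_pm`), `M = J ^ B` (`rank_esym_le`, `l + 1 ≤ J` for `l ≤ j < J`),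
`C = √(2 B^(2B+1) b^2 k / √m)` (for `1 ≤ i ≤ B`: `r_i ≤ B^i ≤ B^B` by `rank_ealt_le` and `alt_deficit`), `c i = 0` for
`i > B` (`ealt_eq_zero`).  The bound `j M (B C M) ≤ J (B+1) J^(2B) C ≤ 1/2` is, squared twice, the hypothesis.

`power_law`: `h (2m) ≥ ∑_{j<J} (pT (esym j) - (rank - 1) a) ≥ ∑_{j<J} a / 2` (`chainE`).
-/

noncomputable section

namespace ZO

open Matrix Module

/-- the constant of the power law for a numerically trivial class in `V^{⊗ 2k}`, `dim V = b` -/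
def zpC (b k : ℕ) : ℕ :=
  64 * (b ^ (2 * k) + 1) ^ 4 * (b ^ (2 * k)) ^ (4 * b ^ (2 * k) + 2) * b ^ 4 * k ^ 2

variable {α : Type} [Fintype α] [DecidableEq α] [Nonempty α] {K : Type*} [Field K] [CharZero K]
  {D : Type} [Fintype D] [DecidableEq D]

namespace Sys

variable (Q : Sys α K)

theorem FinalE_pT_pm {S S' T : Type} [Fintype S] [DecidableEq S] [Fintype S'] [DecidableEq S']
    [Fintype T] [DecidableEq T] (e : S ≃ S') {X : Matrix (S → α) (S → α) K}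
    (hX : X ∈ Q.P S S) (hX2 : X * X = X) :
    Q.pT T (pm α K e * X * pm α K e.symm) = Q.pT T X := by
  have h1 : pm α K e * X * pm α K e.symm ∈ Q.P S' S' :=
    Q.mul_mem (Q.mul_mem (Q.pm_mem e) hX) (Q.pm_mem e.symm)
  have h2 : (pm α K e * X * pm α K e.symm) * (pm α K e * X * pm α K e.symm) =
      pm α K e * X * pm α K e.symm := by
    calc (pm α K e * X * pm α K e.symm) * (pm α K e * X * pm α K e.symm)
        = pm α K e * X * (pm α K e.symm * pm α K e) * X * pm α K e.symm := by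
          simp only [Matrix.mul_assoc]
      _ = pm α K e * (X * X) * pm α K e.symm := by
          rw [pm_symm_mul, Matrix.mul_one]
          simp only [Matrix.mul_assoc]
      _ = pm α K e * X * pm α K e.symm := by rw [hX2]
  obtain ⟨n1, e1, f1⟩ := Q.pT_nat (T := T) h1 h2
  obtain ⟨n2, e2, f2⟩ := Q.pT_nat (T := T) hX hX2
  rw [Q.tau_pm e hX, f2] at f1
  have h3 : n2 = n1 := by exact_mod_cast f1
  rw [e1, e2, h3]

theorem FinalE_kr0 {l : ℕ} (X : Matrix (Fin l × D → α) (Fin l × D → α) K) :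
    pm α K (Equiv.emptySum (Fin 0 × D) (Fin l × D)) *
      kr (1 : Matrix (Fin 0 × D → α) (Fin 0 × D → α) K) X *
        pm α K (Equiv.emptySum (Fin 0 × D) (Fin l × D)).symm = X := by
  ext c d
  rw [mul_pm_apply, pm_mul_apply]
  change (1 : Matrix (Fin 0 × D → α) (Fin 0 × D → α) K) _ _ * X _ _ = X c d
  have h1 : ((c ∘ (Equiv.emptySum (Fin 0 × D) (Fin l × D))) ∘ Sum.inl : Fin 0 × D → α) =
      ((d ∘ (Equiv.emptySum (Fin 0 × D) (Fin l × D)).symm.symm) ∘ Sum.inl) :=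
    Subsingleton.elim _ _
  rw [h1, Matrix.one_apply_eq, one_mul]
  rfl

/-- the idempotent `e_i^- ⊗ e_l^+` -/
theorem FinalE_idem (i l : ℕ) :
    kr (ealt α K (Fin i) D) (esym α K (Fin l) D) * kr (ealt α K (Fin i) D) (esym α K (Fin l) D) =
      kr (ealt α K (Fin i) D) (esym α K (Fin l) D) := by
  rw [kr_mul, ealt_idem, esym_idem]

theorem FinalE_mem (i l : ℕ) : kr (ealt α K (Fin i) D) (esym α K (Fin l) D) ∈
    Q.P ((Fin i × D) ⊕ (Fin l × D)) ((Fin i × D) ⊕ (Fin l × D)) :=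
  Q.kr_mem Q.ealt_mem Q.esym_mem

theorem FinalE_P0 (T : Type) [Fintype T] [DecidableEq T] (l : ℕ) :
    Q.pT T (kr (ealt α K (Fin 0) D) (esym α K (Fin l) D)) = Q.pT T (esym α K (Fin l) D) := by
  rw [← Q.FinalE_pT_pm (Equiv.emptySum (Fin 0 × D) (Fin l × D)) (Q.FinalE_mem 0 l)
    (FinalE_idem 0 l), ealt_fin_zero, FinalE_kr0]

theorem FinalE_kos (T : Type) [Fintype T] [DecidableEq T] (j : ℕ) (hj : 1 ≤ j) :
    ∑ p ∈ Finset.HasAntidiagonal.antidiagonal j, (-1 : ℝ) ^ p.1 *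
      Q.pT T (kr (ealt α K (Fin p.1) D) (esym α K (Fin p.2) D)) = 0 := by
  have h1 := Q.koszul_tau D T j hj
  choose n hn hn' using fun p : ℕ × ℕ => Q.pT_nat (T := T) (Q.FinalE_mem (D := D) p.1 p.2)
    (FinalE_idem p.1 p.2)
  have h2 : ∑ p ∈ Finset.HasAntidiagonal.antidiagonal j, (-1 : K) ^ p.1 * (n p : K) = 0 := by
    rw [← h1]
    refine Finset.sum_congr rfl fun p _ => ?_
    rw [hn' p]
  have h3 : ((∑ p ∈ Finset.HasAntidiagonal.antidiagonal j, (-1 : ℤ) ^ p.1 * (n p : ℤ) : ℤ) : K) =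
      0 := by
    push_cast
    exact h2
  have h4 : (∑ p ∈ Finset.HasAntidiagonal.antidiagonal j, (-1 : ℤ) ^ p.1 * (n p : ℤ) : ℤ) = 0 := by
    exact_mod_cast h3
  have h5 : ((∑ p ∈ Finset.HasAntidiagonal.antidiagonal j, (-1 : ℤ) ^ p.1 * (n p : ℤ) : ℤ) : ℝ) =
      0 := by
    rw [h4, Int.cast_zero]
  rw [← h5]
  push_cast
  refine Finset.sum_congr rfl fun p _ => ?_
  rw [hn p]

theorem FinalE_num (b k J m : ℕ) (hb : 1 ≤ b)
    (hm : zpC b k * J ^ (8 * b ^ (2 * k) + 4) ≤ m) :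
    (J : ℝ) * ((J : ℝ) ^ (b ^ (2 * k)) * (((b ^ (2 * k) : ℕ) : ℝ) *
      Real.sqrt (2 * ((b : ℝ) ^ (2 * k)) ^ (2 * b ^ (2 * k) + 1) * (b : ℝ) ^ 2 * k / Real.sqrt m) *
        (J : ℝ) ^ (b ^ (2 * k)))) ≤ 1 / 2 := by
  set B : ℕ := b ^ (2 * k) with hB
  have hBr : ((b : ℝ) ^ (2 * k)) = (B : ℝ) := by rw [hB]; push_cast; rfl
  have hB1 : 1 ≤ B := Nat.one_le_pow _ _ hb
  have hB1' : (1 : ℝ) ≤ B := by exact_mod_cast hB1
  rw [hBr]
  have hmr : (64 : ℝ) * ((B : ℝ) + 1) ^ 4 * (B : ℝ) ^ (4 * B + 2) * (b : ℝ) ^ 4 * (k : ℝ) ^ 2 *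
      (J : ℝ) ^ (8 * B + 4) ≤ m := by
    have h : ((zpC b k * J ^ (8 * B + 4) : ℕ) : ℝ) ≤ m := by exact_mod_cast hm
    unfold zpC at h
    rw [← hB] at h
    push_cast at h
    exact h
  have hs : 8 * ((B : ℝ) + 1) ^ 2 * (B : ℝ) ^ (2 * B + 1) * (b : ℝ) ^ 2 * k *
      (J : ℝ) ^ (4 * B + 2) ≤ Real.sqrt m := by
    apply Real.le_sqrt_of_sq_le
    refine le_trans (le_of_eq ?_) hmr
    have e1 : (B : ℝ) ^ (4 * B + 2) = ((B : ℝ) ^ (2 * B + 1)) ^ 2 := by
      rw [← pow_mul]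
      congr 1
      ring
    have e2 : (J : ℝ) ^ (8 * B + 4) = ((J : ℝ) ^ (4 * B + 2)) ^ 2 := by
      rw [← pow_mul]
      congr 1
      ring
    rw [e1, e2]
    ring
  rcases Nat.eq_zero_or_pos J with hJ | hJ
  · rw [hJ, Nat.cast_zero, zero_mul]
    norm_num
  rcases Nat.eq_zero_or_pos k with hk | hk
  · rw [hk, Nat.cast_zero, mul_zero, zero_div, Real.sqrt_zero, mul_zero, zero_mul, mul_zero,
      mul_zero]
    norm_num
  have hJ0 : (0 : ℝ) < J := by exact_mod_cast hJ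
  have hk0 : (0 : ℝ) < k := by exact_mod_cast hk
  have hb0 : (0 : ℝ) < b := by exact_mod_cast hb
  have hB0 : (0 : ℝ) < B := by linarith
  have hsp : 0 < Real.sqrt m := lt_of_lt_of_le (by positivity) hs
  have e3 : (J : ℝ) * ((J : ℝ) ^ B * ((B : ℝ) * Real.sqrt (2 * (B : ℝ) ^ (2 * B + 1) *
      (b : ℝ) ^ 2 * k / Real.sqrt m) * (J : ℝ) ^ B)) =
      ((J : ℝ) ^ (2 * B + 1) * B) * Real.sqrt (2 * (B : ℝ) ^ (2 * B + 1) *
      (b : ℝ) ^ 2 * k / Real.sqrt m) := by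
    have : (J : ℝ) ^ (2 * B + 1) = (J : ℝ) * ((J : ℝ) ^ B * (J : ℝ) ^ B) := by ring
    rw [this]
    ring
  rw [e3]
  have hx : 0 ≤ (J : ℝ) ^ (2 * B + 1) * B := by positivity
  refine le_trans ?_ (le_of_eq (show Real.sqrt (1 / 4) = 1 / 2 by
    rw [show (1 / 4 : ℝ) = (1 / 2) ^ 2 by norm_num, Real.sqrt_sq (by norm_num)]))
  rw [← Real.sqrt_sq hx, ← Real.sqrt_mul (sq_nonneg _)]
  apply Real.sqrt_le_sqrt
  rw [← mul_div_assoc, div_le_iff₀ hsp]
  have e4 : ((J : ℝ) ^ (2 * B + 1) * B) ^ 2 * (2 * (B : ℝ) ^ (2 * B + 1) * (b : ℝ) ^ 2 * k) =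
      1 / 4 * (8 * (B : ℝ) ^ 2 * (B : ℝ) ^ (2 * B + 1) * (b : ℝ) ^ 2 * k *
        (J : ℝ) ^ (4 * B + 2)) := by
    have : (J : ℝ) ^ (4 * B + 2) = ((J : ℝ) ^ (2 * B + 1)) ^ 2 := by
      rw [← pow_mul]
      congr 1
      ring
    rw [this]
    ring
  rw [e4]
  refine mul_le_mul_of_nonneg_left (le_trans ?_ hs) (by norm_num)
  have h5 : (B : ℝ) ^ 2 ≤ ((B : ℝ) + 1) ^ 2 := pow_le_pow_left₀ hB0.le (by linarith) 2
  have h6 : 0 ≤ (B : ℝ) ^ (2 * B + 1) * (b : ℝ) ^ 2 * k * (J : ℝ) ^ (4 * B + 2) := by positivity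
  calc 8 * (B : ℝ) ^ 2 * (B : ℝ) ^ (2 * B + 1) * (b : ℝ) ^ 2 * k * (J : ℝ) ^ (4 * B + 2)
      = 8 * ((B : ℝ) ^ 2 * ((B : ℝ) ^ (2 * B + 1) * (b : ℝ) ^ 2 * k * (J : ℝ) ^ (4 * B + 2))) := by
        ring
    _ ≤ 8 * (((B : ℝ) + 1) ^ 2 * ((B : ℝ) ^ (2 * B + 1) * (b : ℝ) ^ 2 * k *
        (J : ℝ) ^ (4 * B + 2))) := by
        refine mul_le_mul_of_nonneg_left ?_ (by norm_num)
        exact mul_le_mul_of_nonneg_right h5 h6
    _ = 8 * ((B : ℝ) + 1) ^ 2 * (B : ℝ) ^ (2 * B + 1) * (b : ℝ) ^ 2 * k *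
        (J : ℝ) ^ (4 * B + 2) := by ring

theorem sym_deficit {k : ℕ} (hk : 1 ≤ k) (hD : Fintype.card D = 2 * k) (J j m : ℕ) (hj : j < J)
    (hm : zpC (Fintype.card α) k * J ^ (8 * Fintype.card α ^ (2 * k) + 4) ≤ m) :
    ((esym α K (Fin j) D).rank : ℝ) * Q.A (2 * m) - Q.pT (Fin m) (esym α K (Fin j) D) ≤
      Q.A (2 * m) / 2 := by
  have hb : 1 ≤ Fintype.card α := Fintype.card_pos
  have hb' : (1 : ℝ) ≤ Fintype.card α := by exact_mod_cast hb
  set B : ℕ := Fintype.card α ^ (2 * k) with hB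
  have hB1 : 1 ≤ B := Nat.one_le_pow _ _ hb
  have hBr : ((Fintype.card α : ℝ) ^ (2 * k)) = (B : ℝ) := by rw [hB]; push_cast; rfl
  have hB1' : (1 : ℝ) ≤ B := by exact_mod_cast hB1
  have hJ : 1 ≤ J := by omega
  have hm1 : 1 ≤ m := by
    refine le_trans ?_ hm
    unfold zpC
    have hk' : 1 ≤ k ^ 2 := Nat.one_le_pow _ _ hk
    have : 0 < 64 * (Fintype.card α ^ (2 * k) + 1) ^ 4 * (Fintype.card α ^ (2 * k)) ^
        (4 * Fintype.card α ^ (2 * k) + 2) * Fintype.card α ^ 4 * k ^ 2 *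
        J ^ (8 * B + 4) := by positivity
    exact this
  have hm0 : (0 : ℝ) < m := by exact_mod_cast hm1
  have hsm : 0 < Real.sqrt m := Real.sqrt_pos.mpr hm0
  have haT : Q.a (Fin m) (Fin m) = Q.A (2 * m) := by
    rw [Q.a_eq_A (Fin m) (Fin m), Fintype.card_fin, ← two_mul]
  have ha : 0 < Q.A (2 * m) := by
    rw [← haT]
    exact Q.a_pos (Fin m)
  set a : ℝ := Q.A (2 * m) with haDef
  -- the defect of the exterior power
  have hdef : ∀ i : ℕ, ((ealt α K (Fin i) D).rank : ℝ) - Q.pT (Fin m) (ealt α K (Fin i) D) / a ≤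
      (B : ℝ) ^ i * (Fintype.card α : ℝ) ^ 2 * (i * k) / Real.sqrt m := by
    intro i
    have h1 := Q.alt_deficit hD i m hm1
    rw [hBr, ← haDef] at h1
    have h2 : ((ealt α K (Fin i) D).rank : ℝ) - Q.pT (Fin m) (ealt α K (Fin i) D) / a =
        (((ealt α K (Fin i) D).rank : ℝ) * a - Q.pT (Fin m) (ealt α K (Fin i) D)) / a := by
      rw [sub_div, mul_div_cancel_right₀ _ ha.ne']
    rw [h2, div_le_iff₀ ha]
    exact h1
  have hmain := defic (fun i => ((ealt α K (Fin i) D).rank : ℝ))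
    (fun l => ((esym α K (Fin l) D).rank : ℝ))
    (fun l => Q.pT (Fin m) (esym α K (Fin l) D) / a)
    (fun i => Real.sqrt (2 * ((ealt α K (Fin i) D).rank : ℝ) *
      (((ealt α K (Fin i) D).rank : ℝ) - Q.pT (Fin m) (ealt α K (Fin i) D) / a)))
    (fun i l => Q.pT (Fin m) (kr (ealt α K (Fin i) D) (esym α K (Fin l) D)) / a)
    (by
      show ((ealt α K (Fin 0) D).rank : ℝ) = 1
      rw [rank_ealt_zero, Nat.cast_one])
    (by
      show ((esym α K (Fin 0) D).rank : ℝ) = 1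
      rw [rank_esym_zero, Nat.cast_one])
    (by
      show Q.pT (Fin m) (esym α K (Fin 0) D) / a = 1
      rw [esym_fin_zero, Q.phi_one, zero_mul, zero_add, ← haDef, div_self ha.ne'])
    (fun l => Nat.cast_nonneg _)
    (fun j hj => koszul_rank j hj)
    (fun j hj => by
      have h1 := Q.FinalE_kos (D := D) (Fin m) j hj
      have h2 : ∑ q ∈ Finset.HasAntidiagonal.antidiagonal j, (-1 : ℝ) ^ q.1 *
          (Q.pT (Fin m) (kr (ealt α K (Fin q.1) D) (esym α K (Fin q.2) D)) / a) =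
          (∑ q ∈ Finset.HasAntidiagonal.antidiagonal j, (-1 : ℝ) ^ q.1 *
          Q.pT (Fin m) (kr (ealt α K (Fin q.1) D) (esym α K (Fin q.2) D))) / a := by
        rw [Finset.sum_div]
        refine Finset.sum_congr rfl fun q _ => ?_
        rw [mul_div_assoc]
      show ∑ q ∈ Finset.HasAntidiagonal.antidiagonal j, (-1 : ℝ) ^ q.1 *
          (Q.pT (Fin m) (kr (ealt α K (Fin q.1) D) (esym α K (Fin q.2) D)) / a) = 0
      rw [h2, h1, zero_div])
    (fun l => by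
      show Q.pT (Fin m) (kr (ealt α K (Fin 0) D) (esym α K (Fin l) D)) / a = _
      rw [Q.FinalE_P0])
    (fun i l _ => by
      have h1 := Q.virt (T := Fin m) (Q.esym_mem (J := Fin l) (D := D))
        (Q.ealt_mem (J := Fin i) (D := D)) esym_idem ealt_idem
      rw [adj_ealt Q.gg', haT] at h1
      have h2 : ((ealt α K (Fin i) D).rank : ℝ) *
          (Q.pT (Fin m) (esym α K (Fin l) D) / a) -
          Q.pT (Fin m) (kr (ealt α K (Fin i) D) (esym α K (Fin l) D)) / a =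
          (((ealt α K (Fin i) D).rank : ℝ) * Q.pT (Fin m) (esym α K (Fin l) D) -
          Q.pT (Fin m) (kr (ealt α K (Fin i) D) (esym α K (Fin l) D))) / a := by
        rw [sub_div, mul_div_assoc]
      show |((ealt α K (Fin i) D).rank : ℝ) * (Q.pT (Fin m) (esym α K (Fin l) D) / a) -
          Q.pT (Fin m) (kr (ealt α K (Fin i) D) (esym α K (Fin l) D)) / a| ≤
        Real.sqrt (2 * ((ealt α K (Fin i) D).rank : ℝ) *
          (((ealt α K (Fin i) D).rank : ℝ) - Q.pT (Fin m) (ealt α K (Fin i) D) / a)) *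
          ((esym α K (Fin l) D).rank : ℝ)
      rw [h2]
      have hR : (0 : ℝ) ≤ ((esym α K (Fin l) D).rank : ℝ) := Nat.cast_nonneg _
      rw [← Real.sqrt_sq hR, ← Real.sqrt_mul' _ (sq_nonneg _), ← Real.sqrt_sq_eq_abs]
      apply Real.sqrt_le_sqrt
      rw [div_pow, div_le_iff₀ (by positivity)]
      refine h1.trans (le_of_eq ?_)
      field_simp)
    B (C := Real.sqrt (2 * (B : ℝ) ^ (2 * B + 1) * (Fintype.card α : ℝ) ^ 2 * k / Real.sqrt m))
    (M := (J : ℝ) ^ B) (Real.sqrt_nonneg _)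
    (fun i hi hiB => by
      apply Real.sqrt_le_sqrt
      have hr1 : ((ealt α K (Fin i) D).rank : ℝ) ≤ (B : ℝ) ^ i := by
        have := rank_ealt_le (α := α) (K := K) (D := D) i
        rw [hD, ← hB] at this
        exact_mod_cast this
      have hr0 : (0 : ℝ) ≤ ((ealt α K (Fin i) D).rank : ℝ) := Nat.cast_nonneg _
      have hi' : (i : ℝ) ≤ B := by exact_mod_cast hiB
      have hBi : (B : ℝ) ^ i ≤ (B : ℝ) ^ B := pow_le_pow_right₀ hB1' hiB
      have hd := hdef i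
      have hnn : (0 : ℝ) ≤ (B : ℝ) ^ i * (Fintype.card α : ℝ) ^ 2 * (i * k) / Real.sqrt m := by
        positivity
      calc 2 * ((ealt α K (Fin i) D).rank : ℝ) *
            (((ealt α K (Fin i) D).rank : ℝ) - Q.pT (Fin m) (ealt α K (Fin i) D) / a)
          ≤ 2 * ((ealt α K (Fin i) D).rank : ℝ) *
            ((B : ℝ) ^ i * (Fintype.card α : ℝ) ^ 2 * (i * k) / Real.sqrt m) :=
            mul_le_mul_of_nonneg_left hd (by positivity)
        _ ≤ 2 * (B : ℝ) ^ i *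
            ((B : ℝ) ^ i * (Fintype.card α : ℝ) ^ 2 * (i * k) / Real.sqrt m) :=
            mul_le_mul_of_nonneg_right (by linarith) hnn
        _ ≤ 2 * (B : ℝ) ^ B *
            ((B : ℝ) ^ B * (Fintype.card α : ℝ) ^ 2 * (B * k) / Real.sqrt m) := by
            gcongr
        _ = 2 * (B : ℝ) ^ (2 * B + 1) * (Fintype.card α : ℝ) ^ 2 * k / Real.sqrt m := by
            have : (B : ℝ) ^ (2 * B + 1) = (B : ℝ) ^ B * (B : ℝ) ^ B * B := by ring
            rw [this]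
            ring)
    (fun i hi => by
      have h1 : ealt α K (Fin i) D = 0 := by
        apply ealt_eq_zero
        rw [hD, ← hB]
        exact hi
      show Real.sqrt (2 * ((ealt α K (Fin i) D).rank : ℝ) *
          (((ealt α K (Fin i) D).rank : ℝ) - Q.pT (Fin m) (ealt α K (Fin i) D) / a)) = 0
      rw [h1, Matrix.rank_zero, Nat.cast_zero, mul_zero, zero_mul, Real.sqrt_zero])
    j
    (fun l hl => by
      have h1 := rank_esym_le (α := α) (K := K) (D := D) l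
      rw [hD, ← hB] at h1
      have h2 : (l + 1) ^ B ≤ J ^ B := Nat.pow_le_pow_left (by omega) _
      have h3 := h1.trans h2
      show ((esym α K (Fin l) D).rank : ℝ) ≤ (J : ℝ) ^ B
      exact_mod_cast h3)
  have hnum := FinalE_num (Fintype.card α) k J m hb hm
  rw [hBr, ← hB] at hnum
  have hj' : (j : ℝ) ≤ J := by exact_mod_cast hj.le
  have hfin : |((esym α K (Fin j) D).rank : ℝ) - Q.pT (Fin m) (esym α K (Fin j) D) / a| ≤ 1 / 2 := by
    refine hmain.trans (le_trans ?_ hnum)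
    rw [mul_assoc]
    apply mul_le_mul_of_nonneg_right hj'
    positivity
  have h3 := (abs_le.1 hfin).2
  have h4 : ((esym α K (Fin j) D).rank : ℝ) * a - Q.pT (Fin m) (esym α K (Fin j) D) =
      (((esym α K (Fin j) D).rank : ℝ) - Q.pT (Fin m) (esym α K (Fin j) D) / a) * a := by
    rw [sub_mul, div_mul_cancel₀ _ ha.ne']
  rw [h4]
  calc (((esym α K (Fin j) D).rank : ℝ) - Q.pT (Fin m) (esym α K (Fin j) D) / a) * a
      ≤ 1 / 2 * a := mul_le_mul_of_nonneg_right h3 ha.le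
    _ = a / 2 := by ring

theorem power_law {k : ℕ} (hk : 1 ≤ k) (hD : Fintype.card D = 2 * k)
    {z : Matrix (D → α) (Empty → α) K} (hz : z ∈ Q.N Empty D) (hz0 : z ≠ 0) (J m : ℕ)
    (hm : zpC (Fintype.card α) k * J ^ (8 * Fintype.card α ^ (2 * k) + 4) ≤ m) :
    (J : ℝ) * Q.A (2 * m) ≤ 2 * Q.h (2 * m) := by
  have h1 := Q.chainE hz hz0 (Fin m) J
  have haT : Q.a (Fin m) (Fin m) = Q.A (2 * m) := by
    rw [Q.a_eq_A (Fin m) (Fin m), Fintype.card_fin, ← two_mul]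
  rw [haT, Fintype.card_fin] at h1
  have h2 : ∑ _j ∈ Finset.range J, Q.A (2 * m) / 2 ≤
      ∑ j ∈ Finset.range J, (Q.pT (Fin m) (esym α K (Fin j) D) -
        (((esym α K (Fin j) D).rank : ℝ) - 1) * Q.A (2 * m)) := by
    refine Finset.sum_le_sum fun j hj => ?_
    have h3 := Q.sym_deficit hk hD J j m (Finset.mem_range.1 hj) hm
    linarith
  rw [Finset.sum_const, Finset.card_range, nsmul_eq_mul] at h2
  linarith

end Sys

end ZO
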