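import Pool.Agent.W_b4801b_h57.GMain

set_option autoImplicit false

/-!
# From the counting theorem to real exponents

`consts`: for `b, N ≥ 1` there are `c, δ > 0` such that for all natural numbers `n ≥ 1`, `s`, `t` with `s ≤ t` and
`J * s ≤ 2 * t` for all `J` with `C J^E ≤ n` (`C = zpC b (N b)`, `E = 8 b^(2Nb) + 4`): `c n^δ s ≤ t`.
Proof: `δ = 1 / E`, `x = (n / C)^δ`; if `x < 1` then `x s ≤ s ≤ t`; if `x ≥ 1` take `J = ⌊x⌋₊ ≥ x / 2`: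
`C J^E ≤ C x^E = n`, so `(x / 2) s ≤ 2 t`.  So `c = 1 / (4 C^δ)`.  (`C ≥ 1` as `b, N ≥ 1`.)
-/

noncomputable section

open Module

namespace ZO

theorem gfinal_aux (C E : ℕ) (hE : 1 ≤ E) : ∃ c δ : ℝ, 0 < c ∧ 0 < δ ∧
    ∀ n s t : ℕ, 1 ≤ n → s ≤ t → (∀ J : ℕ, C * J ^ E ≤ n → J * s ≤ 2 * t) →
      c * (n : ℝ) ^ δ * s ≤ t := by
  set D : ℝ := (C : ℝ) + 1 with hD
  have hC0 : (0 : ℝ) ≤ C := Nat.cast_nonneg C
  have hD0 : 0 < D := by rw [hD]; linarith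
  have hE0 : (0 : ℝ) < E := by exact_mod_cast hE
  have hDδ : 0 < D ^ (1 / (E : ℝ)) := Real.rpow_pos_of_pos hD0 _
  refine ⟨1 / (4 * D ^ (1 / (E : ℝ))), 1 / (E : ℝ), by positivity, by positivity, ?_⟩
  intro n s t hn hst hJ
  have hn0 : (0 : ℝ) < n := by exact_mod_cast hn
  have hs0 : (0 : ℝ) ≤ s := Nat.cast_nonneg s
  have hst' : (s : ℝ) ≤ t := by exact_mod_cast hst
  set x : ℝ := ((n : ℝ) / D) ^ (1 / (E : ℝ)) with hx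
  have hx0 : 0 < x := Real.rpow_pos_of_pos (by positivity) _
  have hxE : x ^ E = (n : ℝ) / D := by
    rw [hx, ← Real.rpow_natCast, ← Real.rpow_mul (by positivity), one_div,
      inv_mul_cancel₀ hE0.ne', Real.rpow_one]
  have hxeq : 1 / (4 * D ^ (1 / (E : ℝ))) * (n : ℝ) ^ (1 / (E : ℝ)) = x / 4 := by
    rw [hx, Real.div_rpow hn0.le hD0.le]
    field_simp
  rw [hxeq]
  rcases lt_or_ge x 1 with h1 | h1
  · have : x / 4 * s ≤ 1 * s := mul_le_mul_of_nonneg_right (by linarith) hs0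
    linarith
  · have hf1 : 1 ≤ ⌊x⌋₊ := (Nat.one_le_floor_iff x).2 h1
    have hf1' : (1 : ℝ) ≤ (⌊x⌋₊ : ℝ) := by exact_mod_cast hf1
    have hf2 : x < (⌊x⌋₊ : ℝ) + 1 := Nat.lt_floor_add_one x
    have hf3 : (⌊x⌋₊ : ℝ) ≤ x := Nat.floor_le hx0.le
    have h2 : (⌊x⌋₊ : ℝ) ^ E ≤ (n : ℝ) / D := by
      rw [← hxE]
      exact pow_le_pow_left₀ (Nat.cast_nonneg _) hf3 E
    have h3 : (C : ℝ) * (⌊x⌋₊ : ℝ) ^ E ≤ n := by
      have h4 : (⌊x⌋₊ : ℝ) ^ E * D ≤ n := (le_div_iff₀ hD0).1 h2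
      have h5 : 0 ≤ (⌊x⌋₊ : ℝ) ^ E := by positivity
      rw [hD] at h4
      nlinarith
    have h6 : C * ⌊x⌋₊ ^ E ≤ n := by exact_mod_cast h3
    have h7 := hJ _ h6
    have h8 : (⌊x⌋₊ : ℝ) * s ≤ 2 * t := by exact_mod_cast h7
    have h9 : x / 2 ≤ (⌊x⌋₊ : ℝ) := by linarith
    have h10 : x / 2 * s ≤ (⌊x⌋₊ : ℝ) * s := mul_le_mul_of_nonneg_right h9 hs0
    linarith

theorem consts (b N : ℕ) (hb : 1 ≤ b) (hN : 1 ≤ N) : ∃ c δ : ℝ, 0 < c ∧ 0 < δ ∧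
    ∀ n s t : ℕ, 1 ≤ n → s ≤ t →
      (∀ J : ℕ, zpC b (N * b) * J ^ (8 * b ^ (2 * (N * b)) + 4) ≤ n → J * s ≤ 2 * t) →
      c * (n : ℝ) ^ δ * s ≤ t :=
  gfinal_aux _ _ (by omega)

end ZO
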