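import Pool.Agent.W_b4801b_h57.GSys

set_option autoImplicit false

/-!
# Plücker coordinates

`pl u c = det (u j (c i))_{i j}` for `u : Fin r → (α → K)` and a word `c : Fin r → α`.

* `pl_mulVec`: `pl (R u) c = ∑_d (∏_i R (c i) (d i)) * pl u d`: the determinant of
  `(∑_x R (c i) x * u j x)_{i j}` is multilinear in the rows (`Matrix.det_apply`, `Finset.prod_univ_sum`,
  `Fintype.piFinset_univ`; or `MultilinearMap.map_sum` for `Matrix.detRowAlternating`).
* `pl_comb`: if `v j = ∑_l A l j • w l` then `(v j (c i)) = (w l (c i))_{i l} * A`, so `pl v c = det A * pl w c`.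
* `exists_pl_ne_zero`: for linearly independent `w` some minor is not zero: the `r × α` matrix `(w j x)` has rank
  `r`, so `r` of its columns are linearly independent (columns span `K^r`: `exists_linearIndependent`,
  `Submodule`/`Basis` extracted from a spanning set), and the determinant of the square matrix is not zero
  (`Matrix.linearIndependent_rows_iff_isUnit`, `Matrix.isUnit_iff_isUnit_det`).
-/

noncomputable section

namespace ZO

open Matrix Module

set_option linter.unusedSectionVars false

variable {α : Type} [Fintype α] [DecidableEq α] {K : Type*} [Field K] {r : ℕ}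

/-- Plücker coordinates -/
def pl (u : Fin r → α → K) (c : Fin r → α) : K := (Matrix.of fun i j => u j (c i)).det

theorem pl_mulVec (R : Matrix α α K) (u : Fin r → α → K) (c : Fin r → α) :
    pl (fun j => R *ᵥ u j) c = ∑ d : Fin r → α, (∏ i, R (c i) (d i)) * pl u d := by
  have h1 := (Matrix.detRowAlternating (n := Fin r) (R := K)).toMultilinearMap.map_sum
    (fun (i : Fin r) (x : α) => R (c i) x • (fun j => u j x : Fin r → K))
  have h2 : pl (fun j => R *ᵥ u j) c =
      (Matrix.detRowAlternating (n := Fin r) (R := K)).toMultilinearMap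
        (fun i => ∑ x, R (c i) x • (fun j => u j x : Fin r → K)) := by
    unfold pl
    change Matrix.det _ = Matrix.det _
    congr 1
    funext i j
    simp [Matrix.mulVec, dotProduct, Finset.sum_apply]
  rw [h2, h1]
  refine Finset.sum_congr rfl fun d _ => ?_
  rw [MultilinearMap.map_smul_univ, smul_eq_mul]
  rfl

theorem pl_comb {w v : Fin r → α → K} (A : Matrix (Fin r) (Fin r) K)
    (h : ∀ j, v j = ∑ l, A l j • w l) (c : Fin r → α) : pl v c = A.det * pl w c := by
  unfold pl
  rw [mul_comm, ← Matrix.det_mul]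
  congr 1
  ext i j
  rw [Matrix.mul_apply]
  simp only [Matrix.of_apply, h j, Finset.sum_apply, Pi.smul_apply, smul_eq_mul]
  exact Finset.sum_congr rfl fun l _ => mul_comm _ _

theorem exists_pl_ne_zero {w : Fin r → α → K} (hw : LinearIndependent K w) :
    ∃ c, pl w c ≠ 0 := by
  obtain ⟨W, hW⟩ : ∃ W : Matrix (Fin r) α K, W = Matrix.of w := ⟨_, rfl⟩
  have hrow : LinearIndependent K W.row := by
    rw [hW]
    exact hw
  have hrank : W.rank = r := by
    rw [hrow.rank_matrix, Fintype.card_fin]
  have hspan : Submodule.span K (Set.range W.col) = ⊤ := by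
    apply Submodule.eq_top_of_finrank_eq
    rw [← Matrix.rank_eq_finrank_span_cols, hrank, Module.finrank_fin_fun]
  obtain ⟨b, hb, hb1, hb2⟩ := exists_linearIndependent K (Set.range W.col)
  have hfin : b.Finite := (Set.finite_range _).subset hb
  have : Fintype b := hfin.fintype
  have hcard : Fintype.card b = r := by
    have h1 := finrank_span_eq_card hb2
    rw [Subtype.range_coe, hb1, hspan, finrank_top, Module.finrank_fin_fun] at h1
    exact h1.symm
  obtain ⟨e⟩ : Nonempty (Fin r ≃ b) := ⟨(Fintype.equivFinOfCardEq hcard).symm⟩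
  choose c hc using fun i : Fin r => hb (e i).2
  refine ⟨c, ?_⟩
  have hli : LinearIndependent K (Matrix.of fun i j => w j (c i) : Matrix (Fin r) (Fin r) K).row := by
    have h1 := hb2.comp e e.injective
    have h2 : (Matrix.of fun i j => w j (c i) : Matrix (Fin r) (Fin r) K).row =
        (Subtype.val : b → Fin r → K) ∘ e := by
      funext i
      change _ = (e i : Fin r → K)
      rw [← hc i, hW]
      rfl
    rw [h2]
    exact h1
  have hu := Matrix.linearIndependent_rows_iff_isUnit.1 hli
  exact ((Matrix.isUnit_iff_isUnit_det _).1 hu).ne_zero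

/-- the vector `(w_1 ∧ ⋯ ∧ w_r)^{⊗ M}` of `V^{⊗ (Fin M × Fin r)}` -/
def plz (M : ℕ) (w : Fin r → α → K) : Matrix (Fin M × Fin r → α) (Empty → α) K :=
  Matrix.of fun c _ => ∏ t : Fin M, pl w fun i => c (t, i)

/-- the entry at the word `(t, i) ↦ c i` with `pl w c ≠ 0` -/
theorem plz_ne_zero (M : ℕ) {w : Fin r → α → K} (hw : LinearIndependent K w) :
    plz M w ≠ 0 := by
  obtain ⟨c, hc⟩ := exists_pl_ne_zero hw
  intro h
  have h1 := congrFun (congrFun h (fun p : Fin M × Fin r => c p.2)) (fun x : Empty => x.elim)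
  simp only [plz, Matrix.of_apply, Matrix.zero_apply, Finset.prod_const, Finset.card_univ,
    Fintype.card_fin] at h1
  exact pow_ne_zero M hc h1

/-- `tp R (plz w) = det(A)^M plz w` if `R w_j = ∑_l A l j w_l`: the sum over the words on `Fin M × Fin r` is the
product over `t : Fin M` of sums over words on `Fin r` (`Finset.prod_univ_sum` and currying), `pl_mulVec`,
`pl_comb`. -/
theorem tp_mul_plz (M : ℕ) (R : Matrix α α K) {w : Fin r → α → K} (A : Matrix (Fin r) (Fin r) K)
    (h : ∀ j, R *ᵥ w j = ∑ l, A l j • w l) :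
    tp R (Fin M × Fin r) * plz M w = A.det ^ M • plz M w := by
  ext c z
  rw [Matrix.mul_apply, Matrix.smul_apply, smul_eq_mul]
  simp only [tp, plz, Matrix.of_apply]
  have h1 : ∀ c' : Fin r → α, ∑ d : Fin r → α, (∏ i, R (c' i) (d i)) * pl w d =
      A.det * pl w c' := by
    intro c'
    rw [← pl_mulVec]
    exact pl_comb A h c'
  have h2 : ∀ d : Fin M × Fin r → α, (∏ s, R (c s) (d s)) * ∏ t : Fin M, pl w (fun i => d (t, i)) =
      ∏ t : Fin M, ((∏ i, R (c (t, i)) (d (t, i))) * pl w (fun i => d (t, i))) := by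
    intro d
    rw [Finset.prod_mul_distrib, Fintype.prod_prod_type]
  rw [Finset.sum_congr rfl fun d _ => h2 d]
  have h3 := Fintype.sum_equiv (Equiv.curry (Fin M) (Fin r) α)
    (fun d : Fin M × Fin r → α =>
      ∏ t : Fin M, ((∏ i, R (c (t, i)) (d (t, i))) * pl w (fun i => d (t, i))))
    (fun D : Fin M → Fin r → α =>
      ∏ t : Fin M, ((∏ i, R (c (t, i)) (D t i)) * pl w (D t)))
    (fun d => rfl)
  rw [h3]
  have h4 := Finset.prod_univ_sum (fun _ : Fin M => (Finset.univ : Finset (Fin r → α)))
    (fun t D => (∏ i, R (c (t, i)) (D i)) * pl w D)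
  rw [Fintype.piFinset_univ] at h4
  rw [← h4, Finset.prod_congr rfl fun t _ => h1 fun i => c (t, i), Finset.prod_mul_distrib,
    Finset.prod_const, Finset.card_univ, Fintype.card_fin]

/-- `plz` is in `P`: `m ^ (2 N r / 2) det(A)^(2N) = 1`. -/
theorem plz_mem {ι : Type*} (R : ι → Matrix α α K) (m : ι → K) (N : ℕ) {w : Fin r → α → K}
    (A : ι → Matrix (Fin r) (Fin r) K) (h : ∀ i j, R i *ᵥ w j = ∑ l, A i l j • w l)
    (hA : ∀ i, (A i).det ^ (2 * N) * m i ^ (N * r) = 1) :
    plz (2 * N) w ∈ gP R m Empty (Fin (2 * N) × Fin r) := by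
  rw [mem_gP]
  have hcard : Fintype.card (Fin (2 * N) × Fin r) = 2 * (N * r) := by
    rw [Fintype.card_prod, Fintype.card_fin, Fintype.card_fin, mul_assoc]
  refine ⟨fun hodd => ?_, fun i => ?_⟩
  · rw [hcard, Fintype.card_empty, zero_add] at hodd
    exact absurd (even_two_mul (N * r)) (Nat.not_even_iff_odd.2 hodd)
  · have hE : tp (R i) Empty = 1 := by
      ext x y
      have hxy : x = y := Subsingleton.elim _ _
      rw [hxy, Matrix.one_apply_eq]
      simp [tp]
    have hexp : (((Fintype.card (Fin (2 * N) × Fin r) : ℕ) : ℤ) - (Fintype.card Empty : ℕ)) / 2 =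
        ((N * r : ℕ) : ℤ) := by
      rw [hcard, Fintype.card_empty]
      push_cast
      rw [sub_zero]
      exact Int.mul_ediv_cancel_left _ (by norm_num)
    rw [hE, Matrix.mul_one, tp_mul_plz (2 * N) (R i) (A i) (h i), hexp, zpow_natCast, smul_smul,
      mul_comm (m i ^ (N * r)), hA i, one_smul]

end ZO
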