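import Pool.Agent.W_f569db_zo.Cauchy
import Pool.Agent.W_f569db_zo.CSP

set_option autoImplicit false

/-!
# The Peirce blocks of a semisimple algebra form a Gram matrix

`gram_alg`: for a finite-dimensional semisimple algebra `R` over `K` and finitely many idempotents `e k`
there are real vectors `ρ k` with `finrank (range (sandR (e l) (e k))) = ∑ i, ρ k i * ρ l i`.
Proof: as in `wed`: `R ≃ ∏ i, Matrix (Fin (d i)) (Fin (d i)) (D i)`; `ρ k i = r_i(e k) * √(finrank K (D i))`
with `r_i(e k)` the rank of the `i`-th component (`Wed_rank`, `Wed_single`, `Wed_pi`, `Wed_equiv`).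

`gram_rad`: for a subalgebra `D` of a matrix algebra and idempotents `e k ∈ D` the numbers
`cod (sand (e l) (e k)) D (rad D)` have the same form: `exists_quot`, `cauchy_cod`, `gram_alg`.

`gram_P` (in the file `GramP`): the same for finitely many objects `(U k, e k)` of a system `Q`: apply `gram_rad` to the algebra `D` of
the block matrices `M` on `Σ k, (U k → α)` whose block `(k, l)` (rows `U l`, columns `U k`), the matrix
`(c, d) ↦ M ⟨l, c⟩ ⟨k, d⟩`, is in `P (U k) (U l)`, and to the idempotents with the single nonzero block `e k` at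
`(k, k)`.  `rad D` consists of the block matrices with blocks in `N` (test against the matrices with one nonzero block;
the trace of a product of block matrices is the sum of the traces of the products of the blocks).  `sand` by
the idempotents `e l`, `e k` picks the block `(k, l)`: see `csp_cod`, `csp_sand21` in `W_f569db_zo/CSP` for the
case of two objects.
-/

noncomputable section

namespace ZO

open Matrix Module

theorem gram_alg (K : Type*) {R : Type*} [Field K] [Ring R] [Algebra K R] [Module.Finite K R]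
    [IsSemisimpleRing R] {κ : Type} (e : κ → R) (he : ∀ k, IsIdempotentElem (e k)) :
    ∃ (n : ℕ) (ρ : κ → Fin n → ℝ), ∀ k l,
      (finrank K (LinearMap.range (sandR K (e l) (e k))) : ℝ) = ∑ i, ρ k i * ρ l i := by
  obtain ⟨n, D, d, i1, i2, i3, -, ⟨φ⟩⟩ :=
    IsSemisimpleRing.exists_algEquiv_pi_matrix_divisionRing_finite K R
  have hid : ∀ {x : R}, IsIdempotentElem x → ∀ i, IsIdempotentElem (φ x i) := by
    intro x hx i
    have h1 : φ x * φ x = φ x := by rw [← map_mul, hx.eq]
    exact congrFun h1 i
  choose r u v huv hvu using fun k i => Wed_rank (φ (e k) i) (hid (he k) i)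
  refine ⟨n, fun k i => (r k i : ℝ) * √(finrank K (D i) : ℝ), fun k l => ?_⟩
  rw [Wed_equiv φ, Wed_pi]
  push_cast
  refine Finset.sum_congr rfl fun i _ => ?_
  rw [Wed_single (hid (he k) i) (hid (he l) i) (huv l i) (hvu l i) (huv k i) (hvu k i)]
  have h1 : √(finrank K (D i) : ℝ) * √(finrank K (D i) : ℝ) = finrank K (D i) :=
    Real.mul_self_sqrt (Nat.cast_nonneg _)
  push_cast
  calc (r l i : ℝ) * r k i * finrank K (D i) = r l i * r k i *
        (√(finrank K (D i) : ℝ) * √(finrank K (D i) : ℝ)) := by rw [h1]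
    _ = _ := by ring

theorem gram_rad {ι : Type*} [Fintype ι] [DecidableEq ι] {K : Type*} [Field K] [CharZero K]
    (D : Subalgebra K (Matrix ι ι K)) {κ : Type} (e : κ → Matrix ι ι K) (he : ∀ k, e k ∈ D)
    (he2 : ∀ k, e k * e k = e k) :
    ∃ (n : ℕ) (ρ : κ → Fin n → ℝ), ∀ k l,
      cod (sand (e l) (e k)) D.toSubmodule (rad D) = ∑ i, ρ k i * ρ l i := by
  obtain ⟨R, _, _, _, _, π, hπ, hk⟩ := exists_quot D
  obtain ⟨n, ρ, h⟩ := gram_alg K (fun k => π ⟨e k, he k⟩) (fun k => by
    rw [IsIdempotentElem, ← map_mul]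
    congr 1
    exact Subtype.ext (he2 k))
  refine ⟨n, ρ, fun k l => ?_⟩
  rw [cauchy_cod D π hπ hk (he k) (he l) (he2 k) (he2 l)]
  exact h k l

end ZO
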