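import Pool.Agent.W_b4801b_h57.Gram

set_option autoImplicit false

/-!
# Gram matrices for finitely many objects of a system

Apply `gram_rad` to the algebra `D` of the block matrices `M` on `Σ k, (U k → α)` whose block `(k, l)` (rows `U l`,
columns `U k`), the matrix `(c, d) ↦ M ⟨l, c⟩ ⟨k, d⟩`, is in `P (U k) (U l)`, and to the idempotents with the single
nonzero block `e k` at `(k, k)`.  `rad D` consists of the block matrices with blocks in `N` (test against the
matrices with one nonzero block; the trace of a product of block matrices is the sum of the traces of the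
products of the blocks).  `sand` by the idempotents `e l`, `e k` picks the block `(k, l)`: see `csp_cod`,
`csp_sand21` in `W_f569db_zo/CSP` for the case of two objects.
-/

noncomputable section

namespace ZO

open Matrix Module

section GramPAux

variable {K : Type*} [Field K] {κ : Type} [DecidableEq κ] {I : κ → Type}

/-- the block `(k, l)` -/
def GramP_bl (k l : κ) : Matrix ((k : κ) × I k) ((k : κ) × I k) K →ₗ[K] Matrix (I l) (I k) K where
  toFun M := Matrix.of fun c d => M ⟨l, c⟩ ⟨k, d⟩
  map_add' _ _ := rfl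
  map_smul' _ _ := rfl

/-- the block matrix with one block -/
def GramP_em (k l : κ) : Matrix (I l) (I k) K →ₗ[K] Matrix ((k : κ) × I k) ((k : κ) × I k) K where
  toFun A := Matrix.of fun p q =>
    if h : p.1 = l then if h' : q.1 = k then A (h ▸ p.2) (h' ▸ q.2) else 0 else 0
  map_add' A B := by
    ext p q
    simp only [of_apply, Matrix.add_apply]
    by_cases h : p.1 = l
    · by_cases h' : q.1 = k
      · simp [h, h']
      · simp [h, h']
    · simp [h]
  map_smul' c A := by
    ext p q
    simp only [of_apply, Matrix.smul_apply, RingHom.id_apply]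
    by_cases h : p.1 = l
    · by_cases h' : q.1 = k
      · simp [h, h']
      · simp [h, h']
    · simp [h]

theorem GramP_bl_em_self (k l : κ) (A : Matrix (I l) (I k) K) :
    GramP_bl k l (GramP_em k l A) = A := by
  ext c d
  simp [GramP_bl, GramP_em]

theorem GramP_bl_em_left {k l k' l' : κ} (h : l' ≠ l) (A : Matrix (I l) (I k) K) :
    GramP_bl k' l' (GramP_em k l A) = 0 := by
  ext c d
  simp [GramP_bl, GramP_em, h]

theorem GramP_bl_em_right {k l k' l' : κ} (h : k' ≠ k) (A : Matrix (I l) (I k) K) :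
    GramP_bl k' l' (GramP_em k l A) = 0 := by
  ext c d
  simp [GramP_bl, GramP_em, h]

theorem GramP_em_inj (k l : κ) : Function.Injective (GramP_em (K := K) (I := I) k l) := by
  intro A B h
  have := congrArg (GramP_bl k l) h
  rwa [GramP_bl_em_self, GramP_bl_em_self] at this

theorem GramP_ext {M M' : Matrix ((k : κ) × I k) ((k : κ) × I k) K}
    (h : ∀ k l, GramP_bl k l M = GramP_bl k l M') : M = M' := by
  ext p q
  obtain ⟨l, c⟩ := p
  obtain ⟨k, d⟩ := q
  exact congrFun (congrFun (h k l) c) d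

theorem GramP_mul [Fintype κ] [∀ k, Fintype (I k)]
    (M M' : Matrix ((k : κ) × I k) ((k : κ) × I k) K) (k l : κ) :
    GramP_bl k l (M * M') = ∑ j, GramP_bl j l M * GramP_bl k j M' := by
  ext c d
  rw [Matrix.sum_apply]
  change (M * M') ⟨l, c⟩ ⟨k, d⟩ = _
  rw [Matrix.mul_apply, Fintype.sum_sigma]
  refine Finset.sum_congr rfl fun j _ => ?_
  rw [Matrix.mul_apply]
  rfl

theorem GramP_trace [Fintype κ] [∀ k, Fintype (I k)]
    (M : Matrix ((k : κ) × I k) ((k : κ) × I k) K) :
    trace M = ∑ l, trace (GramP_bl l l M) := by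
  unfold Matrix.trace
  rw [Fintype.sum_sigma]
  rfl

theorem GramP_trace_mul [Fintype κ] [∀ k, Fintype (I k)]
    (M M' : Matrix ((k : κ) × I k) ((k : κ) × I k) K) :
    trace (M * M') = ∑ l, ∑ j, trace (GramP_bl j l M * GramP_bl l j M') := by
  rw [GramP_trace]
  refine Finset.sum_congr rfl fun l _ => ?_
  rw [GramP_mul, Matrix.trace_sum]

theorem GramP_trace_em [Fintype κ] [∀ k, Fintype (I k)]
    (M : Matrix ((k : κ) × I k) ((k : κ) × I k) K) (k l : κ) (B : Matrix (I k) (I l) K) :
    trace (M * GramP_em l k B) = trace (GramP_bl k l M * B) := by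
  rw [GramP_trace_mul, Finset.sum_eq_single l, Finset.sum_eq_single k]
  · rw [GramP_bl_em_self]
  · intro j _ hj
    rw [GramP_bl_em_left hj, Matrix.mul_zero, Matrix.trace_zero]
  · intro h
    exact absurd (Finset.mem_univ _) h
  · intro l' _ hl'
    refine Finset.sum_eq_zero fun j _ => ?_
    rw [GramP_bl_em_right hl', Matrix.mul_zero, Matrix.trace_zero]
  · intro h
    exact absurd (Finset.mem_univ _) h

theorem GramP_mul_em [Fintype κ] [∀ k, Fintype (I k)]
    (M : Matrix ((k : κ) × I k) ((k : κ) × I k) K) (k : κ) (e : Matrix (I k) (I k) K) (l : κ) :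
    GramP_bl k l (M * GramP_em k k e) = GramP_bl k l M * e := by
  rw [GramP_mul, Finset.sum_eq_single k]
  · rw [GramP_bl_em_self]
  · intro j _ hj
    rw [GramP_bl_em_left hj, Matrix.mul_zero]
  · intro h
    exact absurd (Finset.mem_univ _) h

theorem GramP_mul_em_ne [Fintype κ] [∀ k, Fintype (I k)]
    (M : Matrix ((k : κ) × I k) ((k : κ) × I k) K) (k : κ) (e : Matrix (I k) (I k) K) {k' : κ}
    (h : k' ≠ k) (l : κ) :
    GramP_bl k' l (M * GramP_em k k e) = 0 := by
  rw [GramP_mul]
  refine Finset.sum_eq_zero fun j _ => ?_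
  rw [GramP_bl_em_right h, Matrix.mul_zero]

theorem GramP_em_mul [Fintype κ] [∀ k, Fintype (I k)]
    (M : Matrix ((k : κ) × I k) ((k : κ) × I k) K) (l : κ) (f : Matrix (I l) (I l) K) (k : κ) :
    GramP_bl k l (GramP_em l l f * M) = f * GramP_bl k l M := by
  rw [GramP_mul, Finset.sum_eq_single l]
  · rw [GramP_bl_em_self]
  · intro j _ hj
    rw [GramP_bl_em_right hj, Matrix.zero_mul]
  · intro h
    exact absurd (Finset.mem_univ _) h

theorem GramP_em_mul_ne [Fintype κ] [∀ k, Fintype (I k)]
    (M : Matrix ((k : κ) × I k) ((k : κ) × I k) K) (l : κ) (f : Matrix (I l) (I l) K) {l' : κ}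
    (h : l' ≠ l) (k : κ) :
    GramP_bl k l' (GramP_em l l f * M) = 0 := by
  rw [GramP_mul]
  refine Finset.sum_eq_zero fun j _ => ?_
  rw [GramP_bl_em_left h, Matrix.zero_mul]

theorem GramP_sand [Fintype κ] [∀ k, Fintype (I k)] (k l : κ) (e : Matrix (I k) (I k) K)
    (f : Matrix (I l) (I l) K) (x : Matrix ((k : κ) × I k) ((k : κ) × I k) K) :
    sand (GramP_em l l f) (GramP_em k k e) x = GramP_em k l (sand f e (GramP_bl k l x)) := by
  rw [sand_apply, sand_apply]
  refine GramP_ext fun k' l' => ?_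
  rcases eq_or_ne k' k with rfl | hk
  · rcases eq_or_ne l' l with rfl | hl
    · rw [GramP_mul_em, GramP_em_mul, GramP_bl_em_self]
    · rw [GramP_mul_em, GramP_em_mul_ne _ _ _ hl, GramP_bl_em_left hl, Matrix.zero_mul]
  · rw [GramP_mul_em_ne _ _ _ hk, GramP_bl_em_right hk]

theorem GramP_em_em [Fintype κ] [∀ k, Fintype (I k)] (k : κ) (e e' : Matrix (I k) (I k) K) :
    GramP_em k k e * GramP_em k k e' = GramP_em k k (e * e') := by
  refine GramP_ext fun k' l' => ?_
  rcases eq_or_ne k' k with rfl | hk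
  · rcases eq_or_ne l' k' with rfl | hl
    · rw [GramP_mul_em, GramP_bl_em_self, GramP_bl_em_self]
    · rw [GramP_mul_em, GramP_bl_em_left hl, GramP_bl_em_left hl, Matrix.zero_mul]
  · rw [GramP_mul_em_ne _ _ _ hk, GramP_bl_em_right hk]

theorem GramP_one_self [∀ k, DecidableEq (I k)] (k : κ) :
    GramP_bl k k (1 : Matrix ((k : κ) × I k) ((k : κ) × I k) K) = 1 := by
  ext c d
  change (1 : Matrix ((k : κ) × I k) ((k : κ) × I k) K) ⟨k, c⟩ ⟨k, d⟩ = _
  rcases eq_or_ne c d with rfl | h
  · rw [Matrix.one_apply_eq, Matrix.one_apply_eq]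
  · rw [Matrix.one_apply_ne h, Matrix.one_apply_ne]
    intro h1
    exact h (eq_of_heq (Sigma.mk.inj h1).2)

theorem GramP_one_ne [∀ k, DecidableEq (I k)] {k l : κ} (h : k ≠ l) :
    GramP_bl k l (1 : Matrix ((k : κ) × I k) ((k : κ) × I k) K) = 0 := by
  ext c d
  change (1 : Matrix ((k : κ) × I k) ((k : κ) × I k) K) ⟨l, c⟩ ⟨k, d⟩ = _
  rw [Matrix.one_apply_ne]
  · rfl
  · intro h1
    exact h (Sigma.mk.inj h1).1.symm

end GramPAux

variable {α : Type} [Fintype α] [DecidableEq α] {K : Type*} [Field K] [CharZero K]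

/-- the algebra of block matrices -/
def GramP_D (Q : Sys α K) {κ : Type} [Fintype κ] [DecidableEq κ] (U : κ → Type)
    [∀ k, Fintype (U k)] [∀ k, DecidableEq (U k)] :
    Subalgebra K (Matrix ((k : κ) × (U k → α)) ((k : κ) × (U k → α)) K) where
  carrier := {M | ∀ k l, GramP_bl k l M ∈ Q.P (U k) (U l)}
  mul_mem' := by
    intro M M' h h' k l
    rw [GramP_mul]
    exact sum_mem fun j _ => Q.mul_mem (h j l) (h' k j)
  one_mem' := by
    intro k l
    rcases eq_or_ne k l with rfl | hkl
    · rw [GramP_one_self]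
      exact Q.one_mem _
    · rw [GramP_one_ne hkl]
      exact zero_mem _
  add_mem' := by
    intro M M' h h' k l
    rw [map_add]
    exact add_mem (h k l) (h' k l)
  zero_mem' := by
    intro k l
    rw [map_zero]
    exact zero_mem _
  algebraMap_mem' := by
    intro r k l
    rw [Algebra.algebraMap_eq_smul_one, map_smul]
    refine Submodule.smul_mem _ r ?_
    rcases eq_or_ne k l with rfl | hkl
    · rw [GramP_one_self]
      exact Q.one_mem _
    · rw [GramP_one_ne hkl]
      exact zero_mem _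

omit [CharZero K] in
theorem GramP_em_mem (Q : Sys α K) {κ : Type} [Fintype κ] [DecidableEq κ] (U : κ → Type)
    [∀ k, Fintype (U k)] [∀ k, DecidableEq (U k)] (k l : κ) {A : Matrix (U l → α) (U k → α) K}
    (hA : A ∈ Q.P (U k) (U l)) : GramP_em (I := fun k => U k → α) k l A ∈ GramP_D Q U := by
  intro k' l'
  rcases eq_or_ne k' k with rfl | hk
  · rcases eq_or_ne l' l with rfl | hl
    · rw [GramP_bl_em_self]
      exact hA
    · rw [GramP_bl_em_left hl]
      exact zero_mem _
  · rw [GramP_bl_em_right hk]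
    exact zero_mem _

omit [CharZero K] in
theorem GramP_rad (Q : Sys α K) {κ : Type} [Fintype κ] [DecidableEq κ] (U : κ → Type)
    [∀ k, Fintype (U k)] [∀ k, DecidableEq (U k)]
    {M : Matrix ((k : κ) × (U k → α)) ((k : κ) × (U k → α)) K} :
    M ∈ rad (GramP_D Q U) ↔ ∀ k l, GramP_bl k l M ∈ Q.N (U k) (U l) := by
  constructor
  · rintro ⟨h, ht⟩ k l
    refine ⟨h k l, fun B hB => ?_⟩
    rw [← GramP_trace_em]
    exact ht _ (GramP_em_mem Q U l k hB)
  · intro h
    refine ⟨fun k l => (h k l).1, fun B hB => ?_⟩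
    rw [GramP_trace_mul]
    refine Finset.sum_eq_zero fun l _ => Finset.sum_eq_zero fun j _ => ?_
    exact (h j l).2 _ (hB l j)

theorem Sys.gram_P (Q : Sys α K) {κ : Type} [Fintype κ] [DecidableEq κ] (U : κ → Type)
    [∀ k, Fintype (U k)] [∀ k, DecidableEq (U k)]
    (e : ∀ k, Matrix (U k → α) (U k → α) K) (he : ∀ k, e k ∈ Q.P (U k) (U k))
    (he2 : ∀ k, e k * e k = e k) :
    ∃ (n : ℕ) (ρ : κ → Fin n → ℝ), ∀ k l,
      cod (sand (e l) (e k)) (Q.P (U k) (U l)) (Q.N (U k) (U l)) = ∑ i, ρ k i * ρ l i := by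
  obtain ⟨n, ρ, h⟩ := gram_rad (GramP_D Q U)
    (fun k => GramP_em (I := fun k => U k → α) k k (e k))
    (fun k => GramP_em_mem Q U k k (he k))
    (fun k => by rw [GramP_em_em, he2])
  refine ⟨n, ρ, fun k l => ?_⟩
  rw [← h k l]
  symm
  have hs : ∀ x : Matrix ((k : κ) × (U k → α)) ((k : κ) × (U k → α)) K,
      sand (GramP_em (I := fun k => U k → α) l l (e l)) (GramP_em (I := fun k => U k → α) k k (e k)) x
        = GramP_em (I := fun k => U k → α) k l (sand (e l) (e k) (GramP_bl k l x)) :=
    fun x => GramP_sand (I := fun k => U k → α) k l (e k) (e l) x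
  refine csp_cod (sand (GramP_em (I := fun k => U k → α) l l (e l))
    (GramP_em (I := fun k => U k → α) k k (e k))) (GramP_em (I := fun k => U k → α) k l)
    (sand (e l) (e k)) (GramP_bl (I := fun k => U k → α) k l) hs
    (GramP_em_inj (I := fun k => U k → α) k l) _ _ _ _ ?_ ?_
  · apply le_antisymm
    · rintro _ ⟨M, hM, rfl⟩
      exact hM k l
    · intro A hA
      exact ⟨GramP_em (I := fun k => U k → α) k l A, GramP_em_mem Q U k l hA,
        GramP_bl_em_self (I := fun k => U k → α) k l A⟩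
  · apply le_antisymm
    · rintro _ ⟨M, hM, rfl⟩
      exact (GramP_rad Q U).1 hM k l
    · intro A hA
      refine ⟨GramP_em (I := fun k => U k → α) k l A, (GramP_rad Q U).2 fun k' l' => ?_,
        GramP_bl_em_self (I := fun k => U k → α) k l A⟩
      rcases eq_or_ne k' k with rfl | hk
      · rcases eq_or_ne l' l with rfl | hl
        · rw [GramP_bl_em_self]
          exact hA
        · rw [GramP_bl_em_left hl]
          exact zero_mem _
      · rw [GramP_bl_em_right hk]
        exact zero_mem _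

end ZO
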