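import Pool.Agent.W_b4801b_h57.Kos0

set_option autoImplicit false

/-!
# The Koszul identity for class functions of symmetric groups

`koszul_class`: let `θ` be a family of functions on the groups `Perm J` which is invariant under bijections
`J ≃ J'`.  For `j ≥ 1`
`∑_{i + l = j} (-1)^i (i! l!)⁻¹ ∑_{u ∈ Perm (Fin i), w ∈ Perm (Fin l)} sgn u · θ (u ⊕ w) = 0`.
Proof.  Multiply by `j!`: `j! / (i! l!)` is the number of `f : Fin j → Bool` with `#{f = true} = i`
(`i + l = j`).  For each such `f` choose a bijection `{f = true} ⊕ {f = false} ≃ Fin i ⊕ Fin l`; the permutations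
`σ` of `Fin j` with `f (σ x) = f x` are the `u ⊕ w` with `u ∈ Perm {f = true}`, `w ∈ Perm {f = false}`
(`Equiv.Perm.subtypeCongr`, `Equiv.sumCompl`), so
`∑_{σ : f ∘ σ = f} sgn (σ | {f = true}) θ σ = ∑_{u, w} sgn u · θ (u ⊕ w)` by the invariance of `θ`.  So `j!` times
the sum is `∑_f (-1)^#{f = true} ∑_{σ : f ∘ σ = f} sgn (σ | {f = true}) θ σ`, and exchanging the sums and
`Kos_zero` give zero.
-/

noncomputable section

namespace ZO

section aux

open Equiv

variable {K : Type*} [Field K]
  (θ : ∀ (J : Type) [Fintype J] [DecidableEq J], Equiv.Perm J → K)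

/-- the sum over `u ⊕ w` -/
def Kos_S (T F : Type) [Fintype T] [DecidableEq T] [Fintype F] [DecidableEq F] : K :=
  ∑ u : Equiv.Perm T, ∑ w : Equiv.Perm F,
    ((Equiv.Perm.sign u : ℤ) : K) * θ (T ⊕ F) (Equiv.sumCongr u w)

theorem Kos_S_congr
    (hθ : ∀ (J J' : Type) [Fintype J] [DecidableEq J] [Fintype J'] [DecidableEq J'] (e : J ≃ J')
      (σ : Equiv.Perm J), θ J' ((e.symm.trans σ).trans e) = θ J σ)
    {T T' F F' : Type} [Fintype T] [DecidableEq T] [Fintype F] [DecidableEq F]
    [Fintype T'] [DecidableEq T'] [Fintype F'] [DecidableEq F'] (e₁ : T ≃ T') (e₂ : F ≃ F') :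
    Kos_S θ T F = Kos_S θ T' F' := by
  unfold Kos_S
  refine Fintype.sum_equiv (Equiv.permCongr e₁) _ _ fun u =>
    Fintype.sum_equiv (Equiv.permCongr e₂) _ _ fun w => ?_
  rw [Equiv.Perm.sign_permCongr]
  congr 1
  rw [← hθ (T ⊕ F) (T' ⊕ F') (Equiv.sumCongr e₁ e₂) (Equiv.sumCongr u w)]
  congr 1
  ext x
  rcases x with x | x <;> rfl

theorem Kos_left {J : Type} (f : J → Bool) (u : Equiv.Perm {x // f x = true})
    (w : Equiv.Perm {x // ¬ f x = true}) {x : J} (hx : f x = true) :
    Equiv.Perm.subtypeCongr u w x = (u ⟨x, hx⟩ : J) :=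
  Equiv.Perm.subtypeCongr.left_apply (p := fun x => f x = true) u w hx

theorem Kos_right {J : Type} (f : J → Bool) (u : Equiv.Perm {x // f x = true})
    (w : Equiv.Perm {x // ¬ f x = true}) {x : J} (hx : ¬ f x = true) :
    Equiv.Perm.subtypeCongr u w x = (w ⟨x, hx⟩ : J) :=
  Equiv.Perm.subtypeCongr.right_apply (p := fun x => f x = true) u w hx

/-- the permutations which preserve `f`, for a fixed `f` -/
theorem Kos_f
    (hθ : ∀ (J J' : Type) [Fintype J] [DecidableEq J] [Fintype J'] [DecidableEq J'] (e : J ≃ J')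
      (σ : Equiv.Perm J), θ J' ((e.symm.trans σ).trans e) = θ J σ)
    {J : Type} [Fintype J] [DecidableEq J] (f : J → Bool) :
    ∑ σ : {σ : Equiv.Perm J // ∀ x, f (σ x) = f x},
      (((Equiv.Perm.sign (σ.1.subtypePerm (p := fun x => f x = true)
          (fun x => by rw [σ.2 x])) : ℤ) : K) * θ J σ.1) =
      Kos_S θ {x // f x = true} {x // ¬ f x = true} := by
  unfold Kos_S
  rw [← Fintype.sum_prod_type']
  symm
  have hinv : ∀ (q : Equiv.Perm {x // f x = true} × Equiv.Perm {x // ¬ f x = true}) (x : J),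
      f (Equiv.Perm.subtypeCongr q.1 q.2 x) = f x := by
    intro q x
    by_cases hx : f x = true
    · rw [Kos_left f _ _ hx, hx]
      exact (q.1 ⟨x, hx⟩).2
    · rw [Kos_right f _ _ hx, Bool.eq_false_iff.2 hx]
      exact Bool.eq_false_iff.2 (q.2 ⟨x, hx⟩).2
  refine Fintype.sum_bijective
    (fun q : Equiv.Perm {x // f x = true} × Equiv.Perm {x // ¬ f x = true} =>
      (⟨Equiv.Perm.subtypeCongr q.1 q.2, hinv q⟩ :
        {σ : Equiv.Perm J // ∀ x, f (σ x) = f x})) ⟨?_, ?_⟩ _ _ ?_
  · intro q q' h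
    exact Equiv.Perm.subtypeCongrHom_injective (fun x => f x = true) (congrArg Subtype.val h)
  · rintro ⟨σ, hσ⟩
    refine ⟨(σ.subtypePerm (p := fun x => f x = true) (fun x => by rw [hσ x]),
      σ.subtypePerm (p := fun x => ¬ f x = true) (fun x => by rw [hσ x])), ?_⟩
    apply Subtype.ext
    ext x
    by_cases hx : f x = true
    · exact Kos_left f _ _ hx
    · exact Kos_right f _ _ hx
  · rintro ⟨u, w⟩
    have h1 : (Equiv.Perm.subtypeCongr u w).subtypePerm (p := fun x => f x = true)
        (fun x => by rw [hinv (u, w) x]) = u := by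
      ext x
      exact Kos_left f _ _ x.2
    change ((Equiv.Perm.sign u : ℤ) : K) * θ _ (Equiv.sumCongr u w) =
      (((Equiv.Perm.sign ((Equiv.Perm.subtypeCongr u w).subtypePerm (p := fun x => f x = true)
        (fun x => by rw [hinv (u, w) x]))) : ℤ) : K) * θ J (Equiv.Perm.subtypeCongr u w)
    rw [h1]
    congr 1
    exact (hθ _ J (Equiv.sumCompl (fun x => f x = true)) (Equiv.sumCongr u w)).symm

/-- exchange of the two sums -/
theorem Kos_exchange
    (hθ : ∀ (J J' : Type) [Fintype J] [DecidableEq J] [Fintype J'] [DecidableEq J'] (e : J ≃ J')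
      (σ : Equiv.Perm J), θ J' ((e.symm.trans σ).trans e) = θ J σ)
    (J : Type) [Fintype J] [DecidableEq J] [Nonempty J] :
    ∑ f : J → Bool, (-1 : K) ^ (Finset.univ.filter fun x => f x = true).card *
      Kos_S θ {x // f x = true} {x // ¬ f x = true} = 0 := by
  have h1 : ∀ σ : Equiv.Perm J, ∑ f : {f : J → Bool // ∀ x, f (σ x) = f x},
      (-1 : K) ^ (Finset.univ.filter fun x => f.1 x = true).card *
        (((Equiv.Perm.sign (σ.subtypePerm (p := fun x => f.1 x = true)
          (fun x => by rw [f.2 x])) : ℤ) : K) * θ J σ) = 0 := by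
    intro σ
    have h2 := congrArg (Int.cast : ℤ → K) (Kos_zero σ)
    rw [Int.cast_sum, Int.cast_zero] at h2
    have h3 := congrArg (fun z => z * θ J σ) h2
    simp only [zero_mul, Finset.sum_mul] at h3
    rw [← h3]
    refine Finset.sum_congr rfl fun f _ => ?_
    rw [Int.cast_mul, Int.cast_pow, Int.cast_neg, Int.cast_one, mul_assoc]
  have h4 : ∑ q : (Σ σ : Equiv.Perm J, {f : J → Bool // ∀ x, f (σ x) = f x}),
      (-1 : K) ^ (Finset.univ.filter fun x => q.2.1 x = true).card *
        (((Equiv.Perm.sign (q.1.subtypePerm (p := fun x => q.2.1 x = true)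
          (fun x => by rw [q.2.2 x])) : ℤ) : K) * θ J q.1) = 0 := by
    rw [Fintype.sum_sigma]
    exact Finset.sum_eq_zero fun σ _ => h1 σ
  have h5 : ∑ q : (Σ f : J → Bool, {σ : Equiv.Perm J // ∀ x, f (σ x) = f x}),
      (-1 : K) ^ (Finset.univ.filter fun x => q.1 x = true).card *
        (((Equiv.Perm.sign (q.2.1.subtypePerm (p := fun x => q.1 x = true)
          (fun x => by rw [q.2.2 x])) : ℤ) : K) * θ J q.2.1) = 0 := by
    rw [← h4]
    symm
    refine Fintype.sum_equiv
      { toFun := fun q => ⟨q.2.1, ⟨q.1, q.2.2⟩⟩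
        invFun := fun q => ⟨q.2.1, ⟨q.1, q.2.2⟩⟩
        left_inv := fun q => rfl
        right_inv := fun q => rfl } _ _ fun q => rfl
  rw [Fintype.sum_sigma] at h5
  rw [← h5]
  refine Finset.sum_congr rfl fun f _ => ?_
  rw [← Kos_f θ hθ f, Finset.mul_sum]

theorem Kos_bool {j : ℕ} (g : ℕ → K) :
    ∑ f : Fin j → Bool, g (Finset.univ.filter fun x => f x = true).card =
      ∑ i ∈ Finset.range (j + 1), (j.choose i) • g i := by
  have h1 : ∑ f : Fin j → Bool, g (Finset.univ.filter fun x => f x = true).card =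
      ∑ s : Finset (Fin j), g s.card := by
    refine Fintype.sum_equiv
      { toFun := fun f => Finset.univ.filter fun x => f x = true
        invFun := fun s => fun x => decide (x ∈ s)
        left_inv := fun f => by
          funext x
          simp
        right_inv := fun s => by
          ext x
          simp } _ _ fun f => rfl
  rw [h1, ← Finset.powerset_univ, Finset.sum_powerset_apply_card, Finset.card_univ,
    Fintype.card_fin]

end aux

theorem koszul_class {K : Type*} [Field K] [CharZero K]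
    (θ : ∀ (J : Type) [Fintype J] [DecidableEq J], Equiv.Perm J → K)
    (hθ : ∀ (J J' : Type) [Fintype J] [DecidableEq J] [Fintype J'] [DecidableEq J'] (e : J ≃ J')
      (σ : Equiv.Perm J), θ J' ((e.symm.trans σ).trans e) = θ J σ) (j : ℕ) (hj : 1 ≤ j) :
    ∑ p ∈ Finset.HasAntidiagonal.antidiagonal j, (-1 : K) ^ p.1 *
      (((p.1.factorial : K) * (p.2.factorial : K))⁻¹ *
        ∑ u : Equiv.Perm (Fin p.1), ∑ w : Equiv.Perm (Fin p.2),
          ((Equiv.Perm.sign u : ℤ) : K) * θ (Fin p.1 ⊕ Fin p.2) (Equiv.sumCongr u w)) = 0 := by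
  have : Nonempty (Fin j) := ⟨⟨0, hj⟩⟩
  have h1 := Kos_exchange θ hθ (Fin j)
  have h2 : ∀ f : Fin j → Bool, Kos_S θ {x // f x = true} {x // ¬ f x = true} =
      Kos_S θ (Fin (Finset.univ.filter fun x => f x = true).card)
        (Fin (j - (Finset.univ.filter fun x => f x = true).card)) := by
    intro f
    have e1 : Fintype.card {x // f x = true} = (Finset.univ.filter fun x => f x = true).card :=
      Fintype.card_subtype _
    refine Kos_S_congr θ hθ (Fintype.equivFinOfCardEq e1) (Fintype.equivFinOfCardEq ?_)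
    rw [Fintype.card_subtype_compl, e1, Fintype.card_fin]
  have h3 : ∑ i ∈ Finset.range (j + 1), (j.choose i) •
      ((-1 : K) ^ i * Kos_S θ (Fin i) (Fin (j - i))) = 0 := by
    rw [← Kos_bool (fun i => (-1 : K) ^ i * Kos_S θ (Fin i) (Fin (j - i))), ← h1]
    exact Finset.sum_congr rfl fun f _ => by rw [h2 f]
  have hj0 : (j.factorial : K) ≠ 0 := Nat.cast_ne_zero.2 (Nat.factorial_ne_zero j)
  have h4 : ∑ p ∈ Finset.HasAntidiagonal.antidiagonal j, (-1 : K) ^ p.1 *
      (((p.1.factorial : K) * (p.2.factorial : K))⁻¹ * Kos_S θ (Fin p.1) (Fin p.2)) = 0 := by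
    rw [Finset.Nat.sum_antidiagonal_eq_sum_range_succ (fun a b => (-1 : K) ^ a *
      (((a.factorial : K) * (b.factorial : K))⁻¹ * Kos_S θ (Fin a) (Fin b))) j]
    have h5 : (j.factorial : K) * ∑ k ∈ Finset.range j.succ, (-1 : K) ^ k *
        (((k.factorial : K) * ((j - k).factorial : K))⁻¹ * Kos_S θ (Fin k) (Fin (j - k))) =
        ∑ i ∈ Finset.range (j + 1), (j.choose i) •
          ((-1 : K) ^ i * Kos_S θ (Fin i) (Fin (j - i))) := by
      rw [Finset.mul_sum]
      refine Finset.sum_congr rfl fun i hi => ?_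
      have hij : i ≤ j := Nat.lt_succ_iff.1 (Finset.mem_range.1 hi)
      have h6 : (j.choose i : K) * i.factorial * (j - i).factorial = j.factorial := by
        exact_mod_cast Nat.choose_mul_factorial_mul_factorial hij
      have h7 : (i.factorial : K) ≠ 0 := Nat.cast_ne_zero.2 (Nat.factorial_ne_zero i)
      have h8 : ((j - i).factorial : K) ≠ 0 := Nat.cast_ne_zero.2 (Nat.factorial_ne_zero _)
      rw [nsmul_eq_mul, ← h6]
      field_simp
    rw [h3] at h5
    exact (mul_eq_zero.1 h5).resolve_left hj0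
  exact h4

end ZO
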