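import Mathlib

set_option autoImplicit false

/-!
# Signs of the restrictions of a permutation to its stable subsets

`Kos_zero`: for a permutation `σ` of a nonempty finite type `J`
`∑_f (-1)^{#{x | f x = true}} sgn (σ restricted to {x | f x = true}) = 0`, the sum over all
`f : J → Bool` with `f (σ x) = f x`.
Proof.  Fix `x₀ ∈ J`.  The involution `f ↦ f'`, `f' x = !(f x)` if `σ.SameCycle x₀ x`, `f' x = f x` otherwise, has
no fixed point, and changes the sign of the term: if `f x₀ = false` and `O` is the orbit of `x₀`, the set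
`{f' = true}` is the disjoint union of `{f = true}` and `O`, so the sign of the restriction is multiplied by
the sign of `σ|O`, which is `(-1)^(#O - 1)` (`σ|O` is a cycle of length `#O`, `Equiv.Perm.IsCycle.sign`, or the
identity if `#O = 1`), and `(-1)^#{..}` by `(-1)^#O`.  (`Finset.sum_involution`.)
Alternative: `(-1)^#{f = true} sgn (σ|{f = true})` is the product over the orbits `c` of `σ` contained in
`{f = true}` of `-1`; the `f` correspond to the maps from the set of orbits (`Quotient` of the `SameCycle`
setoid) to `Bool`; so the sum is `∏_c (1 + (-1)) = 0`.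
Alternative: `Equiv.Perm.sign` of the restriction to `{f = true}` is the sign of the permutation of `J` which is `σ`
on `{f = true}` and the identity elsewhere (`Equiv.Perm.ofSubtype`, `Equiv.Perm.sign_ofSubtype`).
-/

noncomputable section

namespace ZO

theorem Kos0_orbit {J : Type} [Fintype J] [DecidableEq J] (σ : Equiv.Perm J) (x₀ : J) :
    (Equiv.Perm.sign (σ.cycleOf x₀) : ℤ) *
      (-1 : ℤ) ^ (Finset.univ.filter fun x => σ.SameCycle x₀ x).card = -1 := by
  classical
  by_cases h : σ x₀ = x₀
  · have h1 : σ.cycleOf x₀ = 1 := (Equiv.Perm.cycleOf_eq_one_iff σ).2 h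
    have h2 : (Finset.univ.filter fun x => σ.SameCycle x₀ x) = {x₀} := by
      ext y
      simp only [Finset.mem_filter, Finset.mem_univ, true_and, Finset.mem_singleton]
      constructor
      · intro hy
        obtain ⟨k, hk⟩ := hy
        have : (σ ^ k) x₀ = x₀ := Equiv.Perm.zpow_apply_eq_self_of_apply_eq_self h k
        rw [← hk, this]
      · rintro rfl
        exact Equiv.Perm.SameCycle.refl _ _
    rw [h1, h2]
    simp
  · have h1 : (σ.cycleOf x₀).IsCycle := Equiv.Perm.isCycle_cycleOf σ h
    have h2 : (σ.cycleOf x₀).support = (Finset.univ.filter fun x => σ.SameCycle x₀ x) := by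
      ext y
      rw [Equiv.Perm.mem_support_cycleOf_iff' h]
      simp
    rw [h1.sign, h2]
    push_cast
    have h3 : ((-1 : ℤ) ^ (Finset.univ.filter fun x => σ.SameCycle x₀ x).card) *
        ((-1 : ℤ) ^ (Finset.univ.filter fun x => σ.SameCycle x₀ x).card) = 1 := by
      rw [← mul_pow]; simp
    linarith

theorem Kos0_ext {J : Type} [Fintype J] [DecidableEq J] (σ : Equiv.Perm J)
    (f : J → Bool) (hf : ∀ x, f (σ x) = f x) (x : J) :
    Equiv.Perm.ofSubtype (σ.subtypePerm (p := fun x => f x = true)
          (fun x => by rw [hf x])) x = if f x = true then σ x else x := by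
  by_cases h : f x = true
  · rw [if_pos h, Equiv.Perm.ofSubtype_apply_of_mem (p := fun x => f x = true) _ h]
    rfl
  · rw [if_neg h, Equiv.Perm.ofSubtype_apply_of_not_mem (p := fun x => f x = true) _ h]

theorem Kos0_step {J : Type} [Fintype J] [DecidableEq J] (σ : Equiv.Perm J) (x₀ : J)
    (f g : J → Bool) (hf : ∀ x, f (σ x) = f x) (hg : ∀ x, g (σ x) = g x)
    (h0 : f x₀ = false)
    (hfg : ∀ x, g x = if σ.SameCycle x₀ x then !(f x) else f x) :
    (-1 : ℤ) ^ (Finset.univ.filter fun x => g x = true).card *
        (Equiv.Perm.sign (σ.subtypePerm (p := fun x => g x = true)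
          (fun x => by rw [hg x])) : ℤ) =
    - ((-1 : ℤ) ^ (Finset.univ.filter fun x => f x = true).card *
        (Equiv.Perm.sign (σ.subtypePerm (p := fun x => f x = true)
          (fun x => by rw [hf x])) : ℤ)) := by
  classical
  have hz : ∀ (k : ℤ) x, f ((σ ^ k) x) = f x := by
    intro k x
    induction k using Int.induction_on with
    | zero => simp
    | succ n ih =>
      have : (σ ^ ((n : ℤ) + 1)) x = σ ((σ ^ (n : ℤ)) x) := by
        rw [add_comm, zpow_add]; simp
      rw [this, hf, ih]
    | pred n ih =>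
      have : σ ((σ ^ (-(n : ℤ) - 1)) x) = (σ ^ (-(n : ℤ))) x := by
        have h : σ ^ (-(n : ℤ)) = σ * σ ^ (-(n : ℤ) - 1) := by
          rw [← zpow_one_add]; congr 1; ring
        rw [h]; rfl
      rw [← ih, ← this, hf]
  have hO : ∀ x, σ.SameCycle x₀ x → f x = false := by
    rintro x ⟨k, rfl⟩
    rw [hz, h0]
  have hset : (Finset.univ.filter fun x => g x = true) =
      (Finset.univ.filter fun x => f x = true) ∪ (Finset.univ.filter fun x => σ.SameCycle x₀ x) := by
    ext x
    simp only [Finset.mem_filter, Finset.mem_univ, true_and, Finset.mem_union]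
    rw [hfg x]
    by_cases hx : σ.SameCycle x₀ x
    · simp [hx, hO x hx]
    · simp [hx]
  have hdis : Disjoint (Finset.univ.filter fun x => f x = true)
      (Finset.univ.filter fun x => σ.SameCycle x₀ x) := by
    rw [Finset.disjoint_left]
    intro x hx hx'
    simp only [Finset.mem_filter, Finset.mem_univ, true_and] at hx hx'
    rw [hO x hx'] at hx
    exact absurd hx (by simp)
  have hperm : Equiv.Perm.ofSubtype (σ.subtypePerm (p := fun x => g x = true)
          (fun x => by rw [hg x])) =
      Equiv.Perm.ofSubtype (σ.subtypePerm (p := fun x => f x = true)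
          (fun x => by rw [hf x])) * σ.cycleOf x₀ := by
    ext x
    rw [Equiv.Perm.mul_apply, Kos0_ext σ g hg, Kos0_ext σ f hf]
    by_cases hx : σ.SameCycle x₀ x
    · have h1 : g x = true := by rw [hfg x]; simp [hx, hO x hx]
      rw [hx.cycleOf_apply, if_pos h1, hf x, hO x hx]
      simp
    · rw [Equiv.Perm.cycleOf_apply_of_not_sameCycle hx]
      rw [hfg x, if_neg hx]
  have hsign := congrArg Equiv.Perm.sign hperm
  rw [Equiv.Perm.sign_ofSubtype, Equiv.Perm.sign_mul, Equiv.Perm.sign_ofSubtype] at hsign
  rw [hsign, hset, Finset.card_union_of_disjoint hdis, pow_add]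
  have h4 := Kos0_orbit σ x₀
  push_cast
  generalize (Equiv.Perm.sign (σ.cycleOf x₀) : ℤ) = a at *
  generalize ((-1 : ℤ) ^ (Finset.univ.filter fun x => σ.SameCycle x₀ x).card) = b at *
  linear_combination ((-1 : ℤ) ^ (Finset.univ.filter fun x => f x = true).card *
        (Equiv.Perm.sign (σ.subtypePerm (p := fun x => f x = true)
          (fun x => by rw [hf x])) : ℤ)) * h4

theorem Kos_zero {J : Type} [Fintype J] [DecidableEq J] [Nonempty J] (σ : Equiv.Perm J) :
    ∑ f : {f : J → Bool // ∀ x, f (σ x) = f x},
      (-1 : ℤ) ^ (Finset.univ.filter fun x => f.1 x = true).card *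
        (Equiv.Perm.sign (σ.subtypePerm (p := fun x => f.1 x = true)
          (fun x => by rw [f.2 x])) : ℤ) = 0 := by
  classical
  obtain ⟨x₀⟩ := (inferInstance : Nonempty J)
  have hsc : ∀ x, σ.SameCycle x₀ (σ x) ↔ σ.SameCycle x₀ x := fun x =>
    Equiv.Perm.sameCycle_apply_right
  refine Finset.sum_involution
    (fun f _ => ⟨fun x => if σ.SameCycle x₀ x then !(f.1 x) else f.1 x, fun x => by
      simp only [hsc x, f.2 x]⟩) ?_ ?_ ?_ ?_
  · rintro ⟨f, hf⟩ -
    by_cases h0 : f x₀ = false
    · rw [Kos0_step σ x₀ f (fun x => if σ.SameCycle x₀ x then !(f x) else f x) hf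
        (fun x => by simp only [hsc x, hf x]) h0 (fun x => rfl)]
      ring
    · have h0' : f x₀ = true := by simpa using h0
      have := Kos0_step σ x₀ (fun x => if σ.SameCycle x₀ x then !(f x) else f x) f
        (fun x => by simp only [hsc x, hf x]) hf
        (by simp [h0', Equiv.Perm.SameCycle.refl]) (fun x => by
          by_cases hx : σ.SameCycle x₀ x <;> simp [hx])
      rw [this]
      ring
  · rintro ⟨f, hf⟩ - - h
    have h1 := congrFun (congrArg Subtype.val h) x₀
    simp [Equiv.Perm.SameCycle.refl] at h1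
  · intro a ha
    exact Finset.mem_univ _
  · rintro ⟨f, hf⟩ -
    apply Subtype.ext
    funext x
    by_cases hx : σ.SameCycle x₀ x <;> simp [hx]

end ZO
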