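import Pool.Agent.W_b4801b_h57.Kos
import Pool.Agent.W_b4801b_h57.SymD
import Pool.Agent.W_b4801b_h57.Tau

set_option autoImplicit false

/-!
# The Koszul identities

`e_i^- ⊗ e_l^+ = (i! l!)⁻¹ ∑_{u, w} sgn u · (pmL u ⊗ pmL w)` (`kr` is bilinear), and for the bijection
`ε = (Equiv.sumProdDistrib (Fin i) (Fin l) D).symm : (Fin i × D) ⊕ (Fin l × D) ≃ (Fin i ⊕ Fin l) × D`:
`pmL (u ⊕ w) = pm ε * kr (pmL u) (pmL w) * pm ε.symm`.  So for `t = Q.tau T` or `t = trace` the number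
`t (e_i^- ⊗ e_l^+)` is `(i! l!)⁻¹ ∑_{u, w} sgn u · θ (u ⊕ w)` for `θ J σ := t (pmL σ)` (`tau_sum`, `tau_smul`,
`tau_pm`; `Matrix.trace_mul_comm`), and `θ` is invariant under bijections: `pmL (e σ e⁻¹)` is the conjugate of
`pmL σ` by `pm (e × 1)`.  Apply `koszul_class`.
-/

noncomputable section

namespace ZO

open Matrix Module

variable {α : Type} [Fintype α] [DecidableEq α] {K : Type*} [Field K] [CharZero K]

theorem KosT_kr_pm {S S' T T' : Type} (e : S ≃ S') (f : T ≃ T') :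
    kr (pm α K e) (pm α K f) = pm α K (Equiv.sumCongr e f) := by
  classical
  ext c d
  change (if (c ∘ Sum.inl) ∘ e = d ∘ Sum.inl then (1 : K) else 0) *
    (if (c ∘ Sum.inr) ∘ f = d ∘ Sum.inr then (1 : K) else 0) =
    if c ∘ (Equiv.sumCongr e f) = d then 1 else 0
  have h : c ∘ (Equiv.sumCongr e f) = d ↔
      (c ∘ Sum.inl) ∘ e = d ∘ Sum.inl ∧ (c ∘ Sum.inr) ∘ f = d ∘ Sum.inr := by
    constructor
    · intro h
      constructor
      · funext x
        exact congrFun h (Sum.inl x)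
      · funext x
        exact congrFun h (Sum.inr x)
    · rintro ⟨h1, h2⟩
      funext x
      rcases x with x | x
      · exact congrFun h1 x
      · exact congrFun h2 x
  by_cases h1 : (c ∘ Sum.inl) ∘ e = d ∘ Sum.inl
  · by_cases h2 : (c ∘ Sum.inr) ∘ f = d ∘ Sum.inr
    · rw [if_pos h1, if_pos h2, if_pos (h.2 ⟨h1, h2⟩), mul_one]
    · rw [if_neg h2, if_neg (fun h3 => h2 (h.1 h3).2), mul_zero]
  · rw [if_neg h1, if_neg (fun h3 => h1 (h.1 h3).1), zero_mul]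

theorem KosT_conj {S S' : Type} [Fintype S] [DecidableEq S] [Fintype S'] [DecidableEq S']
    (e : S ≃ S') (σ : S ≃ S) :
    pm α K e * pm α K σ * pm α K e.symm = pm α K (e.symm.trans (σ.trans e)) := by
  rw [Matrix.mul_assoc, pm_mul, pm_mul]
  rfl

theorem KosT_kr_bil {S T ι κ : Type} [Fintype ι] [Fintype κ] (a b : K) (s : ι → K)
    (A : ι → Matrix (S → α) (S → α) K) (B : κ → Matrix (T → α) (T → α) K) :
    kr (a • ∑ u, s u • A u) (b • ∑ w, B w) =
      (a * b) • ∑ u, s u • ∑ w, kr (A u) (B w) := by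
  ext c d
  have h1 : (a • ∑ u, s u • A u) (c ∘ Sum.inl) (d ∘ Sum.inl) =
      a * ∑ u, s u * A u (c ∘ Sum.inl) (d ∘ Sum.inl) := by
    simp [Matrix.sum_apply]
  have h2 : (b • ∑ w, B w) (c ∘ Sum.inr) (d ∘ Sum.inr) =
      b * ∑ w, B w (c ∘ Sum.inr) (d ∘ Sum.inr) := by
    simp [Matrix.sum_apply]
  have h3 : ((a * b) • ∑ u, s u • ∑ w, kr (A u) (B w)) c d =
      (a * b) * ∑ u, s u * ∑ w, A u (c ∘ Sum.inl) (d ∘ Sum.inl) *
        B w (c ∘ Sum.inr) (d ∘ Sum.inr) := by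
    simp [Matrix.sum_apply, kr]
  rw [h3]
  change (a • ∑ u, s u • A u) (c ∘ Sum.inl) (d ∘ Sum.inl) *
    (b • ∑ w, B w) (c ∘ Sum.inr) (d ∘ Sum.inr) = _
  rw [h1, h2]
  have h4 : ∀ u, s u * ∑ w, A u (c ∘ Sum.inl) (d ∘ Sum.inl) * B w (c ∘ Sum.inr) (d ∘ Sum.inr) =
      (s u * A u (c ∘ Sum.inl) (d ∘ Sum.inl)) * ∑ w, B w (c ∘ Sum.inr) (d ∘ Sum.inr) := by
    intro u
    rw [← Finset.mul_sum]
    ring
  simp only [h4]
  rw [← Finset.sum_mul]
  ring

theorem KosT_gen (D : Type) [Fintype D] [DecidableEq D]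
    (t : ∀ (S : Type) [Fintype S] [DecidableEq S], Matrix (S → α) (S → α) K → K)
    (P : ∀ (S : Type), Submodule K (Matrix (S → α) (S → α) K))
    (hsum : ∀ (S : Type) [Fintype S] [DecidableEq S] (ι : Type) (s : Finset ι)
      (X : ι → Matrix (S → α) (S → α) K), (∀ i ∈ s, X i ∈ P S) →
        t S (∑ i ∈ s, X i) = ∑ i ∈ s, t S (X i))
    (hsmul : ∀ (S : Type) [Fintype S] [DecidableEq S] (c : K) (X : Matrix (S → α) (S → α) K),
      X ∈ P S → t S (c • X) = c * t S X)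
    (hpm : ∀ (S S' : Type) [Fintype S] [DecidableEq S] [Fintype S'] [DecidableEq S'] (e : S ≃ S')
      (X : Matrix (S → α) (S → α) K), X ∈ P S → t S' (pm α K e * X * pm α K e.symm) = t S X)
    (hP : ∀ (S : Type) [Fintype S] [DecidableEq S] (e : S ≃ S), pm α K e ∈ P S)
    (j : ℕ) (hj : 1 ≤ j) :
    ∑ p ∈ Finset.HasAntidiagonal.antidiagonal j, (-1 : K) ^ p.1 *
      t ((Fin p.1 × D) ⊕ (Fin p.2 × D))
        (kr (ealt α K (Fin p.1) D) (esym α K (Fin p.2) D)) = 0 := by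
  have hθ : ∀ (J J' : Type) [Fintype J] [DecidableEq J] [Fintype J'] [DecidableEq J']
      (e : J ≃ J') (σ : Equiv.Perm J),
      t (J' × D) (pmL α K D ((e.symm.trans σ).trans e)) = t (J × D) (pmL α K D σ) := by
    intro J J' _ _ _ _ e σ
    rw [← hpm (J × D) (J' × D) (Equiv.prodCongr e (Equiv.refl D)) (pmL α K D σ) (hP _ _)]
    unfold pmL
    rw [KosT_conj]
    congr 2
  have hmain := koszul_class (fun (J : Type) [Fintype J] [DecidableEq J] (σ : Equiv.Perm J) =>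
    t (J × D) (pmL α K D σ)) hθ j hj
  rw [← hmain]
  refine Finset.sum_congr rfl fun p _ => ?_
  congr 1
  have hkr : ∀ (u : Equiv.Perm (Fin p.1)) (w : Equiv.Perm (Fin p.2)),
      kr (pmL α K D u) (pmL α K D w) = pm α K (Equiv.sumCongr
        (Equiv.prodCongr u (Equiv.refl D)) (Equiv.prodCongr w (Equiv.refl D))) :=
    fun u w => KosT_kr_pm _ _
  have hval : ∀ (u : Equiv.Perm (Fin p.1)) (w : Equiv.Perm (Fin p.2)),
      t ((Fin p.1 × D) ⊕ (Fin p.2 × D)) (kr (pmL α K D u) (pmL α K D w)) =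
        t ((Fin p.1 ⊕ Fin p.2) × D) (pmL α K D (Equiv.sumCongr u w)) := by
    intro u w
    rw [hkr, ← hpm _ _ (Equiv.sumProdDistrib (Fin p.1) (Fin p.2) D).symm _ (hP _ _), KosT_conj]
    unfold pmL
    congr 2
    ext x
    all_goals
      rcases x with ⟨x | x, y⟩ <;> rfl
  unfold ealt esym
  rw [KosT_kr_bil, Fintype.card_fin, Fintype.card_fin, ← mul_inv]
  have hmem : ∀ (u : Equiv.Perm (Fin p.1)) (w : Equiv.Perm (Fin p.2)),
      kr (pmL α K D u) (pmL α K D w) ∈ P ((Fin p.1 × D) ⊕ (Fin p.2 × D)) := by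
    intro u w
    rw [hkr]
    exact hP _ _
  have hmem2 : ∀ u : Equiv.Perm (Fin p.1), ∑ w : Equiv.Perm (Fin p.2),
      kr (pmL α K D u) (pmL α K D w) ∈ P ((Fin p.1 × D) ⊕ (Fin p.2 × D)) :=
    fun u => Submodule.sum_mem _ fun w _ => hmem u w
  rw [hsmul _ _ _ (Submodule.sum_mem _ fun u _ => Submodule.smul_mem _ _ (hmem2 u)),
    hsum _ _ _ _ (fun u _ => Submodule.smul_mem _ _ (hmem2 u))]
  congr 1
  refine Finset.sum_congr rfl fun u _ => ?_
  rw [hsmul _ _ _ (hmem2 u), hsum _ _ _ _ (fun w _ => hmem u w), Finset.mul_sum]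
  refine Finset.sum_congr rfl fun w _ => ?_
  rw [hval]

namespace Sys

variable (Q : Sys α K) (D T : Type) [Fintype D] [DecidableEq D] [Fintype T] [DecidableEq T]

theorem koszul_tau (j : ℕ) (hj : 1 ≤ j) :
    ∑ p ∈ Finset.HasAntidiagonal.antidiagonal j,
      (-1 : K) ^ p.1 * Q.tau T (kr (ealt α K (Fin p.1) D) (esym α K (Fin p.2) D)) = 0 := by
  exact KosT_gen D (fun (S : Type) [Fintype S] [DecidableEq S] X => Q.tau T X)
    (fun S => Q.P S S) (fun S _ _ ι s X hX => Q.tau_sum s X hX)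
    (fun S _ _ c X hX => Q.tau_smul c hX) (fun S S' _ _ _ _ e X hX => Q.tau_pm e hX)
    (fun S _ _ e => Q.pm_mem e) j hj

end Sys

theorem koszul_trace (α : Type) [Fintype α] [DecidableEq α] (K : Type*) [Field K] [CharZero K]
    (D : Type) [Fintype D] [DecidableEq D] (j : ℕ) (hj : 1 ≤ j) :
    ∑ p ∈ Finset.HasAntidiagonal.antidiagonal j, (-1 : K) ^ p.1 *
      Matrix.trace (kr (ealt α K (Fin p.1) D) (esym α K (Fin p.2) D)) = 0 := by
  have hpm : ∀ (S S' : Type) [Fintype S] [DecidableEq S] [Fintype S'] [DecidableEq S']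
      (e : S ≃ S') (X : Matrix (S → α) (S → α) K),
      X ∈ (⊤ : Submodule K (Matrix (S → α) (S → α) K)) →
        Matrix.trace (pm α K e * X * pm α K e.symm) = Matrix.trace X := by
    intro S S' _ _ _ _ e X _
    rw [Matrix.trace_mul_comm, ← Matrix.mul_assoc, pm_symm_mul, Matrix.one_mul]
  have h := KosT_gen D (fun (S : Type) [Fintype S] [DecidableEq S]
    (X : Matrix (S → α) (S → α) K) => Matrix.trace X)
    (fun S => (⊤ : Submodule K (Matrix (S → α) (S → α) K)))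
    (fun S _ _ ι s X hX => Matrix.trace_sum _ _)
    (fun S _ _ c X hX => by rw [Matrix.trace_smul, smul_eq_mul])
    hpm (fun S _ _ e => Submodule.mem_top) j hj
  exact h

end ZO
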