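import Mathlib

/-! Sets of three eigenvalues whose product is balanced. -/

set_option autoImplicit false

noncomputable section

open Finset

namespace Pool.Agent.Quad57

section

variable {F : Type*} [Field F]

/-- Three elements of `A`, disjoint from their duals `c / a`, with balanced product. -/
def Gd (A : Finset F) (c : F) (R : Finset F) : Prop :=
  R ⊆ A ∧ (∀ a ∈ R, c / a ∈ A) ∧ R.card = 3 ∧ (∀ a ∈ R, c / a ∉ R) ∧
    ∃ N : ℕ, 0 < N ∧ (∏ a ∈ R, a) ^ (2 * N) = c ^ (3 * N)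

theorem pair_mem (R : Finset F) (c p q r : F) (h3 : R.card = 3) (hdis : ∀ b ∈ R, c / b ∉ R)
    (h : ∀ b ∈ R, (b = p ∨ b = c / p) ∨ (b = q ∨ b = c / q) ∨ (b = r ∨ b = c / r)) :
    p ∈ R ∨ c / p ∈ R := by
  classical
  by_contra hn
  push Not at hn
  have h' : ∀ b ∈ R, (b = q ∨ b = c / q) ∨ (b = r ∨ b = c / r) := by
    intro b hb
    rcases h b hb with (h1 | h1) | h1
    · exact absurd (h1 ▸ hb) hn.1
    · exact absurd (h1 ▸ hb) hn.2
    · exact h1
  have key : ∀ t b b' : F, b ∈ R → b' ∈ R → b ≠ b' → (b = t ∨ b = c / t) →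
      (b' = t ∨ b' = c / t) → False := by
    intro t b b' hb hb' hne h1 h2
    rcases h1 with h1 | h1 <;> rcases h2 with h2 | h2
    · exact hne (h1.trans h2.symm)
    · exact hdis b hb (by rw [h1, ← h2]; exact hb')
    · exact hdis b' hb' (by rw [h2, ← h1]; exact hb)
    · exact hne (h1.trans h2.symm)
  have hlt : (Finset.univ : Finset Bool).card < R.card := by rw [h3]; decide
  obtain ⟨b, hb, b', hb', hne, he⟩ := Finset.exists_ne_map_eq_of_card_lt_of_maps_to hlt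
    (f := fun b => decide (b = q ∨ b = c / q)) (fun _ _ => Finset.mem_univ _)
  by_cases hbq : b = q ∨ b = c / q
  · have hb'q : b' = q ∨ b' = c / q := by
      have : decide (b' = q ∨ b' = c / q) = true := by rw [← he]; exact decide_eq_true hbq
      exact of_decide_eq_true this
    exact key q b b' hb hb' hne hbq hb'q
  · have hb'q : ¬ (b' = q ∨ b' = c / q) := by
      have : decide (b' = q ∨ b' = c / q) = false := by rw [← he]; exact decide_eq_false hbq
      exact of_decide_eq_false this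
    exact key r b b' hb hb' hne ((h' b hb).resolve_left hbq) ((h' b' hb').resolve_left hb'q)

theorem flip1 (a r c : F) (hr : r ≠ 0) (M : ℕ)
    (h : ((c / a) * r) ^ M = (a * r) ^ M) : (c / a) ^ M = a ^ M := by
  rw [mul_pow, mul_pow] at h
  exact mul_right_cancel₀ (pow_ne_zero _ hr) h

theorem flip2 (a b e c : F) (ha : a ≠ 0) (hb : b ≠ 0) (he : e ≠ 0) (hc : c ≠ 0) (M : ℕ)
    (h1 : (a * b * e) ^ (2 * M) = c ^ (3 * M))
    (h2 : (a * (c / b) * (c / e)) ^ (2 * M) = c ^ (3 * M)) : (c / a) ^ (2 * M) = a ^ (2 * M) := by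
  have h3 : (a * b * e) * (a * (c / b) * (c / e)) = (a * a) * (c * c) := by
    field_simp
  have h4 : ((a * a) * (c * c)) ^ (2 * M) = c ^ (3 * M) * c ^ (3 * M) := by
    rw [← h3, mul_pow, h1, h2]
  have h5 : c ^ (3 * M) * c ^ (3 * M) = c ^ (2 * M) * (c * c) ^ (2 * M) := by
    rw [← pow_two c, ← pow_mul, ← pow_add, ← pow_add]
    congr 1
    ring
  rw [mul_pow, h5] at h4
  have h6 := mul_right_cancel₀ (pow_ne_zero _ (mul_ne_zero hc hc)) h4
  rw [div_pow, ← h6, mul_pow, mul_div_assoc, div_self (pow_ne_zero _ ha), mul_one]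

omit [Field F] in
theorem three [DecidableEq F] (R : Finset F) (h3 : R.card = 3) (x y z : F) (hx : x ∈ R) (hy : y ∈ R)
    (hz : z ∈ R) (hxy : x ≠ y) (hxz : x ≠ z) (hyz : y ≠ z) : R = {x, y, z} := by
  symm
  apply Finset.eq_of_subset_of_card_le
  · intro t ht
    simp only [Finset.mem_insert, Finset.mem_singleton] at ht
    rcases ht with rfl | rfl | rfl <;> assumption
  · rw [h3, Finset.card_eq_three.2 ⟨x, y, z, hxy, hxz, hyz, rfl⟩]

theorem prod3 [DecidableEq F] (x y z : F) (hxy : x ≠ y) (hxz : x ≠ z) (hyz : y ≠ z) :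
    ∏ a ∈ ({x, y, z} : Finset F), a = x * y * z := by
  rw [Finset.prod_insert (by simp [hxy, hxz]), Finset.prod_insert (by simp [hyz]),
    Finset.prod_singleton, mul_assoc]

theorem uniq [DecidableEq F] (A : Finset F) (c : F) (hc : c ≠ 0) (h0 : ∀ a ∈ A, a ≠ 0)
    (hA : A.card ≤ 7)
    (hneat : ∀ a ∈ A, ∀ b ∈ A, a ≠ b → ∀ m : ℕ, 0 < m → a ^ m ≠ b ^ m) (R R' : Finset F)
    (h : Gd A c R) (h' : Gd A c R') : R' = R ∨ R' = R.image (fun a => c / a) := by
  obtain ⟨hRA, hRd, hR3, hRR, N, hN, hp⟩ := h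
  obtain ⟨hRA', hRd', hR3', hRR', N', hN', hp'⟩ := h'
  have hinj : ∀ a b : F, c / a = c / b → a = b := by
    intro a b hab
    have := congrArg (fun t => c / t) hab
    simpa [div_div_cancel₀ hc] using this
  -- every element of `R'` lies in `R` or in its dual
  have hmem : ∀ b ∈ R', b ∈ R ∨ c / b ∈ R := by
    intro b hb
    by_contra hn
    push Not at hn
    have hcardI : (R.image (fun a => c / a)).card = 3 := by
      rw [Finset.card_image_of_injective _ (fun a b hab => hinj a b hab), hR3]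
    have hdisj : Disjoint R (R.image (fun a => c / a)) := by
      rw [Finset.disjoint_left]
      intro a ha hai
      obtain ⟨a', ha', rfl⟩ := Finset.mem_image.1 hai
      exact hRR a' ha' ha
    have hsub : R ∪ R.image (fun a => c / a) ⊆ A := by
      intro a ha
      rcases Finset.mem_union.1 ha with ha | ha
      · exact hRA ha
      · obtain ⟨a', ha', rfl⟩ := Finset.mem_image.1 ha
        exact hRd a' ha'
    have h6 : (R ∪ R.image (fun a => c / a)).card = 6 := by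
      rw [Finset.card_union_of_disjoint hdisj, hR3, hcardI]
    have h1 : (A \ (R ∪ R.image (fun a => c / a))).card ≤ 1 := by
      rw [Finset.card_sdiff_of_subset hsub, h6]
      omega
    have hbd : b ∈ A \ (R ∪ R.image (fun a => c / a)) := by
      rw [Finset.mem_sdiff, Finset.mem_union, not_or]
      refine ⟨hRA' hb, hn.1, ?_⟩
      intro hbi
      obtain ⟨a', ha', hab⟩ := Finset.mem_image.1 hbi
      apply hn.2
      rw [← hab]
      simpa [div_div_cancel₀ hc] using ha'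
    have hcbd : c / b ∈ A \ (R ∪ R.image (fun a => c / a)) := by
      rw [Finset.mem_sdiff, Finset.mem_union, not_or]
      refine ⟨hRd' b hb, hn.2, ?_⟩
      intro hbi
      obtain ⟨a', ha', hab⟩ := Finset.mem_image.1 hbi
      exact hn.1 (hinj a' b hab ▸ ha')
    have heq := Finset.card_le_one.1 h1 b hbd (c / b) hcbd
    exact hRR' b hb (heq ▸ hb)
  obtain ⟨a₁, a₂, a₃, h12, h13, h23, hR⟩ := Finset.card_eq_three.1 hR3
  have m1 : a₁ ∈ R := by rw [hR]; simp
  have m2 : a₂ ∈ R := by rw [hR]; simp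
  have m3 : a₃ ∈ R := by rw [hR]; simp
  have hsix : ∀ b ∈ R', (b = a₁ ∨ b = c / a₁) ∨ (b = a₂ ∨ b = c / a₂) ∨ (b = a₃ ∨ b = c / a₃) := by
    intro b hb
    have hb' : ∀ t, c / b = t → b = c / t := by
      intro t ht
      rw [← ht, div_div_cancel₀ hc]
    rcases hmem b hb with h1 | h1
    · rw [hR] at h1
      simp only [Finset.mem_insert, Finset.mem_singleton] at h1
      tauto
    · rw [hR] at h1
      simp only [Finset.mem_insert, Finset.mem_singleton] at h1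
      rcases h1 with h1 | h1 | h1
      · exact Or.inl (Or.inr (hb' _ h1))
      · exact Or.inr (Or.inl (Or.inr (hb' _ h1)))
      · exact Or.inr (Or.inr (Or.inr (hb' _ h1)))
  have q1 := pair_mem R' c a₁ a₂ a₃ hR3' hRR' hsix
  have q2 := pair_mem R' c a₂ a₁ a₃ hR3' hRR' (fun b hb => by have := hsix b hb; tauto)
  have q3 := pair_mem R' c a₃ a₁ a₂ hR3' hRR' (fun b hb => by have := hsix b hb; tauto)
  have n1 : a₁ ≠ 0 := h0 _ (hRA m1)
  have n2 : a₂ ≠ 0 := h0 _ (hRA m2)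
  have n3 : a₃ ≠ 0 := h0 _ (hRA m3)
  have e : ∀ x ∈ R, ∀ y ∈ R, x ≠ c / y := fun x hx y hy hxy => hRR y hy (hxy ▸ hx)
  have g12 : c / a₁ ≠ c / a₂ := fun h => h12 (hinj _ _ h)
  have g13 : c / a₁ ≠ c / a₃ := fun h => h13 (hinj _ _ h)
  have g23 : c / a₂ ≠ c / a₃ := fun h => h23 (hinj _ _ h)
  have hM : 0 < N * N' := Nat.mul_pos hN hN'
  have hH : (a₁ * a₂ * a₃) ^ (2 * (N * N')) = c ^ (3 * (N * N')) := by
    rw [hR, prod3 _ _ _ h12 h13 h23] at hp
    have := congrArg (fun t => t ^ N') hp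
    simp only [← pow_mul] at this
    rw [← mul_assoc, ← mul_assoc]
    exact this
  have hH' : (∏ a ∈ R', a) ^ (2 * (N * N')) = c ^ (3 * (N * N')) := by
    have := congrArg (fun t => t ^ N) hp'
    simp only [← pow_mul] at this
    rw [mul_comm N N', ← mul_assoc, ← mul_assoc]
    exact this
  have hbad : ∀ a ∈ R, (c / a) ^ (2 * (N * N')) = a ^ (2 * (N * N')) → False := by
    intro a ha hE
    exact hneat (c / a) (hRd a ha) a (hRA ha) (fun h => hRR a ha (by rw [h]; exact ha)) _ (by positivity) hE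
  rcases q1 with q1 | q1 <;> rcases q2 with q2 | q2 <;> rcases q3 with q3 | q3
  · left
    rw [three R' hR3' _ _ _ q1 q2 q3 h12 h13 h23, hR]
  · exfalso
    rw [three R' hR3' _ _ _ q1 q2 q3 h12 (e _ m1 _ m3) (e _ m2 _ m3),
      prod3 _ _ _ h12 (e _ m1 _ m3) (e _ m2 _ m3)] at hH'
    refine hbad a₃ m3 (flip1 a₃ (a₁ * a₂) c (mul_ne_zero n1 n2) _ ?_)
    rw [show c / a₃ * (a₁ * a₂) = a₁ * a₂ * (c / a₃) by ring, hH',
      show a₃ * (a₁ * a₂) = a₁ * a₂ * a₃ by ring, hH]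
  · exfalso
    rw [three R' hR3' _ _ _ q1 q2 q3 (e _ m1 _ m2) h13 (e _ m3 _ m2).symm,
      prod3 _ _ _ (e _ m1 _ m2) h13 (e _ m3 _ m2).symm] at hH'
    refine hbad a₂ m2 (flip1 a₂ (a₁ * a₃) c (mul_ne_zero n1 n3) _ ?_)
    rw [show c / a₂ * (a₁ * a₃) = a₁ * (c / a₂) * a₃ by ring, hH',
      show a₂ * (a₁ * a₃) = a₁ * a₂ * a₃ by ring, hH]
  · exfalso
    rw [three R' hR3' _ _ _ q1 q2 q3 (e _ m1 _ m2) (e _ m1 _ m3) g23,
      prod3 _ _ _ (e _ m1 _ m2) (e _ m1 _ m3) g23] at hH'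
    exact hbad a₁ m1 (flip2 a₁ a₂ a₃ c n1 n2 n3 hc _ hH hH')
  · exfalso
    rw [three R' hR3' _ _ _ q1 q2 q3 (e _ m2 _ m1).symm (e _ m3 _ m1).symm h23,
      prod3 _ _ _ (e _ m2 _ m1).symm (e _ m3 _ m1).symm h23] at hH'
    refine hbad a₁ m1 (flip1 a₁ (a₂ * a₃) c (mul_ne_zero n2 n3) _ ?_)
    rw [show c / a₁ * (a₂ * a₃) = c / a₁ * a₂ * a₃ by ring, hH',
      show a₁ * (a₂ * a₃) = a₁ * a₂ * a₃ by ring, hH]
  · exfalso
    rw [three R' hR3' _ _ _ q1 q2 q3 (e _ m2 _ m1).symm g13 (e _ m2 _ m3),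
      prod3 _ _ _ (e _ m2 _ m1).symm g13 (e _ m2 _ m3)] at hH'
    refine hbad a₂ m2 (flip2 a₂ a₁ a₃ c n2 n1 n3 hc _ ?_ ?_)
    · rw [show a₂ * a₁ * a₃ = a₁ * a₂ * a₃ by ring, hH]
    · rw [show a₂ * (c / a₁) * (c / a₃) = c / a₁ * a₂ * (c / a₃) by ring, hH']
  · exfalso
    rw [three R' hR3' _ _ _ q1 q2 q3 g12 (e _ m3 _ m1).symm (e _ m3 _ m2).symm,
      prod3 _ _ _ g12 (e _ m3 _ m1).symm (e _ m3 _ m2).symm] at hH'
    refine hbad a₃ m3 (flip2 a₃ a₁ a₂ c n3 n1 n2 hc _ ?_ ?_)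
    · rw [show a₃ * a₁ * a₂ = a₁ * a₂ * a₃ by ring, hH]
    · rw [show a₃ * (c / a₁) * (c / a₂) = c / a₁ * (c / a₂) * a₃ by ring, hH']
  · right
    rw [three R' hR3' _ _ _ q1 q2 q3 g12 g13 g23, hR]
    simp [Finset.image_insert]

end

end Pool.Agent.Quad57
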